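import Pool.Agent.Q288.DP.Stm

set_option autoImplicit false

/-!
Project DP: comparison of the derivative of `B` and of its increasing rearrangement on
the preimage of an interval under the transport map.
-/

namespace Pool.Agent.Q288.DP

open MeasureTheory ProbabilityTheory Set Filter Topology

namespace DintAux

theorem level_countable (f : ℝ → ℝ) (c : ℝ) : {t : ℝ | f t = c ∧ deriv f t ≠ 0}.Countable := by
  have hd : DiscreteTopology {t : ℝ | f t = c ∧ deriv f t ≠ 0} := by
    rw [discreteTopology_subtype_iff]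
    rintro t ⟨_, h2⟩
    have h3 : ∀ᶠ z in 𝓝[≠] t, f z ≠ c :=
      (differentiableAt_of_deriv_ne_zero h2).hasDerivAt.eventually_ne h2
    rw [inf_principal_eq_bot]
    filter_upwards [h3] with z hz hzS
    exact hz hzS.1
  have := countable_of_Lindelof_of_discrete (X := {t : ℝ | f t = c ∧ deriv f t ≠ 0})
  exact Set.countable_coe_iff.1 this

theorem g1_ac : g1 ≪ (volume : Measure ℝ) := gaussianReal_absolutelyContinuous 0 one_ne_zero

theorem g1_na : NullSingletonClass g1 := nullSingletonClass_gaussianReal one_ne_zero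

attribute [local instance] g1_na

theorem level_ae (f : ℝ → ℝ) (c : ℝ) : ∀ᵐ t ∂g1, f t = c → deriv f t = 0 := by
  have h := (level_countable f c).measure_zero g1
  rw [ae_iff]
  refine measure_mono_null (fun t ht => ?_) h
  simp only [Set.mem_ofPred_eq, Classical.not_imp] at ht
  exact ht

theorem deriv_locconst {f : ℝ → ℝ} {c t : ℝ} {U : Set ℝ} (hU : IsOpen U) (ht : t ∈ U)
    (h : ∀ x ∈ U, f x = c) : deriv f t = 0 := by
  have h1 : f =ᶠ[𝓝 t] fun _ => c := by
    filter_upwards [hU.mem_nhds ht] with x hx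
    exact h x hx
  rw [h1.deriv_eq]
  simp

theorem deriv_eqon {f g : ℝ → ℝ} {t : ℝ} {U : Set ℝ} (hU : IsOpen U) (ht : t ∈ U)
    (h : ∀ x ∈ U, f x = g x) : deriv f t = deriv g t := by
  have h1 : f =ᶠ[𝓝 t] g := by
    filter_upwards [hU.mem_nhds ht] with x hx
    exact h x hx
  exact h1.deriv_eq

/-- The clamp. -/
noncomputable def cl (s0 s1 : ℝ) (B : ℝ → ℝ) (u : ℝ) : ℝ := max s0 (min s1 (B u))

theorem cl_lip {s0 s1 : ℝ} {B : ℝ → ℝ} {K : NNReal} (h : LipschitzWith K B) :
    LipschitzWith K (cl s0 s1 B) := by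
  have := (h.const_min s1).const_max s0
  exact this

theorem cl_bdd {s0 s1 : ℝ} (h01 : s0 ≤ s1) (B : ℝ → ℝ) (u : ℝ) :
    |cl s0 s1 B u| ≤ |s0| + |s1| := by
  have h1 : s0 ≤ cl s0 s1 B u := le_max_left _ _
  have h2 : cl s0 s1 B u ≤ s1 := max_le h01 (min_le_left _ _)
  rw [abs_le]
  constructor
  · have := neg_abs_le s0
    have := abs_nonneg s1
    linarith
  · have := le_abs_self s1
    have := abs_nonneg s0
    linarith

theorem lip_deriv_bdd {B : ℝ → ℝ} {K : NNReal} (h : LipschitzWith K B) (t : ℝ) :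
    |deriv B t| ≤ K := by
  have := norm_deriv_le_of_lipschitz (x₀ := t) h
  simpa using this

/-- The derivative of the clamp, read off from the position of `τ t`. -/
theorem deriv_clamp_ae {B τ : ℝ → ℝ} {K : NNReal} (hB : LipschitzWith K B) (hτ : Tr B τ)
    (hmono : Monotone (inc B)) {a b : ℝ} (hab : a < b) :
    ∀ᵐ t ∂g1, deriv (cl (inc B a) (inc B b) B) t =
      (τ ⁻¹' (Ioc a b)).indicator (deriv B) t := by
  set s0 := inc B a with hs0
  set s1 := inc B b with hs1
  have h01 : s0 ≤ s1 := hmono hab.le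
  filter_upwards [hτ.eq, level_ae B s0, level_ae B s1, level_ae (cl s0 s1 B) s0,
    level_ae (cl s0 s1 B) s1] with t ht h1 h2 h3 h4
  by_cases hm : t ∈ τ ⁻¹' (Ioc a b)
  · rw [indicator_of_mem hm]
    have hm' : a < τ t ∧ τ t ≤ b := hm
    have e1 : s0 ≤ B t := by rw [← ht]; exact hmono hm'.1.le
    have e2 : B t ≤ s1 := by rw [← ht]; exact hmono hm'.2
    have e3 : cl s0 s1 B t = B t := by
      unfold cl
      rw [min_eq_right e2, max_eq_right e1]
    rcases eq_or_lt_of_le e1 with e | e
    · rw [h1 e.symm, h3 (by rw [e3]; exact e.symm)]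
    · rcases eq_or_lt_of_le e2 with f | f
      · rw [h2 f, h4 (by rw [e3]; exact f)]
      · refine deriv_eqon (U := B ⁻¹' (Ioo s0 s1)) (isOpen_Ioo.preimage hB.continuous) ⟨e, f⟩ ?_
        intro x hx
        unfold cl
        rw [min_eq_right hx.2.le, max_eq_right hx.1.le]
  · rw [indicator_of_notMem hm]
    have hm' : ¬ (a < τ t ∧ τ t ≤ b) := hm
    rcases le_or_gt (τ t) a with e | e
    · have e1 : B t ≤ s0 := by rw [← ht]; exact hmono e
      refine h3 ?_
      unfold cl
      rw [min_eq_right (e1.trans h01), max_eq_left e1]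
    · have e' : b < τ t := by
        by_contra hcon
        exact hm' ⟨e, not_lt.1 hcon⟩
      have e1 : s1 ≤ B t := by rw [← ht]; exact hmono e'.le
      refine h4 ?_
      unfold cl
      rw [min_eq_left e1, max_eq_right h01]

/-- The derivative of the clamp of a monotone function. -/
theorem deriv_clamp_mono_ae {D : ℝ → ℝ} (hmono : Monotone D) {a b : ℝ} (hab : a < b) :
    ∀ᵐ t ∂g1, deriv (cl (D a) (D b) D) t = (Ioc a b).indicator (deriv D) t := by
  have h01 : D a ≤ D b := hmono hab.le
  have ha : ∀ᵐ t ∂g1, t ≠ a := by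
    rw [ae_iff]; simp
  have hb : ∀ᵐ t ∂g1, t ≠ b := by
    rw [ae_iff]; simp
  filter_upwards [ha, hb] with t hta htb
  rcases lt_or_gt_of_ne hta with h | h
  · rw [indicator_of_notMem (fun hh => absurd hh.1 (not_lt.2 h.le))]
    refine deriv_locconst (c := D a) isOpen_Iio (mem_Iio.2 h) ?_
    intro x hx
    have e1 : D x ≤ D a := hmono (le_of_lt hx)
    unfold cl
    rw [min_eq_right (e1.trans h01), max_eq_left e1]
  · rcases lt_or_gt_of_ne htb with h' | h'
    · have hmem : t ∈ Ioc a b := ⟨h, h'.le⟩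
      rw [indicator_of_mem hmem]
      refine deriv_eqon isOpen_Ioo (⟨h, h'⟩ : t ∈ Ioo a b) ?_
      intro x hx
      unfold cl
      rw [min_eq_right (hmono hx.2.le), max_eq_right (hmono hx.1.le)]
    · rw [indicator_of_notMem (fun hh => absurd hh.2 (not_le.2 h'))]
      refine deriv_locconst (c := D b) isOpen_Ioi (mem_Ioi.2 h') ?_
      intro x hx
      have e1 : D b ≤ D x := hmono (le_of_lt hx)
      unfold cl
      rw [min_eq_left e1, max_eq_right h01]

end DintAux

open DintAux in
theorem t_dint (hlaw : St_law) (hilip : St_ilip) (htail : St_tail)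
    (hibp : St_ibp) (hgip : St_gip) (hhl : St_hl) : St_dint := by
  intro B τ K hB hτ a b hab
  have hBm : Measurable B := hB.continuous.measurable
  have hmono : Monotone (inc B) := (hlaw B hBm).1
  have h01 : inc B a ≤ inc B b := hmono hab.le
  set s0 := inc B a with hs0
  set s1 := inc B b with hs1
  set C := cl s0 s1 B with hC
  set D := cl s0 s1 (inc B) with hD
  have hCl : LipschitzWith K C := cl_lip hB
  have hDl : LipschitzWith K D := cl_lip (hilip B K hB)
  have hDmono : Monotone D := by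
    intro x y hxy
    exact max_le_max le_rfl (min_le_min le_rfl (hmono hxy))
  have hDτ : ∀ᵐ t ∂g1, D (τ t) = C t := by
    filter_upwards [hτ.eq] with t ht
    simp only [hD, hC, cl, ht]
  have hm : MeasurableSet (τ ⁻¹' (Ioc a b)) := hτ.mp.measurable measurableSet_Ioc
  -- (a)
  have ha : ∫ t, deriv D t ∂g1 = ∫ t in Ioc a b, deriv (inc B) t ∂g1 := by
    rw [← integral_indicator measurableSet_Ioc]
    exact integral_congr_ae (deriv_clamp_mono_ae hmono hab)
  -- (b)
  have hb : ∫ t, deriv C t ∂g1 = ∫ t in τ ⁻¹' (Ioc a b), deriv B t ∂g1 := by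
    rw [← integral_indicator hm]
    exact integral_congr_ae (deriv_clamp_ae hB hτ hmono hab)
  have hb' : ∫ t, |deriv C t| ∂g1 = ∫ t in τ ⁻¹' (Ioc a b), |deriv B t| ∂g1 := by
    rw [← integral_indicator hm]
    refine integral_congr_ae ?_
    filter_upwards [deriv_clamp_ae hB hτ hmono hab] with t ht
    rw [ht]
    by_cases hmem : t ∈ τ ⁻¹' (Ioc a b)
    · rw [indicator_of_mem hmem, indicator_of_mem hmem]
    · rw [indicator_of_notMem hmem, indicator_of_notMem hmem, abs_zero]
  -- (c)
  have hc : ∫ t, deriv C t ∂g1 ≤ ∫ t, deriv D t ∂g1 := by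
    rw [← hgip C K hCl, ← hgip D K hDl]
    have h1 := hhl τ D hτ.mp hDmono ⟨|s0| + |s1|, fun t => cl_bdd h01 _ t⟩
    refine le_trans (le_of_eq ?_) h1
    refine integral_congr_ae ?_
    filter_upwards [hDτ] with t ht
    rw [ht]
  -- (d)
  have hd : ∫ t, deriv D t ∂g1 ≤ ∫ t, |deriv C t| ∂g1 := by
    have h1 : ∫ t, deriv D t ∂g1 = ∫ t, τ t * C t ∂g1 := by
      rw [← hgip D K hDl]
      have h2 : ∫ t, τ t * D (τ t) ∂g1 = ∫ t, t * D t ∂g1 := by
        have h3 : AEStronglyMeasurable (fun t : ℝ => t * D t) (Measure.map τ g1) := by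
          have := hDl.continuous
          exact (continuous_id.mul this).aestronglyMeasurable
        have h4 := integral_map (μ := g1) hτ.mp.measurable.aemeasurable h3
        rw [hτ.mp.map_eq] at h4
        exact h4.symm
      rw [← h2]
      refine integral_congr_ae ?_
      filter_upwards [hDτ] with t ht
      rw [ht]
    rw [h1, hibp τ C K hτ.mp hCl, integral_gaussianReal_eq_integral_smul one_ne_zero]
    refine (le_abs_self _).trans ?_
    rw [← Real.norm_eq_abs]
    refine norm_integral_le_of_norm_le ?_ (Eventually.of_forall (fun s => ?_))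
    · have hmd : Measurable (fun s => |deriv C s|) := (measurable_deriv C).norm
      refine ((integrable_gaussianPDFReal 0 1).mul_const (K : ℝ)).mono'
        (((measurable_gaussianPDFReal 0 1).smul hmd).aestronglyMeasurable)
        (Eventually.of_forall (fun s => ?_))
      rw [norm_smul, Real.norm_eq_abs, Real.norm_eq_abs, abs_abs,
        abs_of_nonneg (gaussianPDFReal_nonneg 0 1 s)]
      exact mul_le_mul_of_nonneg_left (lip_deriv_bdd hCl s) (gaussianPDFReal_nonneg 0 1 s)
    · rw [norm_mul, Real.norm_eq_abs, Real.norm_eq_abs, smul_eq_mul, mul_comm]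
      exact mul_le_mul_of_nonneg_right (htail τ hτ.mp s) (abs_nonneg _)
  refine ⟨?_, ?_⟩
  · rw [← ha, ← hb]; exact hc
  · rw [← ha, ← hb']; exact hd

end Pool.Agent.Q288.DP
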