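import Pool.Agent.Q288.DP.Stm

set_option autoImplicit false

/-!
Project DP (row MP_04ae38_an), lemmas ext and der (helper153).
-/

namespace Pool.Agent.Q288.DP

open MeasureTheory ProbabilityTheory Set Filter Topology

namespace Ext

variable {τ u v : ℝ → ℝ} {M : ℝ}

lemma real_Ioc (a b : ℝ) (hab : a ≤ b) : g1.real (Ioc a b) = cdf g1 b - cdf g1 a := by
  have h1 := StieltjesFunction.measure_Ioc (cdf g1) a b
  rw [measure_cdf] at h1
  rw [measureReal_def, h1, ENNReal.toReal_ofReal (sub_nonneg.2 (monotone_cdf g1 hab))]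

lemma set_bound (hu : ∀ᵐ t ∂g1, |u t| ≤ M) (S : Set ℝ) :
    |∫ t in S, u t ∂g1| ≤ M * g1.real S := by
  have h1 := norm_setIntegral_le_of_norm_le_const_ae (μ := g1) (s := S) (f := u) (C := M)
    (measure_lt_top _ _) (ae_restrict_of_ae hu)
  exact h1

/-- the distribution function of the difference -/
noncomputable def Fv (τ u v : ℝ → ℝ) (x : ℝ) : ℝ :=
  ∫ t in Iic x, v t ∂g1 - ∫ t in τ ⁻¹' (Iic x), u t ∂g1

lemma Fv_sub (hτ : MeasurePreserving τ g1 g1) (hui : Integrable u g1) (hvi : Integrable v g1)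
    (a b : ℝ) (hab : a ≤ b) : Fv τ u v b - Fv τ u v a =
      ∫ t in Ioc a b, v t ∂g1 - ∫ t in τ ⁻¹' (Ioc a b), u t ∂g1 := by
  have h1 : Iic b = Iic a ∪ Ioc a b := (Iic_union_Ioc_eq_Iic hab).symm
  have hd : Disjoint (Iic a) (Ioc a b) := by
    rw [Set.disjoint_left]
    intro x hx hx2
    exact absurd hx2.1 (not_lt.2 hx)
  have h2 : ∫ t in Iic b, v t ∂g1 = ∫ t in Iic a, v t ∂g1 + ∫ t in Ioc a b, v t ∂g1 := by
    rw [h1, setIntegral_union hd measurableSet_Ioc hvi.integrableOn hvi.integrableOn]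
  have h3 : ∫ t in τ ⁻¹' (Iic b), u t ∂g1 =
      ∫ t in τ ⁻¹' (Iic a), u t ∂g1 + ∫ t in τ ⁻¹' (Ioc a b), u t ∂g1 := by
    rw [h1, preimage_union, setIntegral_union (hd.preimage τ) (hτ.measurable measurableSet_Ioc)
      hui.integrableOn hui.integrableOn]
  unfold Fv
  rw [h2, h3]
  ring

lemma Fv_mono (hτ : MeasurePreserving τ g1 g1) (hui : Integrable u g1) (hvi : Integrable v g1)
    (hI : ∀ a b : ℝ, a < b → ∫ t in τ ⁻¹' (Ioc a b), u t ∂g1 ≤ ∫ t in Ioc a b, v t ∂g1) :
    Monotone (Fv τ u v) := by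
  intro a b hab
  rcases eq_or_lt_of_le hab with rfl | hlt
  · exact le_refl _
  · have h1 := Fv_sub hτ hui hvi a b hab
    have h2 := hI a b hlt
    linarith

lemma Fv_bd (hτ : MeasurePreserving τ g1 g1) (hui : Integrable u g1) (hvi : Integrable v g1)
    (huM : ∀ᵐ t ∂g1, |u t| ≤ M) (hvM : ∀ᵐ t ∂g1, |v t| ≤ M) (a b : ℝ) (hab : a ≤ b) :
    |Fv τ u v b - Fv τ u v a| ≤ 2 * M * (cdf g1 b - cdf g1 a) := by
  rw [Fv_sub hτ hui hvi a b hab, ← real_Ioc a b hab]
  have h1 := set_bound hvM (Ioc a b)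
  have h2 := set_bound huM (τ ⁻¹' (Ioc a b))
  have h3 : g1.real (τ ⁻¹' (Ioc a b)) = g1.real (Ioc a b) :=
    hτ.measureReal_preimage measurableSet_Ioc.nullMeasurableSet
  rw [h3] at h2
  have h4 := abs_sub (∫ t in Ioc a b, v t ∂g1) (∫ t in τ ⁻¹' (Ioc a b), u t ∂g1)
  linarith

lemma Fv_bd2 (hτ : MeasurePreserving τ g1 g1)
    (huM : ∀ᵐ t ∂g1, |u t| ≤ M) (hvM : ∀ᵐ t ∂g1, |v t| ≤ M) (a : ℝ) :
    |Fv τ u v a| ≤ 2 * M * cdf g1 a := by
  rw [cdf_eq_real]
  have h1 := set_bound hvM (Iic a)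
  have h2 := set_bound huM (τ ⁻¹' (Iic a))
  have h3 : g1.real (τ ⁻¹' (Iic a)) = g1.real (Iic a) :=
    hτ.measureReal_preimage measurableSet_Iic.nullMeasurableSet
  rw [h3] at h2
  have h4 := abs_sub (∫ t in Iic a, v t ∂g1) (∫ t in τ ⁻¹' (Iic a), u t ∂g1)
  unfold Fv
  linarith

/-- the Stieltjes function -/
noncomputable def Fs (hτ : MeasurePreserving τ g1 g1) (hui : Integrable u g1)
    (hvi : Integrable v g1) (huM : ∀ᵐ t ∂g1, |u t| ≤ M) (hvM : ∀ᵐ t ∂g1, |v t| ≤ M)
    (hI : ∀ a b : ℝ, a < b → ∫ t in τ ⁻¹' (Ioc a b), u t ∂g1 ≤ ∫ t in Ioc a b, v t ∂g1) :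
    StieltjesFunction ℝ where
  toFun := Fv τ u v
  mono' := Fv_mono hτ hui hvi hI
  right_continuous' := by
    intro x
    have h1 : Tendsto (fun y => 2 * M * (cdf g1 y - cdf g1 x)) (𝓝[≥] x) (𝓝 0) := by
      have h2 : Tendsto (fun y => cdf g1 y) (𝓝[≥] x) (𝓝 (cdf g1 x)) :=
        (cdf g1).right_continuous x
      have h3 := (h2.sub_const (cdf g1 x)).const_mul (2 * M)
      rw [sub_self, mul_zero] at h3
      exact h3
    have h4 : Tendsto (fun y => Fv τ u v y - Fv τ u v x) (𝓝[≥] x) (𝓝 0) := by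
      rw [tendsto_zero_iff_abs_tendsto_zero]
      refine squeeze_zero' (Eventually.of_forall fun y => abs_nonneg _) ?_ h1
      filter_upwards [self_mem_nhdsWithin] with y hy
      exact Fv_bd hτ hui hvi huM hvM x y hy
    have h5 := h4.add_const (Fv τ u v x)
    simp only [sub_add_cancel, zero_add] at h5
    exact h5

end Ext

theorem t_ext : St_ext := by
  intro τ u v M hτ hu hv huM hvM hI ψ hψ hψ1
  have hui : Integrable u g1 := Integrable.of_bound hu M huM
  have hvi : Integrable v g1 := Integrable.of_bound hv M hvM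
  set F := Ext.Fs hτ hui hvi huM hvM hI with hF
  have hF0 : Tendsto F atBot (𝓝 0) := by
    rw [tendsto_zero_iff_abs_tendsto_zero]
    have h1 := (tendsto_cdf_atBot g1).const_mul (2 * M)
    rw [mul_zero] at h1
    exact squeeze_zero (fun y => abs_nonneg _) (fun y => Ext.Fv_bd2 hτ huM hvM y) h1
  have hU0 : ∀ᵐ t ∂g1, 0 ≤ u t + M := by
    filter_upwards [huM] with t ht
    linarith [(abs_le.1 ht).1]
  have hV0 : ∀ᵐ t ∂g1, 0 ≤ v t + M := by
    filter_upwards [hvM] with t ht
    linarith [(abs_le.1 ht).1]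
  have hUi : Integrable (fun t => u t + M) g1 := hui.add (integrable_const M)
  have hVi : Integrable (fun t => v t + M) g1 := hvi.add (integrable_const M)
  set μ1 := Measure.map τ (g1.withDensity fun t => ENNReal.ofReal (u t + M)) with hμ1
  set μ2 := g1.withDensity fun t => ENNReal.ofReal (v t + M) with hμ2
  have hfin2 : IsFiniteMeasure μ2 := by
    apply isFiniteMeasure_withDensity
    rw [← ofReal_integral_eq_lintegral_ofReal hVi hV0]
    exact ENNReal.ofReal_ne_top
  have hle : μ1 ≤ μ2 := by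
    have h1 : μ2 = μ1 + F.measure := by
      refine Measure.ext_of_Iic _ _ fun x => ?_
      rw [Measure.add_apply, StieltjesFunction.measure_Iic F hF0, sub_zero, hμ1,
        Measure.map_apply hτ.measurable measurableSet_Iic,
        withDensity_apply _ (hτ.measurable measurableSet_Iic), hμ2,
        withDensity_apply _ measurableSet_Iic,
        ← ofReal_integral_eq_lintegral_ofReal hUi.integrableOn (ae_restrict_of_ae hU0),
        ← ofReal_integral_eq_lintegral_ofReal hVi.integrableOn (ae_restrict_of_ae hV0)]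
      have h2 : 0 ≤ ∫ t in τ ⁻¹' (Iic x), (u t + M) ∂g1 :=
        setIntegral_nonneg_of_ae_restrict (ae_restrict_of_ae hU0)
      have h3 : 0 ≤ F x := by
        refine le_of_tendsto hF0 ?_
        filter_upwards [eventually_le_atBot x] with y hy
        exact F.mono hy
      rw [← ENNReal.ofReal_add h2 h3]
      congr 1
      have h4 : F x = ∫ t in Iic x, v t ∂g1 - ∫ t in τ ⁻¹' (Iic x), u t ∂g1 := rfl
      rw [h4, integral_add hui.integrableOn (integrable_const M),
        integral_add hvi.integrableOn (integrable_const M), setIntegral_const, setIntegral_const,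
        hτ.measureReal_preimage measurableSet_Iic.nullMeasurableSet]
      ring
    rw [h1]
    exact Measure.le_add_right le_rfl
  have hψm : Measurable fun t => ENNReal.ofReal (ψ t) := hψ.ennreal_ofReal
  have h5 : ∫⁻ t, ENNReal.ofReal (ψ t) ∂μ1 ≤ ∫⁻ t, ENNReal.ofReal (ψ t) ∂μ2 :=
    lintegral_mono' hle le_rfl
  have hψm' : Measurable fun t => ENNReal.ofReal (ψ (τ t)) := hψm.comp hτ.measurable
  have hψτ : AEStronglyMeasurable (fun t => ψ (τ t)) g1 :=
    (hψ.comp hτ.measurable).aestronglyMeasurable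
  have hb1 : ∀ t, ‖ψ (τ t)‖ ≤ 1 := fun t => by
    rw [Real.norm_eq_abs, abs_of_nonneg (hψ1 _).1]
    exact (hψ1 _).2
  have hb2 : ∀ t, ‖ψ t‖ ≤ 1 := fun t => by
    rw [Real.norm_eq_abs, abs_of_nonneg (hψ1 _).1]
    exact (hψ1 _).2
  have hi1 : Integrable (fun t => ψ (τ t) * (u t + M)) g1 :=
    hUi.bdd_mul hψτ (Eventually.of_forall hb1)
  have hi2 : Integrable (fun t => ψ t * (v t + M)) g1 :=
    hVi.bdd_mul hψ.aestronglyMeasurable (Eventually.of_forall hb2)
  have h6 : ∫⁻ t, ENNReal.ofReal (ψ t) ∂μ1 =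
      ENNReal.ofReal (∫ t, ψ (τ t) * (u t + M) ∂g1) := by
    rw [hμ1, lintegral_map hψm hτ.measurable,
      lintegral_withDensity_eq_lintegral_mul₀ hUi.aemeasurable.ennreal_ofReal
        hψm'.aemeasurable,
      ofReal_integral_eq_lintegral_ofReal hi1 (by
        filter_upwards [hU0] with t ht
        exact mul_nonneg (hψ1 _).1 ht)]
    refine lintegral_congr_ae ?_
    filter_upwards with t
    simp only [Pi.mul_apply]
    rw [mul_comm, ENNReal.ofReal_mul (hψ1 _).1]
  have h7 : ∫⁻ t, ENNReal.ofReal (ψ t) ∂μ2 =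
      ENNReal.ofReal (∫ t, ψ t * (v t + M) ∂g1) := by
    rw [hμ2,
      lintegral_withDensity_eq_lintegral_mul₀ hVi.aemeasurable.ennreal_ofReal hψm.aemeasurable,
      ofReal_integral_eq_lintegral_ofReal hi2 (by
        filter_upwards [hV0] with t ht
        exact mul_nonneg (hψ1 _).1 ht)]
    refine lintegral_congr_ae ?_
    filter_upwards with t
    simp only [Pi.mul_apply]
    rw [mul_comm, ENNReal.ofReal_mul (hψ1 _).1]
  rw [h6, h7, ENNReal.ofReal_le_ofReal_iff (integral_nonneg_of_ae (by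
    filter_upwards [hV0] with t ht
    exact mul_nonneg (hψ1 _).1 ht))] at h5
  have hi3 : Integrable (fun t => ψ (τ t) * u t) g1 := hui.bdd_mul hψτ (Eventually.of_forall hb1)
  have hi4 : Integrable (fun t => ψ t * v t) g1 :=
    hvi.bdd_mul hψ.aestronglyMeasurable (Eventually.of_forall hb2)
  have hi5 : Integrable (fun t => ψ (τ t)) g1 :=
    Integrable.of_bound hψτ 1 (Eventually.of_forall hb1)
  have hi6 : Integrable ψ g1 :=
    Integrable.of_bound hψ.aestronglyMeasurable 1 (Eventually.of_forall hb2)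
  have h8 : ∫ t, ψ (τ t) * (u t + M) ∂g1 = ∫ t, ψ (τ t) * u t ∂g1 + (∫ t, ψ (τ t) ∂g1) * M := by
    rw [← integral_mul_const, ← integral_add hi3 (hi5.mul_const M)]
    refine integral_congr_ae (Eventually.of_forall fun t => ?_)
    simp only
    ring
  have h9 : ∫ t, ψ t * (v t + M) ∂g1 = ∫ t, ψ t * v t ∂g1 + (∫ t, ψ t ∂g1) * M := by
    rw [← integral_mul_const, ← integral_add hi4 (hi6.mul_const M)]
    refine integral_congr_ae (Eventually.of_forall fun t => ?_)
    simp only
    ring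
  have h10 : ∫ t, ψ (τ t) ∂g1 = ∫ t, ψ t ∂g1 := by
    conv_rhs => rw [← hτ.map_eq]
    rw [integral_map hτ.measurable.aemeasurable hψ.aestronglyMeasurable]
  rw [h8, h9, h10] at h5
  linarith

theorem t_der (h : St_dint) (h2 : St_ilip) : St_der := by
  intro B τ ψ K hB hT hψ hψ1
  have hd1 : ∀ t, |deriv B t| ≤ K := fun t => norm_deriv_le_of_lipschitz hB
  have hd2 : ∀ t, |deriv (inc B) t| ≤ K := fun t => norm_deriv_le_of_lipschitz (h2 B K hB)
  have hm1 : Measurable (deriv B) := measurable_deriv B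
  have hm2 : Measurable (deriv (inc B)) := measurable_deriv _
  constructor
  · exact t_ext τ (deriv B) (deriv (inc B)) K hT.mp hm1.aestronglyMeasurable
      hm2.aestronglyMeasurable (Eventually.of_forall hd1) (Eventually.of_forall hd2)
      (fun a b hab => (h B τ K hB hT a b hab).1) ψ hψ hψ1
  · have h3 := t_ext τ (fun t => -|deriv B t|) (fun t => -deriv (inc B) t) K hT.mp
      hm1.abs.neg.aestronglyMeasurable hm2.neg.aestronglyMeasurable
      (Eventually.of_forall fun t => by rw [abs_neg, abs_abs]; exact hd1 t)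
      (Eventually.of_forall fun t => by rw [abs_neg]; exact hd2 t)
      (fun a b hab => by
        rw [integral_neg, integral_neg]
        exact neg_le_neg (h B τ K hB hT a b hab).2) ψ hψ hψ1
    simp only [mul_neg] at h3
    rw [integral_neg, integral_neg] at h3
    exact neg_le_neg_iff.1 h3

end Pool.Agent.Q288.DP
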