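import Pool.Agent.Q288.DP.Stm

set_option autoImplicit false

/-!
Project DP: the increasing rearrangement, basic facts.
-/

namespace Pool.Agent.Q288.DP

open MeasureTheory ProbabilityTheory Set Filter Topology

theorem g1_pos_of_volume {s : Set ℝ} (h : volume s ≠ 0) : g1 s ≠ 0 := by
  intro h0
  exact h ((gaussianReal_absolutelyContinuous' 0 (by norm_num : (1 : NNReal) ≠ 0)) h0)

theorem g1_Iic_pos (t : ℝ) : 0 < g1 (Iic t) := by
  refine pos_iff_ne_zero.2 (g1_pos_of_volume ?_)
  simp

theorem g1_Iic_lt {s t : ℝ} (h : s < t) : g1 (Iic s) < g1 (Iic t) := by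
  have h1 : Iic t = Iic s ∪ Ioc s t := (Iic_union_Ioc_eq_Iic h.le).symm
  have h2 : Disjoint (Iic s) (Ioc s t) := by
    rw [Set.disjoint_left]
    intro x hx hx'
    exact absurd hx'.1 (not_lt.2 hx)
  rw [h1, measure_union h2 measurableSet_Ioc]
  have h3 : g1 (Ioc s t) ≠ 0 := g1_pos_of_volume (by simp [h])
  exact ENNReal.lt_add_right (measure_ne_top _ _) h3

theorem g1_Iic_lt_one (t : ℝ) : g1 (Iic t) < 1 :=
  lt_of_lt_of_le (g1_Iic_lt (lt_add_one t)) prob_le_one

theorem t_gal : St_gal := by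
  intro B hB t s
  set T : Set ℝ := {s : ℝ | g1 (Iic t) ≤ g1 {u | B u ≤ s}} with hT
  have hmono : ∀ s s' : ℝ, s ≤ s' → g1 {u | B u ≤ s} ≤ g1 {u | B u ≤ s'} :=
    fun s s' h => measure_mono (fun u (hu : B u ≤ s) => hu.trans h)
  have hms : ∀ s, MeasurableSet {u | B u ≤ s} := fun s => measurableSet_le hB measurable_const
  -- nonempty
  have hne : T.Nonempty := by
    have h1 : Tendsto (fun k : ℕ => g1 {u | B u ≤ (k : ℝ)}) atTop (𝓝 (g1 (⋃ k : ℕ, {u | B u ≤ (k : ℝ)}))) := by
      refine tendsto_measure_iUnion_atTop ?_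
      intro i j hij u (hu : B u ≤ i)
      exact hu.trans (by exact_mod_cast hij)
    have h2 : (⋃ k : ℕ, {u | B u ≤ (k : ℝ)}) = univ := by
      ext u
      simp only [mem_iUnion, mem_ofPred_eq, mem_univ, iff_true]
      exact exists_nat_ge (B u)
    rw [h2, measure_univ] at h1
    obtain ⟨k, hk⟩ := (h1.eventually (lt_mem_nhds (g1_Iic_lt_one t))).exists
    exact ⟨k, hk.le⟩
  have hbdd : BddBelow T := by
    have h1 : Tendsto (fun k : ℕ => g1 {u | B u ≤ -(k : ℝ)}) atTop (𝓝 (g1 (⋂ k : ℕ, {u | B u ≤ -(k : ℝ)}))) := by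
      refine tendsto_measure_iInter_atTop (fun k => (hms _).nullMeasurableSet) ?_ ⟨0, measure_ne_top _ _⟩
      intro i j hij u (hu : B u ≤ -(j : ℝ))
      have : (i : ℝ) ≤ j := by exact_mod_cast hij
      show B u ≤ -(i : ℝ)
      linarith
    have h2 : (⋂ k : ℕ, {u | B u ≤ -(k : ℝ)}) = ∅ := by
      ext u
      simp only [mem_iInter, mem_ofPred_eq, mem_empty_iff_false, iff_false, not_forall, not_le]
      obtain ⟨k, hk⟩ := exists_nat_gt (-(B u))
      exact ⟨k, by linarith⟩
    rw [h2, measure_empty] at h1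
    obtain ⟨k, hk⟩ := (h1.eventually (gt_mem_nhds (g1_Iic_pos t))).exists
    refine ⟨-(k : ℝ), fun s hs => ?_⟩
    by_contra hlt
    rw [not_le] at hlt
    have := hmono s (-(k : ℝ)) hlt.le
    exact absurd (lt_of_le_of_lt (le_trans hs this) hk) (lt_irrefl _)
  have hinf : sInf T ∈ T := by
    have h1 : Tendsto (fun k : ℕ => g1 {u | B u ≤ sInf T + 1 / ((k : ℝ) + 1)}) atTop
        (𝓝 (g1 (⋂ k : ℕ, {u | B u ≤ sInf T + 1 / ((k : ℝ) + 1)}))) := by
      refine tendsto_measure_iInter_atTop (fun k => (hms _).nullMeasurableSet) ?_ ⟨0, measure_ne_top _ _⟩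
      intro i j hij u (hu : B u ≤ sInf T + 1 / ((j : ℝ) + 1))
      have h3 : (i : ℝ) ≤ j := by exact_mod_cast hij
      have h4 : 1 / ((j : ℝ) + 1) ≤ 1 / ((i : ℝ) + 1) :=
        one_div_le_one_div_of_le (by positivity) (by linarith)
      show B u ≤ sInf T + 1 / ((i : ℝ) + 1)
      linarith
    have h2 : (⋂ k : ℕ, {u | B u ≤ sInf T + 1 / ((k : ℝ) + 1)}) = {u | B u ≤ sInf T} := by
      ext u
      simp only [mem_iInter, mem_ofPred_eq]
      constructor
      · intro hu
        refine le_of_forall_pos_le_add (fun ε hε => ?_)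
        obtain ⟨k, hk⟩ := exists_nat_one_div_lt hε
        exact (hu k).trans (by linarith)
      · intro hu k
        have : 0 < 1 / ((k : ℝ) + 1) := by positivity
        linarith
    rw [h2] at h1
    show g1 (Iic t) ≤ g1 {u | B u ≤ sInf T}
    refine ge_of_tendsto' h1 (fun k => ?_)
    have hk : 0 < 1 / ((k : ℝ) + 1) := by positivity
    obtain ⟨s', hs', hlt⟩ := exists_lt_of_csInf_lt hne (show sInf T < sInf T + 1 / ((k : ℝ) + 1) by linarith)
    exact le_trans hs' (hmono _ _ hlt.le)
  constructor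
  · intro h
    have h1 : sInf T ≤ s := h
    exact le_trans hinf (hmono _ _ h1)
  · intro h
    exact csInf_le hbdd h

theorem inc_mono (B : ℝ → ℝ) (hB : Measurable B) : Monotone (inc B) := by
  intro s t hst
  rw [t_gal B hB]
  exact (measure_mono (Iic_subset_Iic.2 hst)).trans ((t_gal B hB t _).1 (le_refl _))

theorem g1_Iic_cont : Continuous (fun t : ℝ => g1 (Iic t)) := by
  have h : (fun t : ℝ => g1 (Iic t)) = fun t => ENNReal.ofReal (cdf g1 t) := by
    funext t
    rw [cdf_eq_real, measureReal_def, ENNReal.ofReal_toReal (measure_ne_top _ _)]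
  have : NullSingletonClass g1 := nullSingletonClass_gaussianReal (by norm_num)
  have h2 : Continuous (fun t : ℝ => cdf g1 t) := by
    rw [continuous_iff_continuousAt]
    intro t
    have h3 := (cdf g1).right_continuous t
    have h4 : Function.leftLim (cdf g1) t = cdf g1 t := by
      have h5 : (cdf g1).measure {t} = 0 := by
        rw [measure_cdf]; exact measure_singleton t
      rw [StieltjesFunction.measure_singleton] at h5
      have h6 := ENNReal.ofReal_eq_zero.1 h5
      have h7 := (cdf g1).mono.leftLim_le (le_refl t)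
      linarith
    exact (cdf g1).mono.continuousAt_iff_leftLim_eq_rightLim.2 (by
      rw [h4]
      exact ((cdf g1).rightLim_eq t).symm)
  rw [h]
  exact ENNReal.continuous_ofReal.comp h2

theorem g1_Iic_surj {c : ENNReal} (h0 : 0 < c) (h1 : c < 1) : ∃ t : ℝ, g1 (Iic t) = c := by
  have hbot : Tendsto (fun t : ℝ => g1 (Iic t)) atBot (𝓝 0) := by
    have h : (fun t : ℝ => g1 (Iic t)) = fun t => ENNReal.ofReal (cdf g1 t) := by
      funext t
      rw [cdf_eq_real, measureReal_def, ENNReal.ofReal_toReal (measure_ne_top _ _)]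
    rw [h]
    have := (ENNReal.continuous_ofReal.tendsto 0).comp (tendsto_cdf_atBot g1)
    rw [ENNReal.ofReal_zero] at this
    exact this
  have htop : Tendsto (fun t : ℝ => g1 (Iic t)) atTop (𝓝 1) := by
    have h : (fun t : ℝ => g1 (Iic t)) = fun t => ENNReal.ofReal (cdf g1 t) := by
      funext t
      rw [cdf_eq_real, measureReal_def, ENNReal.ofReal_toReal (measure_ne_top _ _)]
    rw [h]
    have := (ENNReal.continuous_ofReal.tendsto 1).comp (tendsto_cdf_atTop g1)
    rw [ENNReal.ofReal_one] at this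
    exact this
  obtain ⟨s, hs⟩ := (hbot.eventually (gt_mem_nhds h0)).exists
  obtain ⟨t, ht⟩ := (htop.eventually (lt_mem_nhds h1)).exists
  have := mem_range_of_exists_le_of_exists_ge g1_Iic_cont ⟨s, hs.le⟩ ⟨t, ht.le⟩
  exact this

theorem g1_setOf_le (c : ENNReal) (hc : c ≤ 1) : g1 {t : ℝ | g1 (Iic t) ≤ c} = c := by
  rcases eq_or_lt_of_le hc with rfl | hc1
  · have : {t : ℝ | g1 (Iic t) ≤ 1} = univ := by
      ext t; simp [prob_le_one]
    rw [this, measure_univ]
  rcases eq_or_lt_of_le (show (0 : ENNReal) ≤ c from bot_le) with h0 | h0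
  · have : {t : ℝ | g1 (Iic t) ≤ c} = ∅ := by
      ext t
      simp only [mem_ofPred_eq, mem_empty_iff_false, iff_false, not_le]
      rw [← h0]
      exact g1_Iic_pos t
    rw [this, measure_empty, h0]
  obtain ⟨a, ha⟩ := g1_Iic_surj h0 hc1
  have : {t : ℝ | g1 (Iic t) ≤ c} = Iic a := by
    ext t
    simp only [mem_ofPred_eq, mem_Iic]
    rw [← ha]
    constructor
    · intro h
      by_contra hlt
      rw [not_le] at hlt
      exact absurd (g1_Iic_lt hlt) (not_lt.2 h)
    · intro h
      exact measure_mono (Iic_subset_Iic.2 h)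
  rw [this, ha]

theorem t_law : St_law := by
  intro B hB
  have hm := inc_mono B hB
  refine ⟨hm, ?_⟩
  have : IsProbabilityMeasure (Measure.map (inc B) g1) :=
    Measure.isProbabilityMeasure_map hm.measurable.aemeasurable
  have : IsProbabilityMeasure (Measure.map B g1) :=
    Measure.isProbabilityMeasure_map hB.aemeasurable
  refine Measure.ext_of_Iic _ _ (fun s => ?_)
  rw [Measure.map_apply hm.measurable measurableSet_Iic, Measure.map_apply hB measurableSet_Iic]
  have h1 : inc B ⁻¹' Iic s = {t | g1 (Iic t) ≤ g1 {u | B u ≤ s}} := by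
    ext t
    exact t_gal B hB t s
  rw [h1, g1_setOf_le _ prob_le_one]
  rfl

theorem t_fix : St_fix := by
  intro B hB hc
  funext t
  refine le_antisymm ?_ ?_
  · rw [t_gal B hB.measurable]
    exact measure_mono (fun u (hu : u ≤ t) => hB hu)
  · by_contra hlt
    rw [not_le] at hlt
    obtain ⟨s, hs1, hs2⟩ := exists_between hlt
    have h1 := (t_gal B hB.measurable t s).1 hs1.le
    -- continuity: there is t' < t with s < B t'
    have h2 : ∀ᶠ u in 𝓝 t, s < B u := hc.continuousAt.eventually (lt_mem_nhds hs2)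
    obtain ⟨ε, hε, hball⟩ := Metric.eventually_nhds_iff.1 h2
    have h3 : s < B (t - ε / 2) := hball (by rw [Real.dist_eq]; rw [show t - ε / 2 - t = -(ε/2) by ring, abs_neg, abs_of_pos (by linarith)]; linarith)
    have h4 : {u | B u ≤ s} ⊆ Iic (t - ε / 2) := by
      intro u (hu : B u ≤ s)
      by_contra hu'
      have hu'' : t - ε / 2 < u := not_le.1 hu'
      exact absurd (lt_of_lt_of_le h3 (hB hu''.le)) (not_lt.2 hu)
    have h5 := (measure_mono h4).trans_lt (g1_Iic_lt (show t - ε / 2 < t by linarith))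
    exact absurd (lt_of_le_of_lt h1 h5) (lt_irrefl _)

theorem t_ord : St_ord := by
  intro B C hB hC h t
  rw [t_gal B hB]
  refine le_trans ((t_gal C hC t _).1 (le_refl _)) (measure_mono (fun u (hu : C u ≤ _) => ?_))
  exact (h u).trans hu

end Pool.Agent.Q288.DP
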