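import Pool.Agent.Q288.DP.Tail

/-! Project DP: the rearrangement of a Lipschitz function is Lipschitz (helper96). -/

set_option autoImplicit false

namespace Pool.Agent.Q288.DP

open MeasureTheory ProbabilityTheory Set Filter Topology

namespace ILipAux

/-- lengths of intervals, Gaussian version -/
theorem g1_Ioo_le (s t M : ℝ) (hst : s ≤ t) (hM : ∀ x ∈ Ioo s t, gaussianPDFReal 0 1 x ≤ M) :
    g1.real (Ioo s t) ≤ M * (t - s) := by
  have e : g1.real (Ioo s t) = ∫ x in Ioo s t, gaussianPDFReal 0 1 x := by
    rw [measureReal_def, gaussianReal_apply_eq_integral 0 one_ne_zero, ENNReal.toReal_ofReal]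
    exact integral_nonneg (fun x => gaussianPDFReal_nonneg _ _ _)
  rw [e]
  have h := norm_setIntegral_le_of_norm_le_const (μ := volume) (s := Ioo s t)
    (f := fun x => gaussianPDFReal 0 1 x) (C := M) (by simp) (by
      intro x hx
      rw [Real.norm_of_nonneg (gaussianPDFReal_nonneg _ _ _)]
      exact hM x hx)
  refine (le_abs_self _).trans (h.trans ?_)
  rw [measureReal_def, Real.volume_Ioo, ENNReal.toReal_ofReal (by linarith)]

/-- the energy bound for a clamped function -/
theorem clamp_bound (hlaw : St_law) (htr : St_tr) (htail : St_tail) (hibp : St_ibp)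
    (B C : ℝ → ℝ) (K : NNReal) (hB : LipschitzWith K B) (a b : ℝ) (hab : a ≤ b)
    (hC : C = fun u => max a (min b (B u))) :
    ∫ t, t * inc C t ∂g1 ≤ K * g1.real {u | a < B u ∧ B u < b} := by
  have hCl : LipschitzWith K C := by
    rw [hC]
    exact (hB.const_min b).const_max a
  have hCm : Measurable C := hCl.continuous.measurable
  have hCb : ∀ u, a ≤ C u ∧ C u ≤ b := by
    intro u
    rw [hC]
    exact ⟨le_max_left _ _, max_le hab (min_le_left _ _)⟩
  have hCi : Integrable C g1 := by
    refine Integrable.of_bound (C := max |a| |b|) hCm.aestronglyMeasurable (Filter.Eventually.of_forall fun u => ?_)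
    rw [Real.norm_eq_abs]
    exact abs_le_max_abs_abs (hCb u).1 (hCb u).2
  obtain ⟨τ, hτ⟩ := htr C hCm hCi
  have him : Measurable (inc C) := (hlaw C hCm).1.measurable
  have e1 : ∫ t, t * inc C t ∂g1 = ∫ t, τ t * C t ∂g1 := by
    have h1 : ∫ t, t * inc C t ∂g1 = ∫ t, t * inc C t ∂(g1.map τ) := by rw [hτ.mp.map_eq]
    rw [h1, integral_map hτ.mp.measurable.aemeasurable (by fun_prop)]
    apply integral_congr_ae
    filter_upwards [hτ.eq] with t ht
    rw [ht]
  rw [e1, hibp τ C K hτ.mp hCl]
  set W : Set ℝ := {u | a < B u ∧ B u < b} with hW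
  have hWm : MeasurableSet W := by
    have hBm := hB.continuous.measurable
    exact (measurableSet_lt measurable_const hBm).inter (measurableSet_lt hBm measurable_const)
  have hint : Integrable (fun s => W.indicator (fun s => (K : ℝ) * gaussianPDFReal 0 1 s) s) :=
    ((integrable_gaussianPDFReal 0 1).const_mul _).indicator hWm
  have hle : ∀ s, ‖deriv C s * (∫ t in Ioi s, τ t ∂g1)‖ ≤
      W.indicator (fun s => (K : ℝ) * gaussianPDFReal 0 1 s) s := by
    intro s
    rw [norm_mul]
    by_cases hs : s ∈ W
    · rw [indicator_of_mem hs]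
      exact mul_le_mul (norm_deriv_le_of_lipschitz hCl) (htail τ hτ.mp s) (norm_nonneg _) K.2
    · rw [indicator_of_notMem hs]
      have hd : deriv C s = 0 := by
        by_cases h1 : a < B s
        · have h2 : b ≤ B s := by
            by_contra h3
            exact hs ⟨h1, not_le.mp h3⟩
          have h4 : IsLocalMax C s := by
            refine Filter.Eventually.of_forall fun u => ?_
            have e : C s = b := by
              rw [hC]
              simp only [min_eq_left h2, max_eq_right hab]
            rw [e]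
            exact (hCb u).2
          exact h4.deriv_eq_zero
        · have h4 : IsLocalMin C s := by
            refine Filter.Eventually.of_forall fun u => ?_
            have e : C s = a := by
              rw [hC]
              exact max_eq_left ((min_le_right _ _).trans (not_lt.mp h1))
            rw [e]
            exact (hCb u).1
          exact h4.deriv_eq_zero
      rw [hd]
      simp
  have h3 := norm_integral_le_of_norm_le hint (Filter.Eventually.of_forall hle)
  refine (le_abs_self _).trans (h3.trans (le_of_eq ?_))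
  rw [integral_indicator hWm, integral_const_mul]
  congr 1
  rw [measureReal_def, gaussianReal_apply_eq_integral 0 one_ne_zero, ENNReal.toReal_ofReal]
  exact integral_nonneg (fun x => gaussianPDFReal_nonneg _ _ _)

/-- the mean of the identity -/
theorem id_mean : ∫ t, t ∂g1 = 0 := by
  simp

/-- lower bound, right side -/
theorem low_pos (D : ℝ → ℝ) (hD : Measurable D) (a b s t : ℝ) (hs : 0 ≤ s) (hst : s ≤ t)
    (h1 : ∀ x, a ≤ D x ∧ D x ≤ b) (h2 : ∀ x, x ≤ s → D x = a) (h3 : ∀ x, t ≤ x → D x = b) :
    (b - a) * gaussianPDFReal 0 1 t ≤ ∫ x, x * D x ∂g1 := by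
  have hab : a ≤ b := (h1 0).1.trans (h1 0).2
  have i1 : Integrable (fun x : ℝ => x * D x) g1 := by
    have := id_int.mul_bdd (c := max |a| |b|) (g := D) hD.aestronglyMeasurable
      (Filter.Eventually.of_forall fun u => by
        rw [Real.norm_eq_abs]; exact abs_le_max_abs_abs (h1 u).1 (h1 u).2)
    exact this
  have i2 : Integrable (fun x : ℝ => x * D x - a * x) g1 := i1.sub (id_int.const_mul a)
  have e1 : ∫ x, x * D x ∂g1 = ∫ x, (x * D x - a * x) ∂g1 := by
    rw [integral_sub i1 (id_int.const_mul a), integral_const_mul, id_mean, mul_zero, sub_zero]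
  have e2 : (b - a) * gaussianPDFReal 0 1 t = ∫ x, (Ioi t).indicator (fun x => (b - a) * x) x ∂g1 := by
    rw [integral_indicator measurableSet_Ioi, integral_const_mul, id_tail]
  rw [e1, e2]
  refine integral_mono ((id_int.const_mul _).indicator measurableSet_Ioi) i2 fun x => ?_
  by_cases hx : t < x
  · simp only [indicator_of_mem (show x ∈ Ioi t from hx)]
    rw [h3 x hx.le]
    exact le_of_eq (by ring)
  · simp only [indicator_of_notMem (show x ∉ Ioi t from hx)]
    by_cases hx2 : x ≤ s
    · rw [h2 x hx2]; exact le_of_eq (by ring)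
    · have := (h1 x).1
      nlinarith

/-- lower bound, left side -/
theorem low_neg (D : ℝ → ℝ) (hD : Measurable D) (a b s t : ℝ) (hs : t ≤ 0) (hst : s ≤ t)
    (h1 : ∀ x, a ≤ D x ∧ D x ≤ b) (h2 : ∀ x, x ≤ s → D x = a) (h3 : ∀ x, t ≤ x → D x = b) :
    (b - a) * gaussianPDFReal 0 1 s ≤ ∫ x, x * D x ∂g1 := by
  have hab : a ≤ b := (h1 0).1.trans (h1 0).2
  have i1 : Integrable (fun x : ℝ => x * D x) g1 := by
    have := id_int.mul_bdd (c := max |a| |b|) (g := D) hD.aestronglyMeasurable
      (Filter.Eventually.of_forall fun u => by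
        rw [Real.norm_eq_abs]; exact abs_le_max_abs_abs (h1 u).1 (h1 u).2)
    exact this
  have i2 : Integrable (fun x : ℝ => x * D x - a * x) g1 := i1.sub (id_int.const_mul a)
  have e1 : ∫ x, x * D x ∂g1 = ∫ x, (x * D x - a * x) ∂g1 := by
    rw [integral_sub i1 (id_int.const_mul a), integral_const_mul, id_mean, mul_zero, sub_zero]
  have e2 : (b - a) * gaussianPDFReal 0 1 s = ∫ x, (Ioi s).indicator (fun x => (b - a) * x) x ∂g1 := by
    rw [integral_indicator measurableSet_Ioi, integral_const_mul, id_tail]
  rw [e1, e2]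
  refine integral_mono ((id_int.const_mul _).indicator measurableSet_Ioi) i2 fun x => ?_
  by_cases hx : s < x
  · simp only [indicator_of_mem (show x ∈ Ioi s from hx)]
    by_cases hx2 : t ≤ x
    · rw [h3 x hx2]; exact le_of_eq (by ring)
    · have := (h1 x).2
      nlinarith
  · simp only [indicator_of_notMem (show x ∉ Ioi s from hx)]
    rw [h2 x (not_lt.mp hx)]
    exact le_of_eq (by ring)

/-- the basic estimate on one side of the origin -/
theorem one_side (hlaw : St_law) (hclamp : St_clamp) (htr : St_tr) (htail : St_tail) (hibp : St_ibp)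
    (B : ℝ → ℝ) (K : NNReal) (hB : LipschitzWith K B) (T s t : ℝ) (hs : -T ≤ s) (ht : t ≤ T)
    (hst : s ≤ t) (h0 : 0 ≤ s ∨ t ≤ 0) :
    inc B t - inc B s ≤ K * (t - s) * Real.exp (T * (t - s)) := by
  have hBm : Measurable B := hB.continuous.measurable
  obtain ⟨hmono, hl⟩ := hlaw B hBm
  have hab : inc B s ≤ inc B t := hmono hst
  set a := inc B s with ha
  set b := inc B t with hb
  set C : ℝ → ℝ := fun u => max a (min b (B u)) with hC
  have hCm : Measurable C := by
    rw [hC]; fun_prop
  have hinc : ∀ x, inc C x = max a (min b (inc B x)) := fun x => hclamp B hBm a b hab x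
  have hup := clamp_bound hlaw htr htail hibp B C K hB a b hab hC
  have him : Measurable (inc C) := (hlaw C hCm).1.measurable
  have h1 : ∀ x, a ≤ inc C x ∧ inc C x ≤ b := by
    intro x
    rw [hinc]
    exact ⟨le_max_left _ _, max_le hab (min_le_left _ _)⟩
  have h2 : ∀ x, x ≤ s → inc C x = a := by
    intro x hx
    rw [hinc]
    have : inc B x ≤ a := hmono hx
    exact max_eq_left ((min_le_right _ _).trans this)
  have h3 : ∀ x, t ≤ x → inc C x = b := by
    intro x hx
    rw [hinc]
    have : b ≤ inc B x := hmono hx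
    rw [min_eq_left this, max_eq_right hab]
  have hW : g1.real {u | a < B u ∧ B u < b} ≤ g1.real (Ioo s t) := by
    have him' : Measurable (inc B) := hmono.measurable
    have e := congrArg (fun m : Measure ℝ => m (Ioo a b)) hl
    simp only [Measure.map_apply him' measurableSet_Ioo, Measure.map_apply hBm measurableSet_Ioo] at e
    have e2 : g1.real {u | a < B u ∧ B u < b} = g1.real (inc B ⁻¹' Ioo a b) := by
      rw [measureReal_def, measureReal_def, e]
      rfl
    rw [e2]
    apply measureReal_mono _ (measure_ne_top _ _)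
    rintro x ⟨hx1, hx2⟩
    constructor
    · by_contra h
      exact absurd (hmono (not_lt.mp h)) (not_le.mpr hx1)
    · by_contra h
      exact absurd (hmono (not_lt.mp h)) (not_le.mpr hx2)
  have hphi : ∀ x y : ℝ, |x| ≤ |y| → gaussianPDFReal 0 1 y ≤ gaussianPDFReal 0 1 x := by
    intro x y hxy
    rw [phi_eq, phi_eq]
    apply mul_le_mul_of_nonneg_left _ (by positivity)
    apply Real.exp_le_exp.mpr
    have := sq_le_sq.mpr hxy
    linarith
  have hcompare : ∀ x y : ℝ, y ^ 2 - x ^ 2 ≤ 2 * (T * (t - s)) →
      gaussianPDFReal 0 1 x ≤ gaussianPDFReal 0 1 y * Real.exp (T * (t - s)) := by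
    intro x y hxy
    rw [phi_eq, phi_eq, mul_assoc, ← Real.exp_add]
    apply mul_le_mul_of_nonneg_left _ (by positivity)
    apply Real.exp_le_exp.mpr
    linarith
  have hpos : ∀ x, 0 < gaussianPDFReal 0 1 x := fun x => gaussianPDFReal_pos _ _ _ one_ne_zero
  rcases h0 with h0 | h0
  · have hlow := low_pos (inc C) him a b s t h0 hst h1 h2 h3
    have hlen := g1_Ioo_le s t (gaussianPDFReal 0 1 s) hst (fun x hx => hphi s x (by
      rw [abs_of_nonneg h0, abs_of_nonneg (h0.trans hx.1.le)]; exact hx.1.le))
    have hcmp := hcompare s t (by nlinarith)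
    have hp := hpos t
    have hts : 0 ≤ t - s := by linarith
    have key : (b - a) * gaussianPDFReal 0 1 t ≤
        (K * (t - s) * Real.exp (T * (t - s))) * gaussianPDFReal 0 1 t := by
      calc (b - a) * gaussianPDFReal 0 1 t ≤ K * g1.real {u | a < B u ∧ B u < b} := hlow.trans hup
        _ ≤ K * (gaussianPDFReal 0 1 s * (t - s)) :=
            mul_le_mul_of_nonneg_left (hW.trans hlen) K.2
        _ ≤ K * ((gaussianPDFReal 0 1 t * Real.exp (T * (t - s))) * (t - s)) :=
            mul_le_mul_of_nonneg_left (mul_le_mul_of_nonneg_right hcmp hts) K.2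
        _ = _ := by ring
    exact le_of_mul_le_mul_right key hp
  · have hlow := low_neg (inc C) him a b s t h0 hst h1 h2 h3
    have hlen := g1_Ioo_le s t (gaussianPDFReal 0 1 t) hst (fun x hx => hphi t x (by
      rw [abs_of_nonpos h0, abs_of_nonpos (hx.2.le.trans h0)]; linarith [hx.2]))
    have hcmp := hcompare t s (by nlinarith)
    have hp := hpos s
    have hts : 0 ≤ t - s := by linarith
    have key : (b - a) * gaussianPDFReal 0 1 s ≤
        (K * (t - s) * Real.exp (T * (t - s))) * gaussianPDFReal 0 1 s := by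
      calc (b - a) * gaussianPDFReal 0 1 s ≤ K * g1.real {u | a < B u ∧ B u < b} := hlow.trans hup
        _ ≤ K * (gaussianPDFReal 0 1 t * (t - s)) :=
            mul_le_mul_of_nonneg_left (hW.trans hlen) K.2
        _ ≤ K * ((gaussianPDFReal 0 1 s * Real.exp (T * (t - s))) * (t - s)) :=
            mul_le_mul_of_nonneg_left (mul_le_mul_of_nonneg_right hcmp hts) K.2
        _ = _ := by ring
    exact le_of_mul_le_mul_right key hp

/-- from the local estimate to the Lipschitz bound -/
theorem lip_of_local (f : ℝ → ℝ) (K T : ℝ) (hK : 0 ≤ K) (hT : 0 ≤ T)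
    (h : ∀ s t, -T ≤ s → t ≤ T → s ≤ t → f t - f s ≤ K * (t - s) * Real.exp (T * (t - s)))
    (s t : ℝ) (hs : -T ≤ s) (ht : t ≤ T) (hst : s ≤ t) : f t - f s ≤ K * (t - s) := by
  have hn : ∀ n : ℕ, f t - f s ≤ K * (t - s) * Real.exp (T * ((t - s) / ((n : ℝ) + 1))) := by
    intro n
    set d : ℝ := (t - s) / ((n : ℝ) + 1) with hd
    have hn0 : (0 : ℝ) < (n : ℝ) + 1 := by positivity
    have hd0 : 0 ≤ d := div_nonneg (by linarith) hn0.le
    have hdn : ((n : ℝ) + 1) * d = t - s := by rw [hd]; field_simp
    have key : ∀ k : ℕ, k ≤ n + 1 → f (s + k * d) - f s ≤ k * (K * d * Real.exp (T * d)) := by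
      intro k
      induction k with
      | zero => intro _; simp
      | succ k ih =>
        intro hk
        have h1 := ih (by omega)
        have hk' : (k : ℝ) + 1 ≤ (n : ℝ) + 1 := by exact_mod_cast hk
        have hkd : ((k : ℝ) + 1) * d ≤ t - s := by
          rw [← hdn]; exact mul_le_mul_of_nonneg_right hk' hd0
        have hk0 : (0 : ℝ) ≤ k * d := by positivity
        have h2 := h (s + k * d) (s + ((k : ℝ) + 1) * d) (by linarith) (by linarith) (by nlinarith)
        have e : s + ((k : ℝ) + 1) * d - (s + k * d) = d := by ring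
        rw [e] at h2
        push_cast
        linarith
    have h3 := key (n + 1) le_rfl
    push_cast at h3
    rw [hdn] at h3
    have e1 : s + (t - s) = t := by ring
    rw [e1] at h3
    have e2 : ((n : ℝ) + 1) * (K * d * Real.exp (T * d)) = K * (((n : ℝ) + 1) * d) * Real.exp (T * d) := by
      ring
    rw [e2, hdn] at h3
    exact h3
  have hlim : Tendsto (fun n : ℕ => K * (t - s) * Real.exp (T * ((t - s) / ((n : ℝ) + 1)))) atTop
      (𝓝 (K * (t - s) * Real.exp (T * 0))) := by
    apply Tendsto.const_mul
    apply (Real.continuous_exp.tendsto _).comp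
    apply Tendsto.const_mul
    exact tendsto_const_nhds.div_atTop (tendsto_atTop_add_const_right _ _ tendsto_natCast_atTop_atTop)
  have h5 := ge_of_tendsto' hlim hn
  rwa [mul_zero, Real.exp_zero, mul_one] at h5

end ILipAux

open ILipAux

theorem t_ilip (hlaw : St_law) (hclamp : St_clamp) (htr : St_tr) (htail : St_tail) (hibp : St_ibp) :
    St_ilip := by
  intro B K hB
  have hmono : Monotone (inc B) := (hlaw B hB.continuous.measurable).1
  have hmain : ∀ s t : ℝ, s ≤ t → inc B t - inc B s ≤ K * (t - s) := by
    intro s t hst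
    set T : ℝ := max |s| |t| with hT
    have hsT : -T ≤ s := by
      have h1 := neg_abs_le s
      have h2 : |s| ≤ T := le_max_left _ _
      linarith
    have htT : t ≤ T := (le_abs_self t).trans (le_max_right _ _)
    have hT0 : 0 ≤ T := (abs_nonneg s).trans (le_max_left _ _)
    refine lip_of_local (inc B) K T K.2 hT0 ?_ s t hsT htT hst
    intro x y hx hy hxy
    by_cases h0 : 0 ≤ x ∨ y ≤ 0
    · exact one_side hlaw hclamp htr htail hibp B K hB T x y hx hy hxy h0
    · rw [not_or, not_le, not_le] at h0
      obtain ⟨hx0, hy0⟩ := h0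
      have h1 := one_side hlaw hclamp htr htail hibp B K hB T x 0 hx (by linarith) hx0.le (Or.inr le_rfl)
      have h2 := one_side hlaw hclamp htr htail hibp B K hB T 0 y (by linarith) hy hy0.le (Or.inl le_rfl)
      have h3 : Real.exp (T * (0 - x)) ≤ Real.exp (T * (y - x)) := by
        apply Real.exp_le_exp.mpr; nlinarith
      have h4 : Real.exp (T * (y - 0)) ≤ Real.exp (T * (y - x)) := by
        apply Real.exp_le_exp.mpr; nlinarith
      have h5 : K * (0 - x) * Real.exp (T * (0 - x)) ≤ K * (0 - x) * Real.exp (T * (y - x)) :=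
        mul_le_mul_of_nonneg_left h3 (mul_nonneg K.2 (by linarith))
      have h6 : K * (y - 0) * Real.exp (T * (y - 0)) ≤ K * (y - 0) * Real.exp (T * (y - x)) :=
        mul_le_mul_of_nonneg_left h4 (mul_nonneg K.2 (by linarith))
      have e : K * (0 - x) * Real.exp (T * (y - x)) + K * (y - 0) * Real.exp (T * (y - x))
          = K * (y - x) * Real.exp (T * (y - x)) := by ring
      linarith
  apply LipschitzWith.of_dist_le_mul
  intro x y
  rw [Real.dist_eq, Real.dist_eq]
  rcases le_total x y with h | h
  · rw [abs_sub_comm, abs_sub_comm x y, abs_of_nonneg (sub_nonneg.mpr (hmono h)), abs_of_nonneg (sub_nonneg.mpr h)]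
    exact hmain x y h
  · rw [abs_of_nonneg (sub_nonneg.mpr (hmono h)), abs_of_nonneg (sub_nonneg.mpr h)]
    exact hmain y x h

end Pool.Agent.Q288.DP
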