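import Pool.Agent.Q288.DP.Tail

/-!
# Project DP: Gaussian integration by parts for measure preserving maps (helper224)
-/

set_option autoImplicit false

namespace Pool.Agent.Q288.DP

open MeasureTheory ProbabilityTheory Set Filter Topology

/-- the kernel of the integral from `0` to `t` -/
noncomputable def kk (s t : ℝ) : ℝ := if 0 < s ∧ s ≤ t then 1 else if t < s ∧ s ≤ 0 then -1 else 0

theorem kk_int (f : ℝ → ℝ) (t : ℝ) : ∫ s in (0 : ℝ)..t, f s = ∫ s, kk s t * f s := by
  rcases le_total 0 t with h | h
  · rw [intervalIntegral.integral_of_le h, ← integral_indicator measurableSet_Ioc]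
    refine integral_congr_ae (Eventually.of_forall (fun s => ?_))
    by_cases hs : s ∈ Ioc 0 t
    · rw [indicator_of_mem hs]
      show f s = kk s t * f s
      unfold kk
      rw [if_pos ⟨hs.1, hs.2⟩, one_mul]
    · rw [indicator_of_notMem hs]
      show 0 = kk s t * f s
      unfold kk
      rw [if_neg (fun h' => hs ⟨h'.1, h'.2⟩), if_neg (fun h' => by linarith [h'.1, h'.2]), zero_mul]
  · rw [intervalIntegral.integral_of_ge h, ← integral_indicator measurableSet_Ioc, ← integral_neg]
    refine integral_congr_ae (Eventually.of_forall (fun s => ?_))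
    by_cases hs : s ∈ Ioc t 0
    · show -(indicator (Ioc t 0) f s) = kk s t * f s
      rw [indicator_of_mem hs]
      unfold kk
      rw [if_neg (fun h' => by linarith [h'.1, hs.2]), if_pos ⟨hs.1, hs.2⟩, neg_one_mul]
    · show -(indicator (Ioc t 0) f s) = kk s t * f s
      rw [indicator_of_notMem hs]
      unfold kk
      rw [if_neg (fun h' => by linarith [h'.1, h'.2]), if_neg (fun h' => hs ⟨h'.1, h'.2⟩), zero_mul, neg_zero]

theorem kk_meas : Measurable (fun p : ℝ × ℝ => kk p.2 p.1) := by
  unfold kk
  refine Measurable.ite ?_ measurable_const (Measurable.ite ?_ measurable_const measurable_const)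
  · exact (measurableSet_lt measurable_const measurable_snd).inter (measurableSet_le measurable_snd measurable_fst)
  · exact (measurableSet_lt measurable_fst measurable_snd).inter (measurableSet_le measurable_snd measurable_const)

theorem kk_abs (s t : ℝ) : |kk s t| = (Ioc (min 0 t) (max 0 t)).indicator (fun _ => (1 : ℝ)) s := by
  unfold kk
  rcases le_total 0 t with h | h
  · rw [min_eq_left h, max_eq_right h]
    by_cases hs : s ∈ Ioc 0 t
    · rw [indicator_of_mem hs, if_pos ⟨hs.1, hs.2⟩, abs_one]
    · rw [indicator_of_notMem hs, if_neg (fun h' => hs ⟨h'.1, h'.2⟩),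
        if_neg (fun h' => by linarith [h'.1, h'.2]), abs_zero]
  · rw [min_eq_right h, max_eq_left h]
    by_cases hs : s ∈ Ioc t 0
    · rw [indicator_of_mem hs, if_neg (fun h' => by linarith [h'.1, hs.2]), if_pos ⟨hs.1, hs.2⟩]
      norm_num
    · rw [indicator_of_notMem hs, if_neg (fun h' => by linarith [h'.1, h'.2]),
        if_neg (fun h' => hs ⟨h'.1, h'.2⟩), abs_zero]

theorem kk_abs_int (t : ℝ) : Integrable (fun s => |kk s t|) ∧ ∫ s, |kk s t| = |t| := by
  have e : (fun s => |kk s t|) = (Ioc (min 0 t) (max 0 t)).indicator (fun _ => (1 : ℝ)) := by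
    funext s
    exact kk_abs s t
  rw [e]
  constructor
  · exact (integrable_indicator_iff measurableSet_Ioc).2 (integrableOn_const (by simp))
  · rw [integral_indicator measurableSet_Ioc, setIntegral_const, measureReal_def, Real.volume_Ioc,
      ENNReal.toReal_ofReal (sub_nonneg.2 ((min_le_left _ _).trans (le_max_left _ _))), smul_eq_mul, mul_one]
    rcases le_total 0 t with h | h
    · rw [min_eq_left h, max_eq_right h, abs_of_nonneg h, sub_zero]
    · rw [min_eq_right h, max_eq_left h, abs_of_nonpos h, zero_sub]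

theorem sq_int : Integrable (fun t : ℝ => t ^ 2) g1 := by
  have h := memLp_id_gaussianReal (μ := 0) (v := 1) 2
  have h2 : MemLp (id : ℝ → ℝ) 2 g1 := by exact_mod_cast h
  exact h2.integrable_sq

theorem lip_ftc {C : ℝ → ℝ} {K : NNReal} (hC : LipschitzWith K C) (t : ℝ) :
    C t = C 0 + ∫ s, kk s t * deriv C s := by
  rw [← kk_int, (hC.lipschitzOnWith.absolutelyContinuousOnInterval (a := 0) (b := t)).integral_deriv_eq_sub]
  ring

theorem t_ibp : St_ibp := by
  intro τ C K hτ hC
  have iτ : Integrable (fun t => τ t) g1 := mp_int hτ id_int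
  have eτ : ∫ t, τ t ∂g1 = 0 := by
    rw [mp_eq hτ id_int]
    exact integral_id_gaussianReal
  have hdb : ∀ s, |deriv C s| ≤ K := fun s => by
    have := norm_deriv_le_of_lipschitz (f := C) (x₀ := s) hC
    exact this
  -- the kernel
  obtain ⟨F, hF⟩ : ∃ F : ℝ → ℝ → ℝ, F = fun t s => τ t * (kk s t * deriv C s) := ⟨_, rfl⟩
  have hFm : Measurable (Function.uncurry F) := by
    rw [hF]
    exact (hτ.measurable.comp measurable_fst).mul (kk_meas.mul ((measurable_deriv C).comp measurable_snd))
  have hFb : ∀ t s, ‖F t s‖ ≤ (|τ t| * K) * |kk s t| := by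
    intro t s
    rw [hF]
    show ‖τ t * (kk s t * deriv C s)‖ ≤ _
    rw [norm_mul, norm_mul, Real.norm_eq_abs, Real.norm_eq_abs, Real.norm_eq_abs]
    have h1 : |kk s t| * |deriv C s| ≤ |kk s t| * K := mul_le_mul_of_nonneg_left (hdb s) (abs_nonneg _)
    calc |τ t| * (|kk s t| * |deriv C s|) ≤ |τ t| * (|kk s t| * K) :=
          mul_le_mul_of_nonneg_left h1 (abs_nonneg _)
      _ = (|τ t| * K) * |kk s t| := by ring
  have hFi : ∀ t, Integrable (F t) := by
    intro t
    refine Integrable.mono' ((kk_abs_int t).1.const_mul (|τ t| * K)) ?_ (Eventually.of_forall (hFb t))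
    exact (hFm.comp measurable_prodMk_left).aestronglyMeasurable
  have hprod : Integrable (Function.uncurry F) (g1.prod volume) := by
    rw [integrable_prod_iff hFm.aestronglyMeasurable]
    refine ⟨Eventually.of_forall hFi, ?_⟩
    have hb : Integrable (fun t : ℝ => K * (((τ t) ^ 2 + t ^ 2) / 2)) g1 :=
      (((mp_int hτ sq_int).add sq_int).div_const 2).const_mul K
    refine Integrable.mono' hb ?_ (Eventually.of_forall (fun t => ?_))
    · exact hFm.aestronglyMeasurable.norm.integral_prod_right'
    · show ‖∫ s, ‖F t s‖‖ ≤ K * (((τ t) ^ 2 + t ^ 2) / 2)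
      rw [Real.norm_of_nonneg (integral_nonneg (fun s => norm_nonneg _))]
      have h1 : ∫ s, ‖F t s‖ ≤ ∫ s, (|τ t| * K) * |kk s t| :=
        integral_mono (hFi t).norm ((kk_abs_int t).1.const_mul _) (hFb t)
      refine h1.trans ?_
      rw [integral_const_mul, (kk_abs_int t).2]
      have h2 : |τ t| * |t| ≤ ((τ t) ^ 2 + t ^ 2) / 2 := by
        have := sq_nonneg (|τ t| - |t|)
        rw [sub_sq, sq_abs, sq_abs] at this
        linarith
      calc |τ t| * K * |t| = K * (|τ t| * |t|) := by ring
        _ ≤ K * (((τ t) ^ 2 + t ^ 2) / 2) := mul_le_mul_of_nonneg_left h2 K.coe_nonneg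
  have hswap := integral_integral_swap hprod
  -- left side
  have hL : ∫ t, τ t * C t ∂g1 = ∫ t, (∫ s, F t s) ∂g1 := by
    have h1 : ∀ t, τ t * C t = C 0 * τ t + ∫ s, F t s := by
      intro t
      rw [hF]
      show τ t * C t = C 0 * τ t + ∫ s, τ t * (kk s t * deriv C s)
      rw [integral_const_mul, lip_ftc hC t]
      ring
    have h2 : ∫ t, τ t * C t ∂g1 = ∫ t, (C 0 * τ t + (∫ s, F t s)) ∂g1 :=
      integral_congr_ae (Eventually.of_forall h1)
    have h6 : Integrable (fun t => ∫ s, F t s) g1 := hprod.integral_prod_left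
    rw [h2, integral_add (iτ.const_mul _) h6, integral_const_mul, eτ, mul_zero, zero_add]
  rw [hL, hswap]
  refine integral_congr_ae (Eventually.of_forall (fun s => ?_))
  show ∫ t, F t s ∂g1 = deriv C s * (∫ t in Ioi s, τ t ∂g1)
  have h3 : ∫ t, F t s ∂g1 = deriv C s * ∫ t, τ t * kk s t ∂g1 := by
    rw [← integral_const_mul]
    refine integral_congr_ae (Eventually.of_forall (fun t => ?_))
    rw [hF]
    show τ t * (kk s t * deriv C s) = deriv C s * (τ t * kk s t)
    ring
  rw [h3]
  congr 1
  have : NullSingletonClass g1 := nullSingletonClass_gaussianReal one_ne_zero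
  rw [← integral_Ici_eq_integral_Ioi]
  rcases lt_or_ge 0 s with h | h
  · rw [← integral_indicator measurableSet_Ici]
    refine integral_congr_ae (Eventually.of_forall (fun t => ?_))
    show τ t * kk s t = indicator (Ici s) τ t
    unfold kk
    by_cases hs : s ≤ t
    · rw [indicator_of_mem (show t ∈ Ici s from hs), if_pos ⟨h, hs⟩, mul_one]
    · rw [indicator_of_notMem (show t ∉ Ici s from hs), if_neg (fun h' => hs h'.2),
        if_neg (fun h' => by linarith [h'.2]), mul_zero]
  · have h4 : ∫ t in Ici s, τ t ∂g1 + ∫ t in (Ici s)ᶜ, τ t ∂g1 = 0 := by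
      rw [integral_add_compl measurableSet_Ici iτ, eτ]
    have h5 : ∫ t, τ t * kk s t ∂g1 = -∫ t in (Ici s)ᶜ, τ t ∂g1 := by
      rw [← integral_indicator measurableSet_Ici.compl, ← integral_neg]
      refine integral_congr_ae (Eventually.of_forall (fun t => ?_))
      show τ t * kk s t = -(indicator (Ici s)ᶜ τ t)
      unfold kk
      by_cases hs : s ≤ t
      · rw [indicator_of_notMem (show t ∉ (Ici s)ᶜ from fun h' => h' hs), if_neg (fun h' => by linarith [h'.1]),
          if_neg (fun h' => by linarith [h'.1]), mul_zero, neg_zero]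
      · rw [indicator_of_mem (show t ∈ (Ici s)ᶜ from hs), if_neg (fun h' => by linarith [h'.1]),
          if_pos ⟨not_le.1 hs, h⟩]
        ring
    rw [h5]
    linarith

theorem t_gip : St_gip := by
  intro C K hC
  have h1 := t_ibp (fun t => t) C K (MeasurePreserving.id g1) hC
  rw [h1]
  have h2 : ∫ t, deriv C t ∂g1 = ∫ t in univ, deriv C t ∂g1 := by rw [setIntegral_univ]
  rw [h2, g1_setint _ MeasurableSet.univ, setIntegral_univ]
  refine integral_congr_ae (Eventually.of_forall (fun s => ?_))
  show deriv C s * (∫ t in Ioi s, t ∂g1) = gaussianPDFReal 0 1 s * deriv C s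
  rw [id_tail, mul_comm]

end Pool.Agent.Q288.DP
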