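import Pool.Agent.Q288.DP.Ext

set_option autoImplicit false

/-!
Project DP (row MP_04ae38_an), lemmas par and par2 (helper153).
-/

namespace Pool.Agent.Q288.DP

open MeasureTheory ProbabilityTheory Set Filter Topology

namespace Par

lemma lip_int {B : ℝ → ℝ} {K : NNReal} (hB : LipschitzWith K B) : Integrable B g1 := by
  have h1 : Integrable (fun t : ℝ => t) g1 := (memLp_id_gaussianReal 1).integrable le_rfl
  have h2 : Integrable (fun t : ℝ => |B 0| + K * |t|) g1 :=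
    (integrable_const _).add (h1.abs.const_mul _)
  refine h2.mono' hB.continuous.aestronglyMeasurable (Eventually.of_forall fun t => ?_)
  have h3 := hB.dist_le_mul t 0
  rw [Real.dist_eq, Real.dist_eq, sub_zero] at h3
  have h4 : |B t| ≤ |B 0| + |B t - B 0| := by
    have := abs_add_le (B 0) (B t - B 0)
    rwa [add_sub_cancel] at this
  rw [Real.norm_eq_abs]
  linarith

lemma meas_b {G : ℝ → ℝ → ℝ} {b : ℝ → ℝ} (hGm : ∀ h, AEStronglyMeasurable (G h) g1)
    (hb : ∀ᵐ t ∂g1, HasDerivAt (fun h => G h t) (b t) 0) : AEStronglyMeasurable b g1 := by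
  refine aestronglyMeasurable_of_tendsto_ae (𝓝[≠] (0 : ℝ))
    (f := fun h t => h⁻¹ • (G (0 + h) t - G 0 t)) (fun h => ?_) ?_
  · exact (((hGm (0 + h)).sub (hGm 0)).const_smul h⁻¹)
  · filter_upwards [hb] with t ht
    exact hasDerivAt_iff_tendsto_slope_zero.1 ht

lemma hasDerivAt_int {G : ℝ → ℝ → ℝ} {b : ℝ → ℝ} {K : ℝ} (S : Set ℝ)
    (hGi : ∀ h, Integrable (G h) g1) (hG : ∀ h t, |G h t - G 0 t| ≤ K * |h|)
    (hb : ∀ᵐ t ∂g1, HasDerivAt (fun h => G h t) (b t) 0) :
    HasDerivAt (fun h => ∫ t in S, G h t ∂g1) (∫ t in S, b t ∂g1) 0 := by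
  rw [hasDerivAt_iff_tendsto_slope_zero]
  have h1 : ∀ h : ℝ, h⁻¹ • ((∫ t in S, G (0 + h) t ∂g1) - ∫ t in S, G 0 t ∂g1) =
      ∫ t in S, h⁻¹ • (G (0 + h) t - G 0 t) ∂g1 := by
    intro h
    rw [integral_smul, integral_sub (hGi _).integrableOn (hGi _).integrableOn]
  simp only [h1]
  refine tendsto_integral_filter_of_dominated_convergence (fun _ => K) ?_ ?_ ?_ ?_
  · exact Eventually.of_forall fun h =>
      ((((hGi (0 + h)).1.sub (hGi 0).1).const_smul h⁻¹)).restrict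
  · filter_upwards [self_mem_nhdsWithin] with h hh
    have hh' : h ≠ 0 := hh
    refine Eventually.of_forall fun t => ?_
    rw [norm_smul, norm_inv, Real.norm_eq_abs, Real.norm_eq_abs, zero_add,
      inv_mul_le_iff₀ (abs_pos.2 hh'), mul_comm]
    exact hG h t
  · exact integrable_const K
  · refine ae_restrict_of_ae ?_
    filter_upwards [hb] with t ht
    exact hasDerivAt_iff_tendsto_slope_zero.1 ht

lemma b_bound {G : ℝ → ℝ → ℝ} {b : ℝ → ℝ} {K : ℝ} (hG : ∀ h t, |G h t - G 0 t| ≤ K * |h|)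
    (hb : ∀ᵐ t ∂g1, HasDerivAt (fun h => G h t) (b t) 0) : ∀ᵐ t ∂g1, |b t| ≤ K := by
  filter_upwards [hb] with t ht
  have h1 := (hasDerivAt_iff_tendsto_slope_zero.1 ht).abs
  refine le_of_tendsto h1 ?_
  filter_upwards [self_mem_nhdsWithin] with h hh
  have hh' : h ≠ 0 := hh
  rw [smul_eq_mul, abs_mul, abs_inv, zero_add, inv_mul_le_iff₀ (abs_pos.2 hh'), mul_comm]
  exact hG h t

end Par

theorem t_par (h1 : St_hl2) (h2 : St_sup) (h3 : St_ilip) : St_par := by
  intro Bf b b' τ K hB hBh hT hb hb' a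
  have hi : ∀ h, Integrable (Bf h) g1 := fun h => Par.lip_int (hB h)
  have hi' : ∀ h, Integrable (inc (Bf h)) g1 := fun h => Par.lip_int (h3 _ K (hB h))
  have hm : ∀ h, Measurable (Bf h) := fun h => (hB h).continuous.measurable
  have hinc : ∀ h t, |inc (Bf h) t - inc (Bf 0) t| ≤ K * |h| := fun h =>
    h2 (Bf h) (Bf 0) (hm h) (hm 0) (K * |h|) (hBh h)
  have hd1 := Par.hasDerivAt_int (τ ⁻¹' (Ioi a)) hi hBh hb
  have hd2 := Par.hasDerivAt_int (Ioi a) hi' hinc hb'
  have hd := hd2.sub hd1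
  have hmin : IsLocalMin (fun h => (∫ t in Ioi a, inc (Bf h) t ∂g1) -
      ∫ t in τ ⁻¹' (Ioi a), Bf h t ∂g1) 0 := by
    refine Eventually.of_forall fun h => ?_
    have h4 : ∫ t in τ ⁻¹' (Ioi a), Bf h t ∂g1 ≤ ∫ t in Ioi a, inc (Bf h) t ∂g1 :=
      h1 (Bf h) (τ ⁻¹' (Ioi a)) a (hm h) (hi h) (hT.mp.measurable measurableSet_Ioi)
        (hT.mp.measure_preimage measurableSet_Ioi.nullMeasurableSet)
    have h5 : ∫ t in τ ⁻¹' (Ioi a), Bf 0 t ∂g1 = ∫ t in Ioi a, inc (Bf 0) t ∂g1 := by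
      have h6 : ∫ t in τ ⁻¹' (Ioi a), Bf 0 t ∂g1 = ∫ t in τ ⁻¹' (Ioi a), inc (Bf 0) (τ t) ∂g1 := by
        refine setIntegral_congr_ae (hT.mp.measurable measurableSet_Ioi) ?_
        filter_upwards [hT.eq] with t ht _
        exact ht.symm
      rw [h6]
      have h7 := setIntegral_map (μ := g1) (g := τ) (f := inc (Bf 0)) (s := Ioi a)
        measurableSet_Ioi (by
          rw [hT.mp.map_eq]
          exact (hi' 0).1) hT.mp.measurable.aemeasurable
      rw [hT.mp.map_eq] at h7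
      exact h7.symm
    simp only
    rw [h5, sub_self]
    exact sub_nonneg.2 h4
  have h8 := hmin.hasDerivAt_eq_zero hd
  linarith

theorem t_par2 (h1 : St_hl2) (h2 : St_sup) (h3 : St_ilip) : St_par2 := by
  intro Bf b b' τ K hB hBh hT hb hb' ψ hψ hψ1
  have hi : ∀ h, Integrable (Bf h) g1 := fun h => Par.lip_int (hB h)
  have hi' : ∀ h, Integrable (inc (Bf h)) g1 := fun h => Par.lip_int (h3 _ K (hB h))
  have hm : ∀ h, Measurable (Bf h) := fun h => (hB h).continuous.measurable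
  have hinc : ∀ h t, |inc (Bf h) t - inc (Bf 0) t| ≤ K * |h| := fun h =>
    h2 (Bf h) (Bf 0) (hm h) (hm 0) (K * |h|) (hBh h)
  have hbm : AEStronglyMeasurable b g1 := Par.meas_b (fun h => (hi h).1) hb
  have hbm' : AEStronglyMeasurable b' g1 := Par.meas_b (fun h => (hi' h).1) hb'
  have hbK : ∀ᵐ t ∂g1, |b t| ≤ K := Par.b_bound hBh hb
  have hbK' : ∀ᵐ t ∂g1, |b' t| ≤ K := Par.b_bound hinc hb'
  have hbi : Integrable b g1 := Integrable.of_bound hbm K hbK
  have hbi' : Integrable b' g1 := Integrable.of_bound hbm' K hbK'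
  have hpar := t_par h1 h2 h3 Bf b b' τ K hB hBh hT hb hb'
  have hIoc : ∀ s t : ℝ, s < t → ∫ x in τ ⁻¹' (Ioc s t), b x ∂g1 = ∫ x in Ioc s t, b' x ∂g1 := by
    intro s t hst
    have e1 : Ioi s = Ioc s t ∪ Ioi t := (Ioc_union_Ioi_eq_Ioi hst.le).symm
    have hdis : Disjoint (Ioc s t) (Ioi t) := by
      rw [Set.disjoint_left]
      intro x hx hx2
      exact absurd hx2 (not_lt.2 hx.2)
    have h4 := hpar s
    rw [e1, preimage_union, setIntegral_union (hdis.preimage τ)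
      (hT.mp.measurable measurableSet_Ioi) hbi.integrableOn hbi.integrableOn,
      setIntegral_union hdis measurableSet_Ioi hbi'.integrableOn hbi'.integrableOn, hpar t] at h4
    exact add_right_cancel h4
  have key : ∀ φ : ℝ → ℝ, Measurable φ → (∀ t, 0 ≤ φ t ∧ φ t ≤ 1) →
      ∫ t, φ (τ t) * b t ∂g1 = ∫ t, φ t * b' t ∂g1 := by
    intro φ hφ hφ1
    apply le_antisymm
    · exact t_ext τ b b' K hT.mp hbm hbm' hbK hbK' (fun s t hst => (hIoc s t hst).le) φ hφ hφ1
    · have h5 := t_ext τ (fun t => -b t) (fun t => -b' t) K hT.mp hbm.neg hbm'.neg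
        (by simpa only [abs_neg] using hbK) (by simpa only [abs_neg] using hbK')
        (fun s t hst => by
          rw [integral_neg, integral_neg, hIoc s t hst]) φ hφ hφ1
      simp only [mul_neg] at h5
      rw [integral_neg, integral_neg] at h5
      exact neg_le_neg_iff.1 h5
  have hp : ∀ t, 0 ≤ max (ψ t) 0 ∧ max (ψ t) 0 ≤ 1 := fun t =>
    ⟨le_max_right _ _, max_le ((abs_le.1 (hψ1 t)).2) zero_le_one⟩
  have hn : ∀ t, 0 ≤ max (-ψ t) 0 ∧ max (-ψ t) 0 ≤ 1 := fun t =>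
    ⟨le_max_right _ _, max_le (by linarith [(abs_le.1 (hψ1 t)).1]) zero_le_one⟩
  have hpm : Measurable fun t => max (ψ t) 0 := hψ.max measurable_const
  have hnm : Measurable fun t => max (-ψ t) 0 := hψ.neg.max measurable_const
  have k1 := key _ hpm hp
  have k2 := key _ hnm hn
  have hsplit : ∀ r : ℝ, r = max r 0 - max (-r) 0 := by
    intro r
    rcases le_total 0 r with h | h
    · rw [max_eq_left h, max_eq_right (by linarith)]; ring
    · rw [max_eq_right h, max_eq_left (by linarith)]; ring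
  have hbd : ∀ φ : ℝ → ℝ, (∀ t, 0 ≤ φ t ∧ φ t ≤ 1) → ∀ t, ‖φ t‖ ≤ 1 := by
    intro φ h t
    rw [Real.norm_eq_abs, abs_of_nonneg (h t).1]
    exact (h t).2
  have i1 : Integrable (fun t => max (ψ (τ t)) 0 * b t) g1 :=
    hbi.bdd_mul (hpm.comp hT.mp.measurable).aestronglyMeasurable
      (Eventually.of_forall fun t => hbd _ hp (τ t))
  have i2 : Integrable (fun t => max (-ψ (τ t)) 0 * b t) g1 :=
    hbi.bdd_mul (hnm.comp hT.mp.measurable).aestronglyMeasurable
      (Eventually.of_forall fun t => hbd _ hn (τ t))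
  have i3 : Integrable (fun t => max (ψ t) 0 * b' t) g1 :=
    hbi'.bdd_mul hpm.aestronglyMeasurable (Eventually.of_forall (hbd _ hp))
  have i4 : Integrable (fun t => max (-ψ t) 0 * b' t) g1 :=
    hbi'.bdd_mul hnm.aestronglyMeasurable (Eventually.of_forall (hbd _ hn))
  have e1 : ∫ t, ψ (τ t) * b t ∂g1 =
      ∫ t, max (ψ (τ t)) 0 * b t ∂g1 - ∫ t, max (-ψ (τ t)) 0 * b t ∂g1 := by
    rw [← integral_sub i1 i2]
    refine integral_congr_ae (Eventually.of_forall fun t => ?_)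
    simp only
    conv_lhs => rw [hsplit (ψ (τ t))]
    ring
  have e2 : ∫ t, ψ t * b' t ∂g1 =
      ∫ t, max (ψ t) 0 * b' t ∂g1 - ∫ t, max (-ψ t) 0 * b' t ∂g1 := by
    rw [← integral_sub i3 i4]
    refine integral_congr_ae (Eventually.of_forall fun t => ?_)
    simp only
    conv_lhs => rw [hsplit (ψ t)]
    ring
  rw [e1, e2, k1, k2]

end Pool.Agent.Q288.DP
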