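import Pool.Agent.Q288.DP.Stm

/-!
# Project DP: sup norm, clamping and L1 contraction of the rearrangement (helper224)
-/

set_option autoImplicit false

namespace Pool.Agent.Q288.DP

open MeasureTheory ProbabilityTheory Set Filter Topology

theorem inc_add (hg : St_gal) (B : ℝ → ℝ) (hB : Measurable B) (c t : ℝ) :
    inc (fun u => B u + c) t = inc B t + c := by
  refine eq_of_forall_ge_iff (fun s => ?_)
  rw [hg _ (hB.add_const c), ← le_sub_iff_add_le, hg B hB]
  have h : {u | B u + c ≤ s} = {u | B u ≤ s - c} := by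
    ext u
    show B u + c ≤ s ↔ B u ≤ s - c
    constructor <;> intro h <;> linarith
  rw [h]

theorem t_sup (hg : St_gal) (ho : St_ord) : St_sup := by
  have key : ∀ (B C : ℝ → ℝ), Measurable B → Measurable C → ∀ ε : ℝ,
      (∀ t, |B t - C t| ≤ ε) → ∀ t, inc B t ≤ inc C t + ε := by
    intro B C hB hC ε h t
    rw [← inc_add hg C hC]
    refine ho B _ hB (hC.add_const ε) (fun u => ?_) t
    have := (abs_le.1 (h u)).2
    linarith
  intro B C hB hC ε h t
  have h1 := key B C hB hC ε h t
  have h2 := key C B hC hB ε (fun u => by rw [abs_sub_comm]; exact h u) t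
  rw [abs_le]
  constructor <;> linarith

theorem g1_Iic_pos (t : ℝ) : 0 < g1 (Iic t) := by
  rw [pos_iff_ne_zero]
  intro h
  have h1 : (volume : Measure ℝ) (Iic t) = 0 :=
    (gaussianReal_absolutelyContinuous' 0 (v := 1) one_ne_zero) h
  rw [Real.volume_Iic] at h1
  exact ENNReal.top_ne_zero h1

theorem t_clamp (hg : St_gal) : St_clamp := by
  intro B hB a b hab t
  refine eq_of_forall_ge_iff (fun s => ?_)
  rw [hg _ (measurable_const.max (measurable_const.min hB))]
  by_cases has : a ≤ s
  · by_cases hbs : b ≤ s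
    · have h : {u | max a (min b (B u)) ≤ s} = univ := by
        ext u
        simp only [mem_univ, iff_true]
        exact max_le has ((min_le_left _ _).trans hbs)
      rw [h]
      refine iff_of_true (measure_mono (subset_univ _)) (max_le has ((min_le_left _ _).trans hbs))
    · have h : {u | max a (min b (B u)) ≤ s} = {u | B u ≤ s} := by
        ext u
        show max a (min b (B u)) ≤ s ↔ B u ≤ s
        rw [max_le_iff, min_le_iff]
        tauto
      rw [h, ← hg B hB, max_le_iff, min_le_iff]
      tauto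
  · have h : {u | max a (min b (B u)) ≤ s} = ∅ := by
      rw [eq_empty_iff_forall_notMem]
      intro u hu
      exact has ((le_max_left _ _).trans hu)
    rw [h, measure_empty]
    refine iff_of_false (fun hle => ?_) (fun hle => has ((le_max_left _ _).trans hle))
    exact absurd (g1_Iic_pos t) (not_lt.2 hle)

theorem inc_int (hl : St_law) (B : ℝ → ℝ) (hB : Measurable B) (hi : Integrable B g1) :
    Integrable (inc B) g1 ∧ ∫ t, inc B t ∂g1 = ∫ t, B t ∂g1 := by
  obtain ⟨hm, hmap⟩ := hl B hB
  have hme : Measurable (inc B) := hm.measurable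
  constructor
  · have h1 : Integrable (fun y : ℝ => y) (Measure.map B g1) :=
      (integrable_map_measure (measurable_id.aestronglyMeasurable) hB.aemeasurable).2 hi
    rw [← hmap] at h1
    exact (integrable_map_measure (measurable_id.aestronglyMeasurable) hme.aemeasurable).1 h1
  · have h1 : ∫ y, y ∂(Measure.map (inc B) g1) = ∫ t, inc B t ∂g1 :=
      integral_map hme.aemeasurable measurable_id.aestronglyMeasurable
    have h2 : ∫ y, y ∂(Measure.map B g1) = ∫ t, B t ∂g1 :=
      integral_map hB.aemeasurable measurable_id.aestronglyMeasurable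
    rw [← h1, hmap, h2]

theorem int3 {X Y Z : ℝ → ℝ} (hX : Integrable X g1) (hY : Integrable Y g1) (hZ : Integrable Z g1) :
    ∫ t, (2 * X t - Y t - Z t) ∂g1 = 2 * ∫ t, X t ∂g1 - ∫ t, Y t ∂g1 - ∫ t, Z t ∂g1 := by
  have h2 : Integrable (fun t => 2 * X t) g1 := hX.const_mul 2
  have h1 : Integrable (fun t => 2 * X t - Y t) g1 := h2.sub hY
  rw [integral_sub h1 hZ, integral_sub h2 hY, integral_const_mul]

theorem t_l1 (hl : St_law) (ho : St_ord) : St_l1 := by
  intro B C hB hC iB iC
  have hD : Measurable (fun t => max (B t) (C t)) := hB.max hC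
  have iD : Integrable (fun t => max (B t) (C t)) g1 := iB.sup iC
  obtain ⟨jB, eB⟩ := inc_int hl B hB iB
  obtain ⟨jC, eC⟩ := inc_int hl C hC iC
  obtain ⟨jD, eD⟩ := inc_int hl _ hD iD
  have h1 : ∫ t, |inc B t - inc C t| ∂g1 ≤
      ∫ t, (2 * inc (fun t => max (B t) (C t)) t - inc B t - inc C t) ∂g1 := by
    refine integral_mono (jB.sub jC).abs (((jD.const_mul 2).sub jB).sub jC) (fun t => ?_)
    have k1 := ho B _ hB hD (fun t => le_max_left _ _) t
    have k2 := ho C _ hC hD (fun t => le_max_right _ _) t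
    show |inc B t - inc C t| ≤ 2 * inc (fun t => max (B t) (C t)) t - inc B t - inc C t
    rw [abs_le]
    constructor <;> linarith
  refine h1.trans (le_of_eq ?_)
  have h2 : ∫ t, (2 * inc (fun t => max (B t) (C t)) t - inc B t - inc C t) ∂g1 =
      2 * ∫ t, inc (fun t => max (B t) (C t)) t ∂g1 - ∫ t, inc B t ∂g1 - ∫ t, inc C t ∂g1 :=
    int3 jD jB jC
  have h3 : ∫ t, (2 * max (B t) (C t) - B t - C t) ∂g1 =
      2 * ∫ t, max (B t) (C t) ∂g1 - ∫ t, B t ∂g1 - ∫ t, C t ∂g1 := int3 iD iB iC
  rw [h2, eB, eC, eD, ← h3]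
  refine integral_congr_ae (Eventually.of_forall (fun t => ?_))
  show 2 * max (B t) (C t) - B t - C t = |B t - C t|
  rcases le_total (B t) (C t) with h | h
  · rw [max_eq_right h, abs_of_nonpos (by linarith)]
    ring
  · rw [max_eq_left h, abs_of_nonneg (by linarith)]
    ring

end Pool.Agent.Q288.DP
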