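import Pool.Agent.Q288.DP.Stm

/-!
# Project DP: tail bound and Hardy Littlewood inequalities for the Gaussian measure (helper224)
-/

set_option autoImplicit false

namespace Pool.Agent.Q288.DP

open MeasureTheory ProbabilityTheory Set Filter Topology

theorem phi_eq (x : ℝ) : gaussianPDFReal 0 1 x = (Real.sqrt (2 * Real.pi))⁻¹ * Real.exp (-(x ^ 2) / 2) := by
  rw [gaussianPDFReal_def]
  simp

theorem phi_deriv (x : ℝ) : HasDerivAt (fun y => -gaussianPDFReal 0 1 y) (gaussianPDFReal 0 1 x * x) x := by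
  have h1 : HasDerivAt (fun y : ℝ => -(y ^ 2) / 2) (-x) x := by
    have h := ((hasDerivAt_pow 2 x).neg).div_const 2
    have e : -((2 : ℕ) * x ^ (2 - 1)) / 2 = -x := by
      norm_num
      ring
    rw [e] at h
    exact h
  have h2 := (h1.exp.const_mul (Real.sqrt (2 * Real.pi))⁻¹).neg
  have e1 : (fun y => -gaussianPDFReal 0 1 y) =
      (-fun y : ℝ => (Real.sqrt (2 * Real.pi))⁻¹ * Real.exp (-(y ^ 2) / 2)) := by
    funext y
    rw [phi_eq]
    rfl
  have e2 : -((Real.sqrt (2 * Real.pi))⁻¹ * (Real.exp (-(x ^ 2) / 2) * -x)) =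
      gaussianPDFReal 0 1 x * x := by
    rw [phi_eq]
    ring
  rw [e1, ← e2]
  exact h2

theorem phi_lim : Tendsto (fun y => -gaussianPDFReal 0 1 y) atTop (𝓝 0) := by
  have h1 : Tendsto (fun y : ℝ => -(y ^ 2) / 2) atTop atBot := by
    have h : Tendsto (fun y : ℝ => y ^ 2) atTop atTop := tendsto_pow_atTop (by norm_num)
    have h2 := (tendsto_neg_atTop_atBot.comp h).atBot_div_const (show (0 : ℝ) < 2 by norm_num)
    exact h2
  have h2 := ((Real.tendsto_exp_atBot.comp h1).const_mul (Real.sqrt (2 * Real.pi))⁻¹).neg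
  rw [mul_zero, neg_zero] at h2
  refine h2.congr (fun y => ?_)
  rw [phi_eq]
  rfl

theorem g1_setint (f : ℝ → ℝ) {S : Set ℝ} (hS : MeasurableSet S) :
    ∫ t in S, f t ∂g1 = ∫ x in S, gaussianPDFReal 0 1 x * f x := by
  rw [← integral_indicator hS, integral_gaussianReal_eq_integral_smul one_ne_zero, ← integral_indicator hS]
  refine integral_congr_ae (Eventually.of_forall (fun x => ?_))
  by_cases hx : x ∈ S
  · simp [indicator_of_mem hx]
  · simp [indicator_of_notMem hx]

theorem phi_mul_int : Integrable (fun x : ℝ => gaussianPDFReal 0 1 x * x) := by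
  have h := (integrable_mul_exp_neg_mul_sq (show (0 : ℝ) < 1 / 2 by norm_num)).const_mul
    (Real.sqrt (2 * Real.pi))⁻¹
  refine h.congr (Eventually.of_forall (fun x => ?_))
  show (Real.sqrt (2 * Real.pi))⁻¹ * (x * Real.exp (-(1 / 2) * x ^ 2)) = gaussianPDFReal 0 1 x * x
  rw [phi_eq]
  have e : -(1 / 2) * x ^ 2 = -(x ^ 2) / 2 := by ring
  rw [e]
  ring

theorem id_tail (s : ℝ) : ∫ t in Ioi s, t ∂g1 = gaussianPDFReal 0 1 s := by
  rw [g1_setint _ measurableSet_Ioi, integral_Ioi_of_hasDerivAt_of_tendsto' (fun x _ => phi_deriv x)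
    phi_mul_int.integrableOn phi_lim]
  ring

theorem id_int : Integrable (fun t : ℝ => t) g1 := by
  have h := memLp_id_gaussianReal (μ := 0) (v := 1) 1
  exact memLp_one_iff_integrable.1 (by exact_mod_cast h)

theorem mp_int {τ : ℝ → ℝ} (hτ : MeasurePreserving τ g1 g1) {f : ℝ → ℝ} (hf : Integrable f g1) :
    Integrable (fun t => f (τ t)) g1 := by
  have h := hf
  rw [← hτ.map_eq] at h
  exact (integrable_map_measure h.aestronglyMeasurable hτ.measurable.aemeasurable).1 h

theorem mp_eq {τ : ℝ → ℝ} (hτ : MeasurePreserving τ g1 g1) {f : ℝ → ℝ} (hf : Integrable f g1) :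
    ∫ t, f (τ t) ∂g1 = ∫ t, f t ∂g1 := by
  have h := hf.aestronglyMeasurable
  rw [← hτ.map_eq] at h
  conv_rhs => rw [← hτ.map_eq]
  rw [integral_map hτ.measurable.aemeasurable h]

theorem tail_up {τ : ℝ → ℝ} (hτ : MeasurePreserving τ g1 g1) (s : ℝ) :
    ∫ t in Ioi s, τ t ∂g1 ≤ gaussianPDFReal 0 1 s := by
  have i1 : Integrable (fun t => τ t) g1 := mp_int hτ id_int
  have i2 : Integrable (fun t => τ t - s) g1 := i1.sub (integrable_const s)
  have i3 : Integrable (fun t : ℝ => t - s) g1 := id_int.sub (integrable_const s)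
  have e1 : ∫ t in Ioi s, τ t ∂g1 = ∫ t in Ioi s, (τ t - s) ∂g1 + ∫ t in Ioi s, s ∂g1 := by
    rw [← integral_add i2.integrableOn (integrable_const s).integrableOn]
    refine integral_congr_ae (Eventually.of_forall (fun t => ?_))
    show τ t = τ t - s + s
    ring
  have e2 : ∫ t in Ioi s, t ∂g1 = ∫ t in Ioi s, (t - s) ∂g1 + ∫ t in Ioi s, s ∂g1 := by
    rw [← integral_add i3.integrableOn (integrable_const s).integrableOn]
    refine integral_congr_ae (Eventually.of_forall (fun t => ?_))
    show t = t - s + s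
    ring
  rw [← id_tail s, e1, e2]
  refine add_le_add_left ?_ _
  have h1 : ∫ t in Ioi s, (τ t - s) ∂g1 ≤ ∫ t, max (τ t - s) 0 ∂g1 := by
    refine (setIntegral_mono_on i2.integrableOn i2.pos_part.integrableOn measurableSet_Ioi
      (fun t _ => le_max_left _ _)).trans ?_
    exact setIntegral_le_integral i2.pos_part (Eventually.of_forall (fun t => le_max_right _ _))
  have h2 : ∫ t, max (τ t - s) 0 ∂g1 = ∫ t, max (t - s) 0 ∂g1 := mp_eq hτ i3.pos_part
  have h3 : ∫ t in Ioi s, (t - s) ∂g1 = ∫ t, max (t - s) 0 ∂g1 := by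
    rw [← integral_indicator measurableSet_Ioi]
    refine integral_congr_ae (Eventually.of_forall (fun t => ?_))
    by_cases ht : t ∈ Ioi s
    · rw [indicator_of_mem ht]
      exact (max_eq_left (sub_nonneg.2 (le_of_lt ht))).symm
    · rw [indicator_of_notMem ht]
      exact (max_eq_right (sub_nonpos.2 (not_lt.1 ht))).symm
  rw [h3, ← h2]
  exact h1

theorem mp_neg {τ : ℝ → ℝ} (hτ : MeasurePreserving τ g1 g1) : MeasurePreserving (fun t => -τ t) g1 g1 := by
  have h : MeasurePreserving (fun x : ℝ => -x) g1 g1 := by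
    refine ⟨measurable_neg, ?_⟩
    rw [gaussianReal_map_neg, neg_zero]
  exact h.comp hτ

theorem t_tail : St_tail := by
  intro τ hτ s
  have h1 := tail_up hτ s
  have h2 := tail_up (mp_neg hτ) s
  rw [integral_neg] at h2
  rw [abs_le]
  constructor <;> linarith

theorem conv_mono {C : ℝ → ℝ} (hC : Monotone C) (s t : ℝ) :
    C s * (t - s) ≤ (∫ x in (0 : ℝ)..t, C x) - (∫ x in (0 : ℝ)..s, C x) := by
  have hi : ∀ a b : ℝ, IntervalIntegrable C volume a b := fun a b => hC.intervalIntegrable
  rw [intervalIntegral.integral_interval_sub_left (hi 0 t) (hi 0 s)]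
  rcases le_total s t with h | h
  · have h1 : ∫ _x in s..t, C s ≤ ∫ x in s..t, C x :=
      intervalIntegral.integral_mono_on h intervalIntegrable_const (hi s t) (fun x hx => hC hx.1)
    rw [intervalIntegral.integral_const, smul_eq_mul, mul_comm] at h1
    exact h1
  · have h1 : ∫ x in t..s, C x ≤ ∫ _x in t..s, C s :=
      intervalIntegral.integral_mono_on h (hi t s) intervalIntegrable_const (fun x hx => hC hx.2)
    rw [intervalIntegral.integral_const, smul_eq_mul, mul_comm] at h1
    rw [intervalIntegral.integral_symm]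
    linarith

theorem t_hl : St_hl := by
  intro τ C hτ hC hM
  obtain ⟨M, hM⟩ := hM
  have hM0 : 0 ≤ M := (abs_nonneg _).trans (hM 0)
  obtain ⟨J, hJ⟩ : ∃ J : ℝ → ℝ, J = fun t => ∫ x in (0 : ℝ)..t, C x := ⟨_, rfl⟩
  have hconv : ∀ s t, C s * (t - s) ≤ J t - J s := by
    intro s t
    rw [hJ]
    exact conv_mono hC s t
  have hJc : Continuous J := by
    rw [hJ]
    exact intervalIntegral.continuous_primitive (fun a b => hC.intervalIntegrable) 0
  have hJb : ∀ t, |J t| ≤ M * |t| := by
    intro t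
    rw [hJ]
    have h := intervalIntegral.norm_integral_le_of_norm_le_const (a := 0) (b := t) (C := M)
      (f := C) (fun x _ => hM x)
    rw [sub_zero] at h
    exact h
  have iJ : Integrable J g1 := by
    refine Integrable.mono' (id_int.abs.const_mul M) hJc.aestronglyMeasurable
      (Eventually.of_forall hJb)
  have mC : Measurable C := hC.measurable
  have iC : Integrable (fun t => C t * t) g1 :=
    id_int.bdd_mul mC.aestronglyMeasurable (c := M) (Eventually.of_forall hM)
  have iτ : Integrable (fun t => C (τ t) * t) g1 :=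
    id_int.bdd_mul (mC.comp hτ.measurable).aestronglyMeasurable (c := M)
      (Eventually.of_forall (fun t => hM (τ t)))
  have iCτ : Integrable (fun t => C (τ t) * τ t) g1 := mp_int hτ iC
  have e1 : ∫ t, C (τ t) * τ t ∂g1 = ∫ t, C t * t ∂g1 := mp_eq hτ iC
  have e2 : ∫ t, J (τ t) ∂g1 = ∫ t, J t ∂g1 := mp_eq hτ iJ
  have h1 : ∫ t, (C (τ t) * t - C (τ t) * τ t) ∂g1 ≤ ∫ t, (J t - J (τ t)) ∂g1 := by
    refine integral_mono (iτ.sub iCτ) (iJ.sub (mp_int hτ iJ)) (fun t => ?_)
    have := hconv (τ t) t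
    show C (τ t) * t - C (τ t) * τ t ≤ J t - J (τ t)
    linarith
  rw [integral_sub iτ iCτ, integral_sub iJ (mp_int hτ iJ), e1, e2, sub_self] at h1
  have c1 : ∫ t, t * C (τ t) ∂g1 = ∫ t, C (τ t) * t ∂g1 :=
    integral_congr_ae (Eventually.of_forall (fun t => mul_comm _ _))
  have c2 : ∫ t, t * C t ∂g1 = ∫ t, C t * t ∂g1 :=
    integral_congr_ae (Eventually.of_forall (fun t => mul_comm _ _))
  rw [c1, c2]
  linarith

theorem t_hl2 (_hg : St_gal) (hl : St_law) : St_hl2 := by
  intro C S a hC iC hS hSa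
  obtain ⟨hm, hmap⟩ := hl C hC
  have hme : Measurable (inc C) := hm.measurable
  obtain ⟨c, hc⟩ : ∃ c : ℝ, c = inc C a := ⟨_, rfl⟩
  have iI : Integrable (inc C) g1 := by
    have h1 : Integrable (fun y : ℝ => y) (Measure.map C g1) :=
      (integrable_map_measure (measurable_id.aestronglyMeasurable) hC.aemeasurable).2 iC
    rw [← hmap] at h1
    exact (integrable_map_measure (measurable_id.aestronglyMeasurable) hme.aemeasurable).1 h1
  have i2 : Integrable (fun t => C t - c) g1 := iC.sub (integrable_const c)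
  have i3 : Integrable (fun t => inc C t - c) g1 := iI.sub (integrable_const c)
  have e1 : ∫ t in S, C t ∂g1 = ∫ t in S, (C t - c) ∂g1 + ∫ _t in S, c ∂g1 := by
    rw [← integral_add i2.integrableOn (integrable_const c).integrableOn]
    refine integral_congr_ae (Eventually.of_forall (fun t => ?_))
    show C t = C t - c + c
    ring
  have e2 : ∫ t in Ioi a, inc C t ∂g1 = ∫ t in Ioi a, (inc C t - c) ∂g1 + ∫ _t in Ioi a, c ∂g1 := by
    rw [← integral_add i3.integrableOn (integrable_const c).integrableOn]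
    refine integral_congr_ae (Eventually.of_forall (fun t => ?_))
    show inc C t = inc C t - c + c
    ring
  have e3 : ∫ _t in S, c ∂g1 = ∫ _t in Ioi a, c ∂g1 := by
    rw [setIntegral_const, setIntegral_const, measureReal_def, measureReal_def, hSa]
  rw [e1, e2, e3]
  refine add_le_add_left ?_ _
  have h1 : ∫ t in S, (C t - c) ∂g1 ≤ ∫ t, max (C t - c) 0 ∂g1 := by
    refine (setIntegral_mono_on i2.integrableOn i2.pos_part.integrableOn hS
      (fun t _ => le_max_left _ _)).trans ?_
    exact setIntegral_le_integral i2.pos_part (Eventually.of_forall (fun t => le_max_right _ _))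
  have hmm : Measurable (fun y : ℝ => max (y - c) 0) := (measurable_id.sub_const c).max measurable_const
  have h2 : ∫ t, max (C t - c) 0 ∂g1 = ∫ t, max (inc C t - c) 0 ∂g1 := by
    have k1 : ∫ y, max (y - c) 0 ∂(Measure.map C g1) = ∫ t, max (C t - c) 0 ∂g1 :=
      integral_map hC.aemeasurable hmm.aestronglyMeasurable
    have k2 : ∫ y, max (y - c) 0 ∂(Measure.map (inc C) g1) = ∫ t, max (inc C t - c) 0 ∂g1 :=
      integral_map hme.aemeasurable hmm.aestronglyMeasurable
    rw [← k1, ← k2, hmap]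
  have h3 : ∫ t in Ioi a, (inc C t - c) ∂g1 = ∫ t, max (inc C t - c) 0 ∂g1 := by
    rw [← integral_indicator measurableSet_Ioi]
    refine integral_congr_ae (Eventually.of_forall (fun t => ?_))
    by_cases ht : t ∈ Ioi a
    · rw [indicator_of_mem ht]
      refine (max_eq_left (sub_nonneg.2 ?_)).symm
      rw [hc]
      exact hm (le_of_lt ht)
    · rw [indicator_of_notMem ht]
      refine (max_eq_right (sub_nonpos.2 ?_)).symm
      rw [hc]
      exact hm (not_lt.1 ht)
  rw [h3, ← h2]
  exact h1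

end Pool.Agent.Q288.DP
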