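import Pool.Agent.Q288.DP.Stm

/-! Project DP: transport maps (helper96). -/

set_option autoImplicit false

namespace Pool.Agent.Q288.DP

open MeasureTheory ProbabilityTheory Set Filter Topology

namespace TrAux

theorem g1_na : NullSingletonClass g1 := nullSingletonClass_gaussianReal one_ne_zero

theorem cdf_cont (ν : Measure ℝ) [IsProbabilityMeasure ν] [NullSingletonClass ν] :
    Continuous (cdf ν) := by
  rw [continuous_iff_continuousAt]
  intro x
  rw [(monotone_cdf ν).continuousAt_iff_leftLim_eq_rightLim]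
  have h1 : Function.leftLim (cdf ν) x = cdf ν x := by
    have h := (cdf ν).measure_singleton x
    rw [measure_cdf, measure_singleton] at h
    have h2 := ENNReal.ofReal_eq_zero.mp h.symm
    have h3 := (monotone_cdf ν).leftLim_le (le_refl x)
    linarith
  rw [h1, StieltjesFunction.rightLim_eq]

theorem cdf_fix (ν : Measure ℝ) [IsProbabilityMeasure ν] [NullSingletonClass ν]
    (h0 : ∀ᵐ x ∂ν, 0 ≤ x ∧ x ≤ 1) (h : ∀ᵐ x ∂ν, cdf ν x = x) (p : ℝ) (hp0 : 0 ≤ p) (hp1 : p ≤ 1) :
    cdf ν p = p := by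
  have c0 : cdf ν 0 = 0 := by
    rw [cdf_eq_real, measureReal_def]
    have : ν (Iic 0) = 0 := by
      refine measure_mono_null (t := {x | ¬ (0 ≤ x ∧ x ≤ 1)} ∪ {0}) ?_ ?_
      · intro x hx
        rcases eq_or_lt_of_le (mem_Iic.mp hx) with h | h
        · right; exact h
        · left; simp only [mem_setOf_eq]; intro h'; linarith [h'.1]
      · exact measure_union_null h0 (measure_singleton 0)
    rw [this]; rfl
  have c1 : cdf ν 1 = 1 := by
    rw [cdf_eq_real, measureReal_def]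
    have : ν (Iic 1) = 1 := by
      rw [← measure_univ (μ := ν)]
      apply measure_congr
      filter_upwards [h0] with x hx
      apply propext
      exact ⟨fun _ => trivial, fun _ => hx.2⟩
    rw [this]; rfl
  set S : Set ℝ := {x | cdf ν x = x} with hS
  have hcl : IsClosed S := isClosed_eq (cdf_cont ν) continuous_id
  by_contra hp
  have hpS : p ∉ S := hp
  have a1 : sSup (S ∩ Iic p) ∈ S ∩ Iic p :=
    (hcl.inter isClosed_Iic).csSup_mem ⟨0, c0, hp0⟩ ⟨p, fun x hx => hx.2⟩
  have a2 : sInf (S ∩ Ici p) ∈ S ∩ Ici p :=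
    (hcl.inter isClosed_Ici).csInf_mem ⟨1, c1, hp1⟩ ⟨p, fun x hx => hx.2⟩
  set x1 := sSup (S ∩ Iic p) with hx1
  set x2 := sInf (S ∩ Ici p) with hx2
  have b1 : x1 < p := lt_of_le_of_ne a1.2 (fun e => hpS (e ▸ a1.1))
  have b2 : p < x2 := lt_of_le_of_ne a2.2 (fun e => hpS (e ▸ a2.1))
  have hnull : ν (Ioc x1 x2) = 0 := by
    refine measure_mono_null (t := Sᶜ ∪ {x2}) ?_ (measure_union_null h (measure_singleton _))
    intro x hx
    rcases eq_or_lt_of_le hx.2 with e | e
    · right; exact e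
    · left
      intro hxS
      rcases le_total x p with e' | e'
      · have : x ≤ x1 := le_csSup ⟨p, fun x hx => hx.2⟩ ⟨hxS, e'⟩
        exact absurd hx.1 (not_lt.mpr this)
      · have : x2 ≤ x := csInf_le ⟨p, fun x hx => hx.2⟩ ⟨hxS, e'⟩
        exact absurd e (not_lt.mpr this)
  have h5 := (cdf ν).measure_Ioc x1 x2
  rw [measure_cdf, hnull] at h5
  have h6 := ENNReal.ofReal_eq_zero.mp h5.symm
  have e1 : cdf ν x1 = x1 := a1.1
  have e2 : cdf ν x2 = x2 := a2.1
  rw [e1, e2] at h6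
  linarith

/-- a set is null if the upper parts for a total relation are null -/
theorem null_of_half (E : Set ℝ) (hE : MeasurableSet E) (R : ℝ → ℝ → Prop)
    (hR : MeasurableSet {p : ℝ × ℝ | R p.1 p.2}) (ht : ∀ u v, R u v ∨ R v u)
    (h : ∀ t ∈ E, g1 {v | v ∈ E ∧ R t v} = 0) : g1 E = 0 := by
  set W : Set (ℝ × ℝ) := (E ×ˢ E) ∩ {p : ℝ × ℝ | R p.1 p.2} with hW
  have hWm : MeasurableSet W := (hE.prod hE).inter hR
  have hW0 : (g1.prod g1) W = 0 := by
    rw [Measure.measure_prod_null hWm]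
    refine Filter.Eventually.of_forall fun t => ?_
    change g1 (Prod.mk t ⁻¹' W) = 0
    by_cases htE : t ∈ E
    · refine measure_mono_null ?_ (h t htE)
      intro v hv
      exact ⟨hv.1.2, hv.2⟩
    · have : Prod.mk t ⁻¹' W = ∅ := by
        ext v
        simp only [mem_preimage, mem_empty_iff_false, iff_false]
        intro hv
        exact htE hv.1.1
      rw [this, measure_empty]
  have hW1 : (g1.prod g1) (Prod.swap ⁻¹' W) = 0 := by
    have := (Measure.measurePreserving_swap (μ := g1) (ν := g1)).measure_preimage hWm.nullMeasurableSet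
    rw [this]; exact hW0
  have hsub : E ×ˢ E ⊆ W ∪ Prod.swap ⁻¹' W := by
    rintro ⟨u, v⟩ huv
    rcases ht u v with h1 | h1
    · left; exact ⟨huv, h1⟩
    · right; exact ⟨⟨huv.2, huv.1⟩, h1⟩
  have h0 : (g1.prod g1) (E ×ˢ E) = 0 := measure_mono_null hsub (measure_union_null hW0 hW1)
  rw [Measure.prod_prod] at h0
  simpa using h0

/-- the lower set of the point `t` for the lexicographic order of the pairs `(B u, u)` -/
def Hs (B : ℝ → ℝ) (t : ℝ) : Set ℝ := {u | B u < B t ∨ (B u = B t ∧ u ≤ t)}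

/-- the rank -/
noncomputable def Hr (B : ℝ → ℝ) (t : ℝ) : ℝ := g1.real (Hs B t)

theorem Hs_meas {B : ℝ → ℝ} (hB : Measurable B) (t : ℝ) : MeasurableSet (Hs B t) := by
  unfold Hs
  have h1 : MeasurableSet {u | B u < B t} := measurableSet_lt hB measurable_const
  have h2 : MeasurableSet {u | B u = B t} := measurableSet_eq_fun hB measurable_const
  have h3 : MeasurableSet {u : ℝ | u ≤ t} := measurableSet_Iic
  exact h1.union (h2.inter h3)

theorem Hs_meas2 {B : ℝ → ℝ} (hB : Measurable B) : MeasurableSet {p : ℝ × ℝ | p.2 ∈ Hs B p.1} := by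
  unfold Hs
  have h1 : MeasurableSet {p : ℝ × ℝ | B p.2 < B p.1} :=
    measurableSet_lt (hB.comp measurable_snd) (hB.comp measurable_fst)
  have h2 : MeasurableSet {p : ℝ × ℝ | B p.2 = B p.1} :=
    measurableSet_eq_fun (hB.comp measurable_snd) (hB.comp measurable_fst)
  have h3 : MeasurableSet {p : ℝ × ℝ | p.2 ≤ p.1} := measurableSet_le measurable_snd measurable_fst
  exact h1.union (h2.inter h3)

theorem Hs_meas3 {B : ℝ → ℝ} (hB : Measurable B) : MeasurableSet {p : ℝ × ℝ | p.1 ∈ Hs B p.2} :=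
  (Hs_meas2 hB).preimage measurable_swap

theorem Hs_total (B : ℝ → ℝ) (u v : ℝ) : u ∈ Hs B v ∨ v ∈ Hs B u := by
  unfold Hs
  simp only [mem_setOf_eq]
  rcases lt_trichotomy (B u) (B v) with h | h | h
  · left; left; exact h
  · rcases le_total u v with h' | h'
    · left; right; exact ⟨h, h'⟩
    · right; right; exact ⟨h.symm, h'⟩
  · right; left; exact h

theorem Hs_trans {B : ℝ → ℝ} {u t : ℝ} (h : u ∈ Hs B t) : Hs B u ⊆ Hs B t := by
  intro v hv
  unfold Hs at *
  simp only [mem_setOf_eq] at *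
  rcases h with h | ⟨h, h'⟩ <;> rcases hv with g | ⟨g, g'⟩
  · left; linarith
  · left; linarith
  · left; linarith
  · right; exact ⟨by linarith, by linarith⟩

theorem Hs_antisymm {B : ℝ → ℝ} {u t : ℝ} (h : u ∈ Hs B t) (h' : t ∈ Hs B u) : u = t := by
  unfold Hs at *
  simp only [mem_setOf_eq] at *
  rcases h with h | ⟨h, h1⟩ <;> rcases h' with g | ⟨g, g1⟩ <;> linarith

theorem Hr_meas {B : ℝ → ℝ} (hB : Measurable B) : Measurable (Hr B) := by
  have h := measurable_measure_prodMk_left (ν := g1) (Hs_meas2 hB)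
  exact h.ennreal_toReal

theorem Hr_nonneg (B : ℝ → ℝ) (t : ℝ) : 0 ≤ Hr B t := measureReal_nonneg

theorem Hr_le_one (B : ℝ → ℝ) (t : ℝ) : Hr B t ≤ 1 := measureReal_le_one

theorem Hr_null {B : ℝ → ℝ} (hB : Measurable B) {s t : ℝ} (h : s ∈ Hs B t) (e : Hr B s = Hr B t) :
    g1 (Hs B t \ Hs B s) = 0 := by
  rw [measure_diff (Hs_trans h) (Hs_meas hB s).nullMeasurableSet (measure_ne_top _ _)]
  have : g1 (Hs B s) = g1 (Hs B t) := by
    rw [← ENNReal.toReal_eq_toReal_iff' (measure_ne_top _ _) (measure_ne_top _ _)]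
    exact e
  rw [this, tsub_self]

theorem Hr_atom {B : ℝ → ℝ} (hB : Measurable B) (p : ℝ) : g1 {t | Hr B t = p} = 0 := by
  have := g1_na
  set D : Set ℝ := {t | Hr B t = p} with hD
  have hDm : MeasurableSet D := measurableSet_eq_fun (Hr_meas hB) measurable_const
  rcases D.eq_empty_or_nonempty with h | ⟨t0, ht0⟩
  · rw [h, measure_empty]
  have ht0' : Hr B t0 = p := ht0
  have hF : MeasurableSet (D ∩ {v | t0 ∈ Hs B v}) := by
    have : MeasurableSet {v | t0 ∈ Hs B v} := (Hs_meas2 hB).preimage (f := fun v => (v, t0)) (by fun_prop)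
    exact hDm.inter this
  have hE : MeasurableSet (D ∩ Hs B t0) := hDm.inter (Hs_meas hB t0)
  have e1 : g1 (D ∩ Hs B t0) = 0 := by
    refine null_of_half _ hE (fun t v => t ∈ Hs B v) (Hs_meas3 hB) (fun u v => Hs_total B u v) ?_
    intro t' ht'
    have ht2 : Hr B t' = p := ht'.1
    refine measure_mono_null (t := {t'} ∪ (Hs B t0 \ Hs B t')) ?_
      (measure_union_null (measure_singleton _) (Hr_null hB ht'.2 (ht2.trans ht0'.symm)))
    rintro v ⟨hv, hv'⟩
    by_cases h : v ∈ Hs B t'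
    · left
      exact Hs_antisymm h hv'
    · right
      exact ⟨hv.2, h⟩
  have e2 : g1 (D ∩ {v | t0 ∈ Hs B v}) = 0 := by
    refine null_of_half _ hF (fun t v => v ∈ Hs B t) (Hs_meas2 hB) (fun u v => Hs_total B v u) ?_
    intro t' ht'
    have ht2 : Hr B t' = p := ht'.1
    refine measure_mono_null (t := {t0} ∪ (Hs B t' \ Hs B t0)) ?_
      (measure_union_null (measure_singleton _) (Hr_null hB ht'.2 (ht0'.trans ht2.symm)))
    rintro v ⟨hv, hv'⟩
    by_cases h : v ∈ Hs B t0
    · left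
      exact Hs_antisymm h hv.2
    · right
      exact ⟨hv', h⟩
  refine measure_mono_null (t := (D ∩ Hs B t0) ∪ (D ∩ {v | t0 ∈ Hs B v})) ?_ (measure_union_null e1 e2)
  intro v hv
  rcases Hs_total B v t0 with h | h
  · left; exact ⟨hv, h⟩
  · right; exact ⟨hv, h⟩

/-- the law of the rank -/
noncomputable def nu (B : ℝ → ℝ) : Measure ℝ := g1.map (Hr B)

theorem nu_prob {B : ℝ → ℝ} (hB : Measurable B) : IsProbabilityMeasure (nu B) :=
  Measure.isProbabilityMeasure_map (Hr_meas hB).aemeasurable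

theorem nu_atom {B : ℝ → ℝ} (hB : Measurable B) : NullSingletonClass (nu B) := by
  refine ⟨fun x => ?_⟩
  unfold nu
  rw [Measure.map_apply (Hr_meas hB) (measurableSet_singleton x)]
  exact Hr_atom hB x

theorem nu_fix {B : ℝ → ℝ} (hB : Measurable B) (t : ℝ) : cdf (nu B) (Hr B t) = Hr B t := by
  have := nu_prob hB
  have e : cdf (nu B) (Hr B t) = g1.real {u | Hr B u ≤ Hr B t} := by
    rw [cdf_eq_real]
    unfold nu
    rw [map_measureReal_apply (Hr_meas hB) measurableSet_Iic]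
    rfl
  rw [e]
  apply le_antisymm
  · have h1 : g1.real {u | Hr B u ≤ Hr B t} ≤ g1.real (Hs B t ∪ {u | Hr B u = Hr B t}) := by
      apply measureReal_mono _ (measure_ne_top _ _)
      intro u hu
      have hu' : Hr B u ≤ Hr B t := hu
      by_cases h : u ∈ Hs B t
      · left; exact h
      · right
        have h2 : t ∈ Hs B u := (Hs_total B u t).resolve_left h
        have h3 : Hr B t ≤ Hr B u := measureReal_mono (Hs_trans h2) (measure_ne_top _ _)
        exact le_antisymm hu' h3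
    refine h1.trans ((measureReal_union_le _ _).trans ?_)
    have h2 : g1.real {u | Hr B u = Hr B t} = 0 := by
      rw [measureReal_def, Hr_atom hB]; rfl
    rw [h2, add_zero]
    exact le_refl _
  · apply measureReal_mono _ (measure_ne_top _ _)
    intro u hu
    exact measureReal_mono (Hs_trans hu) (measure_ne_top _ _)

theorem nu_cdf {B : ℝ → ℝ} (hB : Measurable B) (p : ℝ) (h0 : 0 ≤ p) (h1 : p ≤ 1) :
    g1 {t | Hr B t ≤ p} = ENNReal.ofReal p := by
  have := nu_prob hB
  have := nu_atom hB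
  have h2 : ∀ᵐ x ∂(nu B), 0 ≤ x ∧ x ≤ 1 := by
    have hm : MeasurableSet {x : ℝ | 0 ≤ x ∧ x ≤ 1} := measurableSet_Icc
    exact (ae_map_iff (μ := g1) (Hr_meas hB).aemeasurable hm).mpr
      (Filter.Eventually.of_forall fun t => ⟨Hr_nonneg B t, Hr_le_one B t⟩)
  have h3 : ∀ᵐ x ∂(nu B), cdf (nu B) x = x := by
    have hm : MeasurableSet {x : ℝ | cdf (nu B) x = x} :=
      measurableSet_eq_fun (monotone_cdf _).measurable measurable_id
    exact (ae_map_iff (μ := g1) (Hr_meas hB).aemeasurable hm).mpr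
      (Filter.Eventually.of_forall fun t => nu_fix hB t)
  have h4 := cdf_fix (nu B) h2 h3 p h0 h1
  have h5 := ofReal_cdf (nu B) p
  rw [h4] at h5
  rw [h5]
  unfold nu
  rw [Measure.map_apply (Hr_meas hB) measurableSet_Iic]
  rfl

/-- the quantile function of the Gaussian -/
noncomputable def qg (y : ℝ) : ℝ := sInf {x | y ≤ cdf g1 x}

theorem qg_spec (y : ℝ) (h0 : 0 < y) (h1 : y < 1) :
    (∀ x, qg y ≤ x ↔ y ≤ cdf g1 x) ∧ cdf g1 (qg y) = y := by
  have := g1_na
  have hc : Continuous (cdf g1) := cdf_cont g1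
  obtain ⟨x0, hx0⟩ := ((tendsto_cdf_atBot g1).eventually (gt_mem_nhds h0)).exists
  obtain ⟨x1, hx1⟩ := ((tendsto_cdf_atTop g1).eventually (lt_mem_nhds h1)).exists
  have hbd : BddBelow {x | y ≤ cdf g1 x} := by
    refine ⟨x0, fun x hx => ?_⟩
    by_contra h
    have h' : cdf g1 x ≤ cdf g1 x0 := monotone_cdf g1 (not_le.mp h).le
    have hx' : y ≤ cdf g1 x := hx
    linarith
  have hcl : IsClosed {x | y ≤ cdf g1 x} := isClosed_le continuous_const hc
  have hmem : y ≤ cdf g1 (qg y) := hcl.csInf_mem ⟨x1, hx1.le⟩ hbd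
  have ha : ∀ x, qg y ≤ x ↔ y ≤ cdf g1 x := by
    intro x
    constructor
    · intro h
      exact hmem.trans (monotone_cdf g1 h)
    · intro h
      exact csInf_le hbd h
  refine ⟨ha, le_antisymm ?_ hmem⟩
  obtain ⟨x, hx⟩ := mem_range_of_exists_le_of_exists_ge hc ⟨x0, hx0.le⟩ ⟨x1, hx1.le⟩
  have h3 : qg y ≤ x := (ha x).mpr hx.ge
  exact (monotone_cdf g1 h3).trans hx.le

open Classical in
/-- the transport map -/
noncomputable def tau (B : ℝ → ℝ) (t : ℝ) : ℝ :=
  if 0 < Hr B t ∧ Hr B t < 1 then qg (Hr B t) else 0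

theorem ae_good {B : ℝ → ℝ} (hB : Measurable B) : ∀ᵐ t ∂g1, 0 < Hr B t ∧ Hr B t < 1 := by
  have h0 : ∀ᵐ t ∂g1, Hr B t ≠ 0 := by
    rw [ae_iff]; simpa using Hr_atom hB 0
  have h1 : ∀ᵐ t ∂g1, Hr B t ≠ 1 := by
    rw [ae_iff]; simpa using Hr_atom hB 1
  filter_upwards [h0, h1] with t a b
  exact ⟨lt_of_le_of_ne (Hr_nonneg B t) (Ne.symm a), lt_of_le_of_ne (Hr_le_one B t) b⟩

theorem tau_meas {B : ℝ → ℝ} (hB : Measurable B) : Measurable (tau B) := by
  classical
  apply measurable_of_Iic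
  intro x
  have hG : MeasurableSet {t | 0 < Hr B t ∧ Hr B t < 1} :=
    (measurableSet_lt measurable_const (Hr_meas hB)).inter (measurableSet_lt (Hr_meas hB) measurable_const)
  have hL : MeasurableSet {t | Hr B t ≤ cdf g1 x} := measurableSet_le (Hr_meas hB) measurable_const
  have hK : MeasurableSet {t : ℝ | (0 : ℝ) ≤ x} := MeasurableSet.const _
  have e : tau B ⁻¹' Iic x = ({t | 0 < Hr B t ∧ Hr B t < 1} ∩ {t | Hr B t ≤ cdf g1 x}) ∪
      ({t | 0 < Hr B t ∧ Hr B t < 1}ᶜ ∩ {t : ℝ | (0 : ℝ) ≤ x}) := by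
    ext t
    simp only [mem_preimage, mem_Iic, mem_union, mem_inter_iff, mem_compl_iff]
    by_cases h : 0 < Hr B t ∧ Hr B t < 1
    · have e1 : tau B t = qg (Hr B t) := if_pos h
      rw [e1, (qg_spec _ h.1 h.2).1 x]
      constructor
      · intro h'; left; exact ⟨h, h'⟩
      · rintro (⟨_, h'⟩ | ⟨h', _⟩)
        · exact h'
        · exact absurd h h'
    · have e1 : tau B t = 0 := if_neg h
      rw [e1]
      constructor
      · intro h'; right; exact ⟨h, h'⟩
      · rintro (⟨h', _⟩ | ⟨_, h'⟩)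
        · exact absurd h' h
        · exact h'
  rw [e]
  exact (hG.inter hL).union (hG.compl.inter hK)

theorem tau_mp {B : ℝ → ℝ} (hB : Measurable B) : MeasurePreserving (tau B) g1 g1 := by
  refine ⟨tau_meas hB, ?_⟩
  have := Measure.isProbabilityMeasure_map (μ := g1) (tau_meas hB).aemeasurable
  apply Measure.ext_of_Iic
  intro x
  rw [Measure.map_apply (tau_meas hB) measurableSet_Iic]
  have e : g1 (tau B ⁻¹' Iic x) = g1 {t | Hr B t ≤ cdf g1 x} := by
    apply measure_congr
    filter_upwards [ae_good hB] with t ht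
    apply propext
    have e1 : tau B t = qg (Hr B t) := if_pos ht
    change tau B t ≤ x ↔ Hr B t ≤ cdf g1 x
    rw [e1, (qg_spec _ ht.1 ht.2).1 x]
  rw [e, nu_cdf hB _ (cdf_nonneg g1 x) (cdf_le_one g1 x), ofReal_cdf]

/-- two ordered functions with the same law agree almost everywhere -/
theorem eq_of_le {X Y : ℝ → ℝ} (hX : Measurable X) (hY : Measurable Y) (h : ∀ᵐ t ∂g1, X t ≤ Y t)
    (hl : g1.map X = g1.map Y) : ∀ᵐ t ∂g1, X t = Y t := by
  have h1 : ∀ q : ℚ, g1 {t | X t ≤ q ∧ (q : ℝ) < Y t} = 0 := by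
    intro q
    have e1 : g1 {t | X t ≤ q} = g1 {t | Y t ≤ q} := by
      have := congrArg (fun m => m (Iic (q : ℝ))) hl
      simp only [Measure.map_apply hX measurableSet_Iic, Measure.map_apply hY measurableSet_Iic] at this
      exact this
    have hYm : MeasurableSet {t | Y t ≤ q} := measurableSet_le hY measurable_const
    have hXm : MeasurableSet {t | X t ≤ q} := measurableSet_le hX measurable_const
    have e2 : g1 ({t | X t ≤ q} ∩ {t | Y t ≤ q}) = g1 {t | Y t ≤ q} := by
      apply measure_congr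
      filter_upwards [h] with t ht
      apply propext
      change (X t ≤ q ∧ Y t ≤ q) ↔ Y t ≤ q
      exact ⟨fun h => h.2, fun h => ⟨ht.trans h, h⟩⟩
    have e3 := measure_inter_add_diff {t | X t ≤ q} hYm (μ := g1)
    rw [e2, e1] at e3
    have e4 : g1 ({t | X t ≤ q} \ {t | Y t ≤ q}) = 0 := by
      have hfin : g1 {t | Y t ≤ q} ≠ ⊤ := measure_ne_top _ _
      have e5 : g1 {t | Y t ≤ q} + g1 ({t | X t ≤ q} \ {t | Y t ≤ q}) = g1 {t | Y t ≤ q} + 0 := by
        rw [e3, add_zero]
      exact (ENNReal.add_right_inj hfin).mp e5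
    refine measure_mono_null ?_ e4
    rintro t ⟨a, b⟩
    exact ⟨a, not_le.mpr b⟩
  have h2 : ∀ᵐ t ∂g1, ∀ q : ℚ, ¬ (X t ≤ q ∧ (q : ℝ) < Y t) := by
    rw [ae_all_iff]
    intro q
    rw [ae_iff]
    simpa using h1 q
  filter_upwards [h, h2] with t a b
  refine le_antisymm a ?_
  by_contra hc
  obtain ⟨q, hq1, hq2⟩ := exists_rat_btwn (not_le.mp hc)
  exact b q ⟨hq1.le, hq2⟩

end TrAux

open TrAux

theorem t_tr (hg : St_gal) (hl : St_law) : St_tr := by
  intro B hB _
  have hmp := tau_mp hB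
  have him : Measurable (inc B) := (hl B hB).1.measurable
  refine ⟨tau B, hmp, ?_⟩
  apply eq_of_le (him.comp (tau_meas hB)) hB
  · filter_upwards [ae_good hB] with t ht
    change inc B (tau B t) ≤ B t
    have e1 : tau B t = qg (Hr B t) := if_pos ht
    rw [hg B hB, e1, ← ofReal_cdf, (qg_spec _ ht.1 ht.2).2]
    unfold Hr
    rw [measureReal_def, ENNReal.ofReal_toReal (measure_ne_top _ _)]
    apply measure_mono
    intro u hu
    rcases hu with h | ⟨h, _⟩
    · exact h.le
    · exact h.le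
  · have e : g1.map (inc B ∘ tau B) = (g1.map (tau B)).map (inc B) :=
      (Measure.map_map him (tau_meas hB)).symm
    change g1.map (inc B ∘ tau B) = g1.map B
    rw [e, hmp.map_eq, (hl B hB).2]

end Pool.Agent.Q288.DP
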