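import Pool.Agent.Q288.DP.SLip

set_option autoImplicit false

/-!
Project DP: fibrewise domination implies domination of the integrals.
-/

namespace Pool.Agent.Q288.DP

open MeasureTheory ProbabilityTheory Set Filter Topology

theorem meas_sqrt_sum {Ω Λ : Type} [MeasurableSpace Ω] [Fintype Λ] (w : Λ → Ω → ℝ)
    (hw : ∀ l, Measurable (w l)) : Measurable (fun x => Real.sqrt (∑ l, (w l x) ^ 2)) :=
  (Finset.measurable_fun_sum _ (fun l _ => (hw l).pow_const 2)).sqrt

theorem bdd_sqrt_sum {Ω Λ : Type} [Fintype Λ] (w : Λ → Ω → ℝ) (M : ℝ)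
    (hw : ∀ l x, |w l x| ≤ M) (x : Ω) :
    |Real.sqrt (∑ l, (w l x) ^ 2)| ≤ Real.sqrt (∑ _l : Λ, M ^ 2) := by
  rw [abs_of_nonneg (Real.sqrt_nonneg _)]
  refine Real.sqrt_le_sqrt (Finset.sum_le_sum (fun l _ => ?_))
  rw [← sq_abs]
  exact pow_le_pow_left₀ (abs_nonneg _) (hw l x) 2

theorem int_sqrt_sum {Ω Λ : Type} [MeasurableSpace Ω] (μ : Measure Ω) [IsFiniteMeasure μ]
    [Fintype Λ] (w : Λ → Ω → ℝ) (M : ℝ) (hw : ∀ l, Measurable (w l))
    (hb : ∀ l x, |w l x| ≤ M) : Integrable (fun x => Real.sqrt (∑ l, (w l x) ^ 2)) μ := by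
  refine Integrable.of_bound (meas_sqrt_sum w hw).aestronglyMeasurable
    (Real.sqrt (∑ _l : Λ, M ^ 2)) (Eventually.of_forall (fun x => ?_))
  rw [Real.norm_eq_abs]
  exact bdd_sqrt_sum w M hb x

theorem t_u1 (h1 : St_tr) (h2 : St_dual) (hu : St_upd) : St_u1 := by
  intro ι _ _ i A hA Λ _ w w' M hw hw' hb hb' hdom
  have hb'' : ∀ l x, |w' l x| ≤ M := fun l x => by
    rw [abs_of_nonneg (hb' l x).1]; exact (hb' l x).2
  have i1 := int_sqrt_sum (gG ι) w' M hw' hb''
  have i2 := int_sqrt_sum (gG ι) w M hw hb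
  rw [upd_integral hu i _ i1, upd_integral hu i _ i2]
  refine integral_mono_ae (upd_integrable hu i _ i1).integral_prod_left
    (upd_integrable hu i _ i2).integral_prod_left ?_
  have hall : ∀ᵐ x ∂(gG ι), ∀ l, ∀ τ : ℝ → ℝ, Tr (fun t => A (Function.update x i t)) τ →
    ∀ ψ : ℝ → ℝ, Measurable ψ → (∀ t, 0 ≤ ψ t ∧ ψ t ≤ 1) →
      ∫ t, ψ t * w' l (Function.update x i t) ∂g1 ≤
        ∫ t, ψ (τ t) * w l (Function.update x i t) ∂g1 := by
    rw [ae_all_iff]
    exact fun l => hdom l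
  filter_upwards [hall] with x hx
  obtain ⟨K, hK⟩ := hA
  have hfl := fibre_lip hK x i
  obtain ⟨τ, hτ⟩ := h1 (fun t => A (Function.update x i t)) hfl.continuous.measurable
    (lip1_integrable hfl)
  exact h2 Λ (fun l t => w l (Function.update x i t)) (fun l t => w' l (Function.update x i t)) τ M
    hτ.mp (fun l => (hw l).comp (measurable_update x)) (fun l => (hw' l).comp (measurable_update x))
    (fun l t => hb l _) (fun l t => hb' l _) (fun l ψ hψ hψ' => hx l τ hτ ψ hψ hψ')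

end Pool.Agent.Q288.DP
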