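import Pool.Agent.Q288.DP.U0

set_option autoImplicit false
set_option linter.unusedSectionVars false

/-!
Project DP: the component in the sorting direction.
-/

namespace Pool.Agent.Q288.DP

open MeasureTheory ProbabilityTheory Set Filter Topology

theorem bdd_int (f : ℝ → ℝ) (hf : Measurable f) (M : ℝ) (hb : ∀ t, |f t| ≤ M) :
    Integrable f g1 :=
  Integrable.of_bound hf.aestronglyMeasurable M
    (Eventually.of_forall (fun t => by rw [Real.norm_eq_abs]; exact hb t))

theorem psi_mul_bound {p f M : ℝ} (h0 : 0 ≤ p) (h1 : p ≤ 1) (hf : |f| ≤ M) : |p * f| ≤ M := by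
  rw [abs_mul, abs_of_nonneg h0]
  calc p * |f| ≤ 1 * |f| := mul_le_mul_of_nonneg_right h1 (abs_nonneg _)
    _ = |f| := one_mul _
    _ ≤ M := hf

theorem t_u4 (h0 : St_u0) (hd : St_der) (hu : St_upd) (hs : St_slip) : St_u4 := by
  intro ι _ _ i A hA c a b hc ha hb hab hinv
  have hA' := hs ι i A hA
  have h1 := upd_ae hu i (lip_ae_diff hA)
  have h2 := upd_ae hu i (lip_ae_diff hA')
  obtain ⟨K, hK⟩ := hA
  obtain ⟨K', hK'⟩ := hA'
  filter_upwards [h0 ι i A ⟨K, hK⟩ c hc, h1, h2] with x hx0 hx1 hx2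
  intro τ hτ ψ hψ hψ1
  set e : ι → ℝ := Pi.single i 1 with he
  -- the functions
  set Ai : ℝ → ℝ := fun t => fderiv ℝ A (Function.update x i t) e with hAi
  set Ac : ℝ → ℝ := fun t => fderiv ℝ A (Function.update x i t) c with hAc
  set Si : ℝ → ℝ := fun t => fderiv ℝ (srt i A) (Function.update x i t) e with hSi
  set Sc : ℝ → ℝ := fun t => fderiv ℝ (srt i A) (Function.update x i t) c with hSc
  have mAi : Measurable Ai := (fderiv_meas A e).comp (measurable_update x)
  have mAc : Measurable Ac := (fderiv_meas A c).comp (measurable_update x)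
  have mSi : Measurable Si := (fderiv_meas (srt i A) e).comp (measurable_update x)
  have mSc : Measurable Sc := (fderiv_meas (srt i A) c).comp (measurable_update x)
  have bAi : ∀ t, |Ai t| ≤ K * ‖e‖ := fun t => fderiv_bound hK _ _
  have bAc : ∀ t, |Ac t| ≤ K * ‖c‖ := fun t => fderiv_bound hK _ _
  have bSi : ∀ t, |Si t| ≤ K' * ‖e‖ := fun t => fderiv_bound hK' _ _
  have bSc : ∀ t, |Sc t| ≤ K' * ‖c‖ := fun t => fderiv_bound hK' _ _
  have hβ : ∀ t, fderiv ℝ A (Function.update x i t) (a • e + b • c) = a * Ai t + b * Ac t := by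
    intro t; simp [hAi, hAc, map_add, map_smul]
  have hρ : ∀ t, fderiv ℝ (srt i A) (Function.update x i t) (b • e - a • c) =
      b * Si t - a * Sc t := by
    intro t; simp [hSi, hSc, map_sub, map_smul]
  have hdB : ∀ᵐ t ∂g1, deriv (fun t => A (Function.update x i t)) t = Ai t := by
    filter_upwards [hx1] with t ht
    have := ht.hasFDerivAt.comp_hasDerivAt t (hasDerivAt_update x i t)
    exact this.deriv
  have hdS : ∀ᵐ t ∂g1, deriv (inc (fun t => A (Function.update x i t))) t = Si t := by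
    filter_upwards [hx2] with t ht
    have := ht.hasFDerivAt.comp_hasDerivAt t (hasDerivAt_update x i t)
    have h3 : (srt i A ∘ Function.update x i) = inc (fun t => A (Function.update x i t)) := by
      funext s
      exact srt_update i A x s
    rw [h3] at this
    exact this.deriv
  have hzero : ∀ᵐ t ∂g1, b * Ai t - a * Ac t = 0 := by
    filter_upwards [hx1] with t ht
    have h3 := ht.hasFDerivAt.hasLineDerivAt (b • e - a • c)
    have h4 : HasDerivAt (fun h : ℝ => A (Function.update x i t + h • (b • e - a • c))) 0 0 := by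
      have : (fun h : ℝ => A (Function.update x i t + h • (b • e - a • c))) =
        fun _ => A (Function.update x i t) := by
        funext h
        exact hinv _ h
      rw [this]
      exact hasDerivAt_const _ _
    have h5 := HasDerivAt.unique h3 h4
    simp only [map_sub, map_smul, smul_eq_mul] at h5
    exact h5
  have hτm := hτ.mp.measurable
  have hfl := fibre_lip hK x i
  -- the two sided bound for test functions
  have key : ∀ φ : ℝ → ℝ, Measurable φ → (∀ t, 0 ≤ φ t ∧ φ t ≤ 1) →
      0 ≤ ∫ t, φ t * (b * Si t - a * Sc t) ∂g1 ∧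
      ∫ t, φ t * (b * Si t - a * Sc t) ∂g1 ≤
        ∫ t, φ (τ t) * (2 * a * b * (-(min (a * Ai t + b * Ac t) 0))) ∂g1 := by
    intro φ hφ hφ1
    have J1 := hx0 τ hτ φ hφ (fun t => by rw [abs_of_nonneg (hφ1 t).1]; exact (hφ1 t).2)
    have J2 := hd _ τ φ K hfl hτ hφ hφ1
    have E1 : ∫ t, φ (τ t) * deriv (fun t => A (Function.update x i t)) t ∂g1 =
        ∫ t, φ (τ t) * Ai t ∂g1 := by
      refine integral_congr_ae ?_
      filter_upwards [hdB] with t ht
      rw [ht]
    have E2 : ∫ t, φ t * deriv (inc (fun t => A (Function.update x i t))) t ∂g1 =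
        ∫ t, φ t * Si t ∂g1 := by
      refine integral_congr_ae ?_
      filter_upwards [hdS] with t ht
      rw [ht]
    have E3 : ∫ t, φ (τ t) * |deriv (fun t => A (Function.update x i t)) t| ∂g1 =
        ∫ t, φ (τ t) * |Ai t| ∂g1 := by
      refine integral_congr_ae ?_
      filter_upwards [hdB] with t ht
      rw [ht]
    rw [E1, E2, E3] at J2
    have I1 : Integrable (fun t => φ t * Si t) g1 :=
      bdd_int _ (hφ.mul mSi) _ (fun t => psi_mul_bound (hφ1 t).1 (hφ1 t).2 (bSi t))
    have I2 : Integrable (fun t => φ t * Sc t) g1 :=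
      bdd_int _ (hφ.mul mSc) _ (fun t => psi_mul_bound (hφ1 t).1 (hφ1 t).2 (bSc t))
    have I3 : Integrable (fun t => φ (τ t) * Ai t) g1 :=
      bdd_int _ ((hφ.comp hτm).mul mAi) _
        (fun t => psi_mul_bound (hφ1 _).1 (hφ1 _).2 (bAi t))
    have I4 : Integrable (fun t => φ (τ t) * Ac t) g1 :=
      bdd_int _ ((hφ.comp hτm).mul mAc) _
        (fun t => psi_mul_bound (hφ1 _).1 (hφ1 _).2 (bAc t))
    have I5 : Integrable (fun t => φ (τ t) * |Ai t|) g1 :=
      bdd_int _ ((hφ.comp hτm).mul mAi.abs) _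
        (fun t => psi_mul_bound (hφ1 _).1 (hφ1 _).2 (by rw [abs_abs]; exact bAi t))
    have E4 : ∫ t, φ t * (b * Si t - a * Sc t) ∂g1 =
        b * ∫ t, φ t * Si t ∂g1 - a * ∫ t, φ (τ t) * Ac t ∂g1 := by
      have J1' : ∫ t, φ (τ t) * Ac t ∂g1 = ∫ t, φ t * Sc t ∂g1 := J1
      rw [J1', ← integral_const_mul, ← integral_const_mul, ← integral_sub (I1.const_mul b)
        (I2.const_mul a)]
      refine integral_congr_ae (Eventually.of_forall (fun t => ?_))
      simp only
      ring
    rw [E4]
    constructor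
    · have E5 : b * ∫ t, φ (τ t) * Ai t ∂g1 - a * ∫ t, φ (τ t) * Ac t ∂g1 = 0 := by
        rw [← integral_const_mul, ← integral_const_mul, ← integral_sub (I3.const_mul b)
          (I4.const_mul a)]
        rw [integral_eq_zero_of_ae]
        filter_upwards [hzero] with t ht
        simp only [Pi.zero_apply]
        calc b * (φ (τ t) * Ai t) - a * (φ (τ t) * Ac t) = φ (τ t) * (b * Ai t - a * Ac t) := by ring
          _ = 0 := by rw [ht, mul_zero]
      have := mul_le_mul_of_nonneg_left J2.1 hb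
      linarith
    · have E6 : b * ∫ t, φ (τ t) * |Ai t| ∂g1 - a * ∫ t, φ (τ t) * Ac t ∂g1 =
          ∫ t, φ (τ t) * (2 * a * b * (-(min (a * Ai t + b * Ac t) 0))) ∂g1 := by
        rw [← integral_const_mul, ← integral_const_mul, ← integral_sub (I5.const_mul b)
          (I4.const_mul a)]
        refine integral_congr_ae ?_
        filter_upwards [hzero] with t ht
        have f1 : Ai t = a * (a * Ai t + b * Ac t) := by
          have : Ai t = (a ^ 2 + b ^ 2) * Ai t := by rw [hab, one_mul]
          calc Ai t = (a ^ 2 + b ^ 2) * Ai t := this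
            _ = a * (a * Ai t + b * Ac t) + b * (b * Ai t - a * Ac t) := by ring
            _ = a * (a * Ai t + b * Ac t) := by rw [ht]; ring
        have f2 : Ac t = b * (a * Ai t + b * Ac t) := by
          have : Ac t = (a ^ 2 + b ^ 2) * Ac t := by rw [hab, one_mul]
          calc Ac t = (a ^ 2 + b ^ 2) * Ac t := this
            _ = b * (a * Ai t + b * Ac t) - a * (b * Ai t - a * Ac t) := by ring
            _ = b * (a * Ai t + b * Ac t) := by rw [ht]; ring
        show b * (φ (τ t) * |Ai t|) - a * (φ (τ t) * Ac t) =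
          φ (τ t) * (2 * a * b * (-(min (a * Ai t + b * Ac t) 0)))
        set β := a * Ai t + b * Ac t with hβdef
        have f3 : |Ai t| = a * |β| := by
          rw [f1, abs_mul, abs_of_nonneg ha]
        have f4 : a * b * (|β| - β) = 2 * a * b * (-(min β 0)) := by
          rcases le_total β 0 with h | h
          · rw [min_eq_left h, abs_of_nonpos h]; ring
          · rw [min_eq_right h, abs_of_nonneg h]; ring
        rw [← f4, f3]
        calc b * (φ (τ t) * (a * |β|)) - a * (φ (τ t) * Ac t)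
            = b * (φ (τ t) * (a * |β|)) - a * (φ (τ t) * (b * β)) := by rw [← f2]
          _ = φ (τ t) * (a * b * (|β| - β)) := by ring
      have := mul_le_mul_of_nonneg_left J2.2 hb
      linarith
  -- apply to the two parts
  set ρ : ℝ → ℝ := fun t => b * Si t - a * Sc t with hρdef
  have mρ : Measurable ρ := (mSi.const_mul b).sub (mSc.const_mul a)
  have bρ : ∀ t, |ρ t| ≤ b * (K' * ‖e‖) + a * (K' * ‖c‖) := by
    intro t
    have e1 := abs_sub (b * Si t) (a * Sc t)
    rw [abs_mul, abs_mul, abs_of_nonneg hb, abs_of_nonneg ha] at e1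
    have e2 := mul_le_mul_of_nonneg_left (bSi t) hb
    have e3 := mul_le_mul_of_nonneg_left (bSc t) ha
    exact e1.trans (add_le_add e2 e3)
  set P : ℝ → ℝ := fun t => if 0 ≤ ρ t then 1 else 0 with hP
  set N : ℝ → ℝ := fun t => if 0 ≤ ρ t then 0 else 1 with hN
  have mP : Measurable P := Measurable.ite (measurableSet_le measurable_const mρ)
    measurable_const measurable_const
  have mN : Measurable N := Measurable.ite (measurableSet_le measurable_const mρ)
    measurable_const measurable_const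
  have P01 : ∀ t, 0 ≤ P t ∧ P t ≤ 1 := by
    intro t; simp only [hP]; split_ifs <;> simp
  have N01 : ∀ t, 0 ≤ N t ∧ N t ≤ 1 := by
    intro t; simp only [hN]; split_ifs <;> simp
  have ψP : ∀ t, 0 ≤ ψ t * P t ∧ ψ t * P t ≤ 1 := fun t =>
    ⟨mul_nonneg (hψ1 t).1 (P01 t).1, mul_le_one₀ (hψ1 t).2 (P01 t).1 (P01 t).2⟩
  have ψN : ∀ t, 0 ≤ ψ t * N t ∧ ψ t * N t ≤ 1 := fun t =>
    ⟨mul_nonneg (hψ1 t).1 (N01 t).1, mul_le_one₀ (hψ1 t).2 (N01 t).1 (N01 t).2⟩
  have kP := (key (fun t => ψ t * P t) (hψ.mul mP) ψP).2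
  have kN := (key (fun t => ψ t * N t) (hψ.mul mN) ψN).1
  have iP : Integrable (fun t => (ψ t * P t) * ρ t) g1 :=
    bdd_int _ ((hψ.mul mP).mul mρ) _ (fun t => psi_mul_bound (ψP t).1 (ψP t).2 (bρ t))
  have iN : Integrable (fun t => (ψ t * N t) * ρ t) g1 :=
    bdd_int _ ((hψ.mul mN).mul mρ) _ (fun t => psi_mul_bound (ψN t).1 (ψN t).2 (bρ t))
  have split : ∫ t, ψ t * |ρ t| ∂g1 =
      ∫ t, (ψ t * P t) * ρ t ∂g1 - ∫ t, (ψ t * N t) * ρ t ∂g1 := by
    rw [← integral_sub iP iN]
    refine integral_congr_ae (Eventually.of_forall (fun t => ?_))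
    simp only [hP, hN]
    split_ifs with h
    · rw [abs_of_nonneg h]; ring
    · rw [abs_of_neg (not_le.1 h)]; ring
  have hw : ∀ t, 0 ≤ 2 * a * b * (-(min (a * Ai t + b * Ac t) 0)) := by
    intro t
    have : 0 ≤ -(min (a * Ai t + b * Ac t) 0) := by
      rw [neg_nonneg]; exact min_le_right _ _
    positivity
  have bw : ∀ t, |2 * a * b * (-(min (a * Ai t + b * Ac t) 0))| ≤
      2 * a * b * (a * (K * ‖e‖) + b * (K * ‖c‖)) := by
    intro t
    rw [abs_mul, abs_of_nonneg (by positivity : 0 ≤ 2 * a * b), abs_neg]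
    refine mul_le_mul_of_nonneg_left ?_ (by positivity)
    have e1 := abs_add_le (a * Ai t) (b * Ac t)
    rw [abs_mul, abs_mul, abs_of_nonneg ha, abs_of_nonneg hb] at e1
    have e2 := mul_le_mul_of_nonneg_left (bAi t) ha
    have e3 := mul_le_mul_of_nonneg_left (bAc t) hb
    have e4 : |min (a * Ai t + b * Ac t) 0| ≤ |a * Ai t + b * Ac t| := by
      rcases le_total (a * Ai t + b * Ac t) 0 with h | h
      · rw [min_eq_left h]
      · rw [min_eq_right h, abs_zero]; exact abs_nonneg _
    linarith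
  have mw : Measurable (fun t => 2 * a * b * (-(min (a * Ai t + b * Ac t) 0))) :=
    ((((mAi.const_mul a).add (mAc.const_mul b)).min measurable_const).neg).const_mul (2 * a * b)
  have final : ∫ t, (ψ (τ t) * P (τ t)) * (2 * a * b * (-(min (a * Ai t + b * Ac t) 0))) ∂g1 ≤
      ∫ t, ψ (τ t) * (2 * a * b * (-(min (a * Ai t + b * Ac t) 0))) ∂g1 := by
    refine integral_mono ?_ ?_ (fun t => ?_)
    · exact bdd_int _ (((hψ.mul mP).comp hτm).mul mw) _
        (fun t => psi_mul_bound (ψP _).1 (ψP _).2 (bw t))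
    · exact bdd_int _ ((hψ.comp hτm).mul mw) _
        (fun t => psi_mul_bound (hψ1 _).1 (hψ1 _).2 (bw t))
    · simp only
      refine mul_le_mul_of_nonneg_right ?_ (hw t)
      calc ψ (τ t) * P (τ t) ≤ ψ (τ t) * 1 :=
            mul_le_mul_of_nonneg_left (P01 _).2 (hψ1 _).1
        _ = ψ (τ t) := mul_one _
  have g1' : ∫ t, ψ t * |fderiv ℝ (srt i A) (Function.update x i t) (b • e - a • c)| ∂g1 =
      ∫ t, ψ t * |ρ t| ∂g1 := by
    refine integral_congr_ae (Eventually.of_forall (fun t => ?_))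
    simp only [hρ t, hρdef]
  have g2' : ∫ t, ψ (τ t) * (2 * a * b *
      (-(min (fderiv ℝ A (Function.update x i t) (a • e + b • c)) 0))) ∂g1 =
      ∫ t, ψ (τ t) * (2 * a * b * (-(min (a * Ai t + b * Ac t) 0))) ∂g1 := by
    refine integral_congr_ae (Eventually.of_forall (fun t => ?_))
    simp only [hβ t]
  rw [g1', g2', split]
  linarith

end Pool.Agent.Q288.DP
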