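import Pool.Agent.Q288.DP.Stm

/-!
# Project DP: invariance of the product Gaussian measure (helper224)
-/

set_option autoImplicit false

namespace Pool.Agent.Q288.DP

open MeasureTheory ProbabilityTheory Set Filter Topology

theorem t_upd : St_upd := by
  intro ι _ _ i
  have hm : Measurable (fun p : (ι → ℝ) × ℝ => Function.update p.1 i p.2) := by
    rw [measurable_pi_iff]
    intro j
    by_cases h : j = i
    · subst h
      simp only [Function.update_self]
      exact measurable_snd
    · simp only [Function.update_of_ne h]
      exact (measurable_pi_apply j).comp measurable_fst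
  refine ⟨hm, ?_⟩
  symm
  refine Measure.pi_eq (fun s hs => ?_)
  rw [Measure.map_apply hm (MeasurableSet.univ_pi hs)]
  have e : (fun p : (ι → ℝ) × ℝ => Function.update p.1 i p.2) ⁻¹' (univ.pi s) =
      (univ.pi (Function.update s i univ)) ×ˢ (s i) := by
    ext p
    simp only [mem_preimage, Set.mem_pi, mem_univ, true_implies, mem_prod]
    constructor
    · intro h
      constructor
      · intro j
        by_cases hj : j = i
        · subst hj
          rw [Function.update_self]
          trivial
        · have := h j
          rw [Function.update_of_ne hj] at this ⊢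
          exact this
      · have := h i
        rw [Function.update_self] at this
        exact this
    · rintro ⟨h1, h2⟩ j
      by_cases hj : j = i
      · subst hj
        rw [Function.update_self]
        exact h2
      · have := h1 j
        rw [Function.update_of_ne hj] at this ⊢
        exact this
  rw [e, Measure.prod_prod, Measure.pi_pi, ← Finset.mul_prod_erase Finset.univ _ (Finset.mem_univ i),
    ← Finset.mul_prod_erase Finset.univ (fun j => g1 (s j)) (Finset.mem_univ i), Function.update_self,
    measure_univ, one_mul, mul_comm]
  congr 1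
  refine Finset.prod_congr rfl (fun j hj => ?_)
  rw [Function.update_of_ne (Finset.ne_of_mem_erase hj)]

theorem t_gm : St_gm := by
  intro ι κ _ _ _ _ M hM
  have hf : Measurable (fun x : κ → ℝ => M.mulVec x) :=
    (LinearMap.continuous_of_finiteDimensional (Matrix.mulVecLin M)).measurable
  refine ⟨hf, ?_⟩
  have key : (Measure.map (fun x => M.mulVec x) (gG κ)).map (WithLp.toLp 2) =
      (gG ι).map (WithLp.toLp 2) := by
    apply Measure.ext_of_charFun (E := EuclideanSpace ℝ ι)
    ext t
    have h := charFun_stdGaussian (E := EuclideanSpace ℝ κ) (WithLp.toLp 2 (M.transpose.mulVec t.ofLp))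
    rw [← map_pi_eq_stdGaussian, charFun_apply, integral_map (Measurable.aemeasurable (by fun_prop))
      (Measurable.aestronglyMeasurable (by fun_prop))] at h
    rw [map_pi_eq_stdGaussian, charFun_stdGaussian, charFun_apply,
      Measure.map_map (by fun_prop) hf, integral_map (Measurable.aemeasurable (by fun_prop))
      (Measurable.aestronglyMeasurable (by fun_prop))]
    have e1 : ∀ x : κ → ℝ, inner ℝ ((WithLp.toLp 2 ∘ fun x => M.mulVec x) x : EuclideanSpace ℝ ι) t =
        inner ℝ (WithLp.toLp 2 x : EuclideanSpace ℝ κ) (WithLp.toLp 2 (M.transpose.mulVec t.ofLp)) := by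
      intro x
      rw [EuclideanSpace.inner_eq_star_dotProduct, EuclideanSpace.inner_eq_star_dotProduct]
      simp only [star_trivial, Function.comp_apply]
      rw [Matrix.mulVec_transpose, Matrix.dotProduct_mulVec]
    have e2 : ‖(WithLp.toLp 2 (M.transpose.mulVec t.ofLp) : EuclideanSpace ℝ κ)‖ ^ 2 = ‖t‖ ^ 2 := by
      rw [← real_inner_self_eq_norm_sq, ← real_inner_self_eq_norm_sq,
        EuclideanSpace.inner_eq_star_dotProduct, EuclideanSpace.inner_eq_star_dotProduct]
      simp only [star_trivial]
      rw [Matrix.dotProduct_mulVec, Matrix.vecMul_transpose, Matrix.mulVec_mulVec, hM, Matrix.one_mulVec]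
    simp_rw [e1]
    rw [h]
    norm_cast
    rw [e2]
  exact (MeasurableEquiv.toLp 2 (ι → ℝ)).map_measurableEquiv_injective key

end Pool.Agent.Q288.DP
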