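import Pool.Agent.Q288.DP.Bas

set_option autoImplicit false
set_option linter.unusedSectionVars false

/-!
Project DP: one sorting step does not increase the integral of the mixed gradient norm (V1), and the
iteration over all left coordinates (V2).
-/

namespace Pool.Agent.Q288.DP

open MeasureTheory ProbabilityTheory Set Filter Topology

namespace V1

section
variable {ι : Type} [Fintype ι] [DecidableEq ι]

theorem Dom_smul {i : ι} {A w w' : (ι → ℝ) → ℝ} (h : Dom i A w w') {c : ℝ} (hc : 0 ≤ c) :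
    Dom i A (fun x => c * w x) (fun x => c * w' x) := by
  unfold Dom at h ⊢
  filter_upwards [h] with x hx τ hτ ψ hψ hψ'
  have h1 := hx τ hτ ψ hψ hψ'
  have e1 : ∫ t, ψ t * (c * w' (Function.update x i t)) ∂g1 =
      c * ∫ t, ψ t * w' (Function.update x i t) ∂g1 := by
    rw [← integral_const_mul]
    exact integral_congr_ae (Eventually.of_forall fun t => by ring)
  have e2 : ∫ t, ψ (τ t) * (c * w (Function.update x i t)) ∂g1 =
      c * ∫ t, ψ (τ t) * w (Function.update x i t) ∂g1 := by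
    rw [← integral_const_mul]
    exact integral_congr_ae (Eventually.of_forall fun t => by ring)
  rw [e1, e2]
  exact mul_le_mul_of_nonneg_left h1 hc

theorem fderiv_bd {K : NNReal} {A : (ι → ℝ) → ℝ} (hA : LipschitzWith K A) (x c : ι → ℝ) :
    |fderiv ℝ A x c| ≤ K * ‖c‖ := by
  have h1 := (fderiv ℝ A x).le_opNorm c
  rw [Real.norm_eq_abs] at h1
  exact h1.trans (mul_le_mul_of_nonneg_right (norm_fderiv_le_of_lipschitz ℝ hA) (norm_nonneg _))

theorem negmin_bd {z B : ℝ} (h : |z| ≤ B) : 0 ≤ -(min z 0) ∧ -(min z 0) ≤ B := by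
  have hB : 0 ≤ B := (abs_nonneg z).trans h
  constructor
  · rw [neg_nonneg]; exact min_le_right _ _
  · rw [neg_le]
    exact le_min (neg_le_of_abs_le h) (by linarith)

end

variable {n : ℕ}

theorem dv_inl (a b : ℝ) {k l : Fin n} (h : l ≠ k) : dv a b l (Sum.inl k) = 0 := by
  simp [dv, h.symm]

theorem yv_inl (a b : ℝ) {k l : Fin n} (h : l ≠ k) : yv a b l (Sum.inl k) = 0 := by
  simp [yv, h.symm]

end V1

open V1

theorem t_v1 (hu1 : St_u1) (hu2 : St_u2) (hu4 : St_u4) (hs : St_slip) : St_v1 := by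
  classical
  intro n a b ha hb hab A hA P k hk hinv
  set S := srt (Sum.inl k : Fin n ⊕ Fin n) A with hS
  have hSL : Lip S := hs _ _ _ hA
  obtain ⟨K, hK⟩ := hA
  obtain ⟨K', hK'⟩ := hSL
  have hA : Lip A := ⟨K, hK⟩
  let w : Fin n → (Fin n ⊕ Fin n → ℝ) → ℝ := fun l x =>
    if l ∈ P then |fderiv ℝ A x (dv a b l)| else 2 * a * b * (-(min (fderiv ℝ A x (yv a b l)) 0))
  let w' : Fin n → (Fin n ⊕ Fin n → ℝ) → ℝ := fun l x =>
    if l ∈ insert k P then |fderiv ℝ S x (dv a b l)|
      else 2 * a * b * (-(min (fderiv ℝ S x (yv a b l)) 0))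
  have hc : 0 ≤ 2 * a * b := by positivity
  -- measurability
  have mw : ∀ l, Measurable (w l) := by
    intro l
    by_cases hl : l ∈ P
    · have : w l = fun x => |fderiv ℝ A x (dv a b l)| := by funext x; simp [w, hl]
      rw [this]
      exact (measurable_fderiv_apply_const ℝ A _).abs
    · have : w l = fun x => 2 * a * b * (-(min (fderiv ℝ A x (yv a b l)) 0)) := by
        funext x; simp [w, hl]
      rw [this]
      exact (((measurable_fderiv_apply_const ℝ A _).min measurable_const).neg).const_mul _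
  have mw' : ∀ l, Measurable (w' l) := by
    intro l
    by_cases hl : l ∈ insert k P
    · have : w' l = fun x => |fderiv ℝ S x (dv a b l)| := by
        funext x; simp only [w']; rw [if_pos hl]
      rw [this]
      exact (measurable_fderiv_apply_const ℝ S _).abs
    · have : w' l = fun x => 2 * a * b * (-(min (fderiv ℝ S x (yv a b l)) 0)) := by
        funext x; simp only [w']; rw [if_neg hl]
      rw [this]
      exact (((measurable_fderiv_apply_const ℝ S _).min measurable_const).neg).const_mul _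
  -- bounds
  let N : ℝ := ∑ l : Fin n, (‖dv a b l‖ + 2 * a * b * ‖yv a b l‖)
  have hN1 : ∀ l : Fin n, ‖dv a b l‖ ≤ N := by
    intro l
    have h1 := Finset.single_le_sum (f := fun l : Fin n => ‖dv a b l‖ + 2 * a * b * ‖yv a b l‖)
      (fun i _ => by positivity) (Finset.mem_univ l)
    have h2 : 0 ≤ 2 * a * b * ‖yv a b l‖ := by positivity
    linarith
  have hN2 : ∀ l : Fin n, 2 * a * b * ‖yv a b l‖ ≤ N := by
    intro l
    have h1 := Finset.single_le_sum (f := fun l : Fin n => ‖dv a b l‖ + 2 * a * b * ‖yv a b l‖)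
      (fun i _ => by positivity) (Finset.mem_univ l)
    have h2 : 0 ≤ ‖dv a b l‖ := norm_nonneg _
    linarith
  let M : ℝ := (K + K') * N
  have gen : ∀ (F : (Fin n ⊕ Fin n → ℝ) → ℝ) (L : NNReal), LipschitzWith L F → (L : ℝ) ≤ K + K' →
      ∀ l x, |fderiv ℝ F x (dv a b l)| ≤ M ∧ 0 ≤ 2 * a * b * (-(min (fderiv ℝ F x (yv a b l)) 0)) ∧
        2 * a * b * (-(min (fderiv ℝ F x (yv a b l)) 0)) ≤ M := by
    intro F L hF hL l x
    have hNn : 0 ≤ N := (norm_nonneg _).trans (hN1 l)
    have h1 := fderiv_bd hF x (dv a b l)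
    have h2 := negmin_bd (fderiv_bd hF x (yv a b l))
    refine ⟨h1.trans (mul_le_mul hL (hN1 l) (norm_nonneg _) (by positivity)), mul_nonneg hc h2.1, ?_⟩
    calc 2 * a * b * (-(min (fderiv ℝ F x (yv a b l)) 0)) ≤ 2 * a * b * (L * ‖yv a b l‖) :=
          mul_le_mul_of_nonneg_left h2.2 hc
      _ = L * (2 * a * b * ‖yv a b l‖) := by ring
      _ ≤ M := mul_le_mul hL (hN2 l) (by positivity) (by positivity)
  have bw : ∀ l x, |w l x| ≤ M := by
    intro l x
    obtain ⟨h1, h2, h3⟩ := gen A K hK (by linarith [K'.2]) l x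
    by_cases hl : l ∈ P
    · simp only [w, if_pos hl, abs_abs]; exact h1
    · simp only [w, if_neg hl]; rw [abs_of_nonneg h2]; exact h3
  have bw' : ∀ l x, 0 ≤ w' l x ∧ w' l x ≤ M := by
    intro l x
    obtain ⟨h1, h2, h3⟩ := gen S K' hK' (by linarith [K.2]) l x
    by_cases hl : l ∈ insert k P
    · simp only [w', if_pos hl]; exact ⟨abs_nonneg _, h1⟩
    · simp only [w', if_neg hl]; exact ⟨h2, h3⟩
  -- domination
  have dom : ∀ l, Dom (Sum.inl k : Fin n ⊕ Fin n) A (w l) (w' l) := by
    intro l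
    by_cases hlk : l = k
    · subst hlk
      have e1 : w l = fun x => 2 * a * b * (-(min (fderiv ℝ A x (yv a b l)) 0)) := by
        funext x; simp only [w, if_neg hk]
      have e2 : w' l = fun x => |fderiv ℝ S x (dv a b l)| := by
        funext x; simp only [w']; rw [if_pos (Finset.mem_insert_self _ _)]
      rw [e1, e2]
      have := hu4 (Fin n ⊕ Fin n) (Sum.inl l) A hA (Pi.single (Sum.inr l) 1) a b (by simp) ha hb hab
        (fun x h => hinv l hk x h)
      exact this
    · by_cases hl : l ∈ P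
      · have e1 : w l = fun x => |fderiv ℝ A x (dv a b l)| := by
          funext x; simp only [w, if_pos hl]
        have e2 : w' l = fun x => |fderiv ℝ S x (dv a b l)| := by
          funext x; simp only [w']; rw [if_pos (Finset.mem_insert_of_mem hl)]
        rw [e1, e2]
        exact (hu2 (Fin n ⊕ Fin n) (Sum.inl k) A hA (dv a b l) (dv_inl a b hlk)).1
      · have e1 : w l = fun x => 2 * a * b * (-(min (fderiv ℝ A x (yv a b l)) 0)) := by
          funext x; simp only [w, if_neg hl]
        have hl' : l ∉ insert k P := by simp [hlk, hl]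
        have e2 : w' l = fun x => 2 * a * b * (-(min (fderiv ℝ S x (yv a b l)) 0)) := by
          funext x; simp only [w']; rw [if_neg hl']
        rw [e1, e2]
        exact Dom_smul (hu2 (Fin n ⊕ Fin n) (Sum.inl k) A hA (yv a b l) (yv_inl a b hlk)).2 hc
  have key := hu1 (Fin n ⊕ Fin n) (Sum.inl k) A hA (Fin n) w w' M mw mw' bw bw' dom
  have e1 : ∀ x, WW a b (insert k P) S x = Real.sqrt (∑ l, (w' l x) ^ 2) := by
    intro x
    unfold WW
    congr 1
    refine Finset.sum_congr rfl fun l _ => ?_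
    by_cases hl : l ∈ insert k P
    · simp only [w']; rw [if_pos hl, if_pos hl]
    · simp only [w']; rw [if_neg hl, if_neg hl]
  have e2 : ∀ x, WW a b P A x = Real.sqrt (∑ l, (w l x) ^ 2) := by
    intro x
    unfold WW
    congr 1
    refine Finset.sum_congr rfl fun l _ => ?_
    by_cases hl : l ∈ P
    · simp only [w]; rw [if_pos hl, if_pos hl]
    · simp only [w]; rw [if_neg hl, if_neg hl]
  simp only [e1, e2]
  exact key

namespace V1

/-- iteration over a list of left coordinates -/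
theorem iter (h : St_v1) (hs : St_slip) (n : ℕ) (a b : ℝ) (ha : 0 ≤ a) (hb : 0 ≤ b)
    (hab : a ^ 2 + b ^ 2 = 1) (L : List (Fin n)) : ∀ (A : (Fin n ⊕ Fin n → ℝ) → ℝ), Lip A →
    ∀ P : Finset (Fin n), L.Nodup → (∀ l ∈ L, l ∉ P) →
    (∀ l, l ∉ P → ∀ x (h : ℝ), A (x + h • dv a b l) = A x) →
    ∫ x, WW a b (P ∪ L.toFinset) (sl (L.map Sum.inl) A) x ∂(gG (Fin n ⊕ Fin n)) ≤
      ∫ x, WW a b P A x ∂(gG (Fin n ⊕ Fin n)) := by
  classical
  induction L with
  | nil =>
    intro A hA P _ _ _
    simp [sl_nil]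
  | cons k L ih =>
    intro A hA P hnd hP hinv
    rw [List.map_cons, sl_cons]
    have hk : k ∉ P := hP k (by simp)
    have h1 := h n a b ha hb hab A hA P k hk hinv
    have h2 := ih (srt (Sum.inl k) A) (hs _ _ _ hA) (insert k P) (List.nodup_cons.1 hnd).2
      (by
        intro l hl
        rw [Finset.mem_insert, not_or]
        refine ⟨?_, hP l (by simp [hl])⟩
        rintro rfl
        exact (List.nodup_cons.1 hnd).1 hl)
      (by
        intro l hl x t
        rw [Finset.mem_insert, not_or] at hl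
        refine srt_inv (Sum.inl k) A (t • dv a b l) ?_ (fun x => hinv l hl.2 x t) x
        rw [Pi.smul_apply, dv_inl a b hl.1, smul_zero])
    have e1 : P ∪ (k :: L).toFinset = insert k P ∪ L.toFinset := by
      ext l
      simp only [List.toFinset_cons, Finset.mem_union, Finset.mem_insert]
      tauto
    rw [e1]
    exact h2.trans h1

/-- the density of the standard Gaussian is at most one -/
theorem g1_le : g1 ≤ (volume : Measure ℝ) := by
  rw [show g1 = gaussianReal 0 1 from rfl, gaussianReal_of_var_ne_zero _ one_ne_zero]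
  have h1 : ∀ x : ℝ, gaussianPDF 0 1 x ≤ 1 := by
    intro x
    rw [gaussianPDF]
    refine ENNReal.ofReal_le_one.2 ?_
    rw [gaussianPDFReal]
    have h2 : (Real.sqrt (2 * Real.pi * (1 : NNReal)))⁻¹ ≤ 1 := by
      refine inv_le_one_of_one_le₀ ?_
      rw [Real.one_le_sqrt]
      have := Real.pi_gt_three
      simp only [NNReal.coe_one, mul_one]
      linarith
    have h3 : Real.exp (-(x - 0) ^ 2 / (2 * (1 : NNReal))) ≤ 1 := by
      rw [Real.exp_le_one_iff]
      have : 0 ≤ (x - 0) ^ 2 := sq_nonneg _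
      simp only [NNReal.coe_one, mul_one]
      linarith
    calc _ ≤ (1 : ℝ) * 1 := mul_le_mul h2 h3 (Real.exp_pos _).le zero_le_one
      _ = 1 := one_mul 1
  calc volume.withDensity (gaussianPDF 0 1) ≤ volume.withDensity 1 :=
        withDensity_mono (Eventually.of_forall h1)
    _ = volume := withDensity_one

theorem pi_mono' {ι : Type} [Fintype ι] (μ ν : ι → Measure ℝ) (h : ∀ i, μ i ≤ ν i) :
    Measure.pi μ ≤ Measure.pi ν := by
  refine Measure.le_iff.2 fun s hs => ?_
  rw [Measure.pi, Measure.pi, toMeasure_apply _ _ hs, toMeasure_apply _ _ hs]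
  have h1 : OuterMeasure.pi (fun i => (μ i).toOuterMeasure) ≤
      OuterMeasure.pi (fun i => (ν i).toOuterMeasure) := by
    rw [OuterMeasure.le_pi]
    intro t _
    refine (OuterMeasure.pi_pi_le _ _).trans ?_
    exact Finset.prod_le_prod' fun i _ => h i (t i)
  exact h1 s

theorem gG_ac (ι : Type) [Fintype ι] : gG ι ≪ (volume : Measure (ι → ℝ)) := by
  refine Measure.absolutelyContinuous_of_le ?_
  rw [volume_pi]
  exact pi_mono' _ _ fun _ => g1_le

theorem lip_ae_diff {ι : Type} [Fintype ι] {g : (ι → ℝ) → ℝ} (hg : Lip g) :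
    ∀ᵐ y ∂(gG ι), DifferentiableAt ℝ g y := by
  obtain ⟨K, hK⟩ := hg
  exact (gG_ac ι).ae_le (hK.ae_differentiableAt)

/-- the linear map `x ↦ a v + b w` -/
noncomputable def TT {n : ℕ} (a b : ℝ) : (Fin n ⊕ Fin n → ℝ) →L[ℝ] (Fin n → ℝ) :=
  ContinuousLinearMap.pi fun k => a • ContinuousLinearMap.proj (Sum.inl k) +
    b • ContinuousLinearMap.proj (Sum.inr k)

theorem TT_apply {n : ℕ} (a b : ℝ) (x : Fin n ⊕ Fin n → ℝ) (k : Fin n) :
    TT a b x k = a * x (Sum.inl k) + b * x (Sum.inr k) := by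
  simp [TT]

theorem G2_eq {n : ℕ} (a b : ℝ) (g : (Fin n → ℝ) → ℝ) (x : Fin n ⊕ Fin n → ℝ) :
    G2 a b g x = g (TT a b x) := by
  have : TT a b x = fun k => a * x (Sum.inl k) + b * x (Sum.inr k) := by
    funext k
    rw [TT_apply]
  rw [this]
  rfl

theorem TT_dv {n : ℕ} (a b : ℝ) (l : Fin n) : TT a b (dv a b l) = 0 := by
  funext k
  rw [TT_apply]
  by_cases hk : k = l
  · subst hk; simp [dv]; ring
  · simp [dv, hk]

theorem TT_yv {n : ℕ} (a b : ℝ) (hab : a ^ 2 + b ^ 2 = 1) (l : Fin n) :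
    TT a b (yv a b l) = Pi.single l 1 := by
  funext k
  rw [TT_apply]
  by_cases hk : k = l
  · subst hk; simp [yv]; linarith
  · simp [yv, hk]

theorem TT_mp (hg : St_gm) {n : ℕ} (a b : ℝ) (hab : a ^ 2 + b ^ 2 = 1) :
    MeasurePreserving (fun x : Fin n ⊕ Fin n → ℝ => TT a b x) (gG (Fin n ⊕ Fin n))
      (gG (Fin n)) := by
  classical
  let M : Matrix (Fin n) (Fin n ⊕ Fin n) ℝ :=
    Matrix.fromCols (a • (1 : Matrix (Fin n) (Fin n) ℝ)) (b • (1 : Matrix (Fin n) (Fin n) ℝ))
  have hM : M * M.transpose = 1 := by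
    rw [Matrix.transpose_fromCols, Matrix.fromCols_mul_fromRows]
    simp only [Matrix.transpose_smul, Matrix.transpose_one, Matrix.smul_mul, Matrix.mul_smul,
      Matrix.one_mul, smul_smul, ← add_smul]
    rw [← sq, ← sq, hab, one_smul]
  have h1 := hg (Fin n) (Fin n ⊕ Fin n) M hM
  have h2 : (fun x : Fin n ⊕ Fin n → ℝ => M.mulVec x) = fun x => TT a b x := by
    funext x k
    rw [TT_apply]
    simp [M, Matrix.mulVec, dotProduct, Matrix.fromCols, Matrix.one_apply, Finset.sum_ite_eq]
  rwa [h2] at h1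

theorem nm_meas {n : ℕ} (g : (Fin n → ℝ) → ℝ) : Measurable (nm g) := by
  unfold nm
  refine Real.continuous_sqrt.measurable.comp (Finset.measurable_sum _ fun i _ => ?_)
  exact ((measurable_fderiv_apply_const ℝ g _).min measurable_const).pow_const 2

end V1

theorem t_v2 (h : St_v1) (h2 : St_slip) (h3 : St_gm) : St_v2 := by
  classical
  intro n a b ha hb hab g hg
  have hc : 0 ≤ 2 * a * b := by positivity
  have hTl : ∃ K : NNReal, LipschitzWith K (TT (n := n) a b) := ⟨_, (TT (n := n) a b).lipschitz⟩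
  have hG2 : Lip (G2 a b g) := by
    obtain ⟨K, hK⟩ := hg
    obtain ⟨K', hK'⟩ := hTl
    refine ⟨K * K', ?_⟩
    have : G2 a b g = g ∘ (TT a b) := by funext x; exact G2_eq a b g x
    rw [this]
    exact hK.comp hK'
  have hinv : ∀ l, l ∉ (∅ : Finset (Fin n)) → ∀ x (t : ℝ),
      G2 a b g (x + t • dv a b l) = G2 a b g x := by
    intro l _ x t
    rw [G2_eq, G2_eq, map_add, map_smul, TT_dv, smul_zero, add_zero]
  have h4 := iter h h2 n a b ha hb hab (List.finRange n) (G2 a b g) hG2 ∅ (List.nodup_finRange n)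
    (by simp) hinv
  have hu : (∅ : Finset (Fin n)) ∪ (List.finRange n).toFinset = Finset.univ := by
    ext l; simp
  rw [hu] at h4
  have e1 : ∀ x, WW a b Finset.univ (sl ((List.finRange n).map Sum.inl) (G2 a b g)) x =
      Real.sqrt (∑ l, (fderiv ℝ (HH a b g) x (dv a b l)) ^ 2) := by
    intro x
    unfold WW HH
    congr 1
    refine Finset.sum_congr rfl fun l _ => ?_
    rw [if_pos (Finset.mem_univ l), sq_abs]
  have e2 : ∀ᵐ x ∂(gG (Fin n ⊕ Fin n)), WW a b ∅ (G2 a b g) x = 2 * a * b * nm g (TT a b x) := by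
    have h5 := (TT_mp h3 a b hab).quasiMeasurePreserving.ae (lip_ae_diff hg)
    filter_upwards [h5] with x hx
    have h6 : ∀ l, fderiv ℝ (G2 a b g) x (yv a b l) = fderiv ℝ g (TT a b x) (Pi.single l 1) := by
      intro l
      have h7 : G2 a b g = g ∘ (TT a b) := by funext x; exact G2_eq a b g x
      rw [h7, fderiv_comp x hx (TT a b).differentiableAt, ContinuousLinearMap.fderiv,
        ContinuousLinearMap.comp_apply, TT_yv a b hab]
    unfold WW nm
    have h8 : ∀ l, (if l ∈ (∅ : Finset (Fin n)) then (|fderiv ℝ (G2 a b g) x (dv a b l)|) ^ 2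
        else (2 * a * b * (-(min (fderiv ℝ (G2 a b g) x (yv a b l)) 0))) ^ 2) =
        (2 * a * b) ^ 2 * (min (fderiv ℝ g (TT a b x) (Pi.single l 1)) 0) ^ 2 := by
      intro l
      rw [if_neg (Finset.notMem_empty l), h6]
      ring
    simp only [h8]
    rw [← Finset.mul_sum, Real.sqrt_mul (sq_nonneg _), Real.sqrt_sq hc]
  have e3 : ∫ x, WW a b ∅ (G2 a b g) x ∂(gG (Fin n ⊕ Fin n)) =
      2 * a * b * ∫ y, nm g y ∂(gG (Fin n)) := by
    rw [integral_congr_ae e2, integral_const_mul]
    congr 1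
    have h5 := TT_mp h3 (n := n) a b hab
    rw [← h5.map_eq, integral_map h5.measurable.aemeasurable (nm_meas g).aestronglyMeasurable]
  rw [e3] at h4
  simp only [e1] at h4
  exact h4

end Pool.Agent.Q288.DP
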