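import Pool.Agent.Q288.DP.SLip

set_option autoImplicit false
set_option linter.unusedSectionVars false

/-!
Project DP: absolute continuity of the Gaussian measure and Rademacher.
-/

namespace Pool.Agent.Q288.DP

open MeasureTheory ProbabilityTheory Set Filter Topology

theorem g1_le_volume : g1 ≤ (volume : Measure ℝ) := by
  rw [Measure.le_iff]
  intro s hs
  rw [gaussianReal_apply 0 (by norm_num : (1 : NNReal) ≠ 0)]
  calc ∫⁻ x in s, gaussianPDF 0 1 x ≤ ∫⁻ x in s, 1 := by
        refine lintegral_mono (fun x => ?_)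
        rw [gaussianPDF_def]
        simp only [gaussianPDFReal_def]
        rw [← ENNReal.ofReal_one]
        refine ENNReal.ofReal_le_ofReal ?_
        have h1 : (√(2 * Real.pi * ((1 : NNReal) : ℝ)))⁻¹ ≤ 1 := by
          refine inv_le_one_of_one_le₀ ?_
          rw [Real.one_le_sqrt]
          have := Real.pi_gt_three
          simp
          linarith
        have h2 : Real.exp (-(x - 0) ^ 2 / (2 * ((1 : NNReal) : ℝ))) ≤ 1 := by
          rw [Real.exp_le_one_iff]
          have : 0 ≤ (x - 0) ^ 2 / (2 * ((1 : NNReal) : ℝ)) := by positivity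
          rw [neg_div]
          linarith
        have h3 : 0 ≤ Real.exp (-(x - 0) ^ 2 / (2 * ((1 : NNReal) : ℝ))) := (Real.exp_pos _).le
        calc _ ≤ 1 * 1 := mul_le_mul h1 h2 h3 (by norm_num)
          _ = 1 := one_mul 1
    _ = volume s := by simp

theorem gG_le_volume {ι : Type} [Fintype ι] : gG ι ≤ (volume : Measure (ι → ℝ)) := by
  have key : (Measure.pi (fun _ : ι => g1)).toOuterMeasure ≤
      OuterMeasure.pi (fun _ : ι => (volume : Measure ℝ).toOuterMeasure) := by
    rw [OuterMeasure.le_pi]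
    intro s _
    have h1 : (Measure.pi (fun _ : ι => g1)) (univ.pi s) = ∏ i, g1 (s i) := Measure.pi_pi _ s
    have h2 : (Measure.pi (fun _ : ι => g1)).toOuterMeasure (univ.pi s) = ∏ i, g1 (s i) := h1
    rw [h2]
    exact Finset.prod_le_prod' (fun i _ => g1_le_volume (s i))
  rw [Measure.le_iff]
  intro s hs
  have h3 : (volume : Measure (ι → ℝ)) s =
      OuterMeasure.pi (fun _ : ι => (volume : Measure ℝ).toOuterMeasure) s := by
    rw [volume_pi, Measure.pi]
    exact toMeasure_apply _ _ hs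
  rw [h3]
  exact key s

theorem gG_ac {ι : Type} [Fintype ι] : gG ι ≪ (volume : Measure (ι → ℝ)) :=
  Measure.absolutelyContinuous_of_le gG_le_volume

theorem lip_ae_diff {ι : Type} [Fintype ι] {A : (ι → ℝ) → ℝ} (hA : Lip A) :
    ∀ᵐ x ∂(gG ι), DifferentiableAt ℝ A x := by
  obtain ⟨K, hK⟩ := hA
  exact gG_ac.ae_le (hK.ae_differentiableAt)

theorem fderiv_bound {ι : Type} [Fintype ι] {A : (ι → ℝ) → ℝ} {K : NNReal}
    (hK : LipschitzWith K A) (x c : ι → ℝ) : |fderiv ℝ A x c| ≤ K * ‖c‖ := by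
  have h1 : ‖fderiv ℝ A x‖ ≤ K := norm_fderiv_le_of_lipschitz ℝ hK
  have h2 := (fderiv ℝ A x).le_opNorm c
  rw [Real.norm_eq_abs] at h2
  exact h2.trans (mul_le_mul_of_nonneg_right h1 (norm_nonneg c))

theorem fderiv_meas {ι : Type} [Fintype ι] (A : (ι → ℝ) → ℝ) (c : ι → ℝ) :
    Measurable (fun x => fderiv ℝ A x c) := measurable_fderiv_apply_const ℝ A c

end Pool.Agent.Q288.DP
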