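import Pool.Agent.Q288.DP.Bas
import Pool.Agent.Q288.DP.Rad

set_option autoImplicit false
set_option linter.unusedSectionVars false

/-!
Project DP: the dependence of `HH` on the rotated coordinate `r` is bounded by the integral
of the Euclidean norm of the derivatives in the directions `dv l`.
-/

namespace Pool.Agent.Q288.DP

open MeasureTheory ProbabilityTheory Set Filter Topology

namespace V3Aux

variable {n : ℕ}

/-- The linear part of `r ↦ rot a b y r`. -/
noncomputable def LR (a b : ℝ) : (Fin n → ℝ) →L[ℝ] (Fin n ⊕ Fin n → ℝ) :=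
  ContinuousLinearMap.pi fun k =>
    Sum.elim (fun k => b • ContinuousLinearMap.proj k) (fun k => -(a • ContinuousLinearMap.proj k)) k

theorem rot_eq (a b : ℝ) (y r : Fin n → ℝ) : rot a b y r = rot a b y 0 + LR a b r := by
  funext k
  rcases k with k | k
  · simp [rot, LR]
  · simp [rot, LR]; ring

theorem LR_single (a b : ℝ) (l : Fin n) : LR a b (Pi.single l 1) = dv a b l := by
  funext k
  rcases k with k | k
  · by_cases hk : k = l
    · subst hk; simp [LR, dv]
    · simp [LR, dv, hk]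
  · by_cases hk : k = l
    · subst hk; simp [LR, dv]
    · simp [LR, dv, hk]

theorem rot_mp (h : St_gm) (a b : ℝ) (hab : a ^ 2 + b ^ 2 = 1) :
    MeasurePreserving (fun p : (Fin n → ℝ) × (Fin n → ℝ) => rot a b p.1 p.2)
      ((gG (Fin n)).prod (gG (Fin n))) (gG (Fin n ⊕ Fin n)) := by
  classical
  let M : Matrix (Fin n ⊕ Fin n) (Fin n ⊕ Fin n) ℝ :=
    Matrix.fromBlocks (a • (1 : Matrix (Fin n) (Fin n) ℝ)) (b • (1 : Matrix (Fin n) (Fin n) ℝ))
      (b • (1 : Matrix (Fin n) (Fin n) ℝ)) (-(a • (1 : Matrix (Fin n) (Fin n) ℝ)))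
  have hM : M * M.transpose = 1 := by
    simp only [M, Matrix.fromBlocks_transpose, Matrix.fromBlocks_multiply, Matrix.transpose_smul,
      Matrix.transpose_one, Matrix.transpose_neg, Matrix.smul_mul, Matrix.mul_smul,
      Matrix.one_mul, smul_smul, Matrix.mul_neg, Matrix.neg_mul, smul_neg, neg_neg]
    rw [← Matrix.fromBlocks_one]
    congr 1
    · rw [← add_smul, ← sq, ← sq, hab, one_smul]
    · rw [mul_comm b a, add_neg_cancel]
    · rw [mul_comm b a, add_neg_cancel]
    · rw [← add_smul, ← sq, ← sq, add_comm, hab, one_smul]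
  have h1 := h (Fin n ⊕ Fin n) (Fin n ⊕ Fin n) M hM
  have h2 : MeasurePreserving (fun p : (Fin n → ℝ) × (Fin n → ℝ) => (Sum.elim p.1 p.2 : Fin n ⊕ Fin n → ℝ))
      ((gG (Fin n)).prod (gG (Fin n))) (gG (Fin n ⊕ Fin n)) := by
    have h3 := measurePreserving_sumPiEquivProdPi_symm (ι := Fin n) (ι' := Fin n)
      (X := fun _ => ℝ) (fun _ => g1)
    convert h3 using 1
    funext p k
    rcases k with k | k <;> rfl
  have h4 := h1.comp h2
  convert h4 using 1
  funext p
  simp only [Function.comp, M, Matrix.fromBlocks_mulVec]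
  funext k
  rcases k with k | k
  · simp [rot, Matrix.smul_mulVec]
  · simp [rot, Matrix.smul_mulVec, Matrix.neg_mulVec]
    ring

theorem G2_lip (a b : ℝ) (g : (Fin n → ℝ) → ℝ) (hg : Lip g) : Lip (G2 a b g) := by
  obtain ⟨K, hK⟩ := hg
  let T : (Fin n ⊕ Fin n → ℝ) →L[ℝ] (Fin n → ℝ) :=
    ContinuousLinearMap.pi fun k => a • ContinuousLinearMap.proj (Sum.inl k) +
      b • ContinuousLinearMap.proj (Sum.inr k)
  refine ⟨K * ‖T‖₊, ?_⟩
  have h := hK.comp T.lipschitz
  have h2 : (g ∘ T) = G2 a b g := by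
    funext x
    simp [T, G2]
  rwa [h2] at h

theorem HH_lip (hs : St_slip) (a b : ℝ) (g : (Fin n → ℝ) → ℝ) (hg : Lip g) : Lip (HH a b g) :=
  sl_lip hs _ _ (G2_lip a b g hg)

/-- The integrand on the right. -/
noncomputable def SS (a b : ℝ) (H : (Fin n ⊕ Fin n → ℝ) → ℝ) (x : Fin n ⊕ Fin n → ℝ) : ℝ :=
  Real.sqrt (∑ l, (fderiv ℝ H x (dv a b l)) ^ 2)

theorem SS_meas (a b : ℝ) (H : (Fin n ⊕ Fin n → ℝ) → ℝ) : Measurable (SS a b H) := by
  unfold SS
  refine Real.continuous_sqrt.measurable.comp (Finset.measurable_sum _ fun l _ => ?_)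
  exact (fderiv_meas H _).pow_const 2

theorem SS_bdd (a b : ℝ) (H : (Fin n ⊕ Fin n → ℝ) → ℝ) (K : NNReal) (hK : LipschitzWith K H) :
    ∃ M : ℝ, ∀ x, |SS a b H x| ≤ M := by
  refine ⟨Real.sqrt (∑ l : Fin n, (K * ‖dv a b l‖) ^ 2), fun x => ?_⟩
  unfold SS
  rw [abs_of_nonneg (Real.sqrt_nonneg _)]
  refine Real.sqrt_le_sqrt (Finset.sum_le_sum fun l _ => ?_)
  rw [← sq_abs]
  exact pow_le_pow_left₀ (abs_nonneg _) (fderiv_bound hK _ _) 2

theorem key (hmp : St_mp) (hgm : St_gm) (a b : ℝ) (hab : a ^ 2 + b ^ 2 = 1)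
    (H : (Fin n ⊕ Fin n → ℝ) → ℝ) (hH : Lip H) :
    ∫ y, ∫ r, ∫ r', |H (rot a b y r) - H (rot a b y r')| ∂(gG (Fin n)) ∂(gG (Fin n))
      ∂(gG (Fin n)) ≤ (Real.pi / 2) * ∫ x, SS a b H x ∂(gG (Fin n ⊕ Fin n)) := by
  classical
  obtain ⟨K, hK⟩ := hH
  obtain ⟨M, hM⟩ := SS_bdd a b H K hK
  have hR := rot_mp (n := n) hgm a b hab
  have hfib : ∀ y : Fin n → ℝ, Lip (fun r : Fin n → ℝ => H (rot a b y r)) := by
    intro y
    refine ⟨K * ‖LR (n := n) a b‖₊, ?_⟩
    have h1 : LipschitzWith ‖LR (n := n) a b‖₊ (fun r : Fin n → ℝ => rot a b y r) := by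
      refine LipschitzWith.of_dist_le_mul (fun r r' => ?_)
      rw [rot_eq a b y r, rot_eq a b y r', dist_add_left]
      exact (LR (n := n) a b).lipschitz.dist_le_mul r r'
    exact hK.comp h1
  have hint : Integrable (fun p : (Fin n → ℝ) × (Fin n → ℝ) => SS a b H (rot a b p.1 p.2))
      ((gG (Fin n)).prod (gG (Fin n))) := by
    refine Integrable.of_bound (C := M) ((SS_meas a b H).comp hR.measurable).aestronglyMeasurable
      (Eventually.of_forall fun p => ?_)
    rw [Real.norm_eq_abs]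
    exact hM _
  have hrhs : ∫ x, SS a b H x ∂(gG (Fin n ⊕ Fin n)) =
      ∫ y, ∫ r, SS a b H (rot a b y r) ∂(gG (Fin n)) ∂(gG (Fin n)) := by
    rw [← hR.map_eq, integral_map hR.measurable.aemeasurable (SS_meas a b H).aestronglyMeasurable]
    exact integral_prod _ hint
  rw [hrhs, ← integral_const_mul]
  refine integral_mono_of_nonneg (Eventually.of_forall fun y => ?_)
    (hint.integral_prod_left.const_mul _) ?_
  · exact integral_nonneg fun r => integral_nonneg fun r' => abs_nonneg _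
  · have hd : ∀ᵐ p ∂((gG (Fin n)).prod (gG (Fin n))), DifferentiableAt ℝ H (rot a b p.1 p.2) :=
      hR.quasiMeasurePreserving.ae (lip_ae_diff ⟨K, hK⟩)
    filter_upwards [Measure.ae_ae_of_ae_prod hd] with y hy
    refine (hmp (Fin n) _ (hfib y)).trans (le_of_eq ?_)
    congr 1
    refine integral_congr_ae ?_
    filter_upwards [hy] with r hr
    unfold SS
    congr 1
    refine Finset.sum_congr rfl fun l _ => ?_
    have h1 : HasFDerivAt (fun r : Fin n → ℝ => rot a b y r) (LR a b) r := by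
      have h2 : (fun r : Fin n → ℝ => rot a b y r) = fun r => rot a b y 0 + LR a b r := by
        funext r; exact rot_eq a b y r
      rw [h2]
      exact (LR (n := n) a b).hasFDerivAt.const_add _
    have h3 := (hr.hasFDerivAt.comp r h1).fderiv
    have h4 : fderiv ℝ (fun r : Fin n → ℝ => H (rot a b y r)) r =
        (fderiv ℝ H (rot a b y r)).comp (LR a b) := h3
    rw [h4, ContinuousLinearMap.comp_apply, LR_single]

end V3Aux

open V3Aux in
theorem t_v3 (hmp : St_mp) (hgm : St_gm) (hs : St_slip) : St_v3 := by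
  intro n a b _ _ hab g hg
  exact key hmp hgm a b hab (HH a b g) (HH_lip hs a b g hg)

end Pool.Agent.Q288.DP
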