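import Pool.Agent.Q288.DP.Stm

set_option autoImplicit false

/-!
Project DP (row MP_04ae38_an), lemma W1 (helper153): the projection of the block space to the
doubled space.
-/

namespace Pool.Agent.Q288.DP

open MeasureTheory ProbabilityTheory Set Filter Topology

namespace W1

/-- the matrix of `pj j` -/
noncomputable def Mx {n m : ℕ} (j : Fin m) (c : ℝ) : Matrix (Fin n ⊕ Fin n) (Fin n × Fin m) ℝ :=
  fun s p => Sum.elim (fun k => if p.1 = k then (if p.2 = j then 1 else 0) else 0)
    (fun k => if p.1 = k then (if p.2 = j then 0 else c) else 0) s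

lemma Mx_mulVec {n m : ℕ} (j : Fin m) (x : Fin n × Fin m → ℝ) :
    (Mx j (1 / Real.sqrt ((m : ℝ) - 1))).mulVec x = pj j x := by
  classical
  funext s
  rcases s with k | k
  · simp only [Matrix.mulVec, dotProduct, Mx, Sum.elim_inl, pj]
    rw [Fintype.sum_prod_type, Finset.sum_eq_single k, Finset.sum_eq_single j]
    · simp
    · intro i _ hi
      simp [hi]
    · intro h
      exact absurd (Finset.mem_univ _) h
    · intro i _ hi
      simp [hi]
    · intro h
      exact absurd (Finset.mem_univ _) h
  · simp only [Matrix.mulVec, dotProduct, Mx, Sum.elim_inr, pj]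
    rw [Fintype.sum_prod_type, Finset.sum_eq_single k]
    · rw [Finset.mul_sum]
      have h1 : ∑ i ∈ Finset.univ.erase j, 1 / Real.sqrt ((m : ℝ) - 1) * x (k, i) =
          ∑ i, if i = j then 0 else 1 / Real.sqrt ((m : ℝ) - 1) * x (k, i) := by
        rw [← Finset.add_sum_erase Finset.univ _ (Finset.mem_univ j)]
        simp only [if_true, zero_add]
        refine Finset.sum_congr rfl fun i hi => ?_
        rw [if_neg (Finset.ne_of_mem_erase hi)]
      rw [h1]
      refine Finset.sum_congr rfl fun i _ => ?_
      by_cases hi : i = j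
      · simp [hi]
      · simp [hi]
    · intro i _ hi
      simp [hi]
    · intro h
      exact absurd (Finset.mem_univ _) h

lemma Mx_orth {n m : ℕ} (j : Fin m) (hm : 2 ≤ m) :
    (Mx j (1 / Real.sqrt ((m : ℝ) - 1)) : Matrix (Fin n ⊕ Fin n) (Fin n × Fin m) ℝ) *
      (Mx j (1 / Real.sqrt ((m : ℝ) - 1)) :
        Matrix (Fin n ⊕ Fin n) (Fin n × Fin m) ℝ).transpose = 1 := by
  classical
  have hm1 : (0 : ℝ) < (m : ℝ) - 1 := by
    have : (2 : ℝ) ≤ m := by exact_mod_cast hm
    linarith
  have hc : 1 / Real.sqrt ((m : ℝ) - 1) * (1 / Real.sqrt ((m : ℝ) - 1)) = 1 / ((m : ℝ) - 1) := by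
    rw [div_mul_div_comm, one_mul, Real.mul_self_sqrt hm1.le]
  set c := 1 / Real.sqrt ((m : ℝ) - 1) with hcdef
  have hsum : ∑ i : Fin m, (if i = j then (0 : ℝ) else c * c) = 1 := by
    have h1 : ∀ i : Fin m, (if i = j then (0 : ℝ) else c * c) = c * c - if i = j then c * c else 0 := by
      intro i
      split_ifs <;> ring
    simp only [h1]
    rw [Finset.sum_sub_distrib, Finset.sum_const, Finset.card_univ, Fintype.card_fin,
      Finset.sum_ite_eq' Finset.univ j, if_pos (Finset.mem_univ j), hc, nsmul_eq_mul]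
    field_simp
  ext s t
  rw [Matrix.mul_apply, Fintype.sum_prod_type]
  simp only [Matrix.transpose_apply]
  rcases s with k | k <;> rcases t with l | l
  · by_cases hkl : k = l
    · subst hkl
      rw [Matrix.one_apply_eq, Finset.sum_eq_single k, Finset.sum_eq_single j]
      · simp [Mx]
      · intro i _ hi
        simp [Mx, hi]
      · intro h
        exact absurd (Finset.mem_univ _) h
      · intro i _ hi
        simp [Mx, hi]
      · intro h
        exact absurd (Finset.mem_univ _) h
    · rw [Matrix.one_apply_ne (by simpa using hkl)]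
      refine Finset.sum_eq_zero fun k' _ => Finset.sum_eq_zero fun i _ => ?_
      by_cases h1 : k' = k
      · subst h1
        simp [Mx, hkl]
      · simp [Mx, h1]
  · rw [Matrix.one_apply_ne (by simp)]
    refine Finset.sum_eq_zero fun k' _ => Finset.sum_eq_zero fun i _ => ?_
    by_cases h1 : i = j
    · subst h1
      simp [Mx]
    · simp [Mx, h1]
  · rw [Matrix.one_apply_ne (by simp)]
    refine Finset.sum_eq_zero fun k' _ => Finset.sum_eq_zero fun i _ => ?_
    by_cases h1 : i = j
    · subst h1
      simp [Mx]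
    · simp [Mx, h1]
  · by_cases hkl : k = l
    · subst hkl
      rw [Matrix.one_apply_eq, Finset.sum_eq_single k]
      · rw [← hsum]
        refine Finset.sum_congr rfl fun i _ => ?_
        by_cases h1 : i = j
        · simp [Mx, h1]
        · simp [Mx, h1]
      · intro i _ hi
        simp [Mx, hi]
      · intro h
        exact absurd (Finset.mem_univ _) h
    · rw [Matrix.one_apply_ne (by simpa using hkl)]
      refine Finset.sum_eq_zero fun k' _ => Finset.sum_eq_zero fun i _ => ?_
      by_cases h1 : k' = k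
      · subst h1
        simp [Mx, hkl]
      · simp [Mx, h1]

lemma pj_update {n m : ℕ} (j : Fin m) (x : Fin n × Fin m → ℝ) (k : Fin n) (t : ℝ) :
    pj j (Function.update x (k, j) t) = Function.update (pj j x) (Sum.inl k) t := by
  funext s
  rcases s with l | l
  · by_cases h : l = k
    · subst h
      simp [pj]
    · rw [Function.update_of_ne (by simpa using h)]
      simp only [pj, Sum.elim_inl]
      rw [Function.update_of_ne (by simpa using h)]
  · rw [Function.update_of_ne (by simp)]
    simp only [pj, Sum.elim_inr]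
    congr 1
    refine Finset.sum_congr rfl fun i hi => ?_
    rw [Function.update_of_ne]
    intro h
    exact (Finset.ne_of_mem_erase hi) (Prod.mk.inj h).2

lemma sl_pj {n m : ℕ} (j : Fin m) (l : List (Fin n)) :
    ∀ (A : (Fin n × Fin m → ℝ) → ℝ) (A' : (Fin n ⊕ Fin n → ℝ) → ℝ), (∀ x, A x = A' (pj j x)) →
      ∀ x, sl (l.map fun k => (k, j)) A x = sl (l.map Sum.inl) A' (pj j x) := by
  induction l with
  | nil => intro A A' h x; exact h x
  | cons k l ih =>
    intro A A' h x
    refine ih (srt (k, j) A) (srt (Sum.inl k) A') ?_ x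
    intro y
    unfold srt
    have h1 : (fun t => A (Function.update y (k, j) t)) =
        fun t => A' (Function.update (pj j y) (Sum.inl k) t) := by
      funext t
      rw [h, pj_update]
    rw [h1]
    rfl

end W1

theorem t_w1 (h : St_gm) : St_w1 := by
  classical
  intro n m j hm
  have hm0 : (0 : ℝ) < m := by
    have : (2 : ℝ) ≤ m := by exact_mod_cast hm
    linarith
  have hm1 : (0 : ℝ) < (m : ℝ) - 1 := by
    have : (2 : ℝ) ≤ m := by exact_mod_cast hm
    linarith
  have hG : ∀ (g : (Fin n → ℝ) → ℝ) (x : Fin n × Fin m → ℝ),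
      GB m g x = G2 (1 / Real.sqrt m) (Real.sqrt (1 - 1 / m)) g (pj j x) := by
    intro g x
    unfold GB G2
    congr 1
    funext k
    simp only [pj, Sum.elim_inl, Sum.elim_inr]
    have h1 : Real.sqrt (1 - 1 / (m : ℝ)) * (1 / Real.sqrt ((m : ℝ) - 1)) = 1 / Real.sqrt m := by
      have h2 : 1 - 1 / (m : ℝ) = ((m : ℝ) - 1) / m := by field_simp
      rw [h2, Real.sqrt_div hm1.le]
      have h3 : Real.sqrt ((m : ℝ) - 1) ≠ 0 := (Real.sqrt_pos.2 hm1).ne'
      field_simp
    rw [← Finset.add_sum_erase Finset.univ (fun i => x (k, i)) (Finset.mem_univ j), mul_add,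
      ← mul_assoc, h1]
  refine ⟨?_, fun g x => ⟨hG g x, ?_⟩⟩
  · have h1 := h (Fin n ⊕ Fin n) (Fin n × Fin m) (W1.Mx j (1 / Real.sqrt ((m : ℝ) - 1)))
      (W1.Mx_orth j hm)
    simpa only [W1.Mx_mulVec] using h1
  · exact W1.sl_pj j (List.finRange n) (GB m g) _ (hG g) x

end Pool.Agent.Q288.DP
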