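import Pool.Agent.Q288.DP.Law

set_option autoImplicit false
set_option linter.unusedSectionVars false

/-!
Project DP: comparison of two block sorts.
-/

namespace Pool.Agent.Q288.DP

open MeasureTheory ProbabilityTheory Set Filter Topology

section
variable {n : ℕ}

/-- The linear map `(p, r) ↦ rot (yy p) r`. -/
noncomputable def Lpr (n : ℕ) (a b : ℝ) :
    ((Fin n ⊕ Fin n → ℝ) × (Fin n → ℝ)) →L[ℝ] (Fin n ⊕ Fin n → ℝ) :=
  ContinuousLinearMap.pi (fun j => Sum.elim
    (fun k => a • (a • (ContinuousLinearMap.proj (Sum.inl k) ∘L ContinuousLinearMap.fst ℝ _ _) +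
      b • (ContinuousLinearMap.proj (Sum.inr k) ∘L ContinuousLinearMap.fst ℝ _ _)) +
      b • (ContinuousLinearMap.proj k ∘L ContinuousLinearMap.snd ℝ _ _))
    (fun k => b • (a • (ContinuousLinearMap.proj (Sum.inl k) ∘L ContinuousLinearMap.fst ℝ _ _) +
      b • (ContinuousLinearMap.proj (Sum.inr k) ∘L ContinuousLinearMap.fst ℝ _ _)) -
      a • (ContinuousLinearMap.proj k ∘L ContinuousLinearMap.snd ℝ _ _)) j)

theorem Lpr_apply (a b : ℝ) (p : Fin n ⊕ Fin n → ℝ) (r : Fin n → ℝ) :
    Lpr n a b (p, r) = rot a b (yy a b p) r := by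
  funext j
  cases j with
  | inl k => simp [Lpr, rot, yy]; ring
  | inr k => simp [Lpr, rot, yy]; ring

/-- `|HH p - HH (rot (yy p) r')|` as a function on the product. -/
noncomputable def QQ (a b : ℝ) (g : (Fin n → ℝ) → ℝ)
    (q : (Fin n ⊕ Fin n → ℝ) × (Fin n → ℝ)) : ℝ :=
  |HH a b g q.1 - HH a b g (rot a b (yy a b q.1) q.2)|

theorem QQ_lip (hs : St_slip) (a b : ℝ) (g : (Fin n → ℝ) → ℝ) (hg : Lip g) :
    Lip (QQ a b g) := by
  have h1 := (HH_lip hs a b g hg).comp_clm
    (ContinuousLinearMap.fst ℝ (Fin n ⊕ Fin n → ℝ) (Fin n → ℝ))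
  have h2 := (HH_lip hs a b g hg).comp_clm (Lpr n a b)
  have h3 := (h1.sub' h2).abs'
  have h4 : (fun x : (Fin n ⊕ Fin n → ℝ) × (Fin n → ℝ) =>
      |HH a b g ((ContinuousLinearMap.fst ℝ (Fin n ⊕ Fin n → ℝ) (Fin n → ℝ)) x) -
        HH a b g (Lpr n a b x)|) = QQ a b g := by
    funext x
    rcases x with ⟨p, r⟩
    rw [Lpr_apply]
    rfl
  rw [h4] at h3
  exact h3

theorem QQ_int (hs : St_slip) (hgm : St_gm) (a b : ℝ) (hab : a ^ 2 + b ^ 2 = 1)
    (g : (Fin n → ℝ) → ℝ) (hg : Lip g) :
    ∫ p, ∫ r, QQ a b g (p, r) ∂(gG (Fin n)) ∂(gG (Fin n ⊕ Fin n)) = dl a b g := by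
  have hQ := QQ_lip hs a b g hg
  have hQi := lip_integrable_prod hQ
  -- function of p
  have hI : Integrable (fun p => ∫ r, QQ a b g (p, r) ∂(gG (Fin n))) (gG (Fin n ⊕ Fin n)) :=
    hQi.integral_prod_left
  have hmp := rot_mp (n := n) hgm a b hab
  have h1 : ∫ p, ∫ r, QQ a b g (p, r) ∂(gG (Fin n)) ∂(gG (Fin n ⊕ Fin n)) =
      ∫ q : (Fin n → ℝ) × (Fin n → ℝ), ∫ r, QQ a b g (rot a b q.1 q.2, r) ∂(gG (Fin n))
        ∂((gG (Fin n)).prod (gG (Fin n))) := by
    have h := integral_map (μ := (gG (Fin n)).prod (gG (Fin n)))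
      (φ := fun p : (Fin n → ℝ) × (Fin n → ℝ) => rot a b p.1 p.2) hmp.measurable.aemeasurable
      (f := fun p => ∫ r, QQ a b g (p, r) ∂(gG (Fin n)))
      (by rw [hmp.map_eq]; exact hI.aestronglyMeasurable)
    rw [hmp.map_eq] at h
    exact h
  rw [h1, integral_prod]
  · rw [dl]
    refine integral_congr_ae (Eventually.of_forall (fun y => ?_))
    refine integral_congr_ae (Eventually.of_forall (fun r => ?_))
    refine integral_congr_ae (Eventually.of_forall (fun r' => ?_))
    simp only [QQ, yy_rot a b hab]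
  · exact (hmp.integrable_comp hI.aestronglyMeasurable).2 hI

theorem yy_pj {m : ℕ} (hw1 : St_w1) (hm : 2 ≤ m) (j : Fin m) (x : Fin n × Fin m → ℝ) :
    yy (1 / Real.sqrt m) (Real.sqrt (1 - 1 / m)) (pj j x) =
      fun k => (1 / Real.sqrt m) * ∑ j, x (k, j) := by
  funext k
  have h := ((hw1 n m j hm).2 (fun y => y k) x).1
  simp only [GB, G2] at h
  simp only [yy]
  exact h.symm

theorem t_w2 (hw1 : St_w1) (hgm : St_gm) (hs : St_slip) : St_w2 := by
  intro n m i j hm g hg
  set a : ℝ := 1 / Real.sqrt m with ha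
  set b : ℝ := Real.sqrt (1 - 1 / m) with hb
  have hm0 : (0 : ℝ) < m := by
    have : 0 < m := by omega
    exact_mod_cast this
  have hab : a ^ 2 + b ^ 2 = 1 := by
    rw [ha, hb, div_pow, one_pow, Real.sq_sqrt hm0.le, Real.sq_sqrt]
    · ring
    · have : 1 / (m : ℝ) ≤ 1 := by
        rw [div_le_one hm0]
        have : 1 ≤ m := by omega
        exact_mod_cast this
      linarith
  have hH := HH_lip hs a b g hg
  have hQ := QQ_lip hs a b g hg
  have hQi := lip_integrable_prod hQ
  have hI : Integrable (fun p => ∫ r, QQ a b g (p, r) ∂(gG (Fin n))) (gG (Fin n ⊕ Fin n)) :=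
    hQi.integral_prod_left
  have hpi := (hw1 n m i hm).1
  have hpj := (hw1 n m j hm).1
  -- each term
  have hterm : ∀ l : Fin m, ∫ x, (∫ r, QQ a b g (pj l x, r) ∂(gG (Fin n))) ∂(gG (Fin n × Fin m)) =
      dl a b g := by
    intro l
    have hpl := (hw1 n m l hm).1
    have h := integral_map (μ := gG (Fin n × Fin m))
      (φ := fun x : Fin n × Fin m → ℝ => pj l x) hpl.measurable.aemeasurable
      (f := fun p => ∫ r, QQ a b g (p, r) ∂(gG (Fin n)))
      (by rw [hpl.map_eq]; exact hI.aestronglyMeasurable)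
    rw [hpl.map_eq] at h
    rw [← h]
    exact QQ_int hs hgm a b hab g hg
  have hIl : ∀ l : Fin m, Integrable (fun x => ∫ r, QQ a b g (pj l x, r) ∂(gG (Fin n)))
      (gG (Fin n × Fin m)) := fun l =>
    ((hw1 n m l hm).1.integrable_comp hI.aestronglyMeasurable).2 hI
  have hRB : ∀ l : Fin m, (fun x => RB l (GB m g) x) = fun x => HH a b g (pj l x) := by
    intro l
    funext x
    exact ((hw1 n m l hm).2 g x).2
  have hRBi : ∀ l : Fin m, Integrable (fun x => HH a b g (pj l x)) (gG (Fin n × Fin m)) := by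
    intro l
    exact ((hw1 n m l hm).1.integrable_comp (lip_integrable hH).aestronglyMeasurable).2
      (lip_integrable hH)
  calc ∫ x, |RB i (GB m g) x - RB j (GB m g) x| ∂(gG (Fin n × Fin m))
      = ∫ x, |HH a b g (pj i x) - HH a b g (pj j x)| ∂(gG (Fin n × Fin m)) := by
        refine integral_congr_ae (Eventually.of_forall (fun x => ?_))
        simp only
        rw [congrFun (hRB i) x, congrFun (hRB j) x]
    _ ≤ ∫ x, ((∫ r, QQ a b g (pj i x, r) ∂(gG (Fin n))) +
          ∫ r, QQ a b g (pj j x, r) ∂(gG (Fin n))) ∂(gG (Fin n × Fin m)) := by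
        refine integral_mono ((hRBi i).sub (hRBi j)).abs ((hIl i).add (hIl j)) (fun x => ?_)
        have hyy : yy a b (pj i x) = yy a b (pj j x) := by
          rw [yy_pj hw1 hm i x, yy_pj hw1 hm j x]
        have hfix : ∀ p : Fin n ⊕ Fin n → ℝ, Integrable (fun r => QQ a b g (p, r)) (gG (Fin n)) := by
          intro p
          have : Lip (fun r : Fin n → ℝ => QQ a b g (p, r)) := by
            obtain ⟨K, hK⟩ := hQ
            refine ⟨K, LipschitzWith.of_dist_le_mul (fun s t => ?_)⟩
            have h1 := hK.dist_le_mul (p, s) (p, t)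
            rw [Prod.dist_eq] at h1
            simpa using h1
          exact lip_integrable this
        simp only
        rw [← integral_add (hfix _) (hfix _)]
        have hc : |HH a b g (pj i x) - HH a b g (pj j x)| =
            ∫ _r : Fin n → ℝ, |HH a b g (pj i x) - HH a b g (pj j x)| ∂(gG (Fin n)) := by
          simp
        rw [hc]
        refine integral_mono (integrable_const _) ((hfix _).add (hfix _)) (fun r => ?_)
        simp only [QQ]
        rw [← hyy]
        have e1 := abs_sub_le (HH a b g (pj i x)) (HH a b g (rot a b (yy a b (pj i x)) r))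
          (HH a b g (pj j x))
        rw [abs_sub_comm (HH a b g (rot a b (yy a b (pj i x)) r)) (HH a b g (pj j x))] at e1
        exact e1
    _ = 2 * dl a b g := by
        rw [integral_add (hIl i) (hIl j), hterm i, hterm j]
        ring

end

end Pool.Agent.Q288.DP
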