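import Pool.Agent.Q288.DP.Law

set_option autoImplicit false
set_option linter.unusedSectionVars false

/-!
Project DP: from the block space back to `R^n`.
-/

namespace Pool.Agent.Q288.DP

open MeasureTheory ProbabilityTheory Set Filter Topology

theorem monotone_of_monoIn {ι : Type} [Fintype ι] [DecidableEq ι] {F : (ι → ℝ) → ℝ}
    (h : ∀ i, MonoIn i F) : Monotone F := by
  intro x z hxz
  have key : ∀ S : Finset ι, F x ≤ F (S.piecewise z x) := by
    intro S
    induction S using Finset.induction_on with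
    | empty => simp
    | insert i S hi ih =>
      refine ih.trans ?_
      rw [Finset.piecewise_insert]
      have h1 : S.piecewise z x = Function.update (S.piecewise z x) i (x i) := by
        have : (S.piecewise z x) i = x i := Finset.piecewise_eq_of_notMem _ _ _ hi
        rw [← this, Function.update_eq_self]
      calc F (S.piecewise z x) = F (Function.update (S.piecewise z x) i (x i)) := by rw [← h1]
        _ ≤ F (Function.update (S.piecewise z x) i (z i)) := h i _ _ _ (hxz i)
  have := key Finset.univ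
  simpa using this

section
variable {n m : ℕ}

/-- The point of the block space over `y` with fluctuation part taken from `x'`. -/
noncomputable def TT (m : ℕ) (y : Fin n → ℝ) (x' : Fin n × Fin m → ℝ) : Fin n × Fin m → ℝ :=
  fun p => x' p - (1 / Real.sqrt m) * ((1 / Real.sqrt m) * ∑ j, x' (p.1, j) - y p.1)

/-- Matrix of `TT`. -/
noncomputable def TM (n m : ℕ) : Matrix (Fin n × Fin m) (Fin n ⊕ (Fin n × Fin m)) ℝ :=
  Matrix.of (fun p q => Sum.elim (fun k' => if p.1 = k' then 1 / Real.sqrt m else 0)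
    (fun p' => if p.1 = p'.1 then ((if p.2 = p'.2 then 1 else 0) - 1 / (m : ℝ)) else 0) q)

theorem TM_mul (hm : 1 ≤ m) (y : Fin n → ℝ) (x' : Fin n × Fin m → ℝ) :
    (TM n m).mulVec (Sum.elim y x') = TT m y x' := by
  have hm0 : (0 : ℝ) < m := by exact_mod_cast hm
  have hs : Real.sqrt m ≠ 0 := (Real.sqrt_pos.2 hm0).ne'
  have hss : (1 / Real.sqrt m) * (1 / Real.sqrt m) = 1 / (m : ℝ) := by
    rw [div_mul_div_comm, one_mul, Real.mul_self_sqrt hm0.le]
  funext p
  rcases p with ⟨k, j⟩
  simp only [Matrix.mulVec, dotProduct, TM, Matrix.of_apply, Fintype.sum_sum_type, Sum.elim_inl,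
    Sum.elim_inr, Fintype.sum_prod_type, ite_mul, zero_mul]
  rw [Finset.sum_ite_eq]
  simp only [Finset.mem_univ, if_true]
  have h1 : ∀ x : Fin n, (∑ x_1 : Fin m, if k = x then ((if j = x_1 then (1 : ℝ) else 0) -
      1 / (m : ℝ)) * x' (x, x_1) else 0) =
      if k = x then ∑ x_1 : Fin m, ((if j = x_1 then (1 : ℝ) else 0) -
      1 / (m : ℝ)) * x' (x, x_1) else 0 := by
    intro x
    split_ifs <;> simp
  simp only [h1]
  rw [Finset.sum_ite_eq]
  simp only [Finset.mem_univ, if_true, sub_mul, ite_mul, one_mul, zero_mul,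
    Finset.sum_sub_distrib]
  rw [Finset.sum_ite_eq]
  simp only [Finset.mem_univ, if_true, TT]
  rw [← Finset.mul_sum, ← hss]
  ring

theorem TM_orth (hm : 1 ≤ m) : TM n m * (TM n m).transpose = 1 := by
  have hm0 : (0 : ℝ) < m := by exact_mod_cast hm
  have hss : (1 / Real.sqrt m) * (1 / Real.sqrt m) = 1 / (m : ℝ) := by
    rw [div_mul_div_comm, one_mul, Real.mul_self_sqrt hm0.le]
  ext p q
  rcases p with ⟨k, j⟩
  rcases q with ⟨k', j'⟩
  simp only [Matrix.mul_apply, Matrix.transpose_apply, TM, Matrix.of_apply,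
    Fintype.sum_sum_type, Sum.elim_inl, Sum.elim_inr, Fintype.sum_prod_type]
  by_cases hk : k = k'
  · subst hk
    have e1 : (∑ x : Fin n, (if k = x then 1 / Real.sqrt m else 0) *
        (if k = x then 1 / Real.sqrt m else 0)) = 1 / (m : ℝ) := by
      rw [← hss]
      rw [Finset.sum_eq_single k]
      · simp
      · intro b _ hb
        simp [Ne.symm hb]
      · simp
    have e2 : (∑ x : Fin n, ∑ x_1 : Fin m,
        (if k = x then ((if j = x_1 then (1 : ℝ) else 0) - 1 / (m : ℝ)) else 0) *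
        (if k = x then ((if j' = x_1 then (1 : ℝ) else 0) - 1 / (m : ℝ)) else 0)) =
        ∑ x_1 : Fin m, ((if j = x_1 then (1 : ℝ) else 0) - 1 / (m : ℝ)) *
          ((if j' = x_1 then (1 : ℝ) else 0) - 1 / (m : ℝ)) := by
      rw [Finset.sum_eq_single k]
      · simp
      · intro b _ hb
        simp [Ne.symm hb]
      · simp
    rw [e1, e2]
    have e3 : ∀ x_1 : Fin m, ((if j = x_1 then (1 : ℝ) else 0) - 1 / (m : ℝ)) *
          ((if j' = x_1 then (1 : ℝ) else 0) - 1 / (m : ℝ)) =
          (if j = x_1 then (if j' = x_1 then (1 : ℝ) else 0) else 0) -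
          (if j = x_1 then 1 / (m : ℝ) else 0) - (if j' = x_1 then 1 / (m : ℝ) else 0) +
          1 / (m : ℝ) * (1 / (m : ℝ)) := by
      intro x_1
      split_ifs <;> ring
    simp only [e3]
    rw [Finset.sum_add_distrib, Finset.sum_sub_distrib, Finset.sum_sub_distrib,
      Finset.sum_ite_eq, Finset.sum_ite_eq, Finset.sum_ite_eq]
    simp only [Finset.mem_univ, if_true, Finset.sum_const, Finset.card_univ, Fintype.card_fin,
      nsmul_eq_mul]
    have e4 : (m : ℝ) * (1 / (m : ℝ) * (1 / (m : ℝ))) = 1 / (m : ℝ) := by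
      field_simp
    rw [e4]
    by_cases hj : j = j'
    · subst hj; simp
    · have hj' : ¬ j' = j := fun h => hj h.symm
      rw [Matrix.one_apply_ne (by simp [hj])]
      simp only [hj', if_false]
      ring
  · have hne : ((k, j) : Fin n × Fin m) ≠ (k', j') := by simp [hk]
    rw [Matrix.one_apply_ne hne]
    have e1 : (∑ x : Fin n, (if k = x then 1 / Real.sqrt m else 0) *
        (if k' = x then 1 / Real.sqrt m else 0)) = 0 := by
      refine Finset.sum_eq_zero (fun x _ => ?_)
      by_cases hx : k = x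
      · subst hx
        have : ¬ k' = k := fun h => hk h.symm
        simp [this]
      · simp [hx]
    have e2 : (∑ x : Fin n, ∑ x_1 : Fin m,
        (if k = x then ((if j = x_1 then (1 : ℝ) else 0) - 1 / (m : ℝ)) else 0) *
        (if k' = x then ((if j' = x_1 then (1 : ℝ) else 0) - 1 / (m : ℝ)) else 0)) = 0 := by
      refine Finset.sum_eq_zero (fun x _ => Finset.sum_eq_zero (fun x_1 _ => ?_))
      by_cases hx : k = x
      · subst hx
        have : ¬ k' = k := fun h => hk h.symm
        simp [this]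
      · simp [hx]
    rw [e1, e2, add_zero]

theorem TT_mp (hgm : St_gm) (hm : 1 ≤ m) :
    MeasurePreserving (fun p : (Fin n → ℝ) × (Fin n × Fin m → ℝ) => TT m p.1 p.2)
      ((gG (Fin n)).prod (gG (Fin n × Fin m))) (gG (Fin n × Fin m)) := by
  have h1 := hgm (Fin n × Fin m) (Fin n ⊕ (Fin n × Fin m)) (TM n m) (TM_orth hm)
  have h2 := h1.comp (sum_mp (ι := Fin n) (κ := Fin n × Fin m))
  have h3 : ((fun x => (TM n m).mulVec x) ∘
      fun p : (Fin n → ℝ) × (Fin n × Fin m → ℝ) =>
        (Sum.elim p.1 p.2 : Fin n ⊕ (Fin n × Fin m) → ℝ)) =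
      fun p => TT m p.1 p.2 := by
    funext p
    exact TM_mul hm p.1 p.2
  rw [h3] at h2
  exact h2

theorem GB_TT (hm : 1 ≤ m) (g : (Fin n → ℝ) → ℝ) (y : Fin n → ℝ) (x' : Fin n × Fin m → ℝ) :
    GB m g (TT m y x') = g y := by
  have hm0 : (0 : ℝ) < m := by exact_mod_cast hm
  have hss : (1 / Real.sqrt m) * (1 / Real.sqrt m) = 1 / (m : ℝ) := by
    rw [div_mul_div_comm, one_mul, Real.mul_self_sqrt hm0.le]
  unfold GB
  congr 1
  funext k
  simp only [TT]
  rw [Finset.sum_sub_distrib]
  simp only [Finset.sum_const, Finset.card_univ, Fintype.card_fin, nsmul_eq_mul]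
  set S := ∑ j, x' (k, j) with hS
  have : (1 / Real.sqrt m) * (S - m * ((1 / Real.sqrt m) * ((1 / Real.sqrt m) * S - y k))) =
      (1 / Real.sqrt m) * S - (m * ((1 / Real.sqrt m) * (1 / Real.sqrt m))) *
        ((1 / Real.sqrt m) * S - y k) := by ring
  rw [this, hss, mul_one_div_cancel hm0.ne']
  ring

/-- `TT` as a linear map. -/
noncomputable def LTT (n m : ℕ) :
    ((Fin n → ℝ) × (Fin n × Fin m → ℝ)) →L[ℝ] (Fin n × Fin m → ℝ) :=
  ContinuousLinearMap.pi (fun p =>
    (ContinuousLinearMap.proj p ∘L ContinuousLinearMap.snd ℝ _ _) -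
    (1 / Real.sqrt m) • ((1 / Real.sqrt m) • (∑ j : Fin m,
      (ContinuousLinearMap.proj (p.1, j) ∘L ContinuousLinearMap.snd ℝ _ _)) -
      (ContinuousLinearMap.proj p.1 ∘L ContinuousLinearMap.fst ℝ _ _)))

theorem LTT_apply (y : Fin n → ℝ) (x' : Fin n × Fin m → ℝ) : LTT n m (y, x') = TT m y x' := by
  funext p
  simp [LTT, TT]

theorem t_w3 (hgm : St_gm) : St_w3 := by
  intro n m hm g hg F hF hFm
  have hGl : Lip (GB m g) := by
    obtain ⟨K, hK⟩ := hg
    let L : (Fin n × Fin m → ℝ) →L[ℝ] (Fin n → ℝ) :=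
      ContinuousLinearMap.pi (fun k => (1 / Real.sqrt m) • ∑ j, ContinuousLinearMap.proj (k, j))
    refine ⟨K * ‖L‖₊, ?_⟩
    have h := hK.comp L.lipschitz
    have h2 : (g ∘ L) = GB m g := by
      funext x
      simp [L, GB]
    rwa [h2] at h
  have hmono := monotone_of_monoIn hFm
  -- the function on the product
  set Q : (Fin n → ℝ) × (Fin n × Fin m → ℝ) → ℝ := fun q => |g q.1 - F (TT m q.1 q.2)| with hQ
  have hQl : Lip Q := by
    have h1 := hg.comp_clm (ContinuousLinearMap.fst ℝ (Fin n → ℝ) (Fin n × Fin m → ℝ))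
    have h2 := hF.comp_clm (LTT n m)
    have h3 := (h1.sub' h2).abs'
    have h4 : (fun x : (Fin n → ℝ) × (Fin n × Fin m → ℝ) =>
      |g ((ContinuousLinearMap.fst ℝ (Fin n → ℝ) (Fin n × Fin m → ℝ)) x) -
        F (LTT n m x)|) = Q := by
      funext x
      rcases x with ⟨p, r⟩
      rw [LTT_apply]
      rfl
    rw [h4] at h3
    exact h3
  have hQi := lip_integrable_prod hQl
  have hmp := TT_mp (n := n) hgm hm
  have h1 : ∫ x, |GB m g x - F x| ∂(gG (Fin n × Fin m)) =
      ∫ x', ∫ y, Q (y, x') ∂(gG (Fin n)) ∂(gG (Fin n × Fin m)) := by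
    have h := integral_map (μ := (gG (Fin n)).prod (gG (Fin n × Fin m)))
      (φ := fun p : (Fin n → ℝ) × (Fin n × Fin m → ℝ) => TT m p.1 p.2)
      hmp.measurable.aemeasurable
      (f := fun x => |GB m g x - F x|)
      (by rw [hmp.map_eq]; exact (lip_sub_integrable hGl hF).aestronglyMeasurable)
    rw [hmp.map_eq] at h
    rw [h]
    have h2 : ∫ p : (Fin n → ℝ) × (Fin n × Fin m → ℝ), |GB m g (TT m p.1 p.2) - F (TT m p.1 p.2)|
        ∂((gG (Fin n)).prod (gG (Fin n × Fin m))) =
        ∫ p, Q p ∂((gG (Fin n)).prod (gG (Fin n × Fin m))) := by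
      refine integral_congr_ae (Eventually.of_forall (fun p => ?_))
      simp only [hQ, GB_TT hm]
    rw [h2, integral_prod_symm _ hQi]
  obtain ⟨x', hx'⟩ := exists_le_integral (μ := gG (Fin n × Fin m))
    (f := fun x' => ∫ y, Q (y, x') ∂(gG (Fin n))) hQi.integral_prod_right
  refine ⟨fun y => F (TT m y x'), ?_, ?_, ?_⟩
  · obtain ⟨K, hK⟩ := hF
    refine ⟨K * ‖LTT n m‖₊, LipschitzWith.of_dist_le_mul (fun s t => ?_)⟩
    have h2 := (hK.comp (LTT n m).lipschitz).dist_le_mul (s, x') (t, x')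
    rw [Prod.dist_eq] at h2
    simp only [Function.comp, LTT_apply, dist_self] at h2
    rwa [max_eq_left dist_nonneg] at h2
  · intro y y2 hy
    refine hmono (fun p => ?_)
    simp only [TT]
    have : 0 ≤ 1 / Real.sqrt (m : ℝ) := by positivity
    have h3 := mul_le_mul_of_nonneg_left (hy p.1) this
    nlinarith
  · rw [h1]
    exact hx'

end

end Pool.Agent.Q288.DP
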