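import Pool.Agent.Q288.DP.Asm
import Pool.Agent.Q288.DP.Gal
import Pool.Agent.Q288.DP.Sup
import Pool.Agent.Q288.DP.Tail
import Pool.Agent.Q288.DP.Tr
import Pool.Agent.Q288.DP.Upd
import Pool.Agent.Q288.DP.Ext
import Pool.Agent.Q288.DP.Ibp
import Pool.Agent.Q288.DP.Dint
import Pool.Agent.Q288.DP.ILip
import Pool.Agent.Q288.DP.Par
import Pool.Agent.Q288.DP.U1
import Pool.Agent.Q288.DP.U4
import Pool.Agent.Q288.DP.V1
import Pool.Agent.Q288.DP.V3
import Pool.Agent.Q288.DP.V4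
import Pool.Agent.Q288.DP.W1
import Pool.Agent.Q288.DP.W2
import Pool.Agent.Q288.DP.W3

set_option autoImplicit false

/-!
Project DP: putting the lemmas together.
-/

namespace Pool.Agent.Q288.DP

theorem h_sup : St_sup := t_sup t_gal t_ord
theorem h_clamp : St_clamp := t_clamp t_gal
theorem h_l1 : St_l1 := t_l1 t_law t_ord
theorem h_tr : St_tr := t_tr t_gal t_law
theorem h_hl2 : St_hl2 := t_hl2 t_gal t_law
theorem h_ilip : St_ilip := t_ilip t_law h_clamp h_tr t_tail t_ibp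
theorem h_dint : St_dint := t_dint t_law h_ilip t_tail t_ibp t_gip t_hl
theorem h_der : St_der := t_der h_dint h_ilip
theorem h_par2 : St_par2 := t_par2 h_hl2 h_sup h_ilip
theorem h_slip : St_slip := t_slip h_sup h_ilip
theorem h_mono : St_mono := t_mono t_law t_ord t_fix
theorem h_con : St_con := t_con t_upd h_slip h_l1
theorem h_u0 : St_u0 := t_u0 h_par2 t_upd h_slip
theorem h_u2 : St_u2 := t_u2 h_u0
theorem h_u4 : St_u4 := t_u4 h_u0 h_der t_upd h_slip
theorem h_w1 : St_w1 := t_w1 t_gm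
theorem h_w2 : St_w2 := t_w2 h_w1 t_gm h_slip
theorem h_w3 : St_w3 := t_w3 t_gm

theorem h_u1 (hdual : St_dual) : St_u1 := t_u1 h_tr hdual t_upd
theorem h_v1 (hdual : St_dual) : St_v1 := t_v1 (h_u1 hdual) h_u2 h_u4 h_slip
theorem h_v2 (hdual : St_dual) : St_v2 := t_v2 (h_v1 hdual) h_slip t_gm
theorem h_v3 (hmp : St_mp) : St_v3 := t_v3 hmp t_gm h_slip
theorem h_v4 (hdual : St_dual) (hone : St_one) : St_v4 :=
  t_v4 h_slip t_upd hone (h_u1 hdual) h_u2

theorem h_gauss (hmp : St_mp) (hdual : St_dual) (hone : St_one) (hv5 : St_v5) : St_gauss :=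
  t_gauss h_slip h_mono h_con (h_v2 hdual) (h_v3 hmp) (h_v4 hdual hone) hv5 h_w1 h_w2 h_w3

end Pool.Agent.Q288.DP
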