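import Pool.Agent.Q288.DP.Bas

set_option autoImplicit false
set_option linter.unusedSectionVars false

/-!
Project DP: the absorption argument in Gauss space.
-/

namespace Pool.Agent.Q288.DP

open MeasureTheory ProbabilityTheory Set Filter Topology

variable {n m : ℕ}

theorem GB_lip (g : (Fin n → ℝ) → ℝ) (hg : Lip g) : Lip (GB m g) := by
  obtain ⟨K, hK⟩ := hg
  let L : (Fin n × Fin m → ℝ) →L[ℝ] (Fin n → ℝ) :=
    ContinuousLinearMap.pi (fun k => (1 / Real.sqrt m) • ∑ j, ContinuousLinearMap.proj (k, j))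
  refine ⟨K * ‖L‖₊, ?_⟩
  have h := hK.comp L.lipschitz
  have h2 : (g ∘ L) = GB m g := by
    funext x
    simp [L, GB]
  rwa [h2] at h

/-- Successive block sorts, the head of the list is applied last. -/
noncomputable def FR (G : (Fin n × Fin m → ℝ) → ℝ) : List (Fin m) → (Fin n × Fin m → ℝ) → ℝ
  | [] => G
  | (j :: L) => RB j (FR G L)

theorem RB_lip (h : St_slip) (j : Fin m) (A : (Fin n × Fin m → ℝ) → ℝ) (hA : Lip A) :
    Lip (RB j A) := sl_lip h _ A hA

theorem FR_lip (h : St_slip) (G : (Fin n × Fin m → ℝ) → ℝ) (hG : Lip G) (L : List (Fin m)) :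
    Lip (FR G L) := by
  induction L with
  | nil => exact hG
  | cons j L ih => exact RB_lip h j _ ih

theorem RB_idem (h : St_slip) (hm : St_mono) (j : Fin m) (A : (Fin n × Fin m → ℝ) → ℝ)
    (hA : Lip A) : RB j (RB j A) = RB j A := by
  refine sl_fix hm _ _ (RB_lip h j A hA) (fun p hp => ?_)
  exact sl_mono h hm p _ A hA hp

theorem FR_tel (h : St_slip) (hm : St_mono) (hc : St_con) (G : (Fin n × Fin m → ℝ) → ℝ)
    (hG : Lip G) (δ : ℝ)
    (hδ : ∀ i j : Fin m, ∫ x, |RB i G x - RB j G x| ∂(gG (Fin n × Fin m)) ≤ δ) :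
    ∀ (L : List (Fin m)) (j : Fin m),
      ∫ x, |FR G (j :: L) x - RB j G x| ∂(gG (Fin n × Fin m)) ≤ L.length * δ := by
  intro L
  induction L with
  | nil =>
    intro j
    simp [FR]
  | cons i L ih =>
    intro j
    have h1 : ∫ x, |FR G (j :: i :: L) x - RB j G x| ∂(gG (Fin n × Fin m)) ≤
        ∫ x, |FR G (i :: L) x - RB j G x| ∂(gG (Fin n × Fin m)) := by
      have := sl_con h hc ((List.finRange n).map (fun k => (k, j))) (FR G (i :: L)) (RB j G)
        (FR_lip h G hG _) (RB_lip h j G hG)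
      have h2 : sl ((List.finRange n).map (fun k => (k, j))) (RB j G) = RB j G :=
        RB_idem h hm j G hG
      rw [h2] at this
      exact this
    have h2 := tri (FR_lip h G hG (i :: L)) (RB_lip h i G hG) (RB_lip h j G hG)
    have h3 := ih i
    have h4 := hδ i j
    have h5 : (((i :: L).length : ℕ) : ℝ) = L.length + 1 := by simp
    rw [h5]
    linarith

theorem FR_mono (h : St_slip) (hm : St_mono) (G : (Fin n × Fin m → ℝ) → ℝ) (hG : Lip G)
    (L : List (Fin m)) (k : Fin n) (j : Fin m) (hj : j ∈ L) : MonoIn (k, j) (FR G L) := by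
  induction L with
  | nil => simp at hj
  | cons i L ih =>
    rcases List.mem_cons.1 hj with rfl | hj
    · exact sl_mono h hm _ _ _ (FR_lip h G hG L) (by simp)
    · exact sl_pres h hm _ _ _ (FR_lip h G hG L) (ih hj)

/-- The main comparison: monotone approximation from an admissible constant. -/
theorem main_step (h : St_slip) (hm : St_mono) (hc : St_con) (hv2 : St_v2) (hv3 : St_v3)
    (hv5 : St_v5) (hw1 : St_w1) (hw2 : St_w2) (hw3 : St_w3) (n : ℕ) (K : ℝ) (hK0 : 0 ≤ K)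
    (hK : KK n K) (g : (Fin n → ℝ) → ℝ) (hg : Lip g) :
    ∃ Fb : (Fin n → ℝ) → ℝ, Lip Fb ∧ Monotone Fb ∧
      ∫ y, |g y - Fb y| ∂(gG (Fin n)) ≤ (K / 4 + 30 * Real.pi) * ∫ y, nm g y ∂(gG (Fin n)) := by
  set a : ℝ := 1 / Real.sqrt ((16 : ℕ) : ℝ) with ha
  set b : ℝ := Real.sqrt (1 - 1 / ((16 : ℕ) : ℝ)) with hb
  have hs : Real.sqrt ((16 : ℕ) : ℝ) = 4 := by
    rw [show (((16 : ℕ) : ℝ)) = 4 ^ 2 by norm_num]
    exact Real.sqrt_sq (by norm_num)
  have ha4 : a = 1 / 4 := by rw [ha, hs]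
  have ha0 : 0 ≤ a := by rw [ha4]; norm_num
  have hb0 : 0 ≤ b := Real.sqrt_nonneg _
  have hb2 : b ^ 2 = 1 - 1 / 16 := by
    rw [hb, Real.sq_sqrt (by norm_num)]; norm_num
  have hab : a ^ 2 + b ^ 2 = 1 := by rw [ha4, hb2]; norm_num
  have hb1 : b ≤ 1 := by nlinarith
  set I : ℝ := ∫ y, nm g y ∂(gG (Fin n)) with hI
  have hI0 : 0 ≤ I := integral_nonneg (fun y => nm_nonneg g y)
  set G := GB (n := n) 16 g with hGdef
  have hGl : Lip G := GB_lip g hg
  set δ : ℝ := 2 * dl a b g with hδ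
  have hδle : δ ≤ Real.pi / 2 * I := by
    have h1 := hv3 n a b ha0 hb0 hab g hg
    have h2 := hv2 n a b ha0 hb0 hab g hg
    have hpi := Real.pi_pos
    have h3 : dl a b g ≤ (Real.pi / 2) * (2 * a * b * I) :=
      h1.trans (mul_le_mul_of_nonneg_left h2 (by positivity))
    have h4 : 2 * a * b * I ≤ 1 / 2 * I := by
      refine mul_le_mul_of_nonneg_right ?_ hI0
      rw [ha4]; linarith
    have h5 : (Real.pi / 2) * (2 * a * b * I) ≤ (Real.pi / 2) * (1 / 2 * I) :=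
      mul_le_mul_of_nonneg_left h4 (by positivity)
    rw [hδ]; linarith
  have hpair : ∀ i j : Fin 16, ∫ x, |RB i G x - RB j G x| ∂(gG (Fin n × Fin 16)) ≤ δ := by
    intro i j
    exact hw2 n 16 i j (by norm_num) g hg
  obtain ⟨j, L, hL⟩ : ∃ (j : Fin 16) (L : List (Fin 16)), List.finRange 16 = j :: L := by
    cases hh : List.finRange 16 with
    | nil => simp at hh
    | cons j L => exact ⟨j, L, rfl⟩
  have hLlen : L.length = 15 := by
    have := congrArg List.length hL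
    simp at this
    omega
  have hFl : Lip (FR G (j :: L)) := FR_lip h G hGl _
  have hFm : ∀ p, MonoIn p (FR G (j :: L)) := by
    rintro ⟨k, i⟩
    refine FR_mono h hm G hGl _ k i ?_
    rw [← hL]
    exact List.mem_finRange i
  obtain ⟨Fb, hFb1, hFb2, hFb3⟩ := hw3 n 16 (by norm_num) g hg _ hFl hFm
  refine ⟨Fb, hFb1, hFb2, hFb3.trans ?_⟩
  have h1 : ∫ x, |G x - FR G (j :: L) x| ∂(gG (Fin n × Fin 16)) ≤
      ∫ x, |G x - RB j G x| ∂(gG (Fin n × Fin 16)) +
      ∫ x, |RB j G x - FR G (j :: L) x| ∂(gG (Fin n × Fin 16)) :=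
    tri hGl (RB_lip h j G hGl) hFl
  have h2 : ∫ x, |RB j G x - FR G (j :: L) x| ∂(gG (Fin n × Fin 16)) ≤ 15 * δ := by
    rw [sw]
    have := FR_tel h hm hc G hGl δ hpair L j
    rw [hLlen] at this
    exact_mod_cast this
  have h3 : ∫ x, |G x - RB j G x| ∂(gG (Fin n × Fin 16)) ≤ a * K * I := by
    obtain ⟨hmp, hid⟩ := hw1 n 16 j (by norm_num)
    have h5 := hv5 n a b K ha0 hb0 hab hK0 hK g hg
    have h6 : ∫ x, |G x - RB j G x| ∂(gG (Fin n × Fin 16)) =
        ∫ x, |G2 a b g x - HH a b g x| ∂(gG (Fin n ⊕ Fin n)) := by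
      rw [← hmp.map_eq, integral_map hmp.measurable.aemeasurable]
      · refine integral_congr_ae (Eventually.of_forall (fun x => ?_))
        simp only
        rw [hGdef, (hid g x).1, (hid g x).2]
      · have hG2 : Lip (G2 a b g) := by
          obtain ⟨K', hK'⟩ := hg
          let Lc : (Fin n ⊕ Fin n → ℝ) →L[ℝ] (Fin n → ℝ) :=
            ContinuousLinearMap.pi (fun k => a • ContinuousLinearMap.proj (Sum.inl k) +
              b • ContinuousLinearMap.proj (Sum.inr k))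
          refine ⟨K' * ‖Lc‖₊, ?_⟩
          have h := hK'.comp Lc.lipschitz
          have h2 : (g ∘ Lc) = G2 a b g := by
            funext x
            simp [Lc, G2]
          rwa [h2] at h
        have hHH : Lip (HH a b g) := sl_lip h _ _ hG2
        exact ((lip_cont hG2).sub (lip_cont hHH)).abs.aestronglyMeasurable
    rw [h6]
    exact h5
  have h7 : a * K * I + 15 * δ ≤ (K / 4 + 30 * Real.pi) * I := by
    have hpi := Real.pi_pos
    have h8 : 15 * δ ≤ 15 * (Real.pi / 2 * I) := by linarith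
    have h9 : 0 ≤ Real.pi * I := by positivity
    rw [ha4]
    nlinarith
  calc ∫ x, |G x - FR G (j :: L) x| ∂(gG (Fin n × Fin 16)) ≤ a * K * I + 15 * δ := by linarith
    _ ≤ _ := h7

theorem RR_two (h : St_slip) (hm : St_mono) (hc : St_con) (n : ℕ) (g Fb : (Fin n → ℝ) → ℝ)
    (hg : Lip g) (hF : Lip Fb) (hFm : Monotone Fb) :
    ∫ y, |g y - RR g y| ∂(gG (Fin n)) ≤ 2 * ∫ y, |g y - Fb y| ∂(gG (Fin n)) := by
  have h1 : RR Fb = Fb := sl_fix hm _ _ hF (fun j _ => mono_monoIn hFm j)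
  have h2 := tri hg hF (sl_lip h (List.finRange n) g hg)
  have h3 := sl_con h hc (List.finRange n) Fb g hF hg
  have h4 : sl (List.finRange n) Fb = Fb := h1
  rw [h4, sw Fb g] at h3
  have h5 : ∫ y, |g y - RR g y| ∂(gG (Fin n)) ≤
      ∫ y, |g y - Fb y| ∂(gG (Fin n)) + ∫ y, |Fb y - sl (List.finRange n) g y| ∂(gG (Fin n)) := h2
  linarith

theorem KK_iter (h : St_slip) (hm : St_mono) (hc : St_con) (hv2 : St_v2) (hv3 : St_v3)
    (hv5 : St_v5) (hw1 : St_w1) (hw2 : St_w2) (hw3 : St_w3) (n : ℕ) (K : ℝ) (hK0 : 0 ≤ K)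
    (hK : KK n K) : KK n (K / 2 + 60 * Real.pi) := by
  intro g hg
  obtain ⟨Fb, hF1, hF2, hF3⟩ := main_step h hm hc hv2 hv3 hv5 hw1 hw2 hw3 n K hK0 hK g hg
  have h1 := RR_two h hm hc n g Fb hg hF1 hF2
  have h2 : (K / 2 + 60 * Real.pi) * ∫ y, nm g y ∂(gG (Fin n)) =
    2 * ((K / 4 + 30 * Real.pi) * ∫ y, nm g y ∂(gG (Fin n))) := by ring
  rw [h2]
  linarith

theorem KK_all (h : St_slip) (hm : St_mono) (hc : St_con) (hv2 : St_v2) (hv3 : St_v3)
    (hv4 : St_v4) (hv5 : St_v5) (hw1 : St_w1) (hw2 : St_w2) (hw3 : St_w3) (n : ℕ) :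
    KK n (120 * Real.pi) := by
  obtain ⟨K0, hK00, hK0⟩ := hv4 n
  have hit : ∀ j : ℕ, KK n (K0 / 2 ^ j + 120 * Real.pi) := by
    intro j
    induction j with
    | zero =>
      intro g hg
      have h1 := hK0 g hg
      have hI0 : 0 ≤ ∫ y, nm g y ∂(gG (Fin n)) := integral_nonneg (fun y => nm_nonneg g y)
      have hpi := Real.pi_pos
      have : K0 * ∫ y, nm g y ∂(gG (Fin n)) ≤
          (K0 / 2 ^ 0 + 120 * Real.pi) * ∫ y, nm g y ∂(gG (Fin n)) :=
        mul_le_mul_of_nonneg_right (by simp; positivity) hI0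
      linarith
    | succ j ih =>
      have hpi := Real.pi_pos
      have h1 := KK_iter h hm hc hv2 hv3 hv5 hw1 hw2 hw3 n _ (by positivity) ih
      have h2 : (K0 / 2 ^ j + 120 * Real.pi) / 2 + 60 * Real.pi =
          K0 / 2 ^ (j + 1) + 120 * Real.pi := by
        rw [pow_succ]; ring
      rwa [h2] at h1
  intro g hg
  have hlim : Tendsto (fun j : ℕ => (K0 / 2 ^ j + 120 * Real.pi) * ∫ y, nm g y ∂(gG (Fin n)))
      atTop (𝓝 ((0 + 120 * Real.pi) * ∫ y, nm g y ∂(gG (Fin n)))) := by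
    refine Tendsto.mul_const _ (Tendsto.add_const _ ?_)
    have : Tendsto (fun j : ℕ => K0 * (1 / 2 : ℝ) ^ j) atTop (𝓝 (K0 * 0)) :=
      (tendsto_pow_atTop_nhds_zero_of_lt_one (by norm_num) (by norm_num)).const_mul K0
    rw [mul_zero] at this
    refine this.congr (fun j => ?_)
    rw [one_div, inv_pow, div_eq_mul_inv]
  rw [zero_add] at hlim
  exact ge_of_tendsto' hlim (fun j => hit j g hg)

theorem t_gauss (h : St_slip) (hm : St_mono) (hc : St_con) (hv2 : St_v2) (hv3 : St_v3)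
    (hv4 : St_v4) (hv5 : St_v5) (hw1 : St_w1) (hw2 : St_w2) (hw3 : St_w3) : St_gauss := by
  have hpi := Real.pi_pos
  refine ⟨60 * Real.pi, by positivity, fun n g hg => ?_⟩
  obtain ⟨Fb, hF1, hF2, hF3⟩ := main_step h hm hc hv2 hv3 hv5 hw1 hw2 hw3 n (120 * Real.pi)
    (by positivity) (KK_all h hm hc hv2 hv3 hv4 hv5 hw1 hw2 hw3 n) g hg
  refine ⟨Fb, hF1, hF2, ?_⟩
  have : 120 * Real.pi / 4 + 30 * Real.pi = 60 * Real.pi := by ring
  rwa [this] at hF3

end Pool.Agent.Q288.DP
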