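import Pool.Agent.Q288.DP.Stm

set_option autoImplicit false
set_option linter.unusedSectionVars false

/-!
Project DP: basic facts on the product Gaussian measure, Lipschitz functions and lists of sorts.
-/

namespace Pool.Agent.Q288.DP

open MeasureTheory ProbabilityTheory Set Filter Topology

section
variable {ι : Type} [Fintype ι]

theorem lip_cont {A : (ι → ℝ) → ℝ} (h : Lip A) : Continuous A := by
  obtain ⟨K, hK⟩ := h
  exact hK.continuous

theorem integrable_eval (i : ι) : Integrable (fun x : ι → ℝ => x i) (gG ι) := by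
  have h : MeasurePreserving (fun x : ι → ℝ => x i) (gG ι) g1 := by
    exact measurePreserving_eval (fun _ : ι => g1) i
  have h2 : Integrable (fun t : ℝ => t) g1 := by
    have := memLp_id_gaussianReal (μ := 0) (v := 1) 1
    exact memLp_one_iff_integrable.1 this
  exact (h.integrable_comp h2.aestronglyMeasurable).2 h2

theorem integrable_norm : Integrable (fun x : ι → ℝ => ‖x‖) (gG ι) := by
  have h : Integrable (fun x : ι → ℝ => ∑ i, |x i|) (gG ι) :=
    integrable_finsetSum _ (fun i _ => (integrable_eval i).abs)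
  refine h.mono' (by fun_prop) (Eventually.of_forall (fun x => ?_))
  rw [norm_norm]
  rw [pi_norm_le_iff_of_nonneg (Finset.sum_nonneg (fun i _ => abs_nonneg _))]
  intro i
  exact Finset.single_le_sum (f := fun i => |x i|) (fun i _ => abs_nonneg _) (Finset.mem_univ i)

theorem lip_integrable {A : (ι → ℝ) → ℝ} (h : Lip A) : Integrable A (gG ι) := by
  obtain ⟨K, hK⟩ := h
  have h1 : Integrable (fun x : ι → ℝ => |A 0| + K * ‖x‖) (gG ι) :=
    (integrable_const _).add (integrable_norm.const_mul _)
  refine h1.mono' hK.continuous.aestronglyMeasurable (Eventually.of_forall (fun x => ?_))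
  have := hK.dist_le_mul x 0
  rw [Real.dist_eq, dist_zero_right] at this
  rw [Real.norm_eq_abs]
  have h3 := abs_sub_abs_le_abs_sub (A x) (A 0)
  linarith

theorem lip_sub_integrable {A B : (ι → ℝ) → ℝ} (h : Lip A) (h' : Lip B) :
    Integrable (fun x => |A x - B x|) (gG ι) :=
  ((lip_integrable h).sub (lip_integrable h')).abs

theorem tri {A B C : (ι → ℝ) → ℝ} (hA : Lip A) (hB : Lip B) (hC : Lip C) :
    ∫ x, |A x - C x| ∂(gG ι) ≤ ∫ x, |A x - B x| ∂(gG ι) + ∫ x, |B x - C x| ∂(gG ι) := by
  rw [← integral_add (lip_sub_integrable hA hB) (lip_sub_integrable hB hC)]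
  exact integral_mono (lip_sub_integrable hA hC)
    ((lip_sub_integrable hA hB).add (lip_sub_integrable hB hC))
    (fun x => abs_sub_le _ _ _)

theorem sw (A B : (ι → ℝ) → ℝ) :
    ∫ x, |A x - B x| ∂(gG ι) = ∫ x, |B x - A x| ∂(gG ι) := by
  simp_rw [abs_sub_comm]

end

section
variable {ι : Type} [Fintype ι] [DecidableEq ι]

theorem sl_nil (A : (ι → ℝ) → ℝ) : sl [] A = A := rfl

theorem sl_cons (i : ι) (l : List ι) (A : (ι → ℝ) → ℝ) : sl (i :: l) A = sl l (srt i A) := rfl

theorem sl_lip (h : St_slip) (l : List ι) : ∀ A : (ι → ℝ) → ℝ, Lip A → Lip (sl l A) := by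
  induction l with
  | nil => intro A hA; exact hA
  | cons i l ih => intro A hA; exact ih _ (h ι i A hA)

theorem sl_con (h : St_slip) (hc : St_con) (l : List ι) : ∀ A B : (ι → ℝ) → ℝ, Lip A → Lip B →
    ∫ x, |sl l A x - sl l B x| ∂(gG ι) ≤ ∫ x, |A x - B x| ∂(gG ι) := by
  induction l with
  | nil => intro A B hA hB; exact le_refl _
  | cons i l ih =>
    intro A B hA hB
    exact (ih _ _ (h ι i A hA) (h ι i B hB)).trans (hc ι i A B hA hB)

theorem sl_pres (h : St_slip) (hm : St_mono) (j : ι) (l : List ι) :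
    ∀ A : (ι → ℝ) → ℝ, Lip A → MonoIn j A → MonoIn j (sl l A) := by
  induction l with
  | nil => intro A hA hj; exact hj
  | cons i l ih =>
    intro A hA hj
    refine ih _ (h ι i A hA) ?_
    by_cases hij : j = i
    · subst hij; exact (hm ι j A hA).1
    · exact (hm ι i A hA).2.1 j hij hj

theorem sl_mono (h : St_slip) (hm : St_mono) (j : ι) (l : List ι) :
    ∀ A : (ι → ℝ) → ℝ, Lip A → j ∈ l → MonoIn j (sl l A) := by
  induction l with
  | nil => intro A hA hj; simp at hj
  | cons i l ih =>
    intro A hA hj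
    rcases List.mem_cons.1 hj with rfl | hj
    · exact sl_pres h hm j l _ (h ι j A hA) (hm ι j A hA).1
    · exact ih _ (h ι i A hA) hj

theorem sl_fix (hm : St_mono) (l : List ι) :
    ∀ A : (ι → ℝ) → ℝ, Lip A → (∀ j ∈ l, MonoIn j A) → sl l A = A := by
  induction l with
  | nil => intro A hA _; rfl
  | cons i l ih =>
    intro A hA hj
    rw [sl_cons, (hm ι i A hA).2.2 (hj i (by simp))]
    exact ih A hA (fun j hj' => hj j (by simp [hj']))

end

/-- Sorting commutes with maps compatible with the coordinate. -/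
theorem srt_nat {ι κ : Type} [DecidableEq ι] [DecidableEq κ] (π : (κ → ℝ) → (ι → ℝ)) (k : κ)
    (i : ι) (hπ : ∀ x t, π (Function.update x k t) = Function.update (π x) i t)
    (A : (ι → ℝ) → ℝ) : srt k (fun x => A (π x)) = fun x => srt i A (π x) := by
  funext x
  have h1 : (π x) i = x k := by
    have := hπ x (x k)
    rw [Function.update_eq_self] at this
    have h2 := congrFun this i
    simpa using h2
  simp only [srt, hπ, h1]

/-- Sorting preserves invariance under translations not involving the coordinate. -/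
theorem srt_inv {ι : Type} [DecidableEq ι] (i : ι) (A : (ι → ℝ) → ℝ) (c : ι → ℝ) (hc : c i = 0)
    (h : ∀ x, A (x + c) = A x) (x : ι → ℝ) : srt i A (x + c) = srt i A x := by
  have h1 : ∀ t, Function.update (x + c) i t = Function.update x i t + c := by
    intro t
    funext j
    by_cases hj : j = i
    · subst hj; simp [hc]
    · simp [Function.update_of_ne hj]
  simp only [srt, h1, h, Pi.add_apply, hc, add_zero]

theorem nm_nonneg {ι : Type} [Fintype ι] [DecidableEq ι] (A : (ι → ℝ) → ℝ) (x : ι → ℝ) :
    0 ≤ nm A x := Real.sqrt_nonneg _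

theorem mono_monoIn {ι : Type} [DecidableEq ι] {A : (ι → ℝ) → ℝ} (h : Monotone A) (i : ι) :
    MonoIn i A := by
  intro x s t hst
  refine h (fun j => ?_)
  by_cases hj : j = i
  · subst hj; simpa using hst
  · simp [Function.update_of_ne hj]

end Pool.Agent.Q288.DP
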