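import Pool.Agent.Q288.DP.Stm

/-!
# Project DP: transfer of the Gaussian theorem to the cube
-/

set_option autoImplicit false

namespace Pool.Agent.Q288.DP

open MeasureTheory ProbabilityTheory Set Filter Topology

namespace CubeAux

/-- the density -/
noncomputable def ph : ℝ → ℝ := gaussianPDFReal 0 1

theorem ph_cont : Continuous ph := by
  unfold ph gaussianPDFReal
  fun_prop

theorem ph_pos (t : ℝ) : 0 < ph t := gaussianPDFReal_pos 0 1 t one_ne_zero

theorem ph_le (t : ℝ) : ph t ≤ 1 := by
  unfold ph gaussianPDFReal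
  have h1 : (1 : ℝ) ≤ √(2 * Real.pi * (1 : NNReal)) := by
    apply Real.le_sqrt_of_sq_le
    have := Real.pi_gt_three
    push_cast
    linarith
  have h2 : (√(2 * Real.pi * (1 : NNReal)))⁻¹ ≤ 1 := inv_le_one_of_one_le₀ h1
  have h3 : Real.exp (-(t - 0) ^ 2 / (2 * (1 : NNReal))) ≤ 1 := by
    rw [Real.exp_le_one_iff]
    push_cast
    have := sq_nonneg (t - 0)
    linarith
  exact mul_le_one₀ h2 (Real.exp_pos _).le h3

theorem ph_int : Integrable ph := integrable_gaussianPDFReal 0 1

/-- the distribution function -/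
noncomputable def Ph (t : ℝ) : ℝ := (g1 (Iic t)).toReal

theorem Ph_ofReal (t : ℝ) : ENNReal.ofReal (Ph t) = g1 (Iic t) :=
  ENNReal.ofReal_toReal (measure_ne_top _ _)

theorem Ph_eq (t : ℝ) : Ph t = ∫ x in Iic t, ph x := by
  unfold Ph
  rw [gaussianReal_apply_eq_integral 0 one_ne_zero (Iic t), ENNReal.toReal_ofReal]
  · rfl
  · exact integral_nonneg fun x => (ph_pos x).le

theorem Ph_deriv (t : ℝ) : HasDerivAt Ph (ph t) t := by
  have h1 : Ph = fun u => (∫ x in Iic (0 : ℝ), ph x) + ∫ x in (0 : ℝ)..u, ph x := by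
    funext u
    rw [Ph_eq, ← intervalIntegral.integral_Iic_sub_Iic ph_int.integrableOn ph_int.integrableOn]
    ring
  rw [h1]
  exact (ph_cont.integral_hasStrictDerivAt 0 t).hasDerivAt.const_add _

theorem Ph_strict : StrictMono Ph :=
  strictMono_of_deriv_pos fun t => by rw [(Ph_deriv t).deriv]; exact ph_pos t

theorem Ph_nonneg (t : ℝ) : 0 ≤ Ph t := ENNReal.toReal_nonneg

theorem Ph_le_one (t : ℝ) : Ph t ≤ 1 := by
  unfold Ph
  rw [← ENNReal.toReal_one]
  exact ENNReal.toReal_mono ENNReal.one_ne_top prob_le_one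

theorem Ph_pos (t : ℝ) : 0 < Ph t := lt_of_le_of_lt (Ph_nonneg (t - 1)) (Ph_strict (by linarith))

theorem Ph_lt (t : ℝ) : Ph t < 1 := lt_of_lt_of_le (Ph_strict (show t < t + 1 by linarith)) (Ph_le_one _)

theorem Ph_cont : Continuous Ph :=
  continuous_iff_continuousAt.mpr fun t => (Ph_deriv t).continuousAt

theorem Ph_lip : LipschitzWith 1 Ph := by
  apply lipschitzWith_of_nnnorm_deriv_le (fun t => (Ph_deriv t).differentiableAt)
  intro t
  rw [(Ph_deriv t).deriv, ← NNReal.coe_le_coe, coe_nnnorm, Real.norm_of_nonneg (ph_pos t).le]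
  exact ph_le t

theorem Ph_cdf (t : ℝ) : cdf g1 t = Ph t := cdf_eq_real g1 t

theorem Ph_range {s : ℝ} (h0 : 0 < s) (h1 : s < 1) : ∃ t, Ph t = s := by
  apply mem_range_of_exists_le_of_exists_ge Ph_cont
  · have h2 : ∀ᶠ t in atBot, cdf g1 t < s := (tendsto_order.1 (tendsto_cdf_atBot g1)).2 s h0
    obtain ⟨t, ht⟩ := h2.exists
    rw [Ph_cdf] at ht
    exact ⟨t, ht.le⟩
  · have h2 : ∀ᶠ t in atTop, s < cdf g1 t := (tendsto_order.1 (tendsto_cdf_atTop g1)).1 s h1
    obtain ⟨t, ht⟩ := h2.exists
    rw [Ph_cdf] at ht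
    exact ⟨t, ht.le⟩

theorem Ph_mp : MeasurePreserving Ph g1 (volume.restrict (Icc (0 : ℝ) 1)) := by
  refine ⟨Ph_cont.measurable, ?_⟩
  have : IsProbabilityMeasure (Measure.map Ph g1) :=
    Measure.isProbabilityMeasure_map Ph_cont.measurable.aemeasurable
  apply Measure.ext_of_Iic
  intro s
  rw [Measure.map_apply Ph_cont.measurable measurableSet_Iic, Measure.restrict_apply measurableSet_Iic]
  rcases le_or_gt s 0 with h0 | h0
  · have e1 : Ph ⁻¹' Iic s = ∅ := by
      ext t
      simp only [mem_preimage, mem_Iic, mem_empty_iff_false, iff_false, not_le]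
      exact lt_of_le_of_lt h0 (Ph_pos t)
    have e2 : Iic s ∩ Icc (0 : ℝ) 1 ⊆ {0} := by
      rintro t ⟨h1, h2⟩
      rw [mem_Iic] at h1
      exact le_antisymm (h1.trans h0) h2.1
    rw [e1, measure_empty, measure_mono_null e2 (Real.volume_singleton)]
  · rcases le_or_gt 1 s with h1 | h1
    · have e1 : Ph ⁻¹' Iic s = univ := by
        ext t
        simp only [mem_preimage, mem_Iic, mem_univ, iff_true]
        exact (Ph_le_one t).trans h1
      have e2 : Iic s ∩ Icc (0 : ℝ) 1 = Icc 0 1 := by
        ext t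
        simp only [mem_inter_iff, mem_Iic, mem_Icc]
        constructor
        · exact fun h => h.2
        · exact fun h => ⟨h.2.trans h1, h⟩
      rw [e1, e2, measure_univ, Real.volume_Icc]
      simp
    · obtain ⟨q, hq⟩ := Ph_range h0 h1
      have e1 : Ph ⁻¹' Iic s = Iic q := by
        ext t
        simp only [mem_preimage, mem_Iic]
        rw [← hq]
        exact Ph_strict.le_iff_le
      have e2 : Iic s ∩ Icc (0 : ℝ) 1 = Icc 0 s := by
        ext t
        simp only [mem_inter_iff, mem_Iic, mem_Icc]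
        constructor
        · exact fun h => ⟨h.2.1, h.1⟩
        · exact fun h => ⟨h.2, h.1, h.2.trans h1.le⟩
      rw [e1, e2, ← Ph_ofReal, hq, Real.volume_Icc, sub_zero]

/-- the map to the cube -/
noncomputable def Th (n : ℕ) (y : Fin n → ℝ) : Fin n → ℝ := fun i => Ph (y i)

theorem Th_cont (n : ℕ) : Continuous (Th n) :=
  continuous_pi fun i => Ph_cont.comp (continuous_apply i)

theorem Th_inj (n : ℕ) : Function.Injective (Th n) := by
  intro y y' h
  funext i
  exact Ph_strict.injective (congrFun h i)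

theorem Th_emb (n : ℕ) : MeasurableEmbedding (Th n) := (Th_cont n).measurableEmbedding (Th_inj n)

theorem Th_mem (n : ℕ) (y : Fin n → ℝ) : Th n y ∈ cube n :=
  ⟨fun i => (Ph_pos (y i)).le, fun i => (Ph_lt (y i)).le⟩

theorem Th_le {n : ℕ} {y y' : Fin n → ℝ} (h : Th n y ≤ Th n y') : y ≤ y' :=
  fun i => Ph_strict.le_iff_le.mp (h i)

theorem Th_range {n : ℕ} {x : Fin n → ℝ} (h0 : ∀ i, 0 < x i) (h1 : ∀ i, x i < 1) :
    ∃ y, Th n y = x := by
  choose y hy using fun i => Ph_range (h0 i) (h1 i)
  exact ⟨y, funext hy⟩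

theorem Th_mp (n : ℕ) : MeasurePreserving (Th n) (gG (Fin n)) (volume.restrict (cube n)) := by
  have h1 := measurePreserving_pi (fun _ : Fin n => g1)
    (fun _ : Fin n => (volume : Measure ℝ).restrict (Icc (0 : ℝ) 1)) (fun _ => Ph_mp)
  rw [← Measure.restrict_pi_pi, ← volume_pi] at h1
  have h2 : (univ.pi fun _ : Fin n => Icc (0 : ℝ) 1) = cube n := by
    unfold cube
    rw [← pi_univ_Icc]
    rfl
  rw [h2] at h1
  exact h1

theorem Th_lip (n : ℕ) : LipschitzWith 1 (Th n) := by
  apply LipschitzWith.of_dist_le_mul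
  intro y y'
  rw [NNReal.coe_one, one_mul, dist_pi_le_iff dist_nonneg]
  intro i
  have h1 := Ph_lip.dist_le_mul (y i) (y' i)
  rw [NNReal.coe_one, one_mul] at h1
  exact h1.trans (dist_le_pi_dist y y' i)

/-- the directed gradient on the cube -/
noncomputable def SS {n : ℕ} (f : (Fin n → ℝ) → ℝ) (x : Fin n → ℝ) : ℝ :=
  Real.sqrt (∑ i, (min (fderiv ℝ f x (Pi.single i 1)) 0) ^ 2)

theorem SS_meas {n : ℕ} (f : (Fin n → ℝ) → ℝ) : Measurable (SS f) := by
  unfold SS
  apply Measurable.sqrt
  apply Finset.measurable_sum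
  intro i _
  exact ((measurable_fderiv_apply_const ℝ f (Pi.single i 1)).min measurable_const).pow_const 2

theorem min_sq_le {a b : ℝ} (h : |a| ≤ b) : (min a 0) ^ 2 ≤ b ^ 2 := by
  have h1 := abs_le.mp h
  have h2 : 0 ≤ b := (abs_nonneg _).trans h
  rcases le_total a 0 with h3 | h3
  · rw [min_eq_left h3]
    nlinarith
  · rw [min_eq_right h3]
    nlinarith

theorem SS_bound {n : ℕ} {f : (Fin n → ℝ) → ℝ} {K : NNReal} (hf : LipschitzWith K f)
    (x : Fin n → ℝ) : ‖SS f x‖ ≤ Real.sqrt (n * (K : ℝ) ^ 2) := by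
  unfold SS
  rw [Real.norm_of_nonneg (Real.sqrt_nonneg _)]
  apply Real.sqrt_le_sqrt
  calc ∑ i, (min (fderiv ℝ f x (Pi.single i 1)) 0) ^ 2 ≤ ∑ _i : Fin n, (K : ℝ) ^ 2 := by
        apply Finset.sum_le_sum
        intro i _
        apply min_sq_le
        rw [← Real.norm_eq_abs]
        have h1 := norm_fderiv_le_of_lipschitz ℝ hf (x₀ := x)
        have h2 : ‖(Pi.single i 1 : Fin n → ℝ)‖ ≤ 1 := by
          rw [Pi.norm_single]
          simp
        calc ‖fderiv ℝ f x (Pi.single i 1)‖ ≤ ‖fderiv ℝ f x‖ * ‖(Pi.single i 1 : Fin n → ℝ)‖ :=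
              ContinuousLinearMap.le_opNorm _ _
          _ ≤ K * 1 := mul_le_mul h1 h2 (norm_nonneg _) K.coe_nonneg
          _ = K := mul_one _
    _ = n * (K : ℝ) ^ 2 := by simp

/-- comparison of the gradients -/
theorem nm_le {n : ℕ} {f : (Fin n → ℝ) → ℝ} {y : Fin n → ℝ}
    (hd : DifferentiableAt ℝ f (Th n y)) : nm (fun u => f (Th n u)) y ≤ SS f (Th n y) := by
  unfold nm SS
  apply Real.sqrt_le_sqrt
  apply Finset.sum_le_sum
  intro i _
  by_cases hg : DifferentiableAt ℝ (fun u => f (Th n u)) y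
  · have h1 : HasDerivAt (fun t => (fun u => f (Th n u)) (Function.update y i t))
        (fderiv ℝ (fun u => f (Th n u)) y (Pi.single i 1)) (y i) := by
      have e1 : HasFDerivAt (fun u => f (Th n u)) (fderiv ℝ (fun u => f (Th n u)) y)
          (Function.update y i (y i)) := by
        rw [Function.update_eq_self]
        exact hg.hasFDerivAt
      exact e1.comp_hasDerivAt (y i) (hasDerivAt_update y i (y i))
    have h2 : HasDerivAt (fun t => f (Function.update (Th n y) i (Ph t)))
        (fderiv ℝ f (Th n y) (ph (y i) • Pi.single i 1)) (y i) := by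
      have e1 : HasFDerivAt f (fderiv ℝ f (Th n y)) (Function.update (Th n y) i (Ph (y i))) := by
        have : Function.update (Th n y) i (Ph (y i)) = Th n y := Function.update_eq_self i (Th n y)
        rw [this]
        exact hd.hasFDerivAt
      have e2 : HasDerivAt (fun t => Function.update (Th n y) i (Ph t))
          (ph (y i) • Pi.single i 1) (y i) :=
        (hasDerivAt_update (Th n y) i (Ph (y i))).scomp (y i) (Ph_deriv (y i))
      exact e1.comp_hasDerivAt (y i) e2
    have h3 : (fun t => (fun u => f (Th n u)) (Function.update y i t)) =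
        fun t => f (Function.update (Th n y) i (Ph t)) := by
      funext t
      simp only
      congr 1
      funext j
      by_cases hj : j = i
      · subst hj
        simp [Th]
      · simp [Th, hj]
    rw [h3] at h1
    have h4 := h1.unique h2
    rw [h4, map_smul, smul_eq_mul]
    have hp := ph_pos (y i)
    have hl := ph_le (y i)
    set a := fderiv ℝ f (Th n y) (Pi.single i 1) with ha
    have h5 : min (ph (y i) * a) 0 = ph (y i) * min a 0 := by
      rw [mul_min_of_nonneg _ _ hp.le, mul_zero]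
    rw [h5, mul_pow]
    have h6 : ph (y i) ^ 2 ≤ 1 := by nlinarith
    nlinarith [sq_nonneg (min a 0)]
  · rw [fderiv_zero_of_not_differentiableAt hg]
    have h7 : min ((0 : (Fin n → ℝ) →L[ℝ] ℝ) (Pi.single i 1)) 0 = 0 := by simp
    rw [h7, zero_pow two_ne_zero]
    exact sq_nonneg _

theorem pd_eq {n : ℕ} {f f' : (Fin n → ℝ) → ℝ} (hff : EqOn f f' (cube n)) {y : Fin n → ℝ}
    (hd : DifferentiableAt ℝ f' (Th n y)) (i : Fin n) :
    pd f i (Th n y) = fderiv ℝ f' (Th n y) (Pi.single i 1) := by
  unfold pd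
  have h1 : (fun t => f (Function.update (Th n y) i t)) =ᶠ[𝓝 (Th n y i)]
      fun t => f' (Function.update (Th n y) i t) := by
    have h2 : Ioo (0 : ℝ) 1 ∈ 𝓝 (Th n y i) := Ioo_mem_nhds (Ph_pos (y i)) (Ph_lt (y i))
    filter_upwards [h2] with t ht
    apply hff
    constructor
    · intro j
      by_cases hj : j = i
      · subst hj
        simp only [Function.update_self, Pi.zero_apply]
        exact ht.1.le
      · simp only [Function.update_of_ne hj, Pi.zero_apply]
        exact (Ph_pos (y j)).le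
    · intro j
      by_cases hj : j = i
      · subst hj
        simp only [Function.update_self, Pi.one_apply]
        exact ht.2.le
      · simp only [Function.update_of_ne hj, Pi.one_apply]
        exact (Ph_lt (y j)).le
  rw [h1.deriv_eq]
  have e1 : HasFDerivAt f' (fderiv ℝ f' (Th n y)) (Function.update (Th n y) i (Th n y i)) := by
    rw [Function.update_eq_self]
    exact hd.hasFDerivAt
  exact (e1.comp_hasDerivAt (Th n y i) (hasDerivAt_update (Th n y) i (Th n y i))).deriv

theorem coord_int {n : ℕ} (i : Fin n) : Integrable (fun y : Fin n → ℝ => y i) (gG (Fin n)) := by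
  have h1 : Integrable (fun t : ℝ => t) g1 := by
    have := memLp_id_gaussianReal (μ := 0) (v := 1) 1
    rw [ENNReal.coe_one, memLp_one_iff_integrable] at this
    exact this
  exact (measurePreserving_eval (fun _ : Fin n => g1) i).integrable_comp_of_integrable h1

theorem lip_int {n : ℕ} {A : (Fin n → ℝ) → ℝ} (hA : Lip A) : Integrable A (gG (Fin n)) := by
  obtain ⟨K, hK⟩ := hA
  have h1 : Integrable (fun y : Fin n → ℝ => |A 0| + K * ∑ i, |y i|) (gG (Fin n)) := by
    apply Integrable.add (integrable_const _)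
    apply Integrable.const_mul
    apply integrable_finsetSum
    intro i _
    exact (coord_int i).abs
  apply h1.mono' hK.continuous.aestronglyMeasurable
  refine Eventually.of_forall fun y => ?_
  have h2 := hK.dist_le_mul y 0
  rw [Real.dist_eq, dist_zero_right] at h2
  have h3 : ‖y‖ ≤ ∑ i, |y i| := by
    rw [pi_norm_le_iff_of_nonneg (Finset.sum_nonneg fun i _ => abs_nonneg _)]
    intro i
    rw [Real.norm_eq_abs]
    exact Finset.single_le_sum (f := fun i => |y i|) (fun i _ => abs_nonneg _) (Finset.mem_univ i)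
  have h4 : (K : ℝ) * ‖y‖ ≤ K * ∑ i, |y i| := mul_le_mul_of_nonneg_left h3 K.coe_nonneg
  have h5 : |A y| ≤ |A 0| + |A y - A 0| := by
    have := abs_add_le (A 0) (A y - A 0)
    rwa [add_sub_cancel] at this
  rw [Real.norm_eq_abs]
  linarith

end CubeAux

open CubeAux

theorem t_cube : St_cube := by
  rintro ⟨C, hC, hG⟩
  refine ⟨C, hC, fun n f K hf => ?_⟩
  obtain ⟨f', hf', hff'⟩ := hf.extend_real
  obtain ⟨M, hM⟩ : ∃ M, ∀ x ∈ cube n, ‖f' x‖ ≤ M :=
    isCompact_Icc.exists_bound_of_continuousOn hf'.continuous.continuousOn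
  have h0mem : (0 : Fin n → ℝ) ∈ cube n := ⟨le_rfl, fun i => zero_le_one⟩
  have hM0 : 0 ≤ M := (norm_nonneg _).trans (hM 0 h0mem)
  have hg0 : Lip (fun y => f' (Th n y)) := ⟨K * 1, hf'.comp (Th_lip n)⟩
  obtain ⟨F, hFl, hFm, hFi⟩ := hG n (fun y => f' (Th n y)) hg0
  have hFc : Continuous F := by
    obtain ⟨K', hK'⟩ := hFl
    exact hK'.continuous
  set F' : (Fin n → ℝ) → ℝ := fun y => max (-M) (min M (F y)) with hF'
  have hF'c : Continuous F' := continuous_const.max (continuous_const.min hFc)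
  have hF'lo : ∀ y, -M ≤ F' y := fun y => le_max_left _ _
  have hF'hi : ∀ y, F' y ≤ M := fun y => max_le (by linarith) (min_le_left _ _)
  have hF'm : Monotone F' := fun y y' h => max_le_max le_rfl (min_le_min le_rfl (hFm h))
  set bd : (Fin n → ℝ) → ℝ := {x : Fin n → ℝ | ∀ i, 0 < x i}.piecewise (fun _ => M) (fun _ => -M)
    with hbd
  have hbdm : Measurable bd := by
    apply Measurable.piecewise _ measurable_const measurable_const
    have : {x : Fin n → ℝ | ∀ i, 0 < x i} = ⋂ i, {x : Fin n → ℝ | 0 < x i} := by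
      ext x; simp
    rw [this]
    exact MeasurableSet.iInter fun i => measurableSet_lt measurable_const (measurable_pi_apply i)
  set G : (Fin n → ℝ) → ℝ := Function.extend (Th n) F' bd with hGdef
  have hGT : ∀ y, G (Th n y) = F' y := fun y => (Th_inj n).extend_apply F' bd y
  have hGbd : ∀ x, (¬ ∃ y, Th n y = x) → G x = bd x := fun x h => Function.extend_apply' F' bd x h
  have hbdM : ∀ x : Fin n → ℝ, (∀ i, 0 < x i) → bd x = M := fun x h => piecewise_eq_of_mem _ _ _ h
  have hbdm' : ∀ x : Fin n → ℝ, (¬ ∀ i, 0 < x i) → bd x = -M := fun x h =>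
    piecewise_eq_of_notMem _ _ _ h
  have hGlo : ∀ x, -M ≤ G x := by
    intro x
    by_cases hx : ∃ y, Th n y = x
    · obtain ⟨y, rfl⟩ := hx
      rw [hGT]; exact hF'lo y
    · rw [hGbd x hx]
      by_cases h0 : ∀ i, 0 < x i
      · rw [hbdM x h0]; linarith
      · rw [hbdm' x h0]
  have hfG : ∀ y, |f (Th n y) - G (Th n y)| = |f' (Th n y) - F' y| := by
    intro y
    rw [hGT, hff' (Th_mem n y)]
  refine ⟨G, ?_, (Th_emb n).measurable_extend hF'c.measurable hbdm, ?_, ?_⟩
  · intro x hx x' hx' hle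
    by_cases h0 : ∀ i, 0 < x i
    · have h0' : ∀ i, 0 < x' i := fun i => lt_of_lt_of_le (h0 i) (hle i)
      by_cases h1' : ∀ i, x' i < 1
      · have h1 : ∀ i, x i < 1 := fun i => lt_of_le_of_lt (hle i) (h1' i)
        obtain ⟨y, rfl⟩ := Th_range h0 h1
        obtain ⟨y', rfl⟩ := Th_range h0' h1'
        rw [hGT, hGT]
        exact hF'm (Th_le hle)
      · have hnr : ¬ ∃ y, Th n y = x' := by
          rintro ⟨y, rfl⟩
          exact h1' fun i => Ph_lt (y i)
        rw [hGbd x' hnr, hbdM x' h0']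
        by_cases hx2 : ∃ y, Th n y = x
        · obtain ⟨y, rfl⟩ := hx2
          rw [hGT]; exact hF'hi y
        · rw [hGbd x hx2, hbdM x h0]
    · have hnr : ¬ ∃ y, Th n y = x := by
        rintro ⟨y, rfl⟩
        exact h0 fun i => Ph_pos (y i)
      rw [hGbd x hnr, hbdm' x h0]
      exact hGlo x'
  · have h1 : Integrable ((fun x => |f x - G x|) ∘ Th n) (gG (Fin n)) := by
      have e1 : ((fun x => |f x - G x|) ∘ Th n) = fun y => |f' (Th n y) - F' y| := by
        funext y
        exact hfG y
      rw [e1]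
      have hc : Continuous fun y => |f' (Th n y) - F' y| :=
        ((hf'.continuous.comp (Th_cont n)).sub hF'c).abs
      apply Integrable.of_bound hc.aestronglyMeasurable (2 * M)
      refine Eventually.of_forall fun y => ?_
      have e2 := hM _ (Th_mem n y)
      rw [Real.norm_eq_abs, abs_le] at e2
      rw [Real.norm_eq_abs, abs_abs, abs_le]
      have e3 := hF'lo y
      have e4 := hF'hi y
      constructor <;> linarith [e2.1, e2.2]
    exact ((Th_mp n).integrable_comp_emb (Th_emb n)).mp h1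
  · have e1 : ∫ x in cube n, |f x - G x| = ∫ y, |f' (Th n y) - F' y| ∂(gG (Fin n)) := by
      rw [← (Th_mp n).integral_comp (Th_emb n)]
      exact integral_congr_ae (Eventually.of_forall hfG)
    have hFint : Integrable (fun y => |f' (Th n y) - F y|) (gG (Fin n)) :=
      ((lip_int hg0).sub (lip_int hFl)).abs
    have e2 : ∫ y, |f' (Th n y) - F' y| ∂(gG (Fin n)) ≤
        ∫ y, |f' (Th n y) - F y| ∂(gG (Fin n)) := by
      apply integral_mono_of_nonneg (Eventually.of_forall fun y => abs_nonneg _) hFint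
      refine Eventually.of_forall fun y => ?_
      have h2 := hM _ (Th_mem n y)
      rw [Real.norm_eq_abs, abs_le] at h2
      have h3 : f' (Th n y) = max (-M) (min M (f' (Th n y))) := by
        rw [min_eq_right h2.2, max_eq_right h2.1]
      simp only [hF']
      calc |f' (Th n y) - max (-M) (min M (F y))|
          = |max (-M) (min M (f' (Th n y))) - max (-M) (min M (F y))| := by rw [← h3]
        _ = |max (min M (f' (Th n y))) (-M) - max (min M (F y)) (-M)| := by
            rw [max_comm (-M), max_comm (-M)]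
        _ ≤ |min M (f' (Th n y)) - min M (F y)| := abs_max_sub_max_le_abs _ _ _
        _ ≤ max |M - M| |f' (Th n y) - F y| := abs_min_sub_min_le_max _ _ _ _
        _ = |f' (Th n y) - F y| := by
            rw [sub_self, abs_zero, max_eq_right (abs_nonneg _)]
    have hae : ∀ᵐ y ∂(gG (Fin n)), DifferentiableAt ℝ f' (Th n y) := by
      have h1 : ∀ᵐ x ∂(volume.restrict (cube n)), DifferentiableAt ℝ f' x :=
        ae_restrict_of_ae hf'.ae_differentiableAt
      exact (Th_mp n).quasiMeasurePreserving.ae h1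
    have hSint : Integrable (fun y => SS f' (Th n y)) (gG (Fin n)) := by
      apply Integrable.of_bound
        ((SS_meas f').comp (Th_cont n).measurable).aestronglyMeasurable (Real.sqrt (n * (K : ℝ) ^ 2))
      exact Eventually.of_forall fun y => SS_bound hf' _
    have e3 : ∫ y, nm (fun u => f' (Th n u)) y ∂(gG (Fin n)) ≤
        ∫ y, SS f' (Th n y) ∂(gG (Fin n)) := by
      apply integral_mono_of_nonneg (Eventually.of_forall fun y => Real.sqrt_nonneg _) hSint
      filter_upwards [hae] with y hy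
      exact nm_le hy
    have e4 : ∫ x in cube n, Real.sqrt (∑ i, (min (pd f i x) 0) ^ 2) =
        ∫ y, SS f' (Th n y) ∂(gG (Fin n)) := by
      rw [← (Th_mp n).integral_comp (Th_emb n)]
      apply integral_congr_ae
      filter_upwards [hae] with y hy
      unfold SS
      congr 1
      apply Finset.sum_congr rfl
      intro i _
      rw [pd_eq hff' hy i]
    rw [e1, e4]
    calc ∫ y, |f' (Th n y) - F' y| ∂(gG (Fin n)) ≤ ∫ y, |f' (Th n y) - F y| ∂(gG (Fin n)) := e2
      _ ≤ C * ∫ y, nm (fun u => f' (Th n u)) y ∂(gG (Fin n)) := hFi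
      _ ≤ C * ∫ y, SS f' (Th n y) ∂(gG (Fin n)) := mul_le_mul_of_nonneg_left e3 hC.le

end Pool.Agent.Q288.DP
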