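import Pool.Agent.Q288.DP.Gal

set_option autoImplicit false

/-!
Project DP: duality for the Euclidean norm, and the one-dimensional inequality.
-/

namespace Pool.Agent.Q288.DP

open MeasureTheory ProbabilityTheory Set Filter Topology
open scoped ENNReal Interval



theorem du_integrable_bdd {f : ℝ → ℝ} (hf : Measurable f) {M : ℝ} (h : ∀ t, |f t| ≤ M) :
    Integrable f g1 :=
  Integrable.of_bound hf.aestronglyMeasurable M (Eventually.of_forall h)

theorem t_dual : St_dual := by
  classical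
  intro Λ _ w w' τ M hτ hw hw' hM hM' h
  obtain ⟨N', hN'⟩ : ∃ N' : ℝ → ℝ, N' = fun t => Real.sqrt (∑ l, (w' l t) ^ 2) := ⟨_, rfl⟩
  have hN'm : Measurable N' := by
    rw [hN']
    exact (Finset.measurable_sum _ fun l _ => (hw' l).pow_const 2).sqrt
  have hN'0 : ∀ t, 0 ≤ N' t := fun t => by rw [hN']; exact Real.sqrt_nonneg _
  have hle : ∀ l t, w' l t ≤ N' t := by
    intro l t
    rw [hN']
    apply Real.le_sqrt_of_sq_le
    exact Finset.single_le_sum (f := fun l => (w' l t) ^ 2) (fun _ _ => sq_nonneg _)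
      (Finset.mem_univ l)
  have hsqN : ∀ t, N' t ^ 2 = ∑ l, (w' l t) ^ 2 := by
    intro t
    rw [hN']
    exact Real.sq_sqrt (Finset.sum_nonneg fun _ _ => sq_nonneg _)
  obtain ⟨ψ, hψ⟩ : ∃ ψ : Λ → ℝ → ℝ, ψ = fun l t => w' l t / N' t := ⟨_, rfl⟩
  have hψm : ∀ l, Measurable (ψ l) := by
    intro l
    rw [hψ]
    exact (hw' l).div hN'm
  have hψ01 : ∀ l t, 0 ≤ ψ l t ∧ ψ l t ≤ 1 := by
    intro l t
    rw [hψ]
    exact ⟨div_nonneg (hM' l t).1 (hN'0 t), div_le_one_of_le₀ (hle l t) (hN'0 t)⟩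
  have hψ1 : ∀ t, ∑ l, ψ l t * w' l t = N' t := by
    intro t
    rw [hψ]
    simp only
    rcases (hN'0 t).eq_or_lt with h0 | h0
    · rw [← h0]
      simp
    · have e : ∀ l, w' l t / N' t * w' l t = (w' l t) ^ 2 / N' t := fun l => by ring
      simp only [e]
      rw [← Finset.sum_div, ← hsqN t, sq, mul_div_assoc, div_self h0.ne', mul_one]
  have hψ2 : ∀ t, ∑ l, (ψ l t) ^ 2 ≤ 1 := by
    intro t
    rw [hψ]
    simp only [div_pow]
    rw [← Finset.sum_div, ← hsqN t]
    exact div_self_le_one _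
  have habs' : ∀ l t, |w' l t| ≤ M := fun l t => by
    rw [abs_of_nonneg (hM' l t).1]
    exact (hM' l t).2
  have hprod : ∀ (u v : ℝ → ℝ), (∀ t, 0 ≤ u t ∧ u t ≤ 1) → (∀ t, |v t| ≤ M) →
      ∀ t, |u t * v t| ≤ M := by
    intro u v hu hv t
    rw [abs_mul, abs_of_nonneg (hu t).1]
    calc u t * |v t| ≤ 1 * |v t| := mul_le_mul_of_nonneg_right (hu t).2 (abs_nonneg _)
      _ ≤ M := by rw [one_mul]; exact hv t
  -- the chain of inequalities
  have e1 : ∫ t, N' t ∂g1 = ∑ l, ∫ t, ψ l t * w' l t ∂g1 := by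
    rw [← integral_finsetSum]
    · exact integral_congr_ae (Eventually.of_forall fun t => (hψ1 t).symm)
    · intro l _
      exact du_integrable_bdd ((hψm l).mul (hw' l)) (hprod _ _ (hψ01 l) (habs' l))
  have e2 : ∑ l, ∫ t, ψ l t * w' l t ∂g1 ≤ ∑ l, ∫ t, ψ l (τ t) * w l t ∂g1 :=
    Finset.sum_le_sum fun l _ => h l (ψ l) (hψm l) (hψ01 l)
  have hint : ∀ l, Integrable (fun t => ψ l (τ t) * w l t) g1 := by
    intro l
    exact du_integrable_bdd (((hψm l).comp hτ.measurable).mul (hw l))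
      (hprod _ _ (fun t => hψ01 l (τ t)) (hM l))
  have e3 : ∑ l, ∫ t, ψ l (τ t) * w l t ∂g1 = ∫ t, ∑ l, ψ l (τ t) * w l t ∂g1 := by
    rw [integral_finsetSum]
    intro l _
    exact hint l
  have hNm : Measurable (fun t => Real.sqrt (∑ l, (w l t) ^ 2)) :=
    (Finset.measurable_sum _ fun l _ => (hw l).pow_const 2).sqrt
  have hNint : Integrable (fun t => Real.sqrt (∑ l, (w l t) ^ 2)) g1 := by
    refine du_integrable_bdd hNm (M := Real.sqrt (∑ _l : Λ, M ^ 2)) fun t => ?_
    rw [abs_of_nonneg (Real.sqrt_nonneg _)]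
    apply Real.sqrt_le_sqrt
    refine Finset.sum_le_sum fun l _ => ?_
    rw [← sq_abs]
    exact pow_le_pow_left₀ (abs_nonneg _) (hM l t) 2
  have e4 : ∫ t, ∑ l, ψ l (τ t) * w l t ∂g1 ≤ ∫ t, Real.sqrt (∑ l, (w l t) ^ 2) ∂g1 := by
    refine integral_mono (integrable_finsetSum _ fun l _ => hint l) hNint fun t => ?_
    simp only
    refine (Real.sum_mul_le_sqrt_mul_sqrt _ _ _).trans ?_
    calc Real.sqrt (∑ l, (ψ l (τ t)) ^ 2) * Real.sqrt (∑ l, (w l t) ^ 2) ≤
        1 * Real.sqrt (∑ l, (w l t) ^ 2) := by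
          refine mul_le_mul_of_nonneg_right ?_ (Real.sqrt_nonneg _)
          exact (Real.sqrt_le_sqrt (hψ2 (τ t))).trans_eq Real.sqrt_one
      _ = _ := one_mul _
  have e5 : ∫ t, Real.sqrt (∑ l, (w' l t) ^ 2) ∂g1 = ∫ t, N' t ∂g1 := by rw [hN']
  rw [e5, e1]
  exact e2.trans (e3.trans_le e4)



theorem du_g1_neg (s : Set ℝ) (hs : MeasurableSet s) : g1 ((fun x : ℝ => -x) ⁻¹' s) = g1 s := by
  have h := gaussianReal_map_neg (μ := 0) (v := 1)
  rw [neg_zero] at h
  have h2 : (Measure.map (fun x : ℝ => -x) g1) s = g1 s := by rw [h]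
  rw [Measure.map_apply (by fun_prop) hs] at h2
  exact h2

theorem du_g1_half : g1 (Ici 0) = 1 / 2 := by
  have hna : NullSingletonClass g1 := nullSingletonClass_gaussianReal one_ne_zero
  have h1 : g1 (Iio 0) = g1 (Ici 0) := by
    rw [← du_g1_neg (Ici 0) measurableSet_Ici]
    have h2 : (fun x : ℝ => -x) ⁻¹' (Ici 0) = Iic 0 := by
      ext x
      simp
    rw [h2]
    exact measure_congr Iio_ae_eq_Iic
  have h3 : g1 (Iio 0) + g1 (Ici 0) = 1 := by
    rw [← measure_union (by
      rw [Set.disjoint_left]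
      intro x hx hx'
      exact absurd (mem_Ici.1 hx') (not_le.2 (mem_Iio.1 hx))) measurableSet_Ici, Iio_union_Ici, measure_univ]
  rw [h1, ← two_mul] at h3
  rw [ENNReal.eq_div_iff two_ne_zero ENNReal.ofNat_ne_top]
  exact h3

/-- the tails -/
theorem du_tail_le (s : ℝ) (hs : 0 ≤ s) :
    g1 (Ici s) ≤ ENNReal.ofReal (Real.exp (-s ^ 2 / 2) / 2) := by
  have h0 : ∀ S : Set ℝ, g1 S = ∫⁻ x in S, gaussianPDF 0 1 x := fun S =>
    gaussianReal_apply 0 one_ne_zero S
  have h1 : g1 (Ici s) = ∫⁻ x in Ici 0, gaussianPDF 0 1 (x + s) := by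
    rw [h0, ← lintegral_indicator measurableSet_Ici, ← lintegral_indicator measurableSet_Ici,
      ← lintegral_add_right_eq_self _ s]
    refine lintegral_congr fun x => ?_
    by_cases hx : 0 ≤ x
    · rw [indicator_of_mem (show x + s ∈ Ici s by simpa using hx),
        indicator_of_mem (show x ∈ Ici 0 from hx)]
    · rw [indicator_of_notMem (show x + s ∉ Ici s by simpa using hx),
        indicator_of_notMem (show x ∉ Ici 0 from hx)]
  have h2 : ∀ x ∈ Ici (0 : ℝ), gaussianPDF 0 1 (x + s) ≤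
      ENNReal.ofReal (Real.exp (-s ^ 2 / 2)) * gaussianPDF 0 1 x := by
    intro x hx
    have hx0 : 0 ≤ x := hx
    rw [gaussianPDF_def, ← ENNReal.ofReal_mul (Real.exp_nonneg _)]
    apply ENNReal.ofReal_le_ofReal
    unfold gaussianPDFReal
    have h3 : Real.exp (-(x + s - 0) ^ 2 / (2 * ((1 : NNReal) : ℝ))) ≤
        Real.exp (-s ^ 2 / 2) * Real.exp (-(x - 0) ^ 2 / (2 * ((1 : NNReal) : ℝ))) := by
      rw [← Real.exp_add]
      apply Real.exp_le_exp.2
      have : 0 ≤ x * s := mul_nonneg hx0 hs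
      simp only [NNReal.coe_one, sub_zero, mul_one]
      nlinarith
    calc (Real.sqrt (2 * Real.pi * ((1 : NNReal) : ℝ)))⁻¹ *
          Real.exp (-(x + s - 0) ^ 2 / (2 * ((1 : NNReal) : ℝ))) ≤
        (Real.sqrt (2 * Real.pi * ((1 : NNReal) : ℝ)))⁻¹ * (Real.exp (-s ^ 2 / 2) *
          Real.exp (-(x - 0) ^ 2 / (2 * ((1 : NNReal) : ℝ)))) :=
          mul_le_mul_of_nonneg_left h3 (by positivity)
      _ = _ := by ring
  rw [h1]
  refine (setLIntegral_mono' measurableSet_Ici h2).trans ?_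
  rw [lintegral_const_mul _ (measurable_gaussianPDF 0 1), ← h0, du_g1_half,
    ENNReal.ofReal_div_of_pos two_pos, ENNReal.ofReal_ofNat, mul_one_div]

theorem du_lip_int {f : ℝ → ℝ} {K : NNReal} (h : LipschitzWith K f) : Integrable f g1 := by
  have h1 : Integrable (fun x : ℝ => |f 0| + K * |x|) g1 := by
    refine (integrable_const _).add (Integrable.const_mul ?_ _)
    have h2 : MemLp (id : ℝ → ℝ) 1 g1 := memLp_id_gaussianReal 1
    exact (memLp_one_iff_integrable.1 h2).abs
  refine h1.mono' h.continuous.aestronglyMeasurable (Eventually.of_forall fun x => ?_)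
  have h2 := h.dist_le_mul x 0
  rw [Real.dist_eq, Real.dist_eq, sub_zero] at h2
  have h3 : |f x| ≤ |f 0| + |f x - f 0| := by
    have := abs_add_le (f 0) (f x - f 0)
    rwa [add_sub_cancel] at this
  rw [Real.norm_eq_abs]
  linarith

/-- the set of the end points of the intervals from `0` which contain a point -/
theorem du_meas_pts (s : ℝ) : g1 {t | s ∈ Ι 0 t} ≤ ENNReal.ofReal (Real.exp (-s ^ 2 / 2) / 2) := by
  rcases le_or_gt s 0 with hs | hs
  · have h1 : {t | s ∈ Ι 0 t} ⊆ (fun x : ℝ => -x) ⁻¹' (Ici (-s)) := by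
      intro t ht
      rw [mem_ofPred_eq, mem_uIoc] at ht
      rw [mem_preimage, mem_Ici, neg_le_neg_iff]
      rcases ht with ht | ht
      · linarith [ht.1]
      · exact ht.1.le
    refine (measure_mono h1).trans ?_
    rw [du_g1_neg _ measurableSet_Ici]
    refine (du_tail_le (-s) (by linarith)).trans (le_of_eq ?_)
    rw [neg_sq]
  · have h1 : {t | s ∈ Ι 0 t} ⊆ Ici s := by
      intro t ht
      rw [mem_ofPred_eq, mem_uIoc] at ht
      rcases ht with ht | ht
      · exact ht.2
      · linarith [ht.2]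
    exact (measure_mono h1).trans (du_tail_le s hs.le)

theorem du_int_bound (u : ℝ → ℝ) (hu : Measurable u) (hu0 : ∀ s, 0 ≤ u s) :
    ∫⁻ t, ENNReal.ofReal |∫ s in (0 : ℝ)..t, u s| ∂g1 ≤
      ∫⁻ s, ENNReal.ofReal (u s) * ENNReal.ofReal (Real.exp (-s ^ 2 / 2) / 2) := by
  have h1 : ∀ t : ℝ, ENNReal.ofReal |∫ s in (0 : ℝ)..t, u s| ≤
      ∫⁻ s, (Ι 0 t).indicator (fun s => ENNReal.ofReal (u s)) s := by
    intro t
    rw [lintegral_indicator measurableSet_uIoc, ← Real.norm_eq_abs,
      intervalIntegral.norm_intervalIntegral_eq, ofReal_norm]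
    refine (enorm_integral_le_lintegral_enorm _).trans (le_of_eq ?_)
    refine lintegral_congr fun s => ?_
    exact Real.enorm_of_nonneg (hu0 s)
  have hset : MeasurableSet {q : ℝ × ℝ | q.2 ∈ Ι 0 q.1} := by
    have e : {q : ℝ × ℝ | q.2 ∈ Ι 0 q.1} = {q : ℝ × ℝ | min 0 q.1 < q.2} ∩
        {q : ℝ × ℝ | q.2 ≤ max 0 q.1} := by
      ext q
      rfl
    rw [e]
    exact (measurableSet_lt (measurable_const.min measurable_fst) measurable_snd).inter
      (measurableSet_le measurable_snd (measurable_const.max measurable_fst))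
  have hm : Measurable (fun q : ℝ × ℝ => (Ι 0 q.1).indicator (fun s => ENNReal.ofReal (u s)) q.2) := by
    have e : (fun q : ℝ × ℝ => (Ι 0 q.1).indicator (fun s => ENNReal.ofReal (u s)) q.2) =
        {q : ℝ × ℝ | q.2 ∈ Ι 0 q.1}.indicator (fun q => ENNReal.ofReal (u q.2)) := by
      funext q
      by_cases hq : q.2 ∈ Ι 0 q.1
      · rw [indicator_of_mem hq, indicator_of_mem (show q ∈ {q : ℝ × ℝ | q.2 ∈ Ι 0 q.1} from hq)]
      · rw [indicator_of_notMem hq,
          indicator_of_notMem (show q ∉ {q : ℝ × ℝ | q.2 ∈ Ι 0 q.1} from hq)]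
    rw [e]
    exact (ENNReal.measurable_ofReal.comp (hu.comp measurable_snd)).indicator hset
  refine (lintegral_mono h1).trans ?_
  rw [lintegral_lintegral_swap hm.aemeasurable]
  refine lintegral_mono fun s => ?_
  have h2 : ∀ t : ℝ, (Ι 0 t).indicator (fun s => ENNReal.ofReal (u s)) s =
      {t | s ∈ Ι 0 t}.indicator (fun _ => ENNReal.ofReal (u s)) t := by
    intro t
    by_cases ht : s ∈ Ι 0 t
    · rw [indicator_of_mem ht, indicator_of_mem (show t ∈ {t | s ∈ Ι 0 t} from ht)]
    · rw [indicator_of_notMem ht, indicator_of_notMem (show t ∉ {t | s ∈ Ι 0 t} from ht)]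
  have hset2 : MeasurableSet {t : ℝ | s ∈ Ι 0 t} :=
    hset.preimage (f := fun t : ℝ => (t, s)) (measurable_id.prodMk measurable_const)
  simp only [h2]
  rw [lintegral_indicator_const hset2]
  gcongr
  exact du_meas_pts s

theorem t_one (h : St_l1) (h' : St_fix) : St_one := by
  intro B K hB
  obtain ⟨u, hu⟩ : ∃ u : ℝ → ℝ, u = fun s => -(min (deriv B s) 0) := ⟨_, rfl⟩
  have hu0 : ∀ s, 0 ≤ u s := fun s => by
    rw [hu]
    simp
  have hdB : ∀ s, |deriv B s| ≤ K := fun s => by
    rw [← Real.norm_eq_abs]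
    exact norm_deriv_le_of_lipschitz hB
  have huK : ∀ s, |u s| ≤ K := fun s => by
    rw [abs_of_nonneg (hu0 s), hu]
    simp only
    have := (abs_le.1 (hdB s)).1
    rcases min_choice (deriv B s) 0 with h1 | h1
    · rw [h1]; linarith
    · rw [h1, neg_zero]; exact K.2
  have hum : Measurable u := by
    rw [hu]
    exact ((measurable_deriv B).min measurable_const).neg
  have hii : ∀ (f : ℝ → ℝ), Measurable f → (∀ s, |f s| ≤ K) → ∀ a b : ℝ,
      IntervalIntegrable f volume a b := by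
    intro f hf hfK a b
    rw [intervalIntegrable_iff]
    refine Measure.integrableOn_of_bounded (M := K) ?_ hf.aestronglyMeasurable
      (Eventually.of_forall hfK)
    rw [uIoc, Real.volume_Ioc]
    exact ENNReal.ofReal_ne_top
  have huu := hii u hum huK
  have hdd := hii (deriv B) (measurable_deriv B) hdB
  obtain ⟨U, hU⟩ : ∃ U : ℝ → ℝ, U = fun t => ∫ s in (0 : ℝ)..t, u s := ⟨_, rfl⟩
  have hUd : ∀ s t : ℝ, U t - U s = ∫ x in s..t, u x := by
    intro s t
    rw [hU]
    exact intervalIntegral.integral_interval_sub_left (huu 0 t) (huu 0 s)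
  have hUlip : LipschitzWith K U := by
    refine LipschitzWith.of_dist_le_mul fun t s => ?_
    rw [Real.dist_eq, Real.dist_eq, hUd s t]
    have h1 := intervalIntegral.norm_integral_le_of_norm_le_const (a := s) (b := t) (f := u)
      (C := K) (fun x _ => by rw [Real.norm_eq_abs]; exact huK x)
    rw [Real.norm_eq_abs] at h1
    exact h1
  have hMlip : LipschitzWith (K + K) (fun t => B t + U t) := hB.add hUlip
  have hMmono : Monotone (fun t => B t + U t) := by
    intro s t hst
    simp only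
    have h1 : ∫ x in s..t, deriv B x = B t - B s :=
      (hB.lipschitzOnWith (s := uIcc s t)).absolutelyContinuousOnInterval.integral_deriv_eq_sub
    have h2 : 0 ≤ ∫ x in s..t, (deriv B x + u x) := by
      refine intervalIntegral.integral_nonneg hst fun x _ => ?_
      rw [hu]
      simp only
      have := min_le_left (deriv B x) 0
      linarith
    rw [intervalIntegral.integral_add (hdd s t) (huu s t), h1, ← hUd s t] at h2
    linarith
  have hfix := h' _ hMmono hMlip.continuous
  have hBi : Integrable B g1 := du_lip_int hB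
  have hMi : Integrable (fun t => B t + U t) g1 := du_lip_int hMlip
  have hUi : Integrable U g1 := du_lip_int hUlip
  have h1 := h (fun t => B t + U t) B hMlip.continuous.measurable hB.continuous.measurable hMi hBi
  rw [hfix] at h1
  have hUa : ∫ t, |B t + U t - B t| ∂g1 = ∫ t, |U t| ∂g1 :=
    integral_congr_ae (Eventually.of_forall fun t => by simp only [add_sub_cancel_left])
  rw [hUa] at h1
  -- the triangle inequality
  have h2 : ∫ t, |B t - inc B t| ∂g1 ≤ 2 * ∫ t, |U t| ∂g1 := by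
    obtain ⟨hl1, hl2⟩ := t_law B hB.continuous.measurable
    have hinci : Integrable (inc B) g1 := by
      have e1 : Integrable id (Measure.map (inc B) g1) := by
        rw [hl2]
        exact (integrable_map_measure measurable_id.aestronglyMeasurable
          hB.continuous.measurable.aemeasurable).2 hBi
      exact (integrable_map_measure measurable_id.aestronglyMeasurable
          hl1.measurable.aemeasurable).1 e1
    have hMI : Integrable (fun t => |B t + U t - inc B t|) g1 := (hMi.sub hinci).abs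
    have e2 : ∫ t, |B t - inc B t| ∂g1 ≤ ∫ t, (|U t| + |B t + U t - inc B t|) ∂g1 := by
      refine integral_mono (hBi.sub hinci).abs (hUi.abs.add hMI) fun t => ?_
      have e3 : B t - inc B t = -(U t) + (B t + U t - inc B t) := by ring
      have e4 := abs_add_le (-(U t)) (B t + U t - inc B t)
      rw [← e3, abs_neg] at e4
      exact e4
    rw [integral_add hUi.abs hMI] at e2
    have e5 : ∫ t, |B t + U t - inc B t| ∂g1 ≤ ∫ t, |U t| ∂g1 := h1
    linarith
  -- the main estimate
  have h3 : 2 * ∫ t, |U t| ∂g1 ≤ 3 * ∫ t, u t ∂g1 := by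
    have hui : Integrable u g1 :=
      Integrable.of_bound hum.aestronglyMeasurable K (Eventually.of_forall huK)
    have e1 : ENNReal.ofReal (∫ t, |U t| ∂g1) = ∫⁻ t, ENNReal.ofReal |U t| ∂g1 :=
      ofReal_integral_eq_lintegral_ofReal hUi.abs (Eventually.of_forall fun t => abs_nonneg _)
    have e2 : ENNReal.ofReal (∫ t, u t ∂g1) = ∫⁻ t, ENNReal.ofReal (u t) ∂g1 :=
      ofReal_integral_eq_lintegral_ofReal hui (Eventually.of_forall hu0)
    have e3 := du_int_bound u hum hu0
    have e4 : ∫⁻ t, ENNReal.ofReal (u t) ∂g1 =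
        ∫⁻ s, ENNReal.ofReal (u s) * gaussianPDF 0 1 s := by
      have e6 := lintegral_withDensity_eq_lintegral_mul volume (measurable_gaussianPDF 0 1)
        (g := fun t => ENNReal.ofReal (u t)) (ENNReal.measurable_ofReal.comp hum)
      rw [← gaussianReal_of_var_ne_zero 0 one_ne_zero] at e6
      rw [e6]
      refine lintegral_congr fun s => ?_
      rw [Pi.mul_apply, mul_comm]
    have e5 : 2 * ∫⁻ s, ENNReal.ofReal (u s) * ENNReal.ofReal (Real.exp (-s ^ 2 / 2) / 2) ≤
        3 * ∫⁻ s, ENNReal.ofReal (u s) * gaussianPDF 0 1 s := by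
      rw [← lintegral_const_mul _ (by fun_prop), ← lintegral_const_mul _ (by fun_prop)]
      refine lintegral_mono fun s => ?_
      have e6 : ENNReal.ofReal 2 * ENNReal.ofReal (Real.exp (-s ^ 2 / 2) / 2) ≤
          ENNReal.ofReal 3 * gaussianPDF 0 1 s := by
        rw [gaussianPDF_def, ← ENNReal.ofReal_mul (by norm_num), ← ENNReal.ofReal_mul (by norm_num)]
        apply ENNReal.ofReal_le_ofReal
        unfold gaussianPDFReal
        simp only [NNReal.coe_one, mul_one, sub_zero]
        have h4 : Real.sqrt (2 * Real.pi) ≤ 3 := by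
          rw [Real.sqrt_le_left (by norm_num)]
          have := Real.pi_lt_d2
          norm_num at this ⊢
          linarith
        have h5 : 0 < Real.sqrt (2 * Real.pi) := Real.sqrt_pos.2 (by positivity)
        have h6 : 1 ≤ 3 * (Real.sqrt (2 * Real.pi))⁻¹ := by
          rw [← div_eq_mul_inv, le_div_iff₀ h5]
          linarith
        have h7 := mul_le_mul_of_nonneg_right h6 (Real.exp_nonneg (-s ^ 2 / 2))
        linarith
      rw [ENNReal.ofReal_ofNat, ENNReal.ofReal_ofNat] at e6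
      calc 2 * (ENNReal.ofReal (u s) * ENNReal.ofReal (Real.exp (-s ^ 2 / 2) / 2)) =
          ENNReal.ofReal (u s) * (2 * ENNReal.ofReal (Real.exp (-s ^ 2 / 2) / 2)) := by ring
        _ ≤ ENNReal.ofReal (u s) * (3 * gaussianPDF 0 1 s) := by gcongr
        _ = 3 * (ENNReal.ofReal (u s) * gaussianPDF 0 1 s) := by ring
    have e7 : 2 * ENNReal.ofReal (∫ t, |U t| ∂g1) ≤ 3 * ENNReal.ofReal (∫ t, u t ∂g1) := by
      rw [e1, e2, e4]
      refine le_trans (mul_le_mul' le_rfl ?_) e5
      rw [hU]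
      exact e3
    have e8 : ENNReal.ofReal (2 * ∫ t, |U t| ∂g1) ≤ ENNReal.ofReal (3 * ∫ t, u t ∂g1) := by
      rw [ENNReal.ofReal_mul (by norm_num), ENNReal.ofReal_mul (by norm_num),
        ENNReal.ofReal_ofNat, ENNReal.ofReal_ofNat]
      exact e7
    have e9 : 0 ≤ 3 * ∫ t, u t ∂g1 := mul_nonneg (by norm_num) (integral_nonneg hu0)
    exact (ENNReal.ofReal_le_ofReal_iff e9).1 e8
  rw [hu] at h3
  exact h2.trans h3

end Pool.Agent.Q288.DP
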