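import Pool.Agent.Q288.DP.SLip

set_option autoImplicit false
set_option linter.unusedSectionVars false

/-!
Project DP: laws of linear images, integrability on products.
-/

namespace Pool.Agent.Q288.DP

open MeasureTheory ProbabilityTheory Set Filter Topology

section
variable {ι κ : Type} [Fintype ι] [Fintype κ]

theorem sum_mp : MeasurePreserving (fun p : (ι → ℝ) × (κ → ℝ) => (Sum.elim p.1 p.2 : ι ⊕ κ → ℝ))
    ((gG ι).prod (gG κ)) (gG (ι ⊕ κ)) := by
  have h := measurePreserving_sumPiEquivProdPi_symm (fun _ : ι ⊕ κ => g1)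
  have h2 : ⇑(MeasurableEquiv.sumPiEquivProdPi (fun _ : ι ⊕ κ => ℝ)).symm =
      fun p : (ι → ℝ) × (κ → ℝ) => (Sum.elim p.1 p.2 : ι ⊕ κ → ℝ) := by
    funext p
    funext j
    cases j <;> rfl
  rw [h2] at h
  exact h

theorem sum_mp' : MeasurePreserving (fun x : ι ⊕ κ → ℝ => (fun i => x (Sum.inl i), fun k => x (Sum.inr k)))
    (gG (ι ⊕ κ)) ((gG ι).prod (gG κ)) := by
  have h := measurePreserving_sumPiEquivProdPi (fun _ : ι ⊕ κ => g1)
  exact h

end

section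
variable {n : ℕ}

/-- The orthogonal matrix of the rotation. -/
def RM (n : ℕ) (a b : ℝ) : Matrix (Fin n ⊕ Fin n) (Fin n ⊕ Fin n) ℝ :=
  Matrix.fromBlocks (a • 1) (b • 1) (b • 1) (-(a • 1))

theorem RM_orth (a b : ℝ) (hab : a ^ 2 + b ^ 2 = 1) : RM n a b * (RM n a b).transpose = 1 := by
  rw [RM, Matrix.fromBlocks_transpose, Matrix.fromBlocks_multiply, ← Matrix.fromBlocks_one]
  have h1 : a * a + b * b = 1 := by rw [← hab]; ring
  congr 1
  · simp [smul_smul, ← add_smul, h1]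
  · simp [smul_smul, mul_comm]
  · simp [smul_smul, mul_comm]
  · simp [smul_smul, ← add_smul, add_comm, h1]

theorem RM_mul (a b : ℝ) (y r : Fin n → ℝ) :
    (RM n a b).mulVec (Sum.elim y r) = rot a b y r := by
  rw [RM, Matrix.fromBlocks_mulVec]
  funext j
  cases j with
  | inl k => simp [rot, Matrix.smul_mulVec]
  | inr k => simp [rot, Matrix.smul_mulVec, Matrix.neg_mulVec]; ring

theorem rot_mp (hgm : St_gm) (a b : ℝ) (hab : a ^ 2 + b ^ 2 = 1) :
    MeasurePreserving (fun p : (Fin n → ℝ) × (Fin n → ℝ) => rot a b p.1 p.2)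
      ((gG (Fin n)).prod (gG (Fin n))) (gG (Fin n ⊕ Fin n)) := by
  have h1 := hgm (Fin n ⊕ Fin n) (Fin n ⊕ Fin n) (RM n a b) (RM_orth a b hab)
  have h2 := h1.comp (sum_mp (ι := Fin n) (κ := Fin n))
  have h3 : ((fun x => (RM n a b).mulVec x) ∘
      fun p : (Fin n → ℝ) × (Fin n → ℝ) => (Sum.elim p.1 p.2 : Fin n ⊕ Fin n → ℝ)) =
      fun p => rot a b p.1 p.2 := by
    funext p
    exact RM_mul a b p.1 p.2
  rw [h3] at h2
  exact h2

/-- The `y`-coordinate of a point of the doubled space. -/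
def yy (a b : ℝ) (p : Fin n ⊕ Fin n → ℝ) : Fin n → ℝ :=
  fun k => a * p (Sum.inl k) + b * p (Sum.inr k)

/-- The `r`-coordinate of a point of the doubled space. -/
def rr (a b : ℝ) (p : Fin n ⊕ Fin n → ℝ) : Fin n → ℝ :=
  fun k => b * p (Sum.inl k) - a * p (Sum.inr k)

theorem rot_yy_rr (a b : ℝ) (hab : a ^ 2 + b ^ 2 = 1) (p : Fin n ⊕ Fin n → ℝ) :
    rot a b (yy a b p) (rr a b p) = p := by
  funext j
  cases j with
  | inl k =>
    simp only [rot, yy, rr, Sum.elim_inl]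
    calc _ = (a ^ 2 + b ^ 2) * p (Sum.inl k) := by ring
      _ = _ := by rw [hab, one_mul]
  | inr k =>
    simp only [rot, yy, rr, Sum.elim_inr]
    calc _ = (a ^ 2 + b ^ 2) * p (Sum.inr k) := by ring
      _ = _ := by rw [hab, one_mul]

theorem yy_rot (a b : ℝ) (hab : a ^ 2 + b ^ 2 = 1) (y r : Fin n → ℝ) :
    yy a b (rot a b y r) = y := by
  funext k
  simp only [rot, yy, Sum.elim_inl, Sum.elim_inr]
  calc _ = (a ^ 2 + b ^ 2) * y k := by ring
    _ = _ := by rw [hab, one_mul]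

theorem rr_rot (a b : ℝ) (hab : a ^ 2 + b ^ 2 = 1) (y r : Fin n → ℝ) :
    rr a b (rot a b y r) = r := by
  funext k
  simp only [rot, rr, Sum.elim_inl, Sum.elim_inr]
  calc _ = (a ^ 2 + b ^ 2) * r k := by ring
    _ = _ := by rw [hab, one_mul]

theorem rot_mp' (hgm : St_gm) (a b : ℝ) (hab : a ^ 2 + b ^ 2 = 1) :
    MeasurePreserving (fun p : Fin n ⊕ Fin n → ℝ => (yy a b p, rr a b p))
      (gG (Fin n ⊕ Fin n)) ((gG (Fin n)).prod (gG (Fin n))) := by
  have hm : Measurable (fun p : Fin n ⊕ Fin n → ℝ => (yy a b p, rr a b p)) := by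
    unfold yy rr
    fun_prop
  refine ⟨hm, ?_⟩
  have h := rot_mp (n := n) hgm a b hab
  rw [← h.map_eq, Measure.map_map hm h.measurable]
  have : ((fun p : Fin n ⊕ Fin n → ℝ => (yy a b p, rr a b p)) ∘
      fun p : (Fin n → ℝ) × (Fin n → ℝ) => rot a b p.1 p.2) = id := by
    funext p
    simp [yy_rot a b hab, rr_rot a b hab]
  rw [this, Measure.map_id]

/-- The law of `a v + b w`. -/
theorem yy_mp (hgm : St_gm) (a b : ℝ) (hab : a ^ 2 + b ^ 2 = 1) :
    MeasurePreserving (fun p : Fin n ⊕ Fin n → ℝ => yy a b p)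
      (gG (Fin n ⊕ Fin n)) (gG (Fin n)) := by
  exact (measurePreserving_fst (μ := gG (Fin n)) (ν := gG (Fin n))).comp (rot_mp' hgm a b hab)

theorem G2_lip (a b : ℝ) (g : (Fin n → ℝ) → ℝ) (hg : Lip g) : Lip (G2 a b g) := by
  obtain ⟨K', hK'⟩ := hg
  let Lc : (Fin n ⊕ Fin n → ℝ) →L[ℝ] (Fin n → ℝ) :=
    ContinuousLinearMap.pi (fun k => a • ContinuousLinearMap.proj (Sum.inl k) +
      b • ContinuousLinearMap.proj (Sum.inr k))
  refine ⟨K' * ‖Lc‖₊, ?_⟩
  have h := hK'.comp Lc.lipschitz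
  have h2 : (g ∘ Lc) = G2 a b g := by
    funext x
    simp [Lc, G2]
  rwa [h2] at h

theorem HH_lip (hs : St_slip) (a b : ℝ) (g : (Fin n → ℝ) → ℝ) (hg : Lip g) : Lip (HH a b g) :=
  sl_lip hs _ _ (G2_lip a b g hg)

end

section
variable {ι κ : Type} [Fintype ι] [Fintype κ]

theorem lip_integrable_prod {A : (ι → ℝ) × (κ → ℝ) → ℝ} (h : Lip A) :
    Integrable A ((gG ι).prod (gG κ)) := by
  obtain ⟨K, hK⟩ := h
  have i1 : Integrable (fun p : (ι → ℝ) × (κ → ℝ) => ‖p.1‖) ((gG ι).prod (gG κ)) :=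
    (measurePreserving_fst (μ := gG ι) (ν := gG κ)).integrable_comp_of_integrable integrable_norm
  have i2 : Integrable (fun p : (ι → ℝ) × (κ → ℝ) => ‖p.2‖) ((gG ι).prod (gG κ)) :=
    (measurePreserving_snd (μ := gG ι) (ν := gG κ)).integrable_comp_of_integrable integrable_norm
  have h1 : Integrable (fun p : (ι → ℝ) × (κ → ℝ) => |A 0| + K * (‖p.1‖ + ‖p.2‖))
      ((gG ι).prod (gG κ)) := (integrable_const _).add ((i1.add i2).const_mul _)
  refine h1.mono' hK.continuous.aestronglyMeasurable (Eventually.of_forall (fun x => ?_))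
  have := hK.dist_le_mul x 0
  rw [Real.dist_eq, dist_zero_right] at this
  rw [Real.norm_eq_abs]
  have h3 := abs_sub_abs_le_abs_sub (A x) (A 0)
  have h4 : ‖x‖ ≤ ‖x.1‖ + ‖x.2‖ := by
    rw [Prod.norm_def]
    exact max_le (by linarith [norm_nonneg x.2]) (by linarith [norm_nonneg x.1])
  have h5 : (K : ℝ) * ‖x‖ ≤ K * (‖x.1‖ + ‖x.2‖) := mul_le_mul_of_nonneg_left h4 K.2
  linarith

theorem Lip.comp_clm {E F : Type} [NormedAddCommGroup E] [NormedSpace ℝ E]
    [NormedAddCommGroup F] [NormedSpace ℝ F] {A : F → ℝ} (h : Lip A) (L : E →L[ℝ] F) :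
    Lip (fun x => A (L x)) := by
  obtain ⟨K, hK⟩ := h
  exact ⟨K * ‖L‖₊, hK.comp L.lipschitz⟩

theorem Lip.sub' {E : Type} [PseudoEMetricSpace E] {A B : E → ℝ} (hA : Lip A) (hB : Lip B) :
    Lip (fun x => A x - B x) := by
  obtain ⟨K, hK⟩ := hA
  obtain ⟨K', hK'⟩ := hB
  exact ⟨K + K', hK.sub hK'⟩

theorem Lip.add' {E : Type} [PseudoEMetricSpace E] {A B : E → ℝ} (hA : Lip A) (hB : Lip B) :
    Lip (fun x => A x + B x) := by
  obtain ⟨K, hK⟩ := hA
  obtain ⟨K', hK'⟩ := hB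
  exact ⟨K + K', hK.add hK'⟩

theorem Lip.abs' {E : Type} [PseudoEMetricSpace E] {A : E → ℝ} (hA : Lip A) :
    Lip (fun x => |A x|) := by
  obtain ⟨K, hK⟩ := hA
  refine ⟨1 * K, ?_⟩
  have h1 : LipschitzWith 1 (fun t : ℝ => |t|) := by
    refine LipschitzWith.of_dist_le_mul (fun s t => ?_)
    rw [Real.dist_eq, Real.dist_eq, NNReal.coe_one, one_mul]
    exact abs_abs_sub_abs_le s t
  exact h1.comp hK

end

end Pool.Agent.Q288.DP
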