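import Pool.Agent.Q288.DP.Bas
import Pool.Agent.H988R2.Gauss

set_option autoImplicit false

/-!
Project DP: the inequality of Maurey and Pisier for the first moment.
-/

namespace Pool.Agent.Q288.DP

open MeasureTheory ProbabilityTheory Set Filter Topology
open scoped ENNReal NNReal

theorem mp_ac (κ : Type) [Fintype κ] : gG κ ≪ (volume : Measure (κ → ℝ)) := by
  have h0 : g1 = (volume : Measure ℝ).withDensity (gaussianPDF 0 1) :=
    gaussianReal_of_var_ne_zero 0 one_ne_zero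
  have hs : ∀ _ : κ, SigmaFinite ((volume : Measure ℝ).withDensity (gaussianPDF 0 1)) := by
    intro _
    rw [← h0]
    infer_instance
  have h1 := Pool.Agent.H988R2.pi_withDensity_real (fun _ : κ => gaussianPDF 0 1)
    (fun _ => measurable_gaussianPDF 0 1) hs
  have h2 : gG κ = Measure.pi (fun _ : κ => (volume : Measure ℝ).withDensity (gaussianPDF 0 1)) := by
    show Measure.pi (fun _ : κ => g1) = _
    rw [h0]
  rw [h2, h1]
  exact withDensity_absolutelyContinuous _ _

/-- the matrix of a rotation -/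
def mpM (κ : Type) [DecidableEq κ] (s c : ℝ) : Matrix (κ ⊕ κ) (κ ⊕ κ) ℝ :=
  Matrix.fromBlocks (s • 1) (c • 1) (c • 1) (-(s • 1))

theorem mpM_mul (κ : Type) [Fintype κ] [DecidableEq κ] (s c : ℝ) (h : s ^ 2 + c ^ 2 = 1) :
    mpM κ s c * (mpM κ s c).transpose = 1 := by
  unfold mpM
  rw [Matrix.fromBlocks_transpose, Matrix.fromBlocks_multiply, ← Matrix.fromBlocks_one]
  have e1 : s * s + c * c = 1 := by nlinarith
  have e2 : c * c + s * s = 1 := by nlinarith
  congr 1
  · simp [smul_smul, ← add_smul, e1]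
  · simp [smul_smul, ← add_smul, ← neg_smul, mul_comm]
  · simp [smul_smul, ← add_smul, ← neg_smul, mul_comm]
  · simp [smul_smul, ← add_smul, e2]

theorem mp_rot (hgm : St_gm) (κ : Type) [Fintype κ] [DecidableEq κ] (s c : ℝ)
    (h : s ^ 2 + c ^ 2 = 1) :
    MeasurePreserving (fun z : (κ → ℝ) × (κ → ℝ) => (s • z.1 + c • z.2, c • z.1 - s • z.2))
      ((gG κ).prod (gG κ)) ((gG κ).prod (gG κ)) := by
  have e1 := measurePreserving_sumPiEquivProdPi (fun _ : κ ⊕ κ => g1)
  have e2 := measurePreserving_sumPiEquivProdPi_symm (fun _ : κ ⊕ κ => g1)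
  have e3 := hgm (κ ⊕ κ) (κ ⊕ κ) (mpM κ s c) (mpM_mul κ s c h)
  have e4 := e1.comp (e3.comp e2)
  convert e4 using 1
  funext z
  obtain ⟨r, r'⟩ := z
  have h1 : (MeasurableEquiv.sumPiEquivProdPi (fun _ : κ ⊕ κ => ℝ)).symm (r, r') =
      Sum.elim r r' := by
    funext x
    rcases x with x | x <;> rfl
  show _ = (MeasurableEquiv.sumPiEquivProdPi (fun _ : κ ⊕ κ => ℝ))
    ((mpM κ s c).mulVec ((MeasurableEquiv.sumPiEquivProdPi (fun _ : κ ⊕ κ => ℝ)).symm (r, r')))
  rw [h1, mpM, Matrix.fromBlocks_mulVec, Sum.elim_comp_inl, Sum.elim_comp_inr,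
    Matrix.smul_mulVec, Matrix.smul_mulVec, Matrix.smul_mulVec, Matrix.neg_mulVec,
    Matrix.smul_mulVec, Matrix.one_mulVec, Matrix.one_mulVec]
  refine Prod.ext ?_ ?_
  · rfl
  · funext k
    show c * r k - s * r' k = c * r k + -(s * r' k)
    ring

theorem mp_one : ∫⁻ t, ‖t‖ₑ ∂g1 ≤ 1 := by
  have h1 : ∀ t : ℝ, ‖t‖ₑ ≤ ENNReal.ofReal ((1 + t ^ 2) / 2) := by
    intro t
    rw [Real.enorm_eq_ofReal_abs]
    apply ENNReal.ofReal_le_ofReal
    nlinarith [sq_nonneg (|t| - 1), sq_abs t]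
  have h2 : Integrable (fun t : ℝ => t ^ 2) g1 := by
    have := memLp_id_gaussianReal (μ := 0) (v := 1) 2
    exact this.integrable_sq
  have h3 : ∫ t, t ^ 2 ∂g1 = 1 := by
    have h4 := variance_of_integral_eq_zero (X := id) (μ := g1) aemeasurable_id
      (integral_id_gaussianReal (μ := 0) (v := 1))
    rw [variance_id_gaussianReal] at h4
    simpa using h4.symm
  refine (lintegral_mono h1).trans ?_
  have h6 : Integrable (fun t : ℝ => (1 + t ^ 2) / 2) g1 :=
    ((integrable_const (1 : ℝ)).add h2).div_const 2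
  rw [← ofReal_integral_eq_lintegral_ofReal h6 (Eventually.of_forall fun t => by positivity)]
  have h5 : ∫ t, (1 + t ^ 2) / 2 ∂g1 = 1 := by
    rw [integral_div, integral_add (integrable_const _) h2, h3]
    simp
  rw [h5]
  simp

theorem mp_inner (hgm : St_gm) (κ : Type) [Fintype κ] [DecidableEq κ] (w : κ → ℝ) :
    ∫⁻ b, ‖∑ k, w k * b k‖ₑ ∂(gG κ) ≤ ENNReal.ofReal (Real.sqrt (∑ k, (w k) ^ 2)) := by
  set S := ∑ k, (w k) ^ 2 with hS
  have hS0 : 0 ≤ S := Finset.sum_nonneg fun k _ => sq_nonneg _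
  rcases hS0.eq_or_lt with h0 | h0
  · have hw : ∀ k, w k = 0 := by
      intro k
      have := (Finset.sum_eq_zero_iff_of_nonneg (fun k _ => sq_nonneg (w k))).mp h0.symm k
        (Finset.mem_univ k)
      exact pow_eq_zero_iff two_ne_zero |>.mp this
    simp [hw]
  set q := Real.sqrt S with hq
  have hq0 : 0 < q := Real.sqrt_pos.mpr h0
  have hq2 : q * q = S := Real.mul_self_sqrt hS0
  set M : Matrix Unit κ ℝ := fun _ k => w k / q with hM
  have hMM : M * M.transpose = 1 := by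
    ext i j
    rw [Matrix.mul_apply, Matrix.one_apply]
    rw [if_pos (Subsingleton.elim i j)]
    calc ∑ k, M i k * M.transpose k j = ∑ k, (w k) ^ 2 / (q * q) := by
          apply Finset.sum_congr rfl
          intro k _
          show w k / q * (w k / q) = _
          rw [div_mul_div_comm, sq]
      _ = 1 := by rw [← Finset.sum_div, ← hS, hq2, div_self h0.ne']
  have hmp := hgm Unit κ M hMM
  have hev : MeasurePreserving (fun x : Unit → ℝ => x ()) (gG Unit) g1 :=
    measurePreserving_eval (fun _ : Unit => g1) ()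
  have h1 := hev.comp hmp
  have h2 : ∀ b : κ → ℝ, ‖∑ k, w k * b k‖ₑ =
      ENNReal.ofReal q * ‖((fun x : Unit → ℝ => x ()) ∘ fun x => M.mulVec x) b‖ₑ := by
    intro b
    have h3 : ∑ k, w k * b k = q * M.mulVec b () := by
      show _ = q * ∑ k, w k / q * b k
      rw [Finset.mul_sum]
      apply Finset.sum_congr rfl
      intro k _
      field_simp
    rw [h3, enorm_mul, Real.enorm_eq_ofReal_abs, abs_of_pos hq0]
    rfl
  simp_rw [h2]
  rw [lintegral_const_mul _ (by
    exact (h1.measurable.enorm))]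
  have h3 := h1.lintegral_comp (f := fun t : ℝ => ‖t‖ₑ) measurable_enorm
  rw [h3]
  calc ENNReal.ofReal q * ∫⁻ t, ‖t‖ₑ ∂g1 ≤ ENNReal.ofReal q * 1 := by gcongr; exact mp_one
    _ = _ := mul_one _

theorem fderiv_sum {κ : Type} [Fintype κ] [DecidableEq κ] (H : (κ → ℝ) → ℝ) (a b : κ → ℝ) :
    fderiv ℝ H a b = ∑ k, fderiv ℝ H a (Pi.single k 1) * b k := by
  have h1 : b = ∑ k, b k • (Pi.single k 1 : κ → ℝ) := by
    funext j
    simp [Finset.sum_apply, Pi.single_apply]
  conv_lhs => rw [h1]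
  rw [map_sum]
  apply Finset.sum_congr rfl
  intro k _
  rw [map_smul, smul_eq_mul, mul_comm]

theorem mp_path {κ : Type} [Fintype κ] [DecidableEq κ] (H : (κ → ℝ) → ℝ) (K : ℝ≥0)
    (hK : LipschitzWith K H) (r r' : κ → ℝ)
    (hd : ∀ᵐ θ ∂(volume.restrict (Ioc (0 : ℝ) (Real.pi / 2))),
      DifferentiableAt ℝ H (Real.sin θ • r + Real.cos θ • r')) :
    ‖H r - H r'‖ₑ ≤ ∫⁻ θ in Ioc (0 : ℝ) (Real.pi / 2),
      ‖fderiv ℝ H (Real.sin θ • r + Real.cos θ • r') (Real.cos θ • r - Real.sin θ • r')‖ₑ := by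
  set φ : ℝ → ℝ := fun θ => H (Real.sin θ • r + Real.cos θ • r') with hφ
  have hpi : (0 : ℝ) ≤ Real.pi / 2 := by positivity
  have hlip : LipschitzWith (K * (‖r‖₊ + ‖r'‖₊)) φ := by
    apply LipschitzWith.of_dist_le_mul
    intro a b
    refine (hK.dist_le_mul _ _).trans ?_
    rw [NNReal.coe_mul, mul_assoc]
    refine mul_le_mul_of_nonneg_left ?_ K.2
    rw [dist_eq_norm]
    have h1 : Real.sin a • r + Real.cos a • r' - (Real.sin b • r + Real.cos b • r') =
        (Real.sin a - Real.sin b) • r + (Real.cos a - Real.cos b) • r' := by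
      rw [sub_smul, sub_smul]
      abel
    rw [h1]
    refine (norm_add_le _ _).trans ?_
    rw [norm_smul, norm_smul, Real.norm_eq_abs, Real.norm_eq_abs, Real.dist_eq]
    have h2 := Real.abs_sin_sub_sin_le a b
    have h3 := Real.abs_cos_sub_cos_le a b
    have h4 : ((‖r‖₊ + ‖r'‖₊ : ℝ≥0) : ℝ) = ‖r‖ + ‖r'‖ := rfl
    rw [h4]
    nlinarith [norm_nonneg r, norm_nonneg r', mul_le_mul_of_nonneg_right h2 (norm_nonneg r),
      mul_le_mul_of_nonneg_right h3 (norm_nonneg r')]
  have hac : AbsolutelyContinuousOnInterval φ 0 (Real.pi / 2) :=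
    (hlip.lipschitzOnWith (s := uIcc 0 (Real.pi / 2))).absolutelyContinuousOnInterval
  have h1 := hac.integral_deriv_eq_sub
  have h2 : φ (Real.pi / 2) - φ 0 = H r - H r' := by
    simp [hφ]
  rw [← h2, ← h1, intervalIntegral.integral_of_le hpi]
  refine (enorm_integral_le_lintegral_enorm _).trans (le_of_eq ?_)
  apply lintegral_congr_ae
  filter_upwards [hd] with θ hθ
  have h3 : HasDerivAt (fun θ : ℝ => Real.sin θ • r + Real.cos θ • r')
      (Real.cos θ • r - Real.sin θ • r') θ := by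
    have h4 := ((Real.hasDerivAt_sin θ).smul_const r).add ((Real.hasDerivAt_cos θ).smul_const r')
    rw [sub_eq_add_neg, ← neg_smul]
    exact h4
  have h4 := hθ.hasFDerivAt.comp_hasDerivAt θ h3
  have h5 : deriv φ θ = _ := h4.deriv
  rw [h5]

theorem t_mp (hgm : St_gm) : St_mp := by
  intro κ _ _ H hH
  obtain ⟨K, hK⟩ := hH
  -- the norm of the gradient
  set N : (κ → ℝ) → ℝ := fun r => Real.sqrt (∑ k, (fderiv ℝ H r (Pi.single k 1)) ^ 2) with hN
  have hNm : Measurable N := by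
    apply Real.continuous_sqrt.measurable.comp
    exact Finset.measurable_sum _ fun k _ => (measurable_fderiv_apply_const ℝ H _).pow_const 2
  have hNi : Integrable N (gG κ) := by
    have hb : ∀ r, ‖N r‖ ≤ Real.sqrt (∑ _k : κ, (K : ℝ) ^ 2) := by
      intro r
      rw [Real.norm_of_nonneg (Real.sqrt_nonneg _)]
      apply Real.sqrt_le_sqrt
      apply Finset.sum_le_sum
      intro k _
      have h1 : |fderiv ℝ H r (Pi.single k 1)| ≤ K := by
        have h2 := (fderiv ℝ H r).le_opNorm (Pi.single k 1)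
        have h3 := norm_fderiv_le_of_lipschitz ℝ hK (x₀ := r)
        have h4 : ‖(Pi.single k (1 : ℝ) : κ → ℝ)‖ = 1 := by
          rw [Pi.norm_single, norm_one]
        rw [h4, mul_one, Real.norm_eq_abs] at h2
        exact h2.trans h3
      rw [← sq_abs]
      exact pow_le_pow_left₀ (abs_nonneg _) h1 2
    exact Integrable.of_bound hNm.aestronglyMeasurable _ (Eventually.of_forall hb)
  have hDf : Measurable fun z : (κ → ℝ) × (κ → ℝ) => fderiv ℝ H z.1 z.2 := by
    have h1 : (fun z : (κ → ℝ) × (κ → ℝ) => fderiv ℝ H z.1 z.2) = fun z =>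
        ∑ k, fderiv ℝ H z.1 (Pi.single k 1) * z.2 k := funext fun z => fderiv_sum H z.1 z.2
    rw [h1]
    exact Finset.measurable_sum _ fun k _ =>
      ((measurable_fderiv_apply_const ℝ H _).comp measurable_fst).mul
        ((measurable_pi_apply k).comp measurable_snd)
  -- differentiability
  have hD := measurableSet_of_differentiableAt ℝ H
  have hae : ∀ᵐ x ∂(gG κ), DifferentiableAt ℝ H x :=
    (mp_ac κ).ae_le hK.ae_differentiableAt
  have hpathm : Measurable fun p : (((κ → ℝ) × (κ → ℝ)) × ℝ) =>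
      Real.sin p.2 • p.1.1 + Real.cos p.2 • p.1.2 := by fun_prop
  have hpathm2 : Measurable fun p : (((κ → ℝ) × (κ → ℝ)) × ℝ) =>
      Real.cos p.2 • p.1.1 - Real.sin p.2 • p.1.2 := by fun_prop
  have hsc : ∀ θ : ℝ, Real.sin θ ^ 2 + Real.cos θ ^ 2 = 1 := Real.sin_sq_add_cos_sq
  have hdiff : ∀ᵐ z ∂((gG κ).prod (gG κ)), ∀ᵐ θ ∂(volume.restrict (Ioc (0 : ℝ) (Real.pi / 2))),
      DifferentiableAt ℝ H (Real.sin θ • z.1 + Real.cos θ • z.2) := by
    rw [Measure.ae_ae_comm (p := fun (z : (κ → ℝ) × (κ → ℝ)) (θ : ℝ) =>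
      DifferentiableAt ℝ H (Real.sin θ • z.1 + Real.cos θ • z.2)) (hpathm hD)]
    refine Eventually.of_forall fun θ => ?_
    have h1 := mp_rot hgm κ (Real.sin θ) (Real.cos θ) (hsc θ)
    have h2 := (measurePreserving_fst (μ := gG κ) (ν := gG κ)).comp h1
    exact h2.quasiMeasurePreserving.ae hae
  -- the main estimate
  have hmain : ∫⁻ z, ‖H z.1 - H z.2‖ₑ ∂((gG κ).prod (gG κ)) ≤
      ENNReal.ofReal ((Real.pi / 2) * ∫ r, N r ∂(gG κ)) := by
    calc ∫⁻ z, ‖H z.1 - H z.2‖ₑ ∂((gG κ).prod (gG κ))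
        ≤ ∫⁻ z, (∫⁻ θ in Ioc (0 : ℝ) (Real.pi / 2),
          ‖fderiv ℝ H (Real.sin θ • z.1 + Real.cos θ • z.2)
            (Real.cos θ • z.1 - Real.sin θ • z.2)‖ₑ) ∂((gG κ).prod (gG κ)) := by
          apply lintegral_mono_ae
          filter_upwards [hdiff] with z hz
          exact mp_path H K hK z.1 z.2 hz
      _ = ∫⁻ θ in Ioc (0 : ℝ) (Real.pi / 2), (∫⁻ z,
          ‖fderiv ℝ H (Real.sin θ • z.1 + Real.cos θ • z.2)
            (Real.cos θ • z.1 - Real.sin θ • z.2)‖ₑ ∂((gG κ).prod (gG κ))) := by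
          apply lintegral_lintegral_swap
          exact ((hDf.comp (hpathm.prodMk hpathm2)).enorm).aemeasurable
      _ = ∫⁻ _θ in Ioc (0 : ℝ) (Real.pi / 2), (∫⁻ z, ‖fderiv ℝ H z.1 z.2‖ₑ
            ∂((gG κ).prod (gG κ))) := by
          apply lintegral_congr
          intro θ
          exact (mp_rot hgm κ (Real.sin θ) (Real.cos θ) (hsc θ)).lintegral_comp
            (f := fun z => ‖fderiv ℝ H z.1 z.2‖ₑ) hDf.enorm
      _ = (∫⁻ z, ‖fderiv ℝ H z.1 z.2‖ₑ ∂((gG κ).prod (gG κ))) *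
            ENNReal.ofReal (Real.pi / 2) := by
          rw [lintegral_const, Measure.restrict_apply MeasurableSet.univ, univ_inter,
            Real.volume_Ioc, sub_zero]
      _ ≤ (∫⁻ r, ENNReal.ofReal (N r) ∂(gG κ)) * ENNReal.ofReal (Real.pi / 2) := by
          gcongr
          rw [lintegral_prod _ hDf.enorm.aemeasurable]
          apply lintegral_mono
          intro r
          have h1 := mp_inner hgm κ (fun k => fderiv ℝ H r (Pi.single k 1))
          refine le_trans (le_of_eq ?_) h1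
          apply lintegral_congr
          intro b
          show ‖fderiv ℝ H r b‖ₑ = _
          rw [fderiv_sum H r b]
      _ = ENNReal.ofReal ((Real.pi / 2) * ∫ r, N r ∂(gG κ)) := by
          rw [← ofReal_integral_eq_lintegral_ofReal hNi
            (Eventually.of_forall fun r => Real.sqrt_nonneg _), mul_comm,
            ENNReal.ofReal_mul (by positivity)]
  have hHm : Measurable H := hK.continuous.measurable
  have hFm : Measurable fun z : (κ → ℝ) × (κ → ℝ) => H z.1 - H z.2 :=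
    (hHm.comp measurable_fst).sub (hHm.comp measurable_snd)
  have hFi : Integrable (fun z : (κ → ℝ) × (κ → ℝ) => H z.1 - H z.2) ((gG κ).prod (gG κ)) :=
    ⟨hFm.aestronglyMeasurable, lt_of_le_of_lt hmain ENNReal.ofReal_lt_top⟩
  have hI0 : 0 ≤ ∫ r, N r ∂(gG κ) := integral_nonneg fun r => Real.sqrt_nonneg _
  have h1 : ∫ r, ∫ r', |H r - H r'| ∂(gG κ) ∂(gG κ) =
      ∫ z, |H z.1 - H z.2| ∂((gG κ).prod (gG κ)) := by
    rw [integral_prod _ hFi.abs]
  rw [h1]
  have h2 : ∫ z, |H z.1 - H z.2| ∂((gG κ).prod (gG κ)) =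
      (∫⁻ z, ‖H z.1 - H z.2‖ₑ ∂((gG κ).prod (gG κ))).toReal := by
    have := integral_norm_eq_lintegral_enorm hFi.aestronglyMeasurable
    simpa [Real.norm_eq_abs] using this
  rw [h2]
  exact ENNReal.toReal_le_of_le_ofReal (by positivity) hmain

end Pool.Agent.Q288.DP
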