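import Pool.Agent.Q288.DP.Bas

set_option autoImplicit false
set_option linter.unusedSectionVars false

/-!
Project DP: the sorted function is Lipschitz, monotone; L1 contraction.
-/

namespace Pool.Agent.Q288.DP

open MeasureTheory ProbabilityTheory Set Filter Topology

section
variable {ι : Type} [Fintype ι] [DecidableEq ι]

theorem dist_update_le (x : ι → ℝ) (i : ι) (s t : ℝ) :
    dist (Function.update x i s) (Function.update x i t) ≤ dist s t := by
  rw [dist_pi_le_iff dist_nonneg]
  intro j
  by_cases hj : j = i
  · subst hj; simp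
  · simp [Function.update_of_ne hj]

theorem dist_update_le' (x y : ι → ℝ) (i : ι) (t : ℝ) :
    dist (Function.update x i t) (Function.update y i t) ≤ dist x y := by
  rw [dist_pi_le_iff dist_nonneg]
  intro j
  by_cases hj : j = i
  · subst hj; simp
  · simp only [Function.update_of_ne hj]
    exact dist_le_pi_dist x y j

theorem fibre_lip {K : NNReal} {A : (ι → ℝ) → ℝ} (hA : LipschitzWith K A) (x : ι → ℝ) (i : ι) :
    LipschitzWith K (fun t => A (Function.update x i t)) := by
  refine LipschitzWith.of_dist_le_mul (fun s t => ?_)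
  exact (hA.dist_le_mul _ _).trans (mul_le_mul_of_nonneg_left (dist_update_le x i s t) K.2)

theorem t_slip (h1 : St_sup) (h2 : St_ilip) : St_slip := by
  intro ι _ _ i A hA
  obtain ⟨K, hK⟩ := hA
  refine ⟨2 * K, LipschitzWith.of_dist_le_mul (fun x y => ?_)⟩
  have hx := fibre_lip hK x i
  have hy := fibre_lip hK y i
  have e1 : |inc (fun t => A (Function.update x i t)) (x i) -
      inc (fun t => A (Function.update y i t)) (x i)| ≤ K * dist x y := by
    refine h1 _ _ hx.continuous.measurable hy.continuous.measurable _ (fun t => ?_) _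
    have := hK.dist_le_mul (Function.update x i t) (Function.update y i t)
    rw [Real.dist_eq] at this
    exact this.trans (mul_le_mul_of_nonneg_left (dist_update_le' x y i t) K.2)
  have e2 : |inc (fun t => A (Function.update y i t)) (x i) -
      inc (fun t => A (Function.update y i t)) (y i)| ≤ K * dist x y := by
    have := (h2 _ K hy).dist_le_mul (x i) (y i)
    rw [Real.dist_eq] at this
    exact this.trans (mul_le_mul_of_nonneg_left (dist_le_pi_dist x y i) K.2)
  rw [Real.dist_eq]
  have e3 := abs_sub_le (srt i A x) (inc (fun t => A (Function.update y i t)) (x i)) (srt i A y)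
  have e4 : ((2 * K : NNReal) : ℝ) = 2 * K := by simp
  rw [e4]
  have e5 : |srt i A x - inc (fun t => A (Function.update y i t)) (x i)| ≤ K * dist x y := e1
  have e6 : |inc (fun t => A (Function.update y i t)) (x i) - srt i A y| ≤ K * dist x y := e2
  linarith

theorem srt_update (i : ι) (A : (ι → ℝ) → ℝ) (x : ι → ℝ) (t : ℝ) :
    srt i A (Function.update x i t) = inc (fun s => A (Function.update x i s)) t := by
  simp [srt]

theorem t_mono (h1 : St_law) (h2 : St_ord) (h3 : St_fix) : St_mono := by
  intro ι _ _ i A hA
  obtain ⟨K, hK⟩ := hA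
  refine ⟨?_, ?_, ?_⟩
  · intro x s t hst
    rw [srt_update, srt_update]
    exact (h1 _ (fibre_lip hK x i).continuous.measurable).1 hst
  · intro j hj hA x s t hst
    simp only [srt, Function.update_of_ne hj.symm]
    refine h2 _ _ ?_ ?_ (fun u => ?_) _
    · exact (fibre_lip hK _ i).continuous.measurable
    · exact (fibre_lip hK _ i).continuous.measurable
    · rw [Function.update_comm hj, Function.update_comm hj]
      exact hA _ s t hst
  · intro hA
    funext x
    have : inc (fun t => A (Function.update x i t)) = fun t => A (Function.update x i t) :=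
      h3 _ (fun s t hst => hA x s t hst) (fibre_lip hK x i).continuous
    simp only [srt, this, Function.update_eq_self]

/-- Fubini for one coordinate. -/
theorem upd_integral (hu : St_upd) (i : ι) (F : (ι → ℝ) → ℝ) (hF : Integrable F (gG ι)) :
    ∫ x, F x ∂(gG ι) = ∫ x, ∫ t, F (Function.update x i t) ∂g1 ∂(gG ι) := by
  have h := hu ι i
  have h1 : Integrable (fun p : (ι → ℝ) × ℝ => F (Function.update p.1 i p.2))
      ((gG ι).prod g1) := (h.integrable_comp hF.aestronglyMeasurable).2 hF
  rw [← integral_prod _ h1]
  have h2 := integral_map (μ := (gG ι).prod g1)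
    (φ := fun p : (ι → ℝ) × ℝ => Function.update p.1 i p.2) h.measurable.aemeasurable (f := F)
    (by rw [h.map_eq]; exact hF.aestronglyMeasurable)
  rw [h.map_eq] at h2
  exact h2

theorem upd_integrable (hu : St_upd) (i : ι) (F : (ι → ℝ) → ℝ) (hF : Integrable F (gG ι)) :
    Integrable (fun p : (ι → ℝ) × ℝ => F (Function.update p.1 i p.2)) ((gG ι).prod g1) :=
  ((hu ι i).integrable_comp hF.aestronglyMeasurable).2 hF

theorem upd_ae (hu : St_upd) (i : ι) {P : (ι → ℝ) → Prop} (hP : ∀ᵐ x ∂(gG ι), P x) :
    ∀ᵐ x ∂(gG ι), ∀ᵐ t ∂g1, P (Function.update x i t) := by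
  have h := hu ι i
  have h1 : ∀ᵐ p ∂((gG ι).prod g1), P (Function.update p.1 i p.2) :=
    h.quasiMeasurePreserving.ae hP
  exact Measure.ae_ae_of_ae_prod h1

theorem lip1_integrable {B : ℝ → ℝ} {K : NNReal} (hB : LipschitzWith K B) : Integrable B g1 := by
  have hid : Integrable (fun t : ℝ => t) g1 := by
    have := memLp_id_gaussianReal (μ := 0) (v := 1) 1
    exact memLp_one_iff_integrable.1 this
  have h1 : Integrable (fun t : ℝ => |B 0| + K * |t|) g1 :=
    (integrable_const _).add (hid.abs.const_mul _)
  refine h1.mono' hB.continuous.aestronglyMeasurable (Eventually.of_forall (fun x => ?_))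
  have := hB.dist_le_mul x 0
  rw [Real.dist_eq, Real.dist_eq, sub_zero] at this
  rw [Real.norm_eq_abs]
  have h3 := abs_sub_abs_le_abs_sub (B x) (B 0)
  linarith

theorem t_con (hu : St_upd) (hs : St_slip) (h1 : St_l1) : St_con := by
  intro ι _ _ i A B hA hB
  have hA' := hs ι i A hA
  have hB' := hs ι i B hB
  have i1 := lip_sub_integrable hA' hB'
  have i2 := lip_sub_integrable hA hB
  rw [upd_integral hu i _ i1, upd_integral hu i _ i2]
  refine integral_mono (upd_integrable hu i _ i1).integral_prod_left
    (upd_integrable hu i _ i2).integral_prod_left (fun x => ?_)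
  simp only [srt_update]
  obtain ⟨K, hK⟩ := hA
  obtain ⟨K', hK'⟩ := hB
  exact h1 _ _ (fibre_lip hK x i).continuous.measurable (fibre_lip hK' x i).continuous.measurable
    (lip1_integrable (fibre_lip hK x i)) (lip1_integrable (fibre_lip hK' x i))

end

end Pool.Agent.Q288.DP
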