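import Mathlib

set_option autoImplicit false

/-!
Project DP (row MP_04ae38_an): the directed L1 Poincare inequality with the Euclidean
directed gradient. Definitions and lemma statements.
-/

namespace Pool.Agent.Q288.DP

open MeasureTheory ProbabilityTheory Set Filter Topology

/-- One dimensional standard Gaussian measure. -/
noncomputable abbrev g1 : Measure ℝ := gaussianReal 0 1

/-- Standard Gaussian measure on `ι → ℝ`. -/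
noncomputable abbrev gG (ι : Type) [Fintype ι] : Measure (ι → ℝ) := Measure.pi (fun _ : ι => g1)

/-- Lipschitz with some constant. -/
def Lip {E : Type} [PseudoEMetricSpace E] (A : E → ℝ) : Prop := ∃ K : NNReal, LipschitzWith K A

/-- Increasing rearrangement of `B` with respect to the Gaussian measure. -/
noncomputable def inc (B : ℝ → ℝ) (t : ℝ) : ℝ := sInf {s : ℝ | g1 (Iic t) ≤ g1 {u | B u ≤ s}}

/-- Increasing rearrangement in the coordinate `i`. -/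
noncomputable def srt {ι : Type} [DecidableEq ι] (i : ι) (A : (ι → ℝ) → ℝ) (x : ι → ℝ) : ℝ :=
  inc (fun t => A (Function.update x i t)) (x i)

/-- Successive rearrangements in the coordinates of a list (the head comes first). -/
noncomputable def sl {ι : Type} [DecidableEq ι] (l : List ι) (A : (ι → ℝ) → ℝ) : (ι → ℝ) → ℝ :=
  l.foldl (fun A i => srt i A) A

/-- `τ` is a transport map for `B`: measure preserving, and it carries `inc B` to `B`. -/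
structure Tr (B τ : ℝ → ℝ) : Prop where
  mp : MeasurePreserving τ g1 g1
  eq : ∀ᵐ t ∂g1, inc B (τ t) = B t

/-- `A` is nondecreasing in the coordinate `i`. -/
def MonoIn {ι : Type} [DecidableEq ι] (i : ι) (A : (ι → ℝ) → ℝ) : Prop :=
  ∀ (x : ι → ℝ) (s t : ℝ), s ≤ t → A (Function.update x i s) ≤ A (Function.update x i t)

/-- Euclidean norm of the directed gradient. -/
noncomputable def nm {ι : Type} [Fintype ι] [DecidableEq ι] (A : (ι → ℝ) → ℝ) (x : ι → ℝ) : ℝ :=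
  Real.sqrt (∑ i, (min (fderiv ℝ A x (Pi.single i 1)) 0) ^ 2)

/-! ### One dimensional statements -/

def St_gal : Prop := ∀ (B : ℝ → ℝ), Measurable B → ∀ t s : ℝ,
  inc B t ≤ s ↔ g1 (Iic t) ≤ g1 {u | B u ≤ s}

def St_law : Prop := ∀ (B : ℝ → ℝ), Measurable B →
  Monotone (inc B) ∧ Measure.map (inc B) g1 = Measure.map B g1

def St_fix : Prop := ∀ (B : ℝ → ℝ), Monotone B → Continuous B → inc B = B

def St_ord : Prop := ∀ (B C : ℝ → ℝ), Measurable B → Measurable C → (∀ t, B t ≤ C t) →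
  ∀ t, inc B t ≤ inc C t

def St_sup : Prop := ∀ (B C : ℝ → ℝ), Measurable B → Measurable C → ∀ ε : ℝ,
  (∀ t, |B t - C t| ≤ ε) → ∀ t, |inc B t - inc C t| ≤ ε

def St_l1 : Prop := ∀ (B C : ℝ → ℝ), Measurable B → Measurable C → Integrable B g1 →
  Integrable C g1 → ∫ t, |inc B t - inc C t| ∂g1 ≤ ∫ t, |B t - C t| ∂g1

def St_clamp : Prop := ∀ (B : ℝ → ℝ), Measurable B → ∀ a b : ℝ, a ≤ b → ∀ t,
  inc (fun u => max a (min b (B u))) t = max a (min b (inc B t))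

def St_tr : Prop := ∀ (B : ℝ → ℝ), Measurable B → Integrable B g1 → ∃ τ, Tr B τ

def St_tail : Prop := ∀ τ : ℝ → ℝ, MeasurePreserving τ g1 g1 → ∀ s : ℝ,
  |∫ t in Ioi s, τ t ∂g1| ≤ gaussianPDFReal 0 1 s

def St_ibp : Prop := ∀ (τ C : ℝ → ℝ) (K : NNReal), MeasurePreserving τ g1 g1 →
  LipschitzWith K C → ∫ t, τ t * C t ∂g1 = ∫ s, deriv C s * (∫ t in Ioi s, τ t ∂g1)

/-- Gaussian integration by parts (the case `τ = id` of the previous one). -/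
def St_gip : Prop := ∀ (C : ℝ → ℝ) (K : NNReal), LipschitzWith K C →
  ∫ t, t * C t ∂g1 = ∫ t, deriv C t ∂g1

def St_hl : Prop := ∀ (τ C : ℝ → ℝ), MeasurePreserving τ g1 g1 → Monotone C →
  (∃ M : ℝ, ∀ t, |C t| ≤ M) → ∫ t, t * C (τ t) ∂g1 ≤ ∫ t, t * C t ∂g1

def St_hl2 : Prop := ∀ (C : ℝ → ℝ) (S : Set ℝ) (a : ℝ), Measurable C → Integrable C g1 →
  MeasurableSet S → g1 S = g1 (Ioi a) → ∫ t in S, C t ∂g1 ≤ ∫ t in Ioi a, inc C t ∂g1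

def St_ilip : Prop := ∀ (B : ℝ → ℝ) (K : NNReal), LipschitzWith K B → LipschitzWith K (inc B)

def St_dint : Prop := ∀ (B τ : ℝ → ℝ) (K : NNReal), LipschitzWith K B → Tr B τ →
  ∀ a b : ℝ, a < b →
    ∫ t in τ ⁻¹' (Ioc a b), deriv B t ∂g1 ≤ ∫ t in Ioc a b, deriv (inc B) t ∂g1 ∧
    ∫ t in Ioc a b, deriv (inc B) t ∂g1 ≤ ∫ t in τ ⁻¹' (Ioc a b), |deriv B t| ∂g1

def St_ext : Prop := ∀ (τ u v : ℝ → ℝ) (M : ℝ), MeasurePreserving τ g1 g1 →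
  AEStronglyMeasurable u g1 → AEStronglyMeasurable v g1 →
  (∀ᵐ t ∂g1, |u t| ≤ M) → (∀ᵐ t ∂g1, |v t| ≤ M) →
  (∀ a b : ℝ, a < b → ∫ t in τ ⁻¹' (Ioc a b), u t ∂g1 ≤ ∫ t in Ioc a b, v t ∂g1) →
  ∀ ψ : ℝ → ℝ, Measurable ψ → (∀ t, 0 ≤ ψ t ∧ ψ t ≤ 1) →
    ∫ t, ψ (τ t) * u t ∂g1 ≤ ∫ t, ψ t * v t ∂g1

def St_der : Prop := ∀ (B τ ψ : ℝ → ℝ) (K : NNReal), LipschitzWith K B → Tr B τ →
  Measurable ψ → (∀ t, 0 ≤ ψ t ∧ ψ t ≤ 1) →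
    ∫ t, ψ (τ t) * deriv B t ∂g1 ≤ ∫ t, ψ t * deriv (inc B) t ∂g1 ∧
    ∫ t, ψ t * deriv (inc B) t ∂g1 ≤ ∫ t, ψ (τ t) * |deriv B t| ∂g1

def St_par : Prop := ∀ (Bf : ℝ → ℝ → ℝ) (b b' τ : ℝ → ℝ) (K : NNReal),
  (∀ h, LipschitzWith K (Bf h)) → (∀ h t, |Bf h t - Bf 0 t| ≤ K * |h|) → Tr (Bf 0) τ →
  (∀ᵐ t ∂g1, HasDerivAt (fun h => Bf h t) (b t) 0) →
  (∀ᵐ t ∂g1, HasDerivAt (fun h => inc (Bf h) t) (b' t) 0) →
  ∀ a : ℝ, ∫ t in τ ⁻¹' (Ioi a), b t ∂g1 = ∫ t in Ioi a, b' t ∂g1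

def St_par2 : Prop := ∀ (Bf : ℝ → ℝ → ℝ) (b b' τ : ℝ → ℝ) (K : NNReal),
  (∀ h, LipschitzWith K (Bf h)) → (∀ h t, |Bf h t - Bf 0 t| ≤ K * |h|) → Tr (Bf 0) τ →
  (∀ᵐ t ∂g1, HasDerivAt (fun h => Bf h t) (b t) 0) →
  (∀ᵐ t ∂g1, HasDerivAt (fun h => inc (Bf h) t) (b' t) 0) →
  ∀ ψ : ℝ → ℝ, Measurable ψ → (∀ t, |ψ t| ≤ 1) →
    ∫ t, ψ (τ t) * b t ∂g1 = ∫ t, ψ t * b' t ∂g1

def St_dual : Prop := ∀ (Λ : Type) [Fintype Λ] (w w' : Λ → ℝ → ℝ) (τ : ℝ → ℝ) (M : ℝ),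
  MeasurePreserving τ g1 g1 → (∀ l, Measurable (w l)) → (∀ l, Measurable (w' l)) →
  (∀ l t, |w l t| ≤ M) → (∀ l t, 0 ≤ w' l t ∧ w' l t ≤ M) →
  (∀ (l : Λ) (ψ : ℝ → ℝ), Measurable ψ → (∀ t, 0 ≤ ψ t ∧ ψ t ≤ 1) →
    ∫ t, ψ t * w' l t ∂g1 ≤ ∫ t, ψ (τ t) * w l t ∂g1) →
  ∫ t, Real.sqrt (∑ l, (w' l t) ^ 2) ∂g1 ≤ ∫ t, Real.sqrt (∑ l, (w l t) ^ 2) ∂g1

def St_one : Prop := ∀ (B : ℝ → ℝ) (K : NNReal), LipschitzWith K B →
  ∫ t, |B t - inc B t| ∂g1 ≤ 3 * ∫ t, (-(min (deriv B t) 0)) ∂g1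

/-! ### Several variables -/

def St_upd : Prop := ∀ (ι : Type) [Fintype ι] [DecidableEq ι] (i : ι),
  MeasurePreserving (fun p : (ι → ℝ) × ℝ => Function.update p.1 i p.2) ((gG ι).prod g1) (gG ι)

def St_slip : Prop := ∀ (ι : Type) [Fintype ι] [DecidableEq ι] (i : ι) (A : (ι → ℝ) → ℝ),
  Lip A → Lip (srt i A)

def St_mono : Prop := ∀ (ι : Type) [Fintype ι] [DecidableEq ι] (i : ι) (A : (ι → ℝ) → ℝ),
  Lip A → MonoIn i (srt i A) ∧ (∀ j, j ≠ i → MonoIn j A → MonoIn j (srt i A)) ∧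
    (MonoIn i A → srt i A = A)

def St_con : Prop := ∀ (ι : Type) [Fintype ι] [DecidableEq ι] (i : ι) (A B : (ι → ℝ) → ℝ),
  Lip A → Lip B → ∫ x, |srt i A x - srt i B x| ∂(gG ι) ≤ ∫ x, |A x - B x| ∂(gG ι)

def St_gm : Prop := ∀ (ι κ : Type) [Fintype ι] [DecidableEq ι] [Fintype κ] [DecidableEq κ]
  (M : Matrix ι κ ℝ), M * M.transpose = 1 →
    MeasurePreserving (fun x => M.mulVec x) (gG κ) (gG ι)

def St_mp : Prop := ∀ (κ : Type) [Fintype κ] [DecidableEq κ] (H : (κ → ℝ) → ℝ), Lip H →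
  ∫ r, ∫ r', |H r - H r'| ∂(gG κ) ∂(gG κ) ≤
    (Real.pi / 2) * ∫ r, Real.sqrt (∑ k, (fderiv ℝ H r (Pi.single k 1)) ^ 2) ∂(gG κ)

/-- Fibrewise domination of `w'` by `w` along the coordinate `i`, relative to `A`. -/
def Dom {ι : Type} [Fintype ι] [DecidableEq ι] (i : ι) (A w w' : (ι → ℝ) → ℝ) : Prop :=
  ∀ᵐ x ∂(gG ι), ∀ τ : ℝ → ℝ, Tr (fun t => A (Function.update x i t)) τ →
    ∀ ψ : ℝ → ℝ, Measurable ψ → (∀ t, 0 ≤ ψ t ∧ ψ t ≤ 1) →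
      ∫ t, ψ t * w' (Function.update x i t) ∂g1 ≤ ∫ t, ψ (τ t) * w (Function.update x i t) ∂g1

def St_u1 : Prop := ∀ (ι : Type) [Fintype ι] [DecidableEq ι] (i : ι) (A : (ι → ℝ) → ℝ),
  Lip A → ∀ (Λ : Type) [Fintype Λ] (w w' : Λ → (ι → ℝ) → ℝ) (M : ℝ),
    (∀ l, Measurable (w l)) → (∀ l, Measurable (w' l)) →
    (∀ l x, |w l x| ≤ M) → (∀ l x, 0 ≤ w' l x ∧ w' l x ≤ M) → (∀ l, Dom i A (w l) (w' l)) →
    ∫ x, Real.sqrt (∑ l, (w' l x) ^ 2) ∂(gG ι) ≤ ∫ x, Real.sqrt (∑ l, (w l x) ^ 2) ∂(gG ι)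

/-- Along a direction not involving `i` the fibre derivative of the sorted function is the
transported fibre derivative. -/
def St_u0 : Prop := ∀ (ι : Type) [Fintype ι] [DecidableEq ι] (i : ι) (A : (ι → ℝ) → ℝ),
  Lip A → ∀ c : ι → ℝ, c i = 0 → ∀ᵐ x ∂(gG ι), ∀ τ : ℝ → ℝ,
    Tr (fun t => A (Function.update x i t)) τ → ∀ ψ : ℝ → ℝ, Measurable ψ → (∀ t, |ψ t| ≤ 1) →
      ∫ t, ψ (τ t) * fderiv ℝ A (Function.update x i t) c ∂g1 =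
        ∫ t, ψ t * fderiv ℝ (srt i A) (Function.update x i t) c ∂g1

def St_u2 : Prop := ∀ (ι : Type) [Fintype ι] [DecidableEq ι] (i : ι) (A : (ι → ℝ) → ℝ),
  Lip A → ∀ c : ι → ℝ, c i = 0 →
    Dom i A (fun x => |fderiv ℝ A x c|) (fun x => |fderiv ℝ (srt i A) x c|) ∧
    Dom i A (fun x => -(min (fderiv ℝ A x c) 0)) (fun x => -(min (fderiv ℝ (srt i A) x c) 0))

def St_u4 : Prop := ∀ (ι : Type) [Fintype ι] [DecidableEq ι] (i : ι) (A : (ι → ℝ) → ℝ),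
  Lip A → ∀ (c : ι → ℝ) (a b : ℝ), c i = 0 → 0 ≤ a → 0 ≤ b → a ^ 2 + b ^ 2 = 1 →
    (∀ (x : ι → ℝ) (h : ℝ), A (x + h • (b • Pi.single i 1 - a • c)) = A x) →
    Dom i A (fun x => 2 * a * b * (-(min (fderiv ℝ A x (a • Pi.single i 1 + b • c)) 0)))
      (fun x => |fderiv ℝ (srt i A) x (b • Pi.single i 1 - a • c)|)

/-! ### The doubled space -/

/-- `g` of `a v + b w`, where `v` are the left and `w` the right coordinates. -/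
noncomputable def G2 {n : ℕ} (a b : ℝ) (g : (Fin n → ℝ) → ℝ) (x : Fin n ⊕ Fin n → ℝ) : ℝ :=
  g (fun k => a * x (Sum.inl k) + b * x (Sum.inr k))

/-- `G2` sorted in all left coordinates. -/
noncomputable def HH {n : ℕ} (a b : ℝ) (g : (Fin n → ℝ) → ℝ) : (Fin n ⊕ Fin n → ℝ) → ℝ :=
  sl ((List.finRange n).map Sum.inl) (G2 a b g)

/-- Direction of the coordinate `r l`. -/
noncomputable def dv {n : ℕ} (a b : ℝ) (l : Fin n) : Fin n ⊕ Fin n → ℝ :=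
  b • Pi.single (Sum.inl l) 1 - a • Pi.single (Sum.inr l) 1

/-- Direction of the coordinate `y l`. -/
noncomputable def yv {n : ℕ} (a b : ℝ) (l : Fin n) : Fin n ⊕ Fin n → ℝ :=
  a • Pi.single (Sum.inl l) 1 + b • Pi.single (Sum.inr l) 1

/-- The mixed gradient norm: full derivative in the directions `dv l` for `l ∈ P` (already
sorted), `2ab` times the negative part in the directions `yv l` for the others. -/
noncomputable def WW {n : ℕ} (a b : ℝ) (P : Finset (Fin n)) (A : (Fin n ⊕ Fin n → ℝ) → ℝ)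
    (x : Fin n ⊕ Fin n → ℝ) : ℝ :=
  Real.sqrt (∑ l, if l ∈ P then (|fderiv ℝ A x (dv a b l)|) ^ 2
    else (2 * a * b * (-(min (fderiv ℝ A x (yv a b l)) 0))) ^ 2)

def St_v1 : Prop := ∀ (n : ℕ) (a b : ℝ), 0 ≤ a → 0 ≤ b → a ^ 2 + b ^ 2 = 1 →
  ∀ (A : (Fin n ⊕ Fin n → ℝ) → ℝ), Lip A → ∀ (P : Finset (Fin n)) (k : Fin n), k ∉ P →
    (∀ l, l ∉ P → ∀ x (h : ℝ), A (x + h • dv a b l) = A x) →
    ∫ x, WW a b (insert k P) (srt (Sum.inl k) A) x ∂(gG (Fin n ⊕ Fin n)) ≤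
      ∫ x, WW a b P A x ∂(gG (Fin n ⊕ Fin n))

def St_v2 : Prop := ∀ (n : ℕ) (a b : ℝ), 0 ≤ a → 0 ≤ b → a ^ 2 + b ^ 2 = 1 →
  ∀ (g : (Fin n → ℝ) → ℝ), Lip g →
    ∫ x, Real.sqrt (∑ l, (fderiv ℝ (HH a b g) x (dv a b l)) ^ 2) ∂(gG (Fin n ⊕ Fin n)) ≤
      2 * a * b * ∫ y, nm g y ∂(gG (Fin n))

/-- The point of the doubled space with `y`-coordinate `y` and `r`-coordinate `r`. -/
def rot {n : ℕ} (a b : ℝ) (y r : Fin n → ℝ) : Fin n ⊕ Fin n → ℝ :=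
  Sum.elim (fun k => a * y k + b * r k) (fun k => b * y k - a * r k)

/-- The dependence of `HH` on `r`. -/
noncomputable def dl {n : ℕ} (a b : ℝ) (g : (Fin n → ℝ) → ℝ) : ℝ :=
  ∫ y, ∫ r, ∫ r', |HH a b g (rot a b y r) - HH a b g (rot a b y r')| ∂(gG (Fin n))
    ∂(gG (Fin n)) ∂(gG (Fin n))

def St_v3 : Prop := ∀ (n : ℕ) (a b : ℝ), 0 ≤ a → 0 ≤ b → a ^ 2 + b ^ 2 = 1 →
  ∀ (g : (Fin n → ℝ) → ℝ), Lip g →
    dl a b g ≤ (Real.pi / 2) *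
      ∫ x, Real.sqrt (∑ l, (fderiv ℝ (HH a b g) x (dv a b l)) ^ 2) ∂(gG (Fin n ⊕ Fin n))

/-- `g` sorted in all coordinates. -/
noncomputable def RR {n : ℕ} (g : (Fin n → ℝ) → ℝ) : (Fin n → ℝ) → ℝ := sl (List.finRange n) g

/-- `K` is an admissible constant for the distance of `g` to `RR g`. -/
def KK (n : ℕ) (K : ℝ) : Prop := ∀ g : (Fin n → ℝ) → ℝ, Lip g →
  ∫ y, |g y - RR g y| ∂(gG (Fin n)) ≤ K * ∫ y, nm g y ∂(gG (Fin n))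

def St_v4 : Prop := ∀ n : ℕ, ∃ K : ℝ, 0 ≤ K ∧ KK n K

def St_v5 : Prop := ∀ (n : ℕ) (a b K : ℝ), 0 ≤ a → 0 ≤ b → a ^ 2 + b ^ 2 = 1 → 0 ≤ K →
  KK n K → ∀ (g : (Fin n → ℝ) → ℝ), Lip g →
    ∫ x, |G2 a b g x - HH a b g x| ∂(gG (Fin n ⊕ Fin n)) ≤ a * K * ∫ y, nm g y ∂(gG (Fin n))

/-! ### The block space -/

/-- `g` as a function on the block space: `y k` is the normalised sum of the block `k`. -/
noncomputable def GB {n : ℕ} (m : ℕ) (g : (Fin n → ℝ) → ℝ) (x : Fin n × Fin m → ℝ) : ℝ :=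
  g (fun k => (1 / Real.sqrt m) * ∑ j, x (k, j))

/-- Sorting in the coordinates `(k, j)`, `k : Fin n`, for fixed `j`. -/
noncomputable def RB {n m : ℕ} (j : Fin m) (A : (Fin n × Fin m → ℝ) → ℝ) :
    (Fin n × Fin m → ℝ) → ℝ := sl ((List.finRange n).map (fun k => (k, j))) A

/-- The projection of the block space to the doubled space attached to `j`. -/
noncomputable def pj {n m : ℕ} (j : Fin m) (x : Fin n × Fin m → ℝ) : Fin n ⊕ Fin n → ℝ :=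
  Sum.elim (fun k => x (k, j))
    (fun k => (1 / Real.sqrt ((m : ℝ) - 1)) * ∑ i ∈ Finset.univ.erase j, x (k, i))

def St_w1 : Prop := ∀ (n m : ℕ) (j : Fin m), 2 ≤ m →
  MeasurePreserving (fun x : Fin n × Fin m → ℝ => pj j x) (gG (Fin n × Fin m))
    (gG (Fin n ⊕ Fin n)) ∧
  ∀ (g : (Fin n → ℝ) → ℝ) (x : Fin n × Fin m → ℝ),
    GB m g x = G2 (1 / Real.sqrt m) (Real.sqrt (1 - 1 / m)) g (pj j x) ∧
    RB j (GB m g) x = HH (1 / Real.sqrt m) (Real.sqrt (1 - 1 / m)) g (pj j x)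

def St_w2 : Prop := ∀ (n m : ℕ) (i j : Fin m), 2 ≤ m → ∀ (g : (Fin n → ℝ) → ℝ), Lip g →
  ∫ x, |RB i (GB m g) x - RB j (GB m g) x| ∂(gG (Fin n × Fin m)) ≤
    2 * dl (1 / Real.sqrt m) (Real.sqrt (1 - 1 / m)) g

def St_w3 : Prop := ∀ (n m : ℕ), 1 ≤ m → ∀ (g : (Fin n → ℝ) → ℝ), Lip g →
  ∀ F : (Fin n × Fin m → ℝ) → ℝ, Lip F → (∀ i, MonoIn i F) →
    ∃ Fb : (Fin n → ℝ) → ℝ, Lip Fb ∧ Monotone Fb ∧
      ∫ y, |g y - Fb y| ∂(gG (Fin n)) ≤ ∫ x, |GB m g x - F x| ∂(gG (Fin n × Fin m))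

/-- The Gaussian theorem. -/
def St_gauss : Prop := ∃ C : ℝ, 0 < C ∧ ∀ (n : ℕ) (g : (Fin n → ℝ) → ℝ), Lip g →
  ∃ F : (Fin n → ℝ) → ℝ, Lip F ∧ Monotone F ∧
    ∫ y, |g y - F y| ∂(gG (Fin n)) ≤ C * ∫ y, nm g y ∂(gG (Fin n))

/-! ### The cube -/

/-- The unit cube. -/
def cube (n : ℕ) : Set (Fin n → ℝ) := Icc 0 1

/-- The `i`-th partial derivative. -/
noncomputable def pd {n : ℕ} (f : (Fin n → ℝ) → ℝ) (i : Fin n) (x : Fin n → ℝ) : ℝ :=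
  deriv (fun t : ℝ => f (Function.update x i t)) (x i)

def St_cube : Prop := St_gauss → ∃ C : ℝ, 0 < C ∧ ∀ (n : ℕ) (f : (Fin n → ℝ) → ℝ) (K : NNReal),
  LipschitzOnWith K f (cube n) → ∃ g : (Fin n → ℝ) → ℝ, MonotoneOn g (cube n) ∧ Measurable g ∧
    IntegrableOn (fun x => |f x - g x|) (cube n) ∧
    ∫ x in cube n, |f x - g x| ≤
      C * ∫ x in cube n, Real.sqrt (∑ i, (min (pd f i x) 0) ^ 2)

end Pool.Agent.Q288.DP
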