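import Pool.Agent.Q288.DP.Rad

set_option autoImplicit false
set_option linter.unusedSectionVars false

/-!
Project DP: fibre derivatives in directions not involving the sorted coordinate.
-/

namespace Pool.Agent.Q288.DP

open MeasureTheory ProbabilityTheory Set Filter Topology

theorem update_add_smul {ι : Type} [DecidableEq ι] (x c : ι → ℝ) (i : ι) (hc : c i = 0)
    (s t h : ℝ) : Function.update (Function.update x i t + h • c) i s =
      Function.update x i s + h • c := by
  funext j
  by_cases hj : j = i
  · subst hj; simp [hc]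
  · simp [Function.update_of_ne hj]

theorem t_u0 (hp : St_par2) (hu : St_upd) (hs : St_slip) : St_u0 := by
  intro ι _ _ i A hA c hc
  have hA' := hs ι i A hA
  have h1 := upd_ae hu i (lip_ae_diff hA)
  have h2 := upd_ae hu i (lip_ae_diff hA')
  filter_upwards [h1, h2] with x hx1 hx2
  intro τ hτ ψ hψ hψ1
  obtain ⟨K, hK⟩ := hA
  have hinc : ∀ h t : ℝ, inc (fun s => A (Function.update x i s + h • c)) t =
      srt i A (Function.update x i t + h • c) := by
    intro h t
    simp only [srt, update_add_smul x c i hc]
    simp [hc]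
  refine hp (fun h t => A (Function.update x i t + h • c))
    (fun t => fderiv ℝ A (Function.update x i t) c)
    (fun t => fderiv ℝ (srt i A) (Function.update x i t) c) τ (K * (1 + ‖c‖₊)) ?_ ?_ ?_ ?_ ?_ ψ hψ
    hψ1
  · intro h
    refine LipschitzWith.of_dist_le_mul (fun s t => ?_)
    have e1 := hK.dist_le_mul (Function.update x i s + h • c) (Function.update x i t + h • c)
    rw [dist_add_right] at e1
    have e2 := dist_update_le x i s t
    have e3 : ((K * (1 + ‖c‖₊) : NNReal) : ℝ) = K * (1 + ‖c‖) := by simp
    rw [e3]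
    have e4 : 0 ≤ dist s t := dist_nonneg
    have e5 : (0 : ℝ) ≤ K := K.2
    have e6 : (K : ℝ) * dist (Function.update x i s) (Function.update x i t) ≤ K * dist s t :=
      mul_le_mul_of_nonneg_left e2 e5
    have e7 : (K : ℝ) * dist s t ≤ K * (1 + ‖c‖) * dist s t := by
      have : 0 ≤ (K : ℝ) * ‖c‖ * dist s t := by positivity
      nlinarith
    linarith
  · intro h t
    have e1 := hK.dist_le_mul (Function.update x i t + h • c)
      (Function.update x i t + (0 : ℝ) • c)
    rw [Real.dist_eq, dist_add_left, zero_smul, dist_zero_right, norm_smul, Real.norm_eq_abs] at e1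
    have e3 : ((K * (1 + ‖c‖₊) : NNReal) : ℝ) = K * (1 + ‖c‖) := by simp
    rw [e3]
    simp only [zero_smul] at e1 ⊢
    have : 0 ≤ (K : ℝ) * |h| := by positivity
    nlinarith
  · have : (fun t => A (Function.update x i t + (0 : ℝ) • c)) =
      fun t => A (Function.update x i t) := by funext t; simp
    simpa [this] using hτ
  · filter_upwards [hx1] with t ht
    exact ht.hasFDerivAt.hasLineDerivAt c
  · filter_upwards [hx2] with t ht
    simp only [hinc]
    exact ht.hasFDerivAt.hasLineDerivAt c

theorem t_u2 (h0 : St_u0) : St_u2 := by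
  intro ι _ _ i A hA c hc
  have hmeas : ∀ x : ι → ℝ, Measurable (fun t => fderiv ℝ (srt i A) (Function.update x i t) c) :=
    fun x => (fderiv_meas (srt i A) c).comp (measurable_update x)
  have hmeasA : ∀ x : ι → ℝ, Measurable (fun t => fderiv ℝ A (Function.update x i t) c) :=
    fun x => (fderiv_meas A c).comp (measurable_update x)
  obtain ⟨K, hK⟩ := hA
  have hbA : ∀ (x : ι → ℝ) t, |fderiv ℝ A (Function.update x i t) c| ≤ K * ‖c‖ :=
    fun x t => fderiv_bound hK _ _
  constructor
  · filter_upwards [h0 ι i A ⟨K, hK⟩ c hc] with x hx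
    intro τ hτ ψ hψ hψ1
    set f : ℝ → ℝ := fun t => fderiv ℝ (srt i A) (Function.update x i t) c with hf
    set σ : ℝ → ℝ := fun t => if 0 ≤ f t then 1 else -1 with hσ
    have hσm : Measurable σ := Measurable.ite (measurableSet_le measurable_const (hmeas x))
      measurable_const measurable_const
    have hσ1 : ∀ t, |σ t| ≤ 1 := by
      intro t
      simp only [hσ]
      split_ifs <;> simp
    have h := hx τ hτ (fun t => ψ t * σ t) (hψ.mul hσm) (fun t => by
      rw [abs_mul, abs_of_nonneg (hψ1 t).1]
      calc ψ t * |σ t| ≤ 1 * 1 := mul_le_mul (hψ1 t).2 (hσ1 t) (abs_nonneg _) (by norm_num)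
        _ = 1 := one_mul 1)
    have e1 : ∫ t, ψ t * |fderiv ℝ (srt i A) (Function.update x i t) c| ∂g1 =
        ∫ t, (ψ t * σ t) * fderiv ℝ (srt i A) (Function.update x i t) c ∂g1 := by
      refine integral_congr_ae (Eventually.of_forall (fun t => ?_))
      simp only
      have : σ t * f t = |f t| := by
        simp only [hσ]
        split_ifs with h
        · rw [one_mul, abs_of_nonneg h]
        · rw [abs_of_neg (not_le.1 h)]; ring
      rw [mul_assoc, ← this]
    rw [e1, ← h]
    have hτm := hτ.mp.measurable
    refine integral_mono ?_ ?_ (fun t => ?_)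
    · refine Integrable.of_bound (((hψ.comp hτm).mul (hσm.comp hτm)).mul
        (hmeasA x)).aestronglyMeasurable (1 * 1 * (K * ‖c‖)) (Eventually.of_forall (fun t => ?_))
      rw [Real.norm_eq_abs, abs_mul, abs_mul]
      have a1 : |ψ (τ t)| ≤ 1 := by rw [abs_of_nonneg (hψ1 _).1]; exact (hψ1 _).2
      have a2 := hσ1 (τ t)
      have a3 := hbA x t
      gcongr
    · refine Integrable.of_bound ((hψ.comp hτm).mul (hmeasA x).abs).aestronglyMeasurable
        (1 * (K * ‖c‖)) (Eventually.of_forall (fun t => ?_))
      rw [Real.norm_eq_abs, abs_mul, abs_abs]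
      have a1 : |ψ (τ t)| ≤ 1 := by rw [abs_of_nonneg (hψ1 _).1]; exact (hψ1 _).2
      have a3 := hbA x t
      gcongr
    · simp only
      have a1 := (hψ1 (τ t)).1
      have a2 := hσ1 (τ t)
      have a4 : σ (τ t) * fderiv ℝ A (Function.update x i t) c ≤
          |fderiv ℝ A (Function.update x i t) c| := by
        refine (le_abs_self _).trans ?_
        rw [abs_mul]
        calc _ ≤ 1 * |fderiv ℝ A (Function.update x i t) c| :=
              mul_le_mul_of_nonneg_right a2 (abs_nonneg _)
          _ = _ := one_mul _
      rw [mul_assoc]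
      exact mul_le_mul_of_nonneg_left a4 a1
  · filter_upwards [h0 ι i A ⟨K, hK⟩ c hc] with x hx
    intro τ hτ ψ hψ hψ1
    set f : ℝ → ℝ := fun t => fderiv ℝ (srt i A) (Function.update x i t) c with hf
    set σ : ℝ → ℝ := fun t => if f t < 0 then -1 else 0 with hσ
    have hσm : Measurable σ := Measurable.ite (measurableSet_lt (hmeas x) measurable_const)
      measurable_const measurable_const
    have hσ1 : ∀ t, |σ t| ≤ 1 := by
      intro t
      simp only [hσ]
      split_ifs <;> simp
    have hσ0 : ∀ t, σ t ≤ 0 := by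
      intro t
      simp only [hσ]
      split_ifs <;> simp
    have h := hx τ hτ (fun t => ψ t * σ t) (hψ.mul hσm) (fun t => by
      rw [abs_mul, abs_of_nonneg (hψ1 t).1]
      calc ψ t * |σ t| ≤ 1 * 1 := mul_le_mul (hψ1 t).2 (hσ1 t) (abs_nonneg _) (by norm_num)
        _ = 1 := one_mul 1)
    have e1 : ∫ t, ψ t * -(min (fderiv ℝ (srt i A) (Function.update x i t) c) 0) ∂g1 =
        ∫ t, (ψ t * σ t) * fderiv ℝ (srt i A) (Function.update x i t) c ∂g1 := by
      refine integral_congr_ae (Eventually.of_forall (fun t => ?_))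
      simp only
      have : σ t * f t = -(min (f t) 0) := by
        simp only [hσ]
        split_ifs with h
        · rw [min_eq_left h.le]; ring
        · rw [min_eq_right (not_lt.1 h)]; ring
      rw [mul_assoc, ← this]
    rw [e1, ← h]
    have hτm := hτ.mp.measurable
    refine integral_mono ?_ ?_ (fun t => ?_)
    · refine Integrable.of_bound (((hψ.comp hτm).mul (hσm.comp hτm)).mul
        (hmeasA x)).aestronglyMeasurable (1 * 1 * (K * ‖c‖)) (Eventually.of_forall (fun t => ?_))
      rw [Real.norm_eq_abs, abs_mul, abs_mul]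
      have a1 : |ψ (τ t)| ≤ 1 := by rw [abs_of_nonneg (hψ1 _).1]; exact (hψ1 _).2
      have a2 := hσ1 (τ t)
      have a3 := hbA x t
      gcongr
    · refine Integrable.of_bound ((hψ.comp hτm).mul
        ((hmeasA x).min measurable_const).neg).aestronglyMeasurable
        (1 * (K * ‖c‖)) (Eventually.of_forall (fun t => ?_))
      rw [Real.norm_eq_abs, abs_mul, abs_neg]
      have a1 : |ψ (τ t)| ≤ 1 := by rw [abs_of_nonneg (hψ1 _).1]; exact (hψ1 _).2
      have a3 := hbA x t
      have a4 : |min (fderiv ℝ A (Function.update x i t) c) 0| ≤ K * ‖c‖ := by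
        refine le_trans ?_ a3
        rcases le_total (fderiv ℝ A (Function.update x i t) c) 0 with h | h
        · rw [min_eq_left h]
        · rw [min_eq_right h, abs_zero]; exact abs_nonneg _
      gcongr
    · simp only
      have a1 := (hψ1 (τ t)).1
      have a2 := (abs_le.1 (hσ1 (τ t))).1
      have a3 := hσ0 (τ t)
      have a4 : σ (τ t) * fderiv ℝ A (Function.update x i t) c ≤
          -(min (fderiv ℝ A (Function.update x i t) c) 0) := by
        rcases le_total (fderiv ℝ A (Function.update x i t) c) 0 with h | h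
        · rw [min_eq_left h]; nlinarith
        · rw [min_eq_right h]; nlinarith
      rw [mul_assoc]
      exact mul_le_mul_of_nonneg_left a4 a1

end Pool.Agent.Q288.DP
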