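import Pool.Agent.Q288.DP.Rad

set_option autoImplicit false

/-!
Project DP (row MP_04ae38_an), lemma V4 (helper153): a crude constant for the distance to the
sorted function.
-/

namespace Pool.Agent.Q288.DP

open MeasureTheory ProbabilityTheory Set Filter Topology

namespace V4

variable {ι : Type} [Fintype ι] [DecidableEq ι]

/-- the negative part of a partial derivative -/
noncomputable def ng (A : (ι → ℝ) → ℝ) (k : ι) (x : ι → ℝ) : ℝ :=
  -(min (fderiv ℝ A x (Pi.single k 1)) 0)

lemma ng_meas (A : (ι → ℝ) → ℝ) (k : ι) : Measurable (ng A k) :=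
  ((fderiv_meas A (Pi.single k 1)).min measurable_const).neg

lemma ng_nonneg (A : (ι → ℝ) → ℝ) (k : ι) (x : ι → ℝ) : 0 ≤ ng A k x := by
  unfold ng
  have := min_le_right (fderiv ℝ A x (Pi.single k 1)) 0
  linarith

lemma ng_bd {A : (ι → ℝ) → ℝ} {K : NNReal} (hK : LipschitzWith K A) (k : ι) (x : ι → ℝ) :
    ng A k x ≤ K := by
  have h1 := fderiv_bound hK x (Pi.single k 1)
  have h2 : ‖(Pi.single k (1 : ℝ) : ι → ℝ)‖ ≤ 1 := by
    rw [pi_norm_le_iff_of_nonneg zero_le_one]
    intro i
    by_cases h : i = k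
    · subst h
      simp
    · rw [Pi.single_eq_of_ne h]
      simp
  have h3 : (K : ℝ) * ‖(Pi.single k (1 : ℝ) : ι → ℝ)‖ ≤ K := by
    have := mul_le_mul_of_nonneg_left h2 K.2
    rwa [mul_one] at this
  have h4 := (abs_le.1 (h1.trans h3)).1
  unfold ng
  have h5 : -(K : ℝ) ≤ min (fderiv ℝ A x (Pi.single k 1)) 0 := le_min h4 (by
    have := K.2
    simp)
  linarith

lemma ng_int {A : (ι → ℝ) → ℝ} (hA : Lip A) (k : ι) : Integrable (ng A k) (gG ι) := by
  obtain ⟨K, hK⟩ := hA
  refine Integrable.of_bound (ng_meas A k).aestronglyMeasurable K (Eventually.of_forall fun x => ?_)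
  rw [Real.norm_eq_abs, abs_of_nonneg (ng_nonneg A k x)]
  exact ng_bd hK k x

lemma upd_lip (x : ι → ℝ) (k : ι) : LipschitzWith 1 (fun t : ℝ => Function.update x k t) := by
  refine LipschitzWith.of_dist_le_mul fun s t => ?_
  rw [NNReal.coe_one, one_mul, dist_pi_le_iff dist_nonneg]
  intro i
  by_cases h : i = k
  · subst h
    simp
  · rw [Function.update_of_ne h, Function.update_of_ne h, dist_self]
    exact dist_nonneg

lemma part1 (hupd : St_upd) (hone : St_one) (k : ι) (A : (ι → ℝ) → ℝ) (hA : Lip A)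
    (hS : Lip (srt k A)) : ∫ x, |A x - srt k A x| ∂(gG ι) ≤ 3 * ∫ x, ng A k x ∂(gG ι) := by
  have hφ := hupd ι k
  have hF := lip_sub_integrable hA hS
  have hG := ng_int hA k
  have hFc : Integrable (fun p : (ι → ℝ) × ℝ => |A (Function.update p.1 k p.2) -
      srt k A (Function.update p.1 k p.2)|) ((gG ι).prod g1) :=
    (hφ.integrable_comp hF.1).2 hF
  have hGc : Integrable (fun p : (ι → ℝ) × ℝ => ng A k (Function.update p.1 k p.2))
      ((gG ι).prod g1) := (hφ.integrable_comp hG.1).2 hG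
  have e1 : ∫ x, |A x - srt k A x| ∂(gG ι) = ∫ x, ∫ t, |A (Function.update x k t) -
      srt k A (Function.update x k t)| ∂g1 ∂(gG ι) := by
    rw [← integral_prod _ hFc]
    conv_lhs => rw [← hφ.map_eq]
    rw [integral_map hφ.measurable.aemeasurable (by rw [hφ.map_eq]; exact hF.1)]
  have e2 : ∫ x, ng A k x ∂(gG ι) = ∫ x, ∫ t, ng A k (Function.update x k t) ∂g1 ∂(gG ι) := by
    rw [← integral_prod _ hGc]
    conv_lhs => rw [← hφ.map_eq]
    rw [integral_map hφ.measurable.aemeasurable (by rw [hφ.map_eq]; exact hG.1)]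
  rw [e1, e2, ← integral_const_mul]
  refine integral_mono_ae hFc.integral_prod_left (hGc.integral_prod_left.const_mul 3) ?_
  have hd : ∀ᵐ p ∂((gG ι).prod g1), DifferentiableAt ℝ A (Function.update p.1 k p.2) :=
    hφ.quasiMeasurePreserving.ae (lip_ae_diff hA)
  filter_upwards [Measure.ae_ae_of_ae_prod hd] with x hx
  obtain ⟨K, hK⟩ := hA
  have hB : LipschitzWith K (fun t : ℝ => A (Function.update x k t)) := by
    have := hK.comp (upd_lip x k)
    rwa [mul_one] at this
  have h1 := hone (fun t : ℝ => A (Function.update x k t)) K hB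
  have h2 : ∀ t, srt k A (Function.update x k t) = inc (fun t : ℝ => A (Function.update x k t)) t := by
    intro t
    unfold srt
    simp only [Function.update_idem, Function.update_self]
  have h3 : ∫ t, ng A k (Function.update x k t) ∂g1 =
      ∫ t, (-(min (deriv (fun t : ℝ => A (Function.update x k t)) t) 0)) ∂g1 := by
    refine integral_congr_ae ?_
    filter_upwards [hx] with t ht
    have h4 : HasDerivAt (fun t : ℝ => A (Function.update x k t))
        (fderiv ℝ A (Function.update x k t) (Pi.single k 1)) t :=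
      HasFDerivAt.comp_hasDerivAt t ht.hasFDerivAt (hasDerivAt_update x k t)
    rw [h4.deriv]
    rfl
  simp only [h2]
  rw [h3]
  exact h1

lemma part2 (hu1 : St_u1) (hu2 : St_u2) (k l : ι) (hkl : l ≠ k) (A : (ι → ℝ) → ℝ) (hA : Lip A)
    (hS : Lip (srt k A)) : ∫ x, ng (srt k A) l x ∂(gG ι) ≤ ∫ x, ng A l x ∂(gG ι) := by
  obtain ⟨K, hK⟩ := hA
  obtain ⟨K', hK'⟩ := hS
  have h1 := (hu2 ι k A ⟨K, hK⟩ (Pi.single l 1) (Pi.single_eq_of_ne hkl.symm 1)).2
  have h2 := hu1 ι k A ⟨K, hK⟩ Unit (fun _ => ng A l) (fun _ => ng (srt k A) l) (max K K')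
    (fun _ => ng_meas A l) (fun _ => ng_meas _ l)
    (fun _ x => by
      rw [abs_of_nonneg (ng_nonneg A l x)]
      exact (ng_bd hK l x).trans (le_max_left _ _))
    (fun _ x => ⟨ng_nonneg _ l x, (ng_bd hK' l x).trans (le_max_right _ _)⟩) (fun _ => h1)
  simp only [Finset.univ_unique, Finset.sum_singleton, Real.sqrt_sq_eq_abs] at h2
  have h3 : ∀ x, |ng A l x| = ng A l x := fun x => abs_of_nonneg (ng_nonneg A l x)
  have h4 : ∀ x, |ng (srt k A) l x| = ng (srt k A) l x := fun x => abs_of_nonneg (ng_nonneg _ l x)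
  simp only [h3, h4] at h2
  exact h2

lemma list_bd (hs : St_slip) (hupd : St_upd) (hone : St_one) (hu1 : St_u1) (hu2 : St_u2)
    (L : List ι) (hL : L.Nodup) : ∀ A : (ι → ℝ) → ℝ, Lip A →
    ∫ x, |A x - sl L A x| ∂(gG ι) ≤ 3 * (L.map fun l => ∫ x, ng A l x ∂(gG ι)).sum := by
  induction L with
  | nil =>
    intro A _
    simp [sl_nil]
  | cons k L ih =>
    intro A hA
    rw [List.nodup_cons] at hL
    have hS : Lip (srt k A) := hs ι k A hA
    have h1 := part1 hupd hone k A hA hS
    have h2 := ih hL.2 (srt k A) hS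
    have h3 : (L.map fun l => ∫ x, ng (srt k A) l x ∂(gG ι)).sum ≤
        (L.map fun l => ∫ x, ng A l x ∂(gG ι)).sum := by
      refine List.sum_le_sum fun l hl => ?_
      exact part2 hu1 hu2 k l (fun e => hL.1 (e ▸ hl)) A hA hS
    have h4 := tri hA hS (sl_lip hs L _ hS)
    rw [sl_cons, List.map_cons, List.sum_cons]
    linarith

end V4

theorem t_v4 (hs : St_slip) (hupd : St_upd) (hone : St_one) (hu1 : St_u1) (hu2 : St_u2) :
    St_v4 := by
  intro n
  refine ⟨3 * n, by positivity, ?_⟩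
  intro g hg
  have h1 := V4.list_bd hs hupd hone hu1 hu2 (List.finRange n) (List.nodup_finRange n) g hg
  have hnm : Integrable (nm g) (gG (Fin n)) := by
    obtain ⟨K, hK⟩ := hg
    have hm : Measurable (nm g) := by
      unfold nm
      refine Measurable.sqrt ?_
      refine Finset.measurable_sum _ fun i _ => ?_
      exact ((fderiv_meas g (Pi.single i 1)).min measurable_const).pow_const 2
    refine Integrable.of_bound hm.aestronglyMeasurable (Real.sqrt (∑ _i : Fin n, (K : ℝ) ^ 2))
      (Eventually.of_forall fun x => ?_)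
    rw [Real.norm_eq_abs, abs_of_nonneg (nm_nonneg g x)]
    refine Real.sqrt_le_sqrt (Finset.sum_le_sum fun i _ => ?_)
    have h2 := V4.ng_bd hK i x
    have h3 := V4.ng_nonneg g i x
    unfold V4.ng at h2 h3
    nlinarith
  have h2 : ∀ l : Fin n, ∫ x, V4.ng g l x ∂(gG (Fin n)) ≤ ∫ x, nm g x ∂(gG (Fin n)) := by
    intro l
    refine integral_mono (V4.ng_int hg l) hnm fun x => ?_
    refine Real.le_sqrt_of_sq_le ?_
    have h3 : V4.ng g l x ^ 2 = (min (fderiv ℝ g x (Pi.single l 1)) 0) ^ 2 := by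
      unfold V4.ng
      ring
    rw [h3]
    exact Finset.single_le_sum (f := fun i => (min (fderiv ℝ g x (Pi.single i 1)) 0) ^ 2)
      (fun i _ => sq_nonneg _) (Finset.mem_univ l)
  have h3 : ((List.finRange n).map fun l => ∫ x, V4.ng g l x ∂(gG (Fin n))).sum ≤
      n * ∫ x, nm g x ∂(gG (Fin n)) := by
    have h4 := List.sum_le_card_nsmul
      ((List.finRange n).map fun l => ∫ x, V4.ng g l x ∂(gG (Fin n)))
      (∫ x, nm g x ∂(gG (Fin n))) (by
        intro y hy
        obtain ⟨l, -, rfl⟩ := List.mem_map.1 hy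
        exact h2 l)
    rw [List.length_map, List.length_finRange, nsmul_eq_mul] at h4
    exact h4
  have h5 : ∫ y, |g y - RR g y| ∂(gG (Fin n)) ≤
      3 * ((List.finRange n).map fun l => ∫ x, V4.ng g l x ∂(gG (Fin n))).sum := h1
  calc _ ≤ _ := h5
    _ ≤ 3 * (n * ∫ x, nm g x ∂(gG (Fin n))) := by linarith
    _ = _ := by ring

end Pool.Agent.Q288.DP
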