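import Pool.Agent.Q288.DP.Bas

set_option autoImplicit false

/-!
Project DP: the distance of `G2` to `HH`.
-/

namespace Pool.Agent.Q288.DP

open MeasureTheory ProbabilityTheory Set Filter Topology

namespace V5

variable {n : ℕ}

theorem pair_mp : MeasurePreserving
    (fun p : (Fin n → ℝ) × (Fin n → ℝ) => (Sum.elim p.1 p.2 : Fin n ⊕ Fin n → ℝ))
    ((gG (Fin n)).prod (gG (Fin n))) (gG (Fin n ⊕ Fin n)) := by
  have h := measurePreserving_sumPiEquivProdPi_symm (X := fun _ : Fin n ⊕ Fin n => ℝ)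
    (fun _ : Fin n ⊕ Fin n => g1)
  have e : (fun p : (Fin n → ℝ) × (Fin n → ℝ) => (Sum.elim p.1 p.2 : Fin n ⊕ Fin n → ℝ)) =
      ⇑(MeasurableEquiv.sumPiEquivProdPi (fun _ : Fin n ⊕ Fin n => ℝ)).symm := by
    funext p i
    cases i <;> rfl
  rw [e]
  exact h

theorem sl_elim (w : Fin n → ℝ) (l : List (Fin n)) : ∀ (A : (Fin n ⊕ Fin n → ℝ) → ℝ)
    (v : Fin n → ℝ), sl (l.map Sum.inl) A (Sum.elim v w) = sl l (fun v => A (Sum.elim v w)) v := by
  induction l with
  | nil => intro A v; rfl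
  | cons k l ih =>
    intro A v
    rw [List.map_cons, sl_cons, sl_cons, ih]
    have h := srt_nat (fun v : Fin n → ℝ => (Sum.elim v w : Fin n ⊕ Fin n → ℝ)) k (Sum.inl k)
      (fun x t => by
        funext j
        rcases j with j | j
        · by_cases hj : j = k
          · subst hj
            simp
          · rw [Sum.elim_inl, Function.update_of_ne hj,
              Function.update_of_ne (fun h => hj (Sum.inl_injective h)), Sum.elim_inl]
        · rw [Sum.elim_inr, Function.update_of_ne (by simp), Sum.elim_inr]) A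
    rw [h]

theorem nm_aff (a b : ℝ) (ha : 0 ≤ a) (g : (Fin n → ℝ) → ℝ) (v w : Fin n → ℝ) :
    nm (fun v => g (a • v + b • w)) v = a * nm g (a • v + b • w) := by
  have h1 : fderiv ℝ (fun v => g (a • v + b • w)) v = a • fderiv ℝ g (a • v + b • w) := by
    have h2 := fderiv_comp_smul (𝕜 := ℝ) (f := fun u => g (u + b • w)) (x := v) a
    rw [fderiv_comp_add_right] at h2
    exact h2
  unfold nm
  rw [h1]
  have h3 : ∀ i, (min ((a • fderiv ℝ g (a • v + b • w)) (Pi.single i 1)) 0) ^ 2 =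
      a ^ 2 * (min (fderiv ℝ g (a • v + b • w) (Pi.single i 1)) 0) ^ 2 := by
    intro i
    rw [_root_.smul_apply, smul_eq_mul, ← mul_pow, mul_min_of_nonneg _ _ ha, mul_zero]
  simp only [h3]
  rw [← Finset.mul_sum, Real.sqrt_mul (sq_nonneg a), Real.sqrt_sq ha]

theorem aff_mp (hg : St_gm) (a b : ℝ) (hab : a ^ 2 + b ^ 2 = 1) :
    MeasurePreserving (fun p : (Fin n → ℝ) × (Fin n → ℝ) => a • p.1 + b • p.2)
      ((gG (Fin n)).prod (gG (Fin n))) (gG (Fin n)) := by
  let M : Matrix (Fin n) (Fin n ⊕ Fin n) ℝ :=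
    Matrix.fromCols (a • (1 : Matrix (Fin n) (Fin n) ℝ)) (b • (1 : Matrix (Fin n) (Fin n) ℝ))
  have hM : M * M.transpose = 1 := by
    rw [Matrix.transpose_fromCols, Matrix.fromCols_mul_fromRows]
    simp only [Matrix.transpose_smul, Matrix.transpose_one, Matrix.smul_mul, Matrix.mul_smul,
      Matrix.one_mul, smul_smul, ← add_smul]
    rw [← sq, ← sq, hab, one_smul]
  have h1 := (hg (Fin n) (Fin n ⊕ Fin n) M hM).comp (pair_mp (n := n))
  have h2 : ((fun x => M.mulVec x) ∘ fun p : (Fin n → ℝ) × (Fin n → ℝ) => Sum.elim p.1 p.2) =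
      fun p => a • p.1 + b • p.2 := by
    funext p k
    simp [M, Matrix.mulVec, dotProduct, Matrix.fromCols, Matrix.one_apply, Finset.sum_ite_eq]
  rwa [h2] at h1

theorem fd_bound {K : NNReal} {A : (Fin n → ℝ) → ℝ}
    (hK : LipschitzWith K A) (x c : Fin n → ℝ) : |fderiv ℝ A x c| ≤ K * ‖c‖ := by
  have h1 : ‖fderiv ℝ A x‖ ≤ K := norm_fderiv_le_of_lipschitz ℝ hK
  have h2 := (fderiv ℝ A x).le_opNorm c
  rw [Real.norm_eq_abs] at h2
  exact h2.trans (mul_le_mul_of_nonneg_right h1 (norm_nonneg c))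

theorem nm_meas (g : (Fin n → ℝ) → ℝ) : Measurable (nm g) := by
  unfold nm
  refine Real.continuous_sqrt.measurable.comp (Finset.measurable_sum _ fun i _ => ?_)
  exact ((measurable_fderiv_apply_const ℝ g _).min measurable_const).pow_const 2

theorem nm_int {g : (Fin n → ℝ) → ℝ} (hg : Lip g) : Integrable (nm g) (gG (Fin n)) := by
  obtain ⟨K, hK⟩ := hg
  refine Integrable.of_bound (nm_meas g).aestronglyMeasurable
    (Real.sqrt (∑ i : Fin n, (K * ‖(Pi.single i 1 : Fin n → ℝ)‖) ^ 2))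
    (Eventually.of_forall fun x => ?_)
  rw [Real.norm_eq_abs, abs_of_nonneg (nm_nonneg g x)]
  unfold nm
  apply Real.sqrt_le_sqrt
  refine Finset.sum_le_sum fun i _ => ?_
  rw [← sq_abs]
  refine pow_le_pow_left₀ (abs_nonneg _) ?_ 2
  have h1 := abs_le.1 (fd_bound hK x (Pi.single i 1))
  rw [abs_le]
  constructor
  · refine le_min h1.1 ?_
    have : 0 ≤ (K : ℝ) * ‖(Pi.single i 1 : Fin n → ℝ)‖ := by positivity
    linarith
  · refine (min_le_right _ _).trans (by positivity)

theorem aff_lip (a b : ℝ) {g : (Fin n → ℝ) → ℝ} (hg : Lip g) (w : Fin n → ℝ) :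
    Lip (fun v : Fin n → ℝ => g (a • v + b • w)) := by
  obtain ⟨K, hK⟩ := hg
  refine ⟨K * ‖a‖₊, ?_⟩
  refine LipschitzWith.of_dist_le_mul fun x y => ?_
  refine (hK.dist_le_mul _ _).trans ?_
  rw [dist_add_right, dist_smul₀, NNReal.coe_mul, mul_assoc]
  exact le_of_eq rfl

end V5

open V5 in
theorem t_v5 (hgm : St_gm) : St_v5 := by
  intro n a b K ha hb hab hK0 hK g hg
  have hR0 : 0 ≤ a * K * ∫ y, nm g y ∂(gG (Fin n)) :=
    mul_nonneg (mul_nonneg ha hK0) (integral_nonneg fun y => nm_nonneg g y)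
  by_cases hi : Integrable (fun x => |G2 a b g x - HH a b g x|) (gG (Fin n ⊕ Fin n))
  swap
  · rw [integral_undef hi]
    exact hR0
  -- the law of the pairs
  have hp := pair_mp (n := n)
  have e1 : ∫ x, |G2 a b g x - HH a b g x| ∂(gG (Fin n ⊕ Fin n)) =
      ∫ p : (Fin n → ℝ) × (Fin n → ℝ), |G2 a b g (Sum.elim p.1 p.2) - HH a b g (Sum.elim p.1 p.2)|
        ∂((gG (Fin n)).prod (gG (Fin n))) := by
    rw [← hp.map_eq] at hi ⊢
    exact integral_map hp.measurable.aemeasurable hi.aestronglyMeasurable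
  have hi2 : Integrable (fun p : (Fin n → ℝ) × (Fin n → ℝ) =>
      |G2 a b g (Sum.elim p.1 p.2) - HH a b g (Sum.elim p.1 p.2)|)
      ((gG (Fin n)).prod (gG (Fin n))) :=
    (hp.integrable_comp hi.aestronglyMeasurable).2 hi
  have hq := aff_mp hgm (n := n) a b hab
  have hi3 : Integrable (fun p : (Fin n → ℝ) × (Fin n → ℝ) => nm g (a • p.1 + b • p.2))
      ((gG (Fin n)).prod (gG (Fin n))) :=
    (hq.integrable_comp (nm_int hg).aestronglyMeasurable).2 (nm_int hg)
  have e2 : ∫ p : (Fin n → ℝ) × (Fin n → ℝ), nm g (a • p.1 + b • p.2)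
      ∂((gG (Fin n)).prod (gG (Fin n))) = ∫ y, nm g y ∂(gG (Fin n)) := by
    have h1 := integral_map (μ := (gG (Fin n)).prod (gG (Fin n))) hq.measurable.aemeasurable
      (f := nm g) (by
        rw [hq.map_eq]
        exact (nm_meas g).aestronglyMeasurable)
    rw [hq.map_eq] at h1
    exact h1.symm
  -- the inequality for fixed `w`
  have h1 : ∀ w : Fin n → ℝ,
      ∫ v, |G2 a b g (Sum.elim v w) - HH a b g (Sum.elim v w)| ∂(gG (Fin n)) ≤
        (a * K) * ∫ v, nm g (a • v + b • w) ∂(gG (Fin n)) := by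
    intro w
    have h2 := hK (fun v => g (a • v + b • w)) (aff_lip a b hg w)
    have h3 : ∀ v, G2 a b g (Sum.elim v w) = g (a • v + b • w) := fun v => rfl
    have h4 : ∀ v, HH a b g (Sum.elim v w) = RR (fun v => g (a • v + b • w)) v := by
      intro v
      unfold HH RR
      rw [sl_elim]
      rfl
    simp only [h3, h4]
    refine h2.trans (le_of_eq ?_)
    simp only [nm_aff a b ha g]
    rw [integral_const_mul]
    ring
  rw [e1, integral_prod_symm _ hi2]
  refine (integral_mono_of_nonneg (Eventually.of_forall fun w => ?_)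
    (hi3.integral_prod_right.const_mul (a * K)) (Eventually.of_forall h1)).trans ?_
  · exact integral_nonneg fun v => abs_nonneg _
  · rw [integral_const_mul, ← e2, integral_prod_symm _ hi3]

end Pool.Agent.Q288.DP
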